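import Pool.Agent.Y875.FP.Law

/-!
The converse: the congruence forces `F_(j+r)` to be prime.
-/

namespace Pool.Agent.Y875.FP

theorem conv {j r b y : ℕ} (hr : 2 ≤ r) (hy : ¬ 2 ^ (r + 1) ∣ y)
    (h : (b : ZMod (Nat.fermatNumber (j + r))) ^ (2 ^ (2 ^ (j + r) - (r + 1))) *
        (2 : ZMod (Nat.fermatNumber (j + r))) ^ (2 ^ j * y) = 1) :
    (Nat.fermatNumber (j + r)).Prime := by
  by_contra hnp
  have hF3 := Nat.three_le_fermatNumber (j + r)
  have hp : (Nat.minFac (Nat.fermatNumber (j + r))).Prime := Nat.minFac_prime (by omega)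
  have hsq := Nat.minFac_sq_le_self (by omega) hnp
  have hdvd := Nat.minFac_dvd (Nat.fermatNumber (j + r))
  set p := Nat.minFac (Nat.fermatNumber (j + r)) with hpdef
  have : Fact p.Prime := ⟨hp⟩
  have h2k : (2 : ZMod p) ^ (2 ^ (j + r)) = -1 := by
    have h1 : ((Nat.fermatNumber (j + r) : ℕ) : ZMod p) = 0 := by
      rwa [ZMod.natCast_eq_zero_iff]
    unfold Nat.fermatNumber at h1
    push_cast at h1
    linear_combination h1
  have h' : (b : ZMod p) ^ (2 ^ (2 ^ (j + r) - (r + 1))) * (2 : ZMod p) ^ (2 ^ j * y) = 1 := by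
    have h1 := congrArg (ZMod.castHom hdvd (ZMod p)) h
    rw [map_mul, map_pow, map_pow, map_natCast, map_one, map_ofNat] at h1
    exact h1
  have hy0 : y ≠ 0 := by
    rintro rfl
    exact hy (dvd_zero _)
  obtain ⟨v, w, hw, rfl⟩ := Nat.exists_eq_two_pow_mul_odd hy0
  have hv : v ≤ r := by
    by_contra hv
    exact hy ((Nat.pow_dvd_pow 2 (by omega)).trans (dvd_mul_right _ _))
  have h3 : (2 : ZMod p) ^ (2 ^ j * (2 ^ v * w) * 2 ^ (r - v)) = -1 := by
    have h4 : 2 ^ j * (2 ^ v * w) * 2 ^ (r - v) = 2 ^ (j + r) * w := by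
      have h5 : 2 ^ (j + r) = 2 ^ j * (2 ^ v * 2 ^ (r - v)) := by
        rw [← pow_add, ← pow_add]
        congr 1
        omega
      rw [h5]
      ring
    rw [h4, pow_mul, h2k, hw.neg_one_pow]
  have h4 : (b : ZMod p) ^ (2 ^ (2 ^ (j + r) - (r + 1)) * 2 ^ (r - v)) = -1 := by
    have h5 := congrArg (· ^ (2 ^ (r - v))) h'
    simp only [mul_pow, one_pow] at h5
    rw [← pow_mul, ← pow_mul, h3] at h5
    linear_combination -h5
  have hbd := exp_bound (j := j) hr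
  have hord : orderOf (b : ZMod p) = 2 ^ ((2 ^ (j + r) - (r + 1) + (r - v)) + 1) := by
    apply orderOf_eq_prime_pow
    · rw [pow_add, h4]
      have : Fact (2 < p) := ⟨by
        have h5 := hp.two_le
        rcases Nat.lt_or_ge 2 p with h6 | h6
        · exact h6
        · exfalso
          have h7 : p = 2 := le_antisymm h6 h5
          rw [h7] at hdvd
          exact (Nat.not_even_iff_odd.mpr (Nat.odd_fermatNumber (j + r)))
            (even_iff_two_dvd.mpr hdvd)⟩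
      exact ZMod.neg_one_ne_one
    · rw [pow_succ, pow_add, pow_mul, h4]
      ring
  have hb0 : (b : ZMod p) ≠ 0 := by
    intro h5
    rw [h5, zero_pow (by positivity)] at h4
    exact (neg_ne_zero.mpr one_ne_zero) h4.symm
  have hdvd2 : orderOf (b : ZMod p) ∣ p - 1 := ZMod.orderOf_dvd_card_sub_one hb0
  rw [hord] at hdvd2
  have hle := Nat.le_of_dvd (by have := hp.two_le; omega) hdvd2
  have hlt : 2 ^ (2 ^ (j + r) - r) < p := by
    have h5 : 2 ^ (2 ^ (j + r) - r) ≤ 2 ^ ((2 ^ (j + r) - (r + 1) + (r - v)) + 1) :=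
      Nat.pow_le_pow_right (by norm_num) (by omega)
    have := hp.two_le
    omega
  have hlt2 : (2 ^ (2 ^ (j + r) - r) + 1) ^ 2 ≤ 2 ^ (2 ^ (j + r)) + 1 :=
    (Nat.pow_le_pow_left hlt 2).trans hsq
  have hbig : 2 * r ≤ 2 ^ (j + r) := by
    have h6 : 2 ^ r ≤ 2 ^ (j + r) := Nat.pow_le_pow_right (by norm_num) (by omega)
    have h7 : ∀ s : ℕ, 2 ≤ s → 2 * s ≤ 2 ^ s := by
      intro s hs
      induction s, hs using Nat.le_induction with
      | base => norm_num
      | succ s hs ih => rw [pow_succ]; omega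
    exact (h7 r hr).trans h6
  have h9 : 2 ^ (2 ^ (j + r)) ≤ (2 ^ (2 ^ (j + r) - r)) ^ 2 := by
    rw [← pow_mul]
    exact Nat.pow_le_pow_right (by norm_num) (by omega)
  have h10 : 0 < 2 ^ (2 ^ (j + r) - r) := by positivity
  nlinarith

lemma odd_pow_eq {b : ℕ} (hb : Odd b) (l : ℕ) :
    ∃ y : ℕ, b ^ (2 ^ (l + 1)) = 1 + 2 ^ (l + 3) * y := by
  induction l with
  | zero =>
    obtain ⟨r, rfl⟩ := hb
    obtain ⟨s, hs⟩ := Nat.even_mul_succ_self r
    refine ⟨s, ?_⟩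
    have h1 : (2 * r + 1) ^ (2 ^ (0 + 1)) = 1 + 4 * (r * (r + 1)) := by ring
    rw [h1, hs]
    ring
  | succ l ih =>
    obtain ⟨y, hy⟩ := ih
    refine ⟨y + 2 ^ (l + 2) * y ^ 2, ?_⟩
    rw [pow_succ 2 (l + 1), pow_mul, hy]
    ring

/-- The refined criterion. -/
theorem criterion (j r b : ℕ) (hr : 2 ≤ r)
    (hb : ∀ q : ℕ, q.Prime → q ∣ b → q ∣ Nat.fermatNumber j)
    (hb2 : ¬ 2 ^ (2 * (r + 1)) ∣ b ^ (2 ^ (r - 1)) - 1) :
    (Nat.fermatNumber (j + r)).Prime ↔
      (b : ZMod (Nat.fermatNumber (j + r))) ^ (2 ^ (2 ^ (j + r) - (r + 1))) *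
        2 ^ (2 ^ j * ((b ^ (2 ^ (r - 1)) - 1) / 2 ^ (r + 1))) = 1 := by
  constructor
  · intro hF
    have hb0 : b ≠ 0 := by
      rintro rfl
      apply hb2
      rw [zero_pow (by positivity)]
      simp
    obtain ⟨y, hy1, hy2⟩ := fermat_law hr hF hb hb0
    have h3 : (b ^ (2 ^ (r - 1)) - 1) / 2 ^ (r + 1) = y := by
      rw [hy1, Nat.add_sub_cancel_left, Nat.mul_div_cancel_left _ (by positivity)]
    rw [h3]
    exact hy2
  · intro h
    refine conv hr ?_ h
    intro hdvd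
    apply hb2
    have hbo : Odd b := by
      rw [← Nat.not_even_iff_odd]
      intro hev
      have h1 := hb 2 Nat.prime_two (even_iff_two_dvd.mp hev)
      exact (Nat.not_even_iff_odd.mpr (Nat.odd_fermatNumber j)) (even_iff_two_dvd.mpr h1)
    obtain ⟨c, rfl⟩ : ∃ c, r = c + 2 := ⟨r - 2, by omega⟩
    obtain ⟨y, hy⟩ := odd_pow_eq hbo c
    have e4 : c + 2 - 1 = c + 1 := by omega
    rw [e4] at hdvd ⊢
    rw [hy, Nat.add_sub_cancel_left, Nat.mul_div_cancel_left _ (by positivity)] at hdvd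
    obtain ⟨w, hw⟩ := hdvd
    rw [hy, Nat.add_sub_cancel_left, hw]
    exact ⟨w, by ring⟩

end Pool.Agent.Y875.FP
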