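import Pool.Agent.Y875.FP.MerG
import Pool.Agent.Y875.FP.Conv

/-!
The numbers `n^n + 1`, `n = 2^(2^k)`: the `2n`-th power residue symbols of `n^s - 1` and `n^s + 1`.
-/

namespace Pool.Agent.Y875.FP

section

variable {k m n s c : ℕ} (hm : m = 2 ^ k) (hk : 2 ≤ k) (hn : n = 2 ^ m)
  (hc : c < 2 * n) (hsc : s * c ≡ 1 [MOD 2 * n])

include hm hk hn in
lemma nn_basic : 4 ≤ m ∧ 16 ≤ n ∧ 4 * (n / 4) = n ∧ n / 4 = 2 ^ (m - 2) ∧ m + 1 ≤ m * (n - 1) ∧
    n ^ n = 2 ^ (2 ^ (k + m)) ∧ n ^ (n - 1) / 2 = 2 ^ (2 ^ (k + m) - (m + 1)) := by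
  have h1 : 4 ≤ m := by
    rw [hm]
    calc 4 = 2 ^ 2 := by norm_num
      _ ≤ 2 ^ k := Nat.pow_le_pow_right (by norm_num) hk
  have h2 : 16 ≤ n := by
    rw [hn]
    calc 16 = 2 ^ 4 := by norm_num
      _ ≤ 2 ^ m := Nat.pow_le_pow_right (by norm_num) h1
  have h3 : n = 4 * 2 ^ (m - 2) := by
    rw [hn]
    have : (4 : ℕ) = 2 ^ 2 := by norm_num
    rw [this, ← pow_add]
    congr 1
    omega
  have h4 : n / 4 = 2 ^ (m - 2) := by rw [h3]; exact Nat.mul_div_cancel_left _ (by norm_num)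
  have h5 : m + 1 ≤ m * (n - 1) := by
    have : 2 ≤ n - 1 := by omega
    nlinarith
  have h6 : 2 ^ (k + m) = m * n := by rw [pow_add, ← hm, ← hn]
  refine ⟨h1, h2, by rw [h4]; exact h3.symm, h4, h5, ?_, ?_⟩
  · rw [h6]
    conv_lhs => rw [hn]
    rw [← pow_mul, ← hn]
  · rw [h6]
    have h7 : n ^ (n - 1) = 2 ^ (m * (n - 1)) := by
      conv_lhs => rw [hn]
      rw [← pow_mul, ← hn]
    have h8 : m * n = m * (n - 1) + m := by
      have : n = (n - 1) + 1 := by omega
      conv_lhs => rw [this, mul_add, mul_one]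
    have h9 : m * n - (m + 1) = m * (n - 1) - 1 := by omega
    rw [h7, h9]
    obtain ⟨w, hw⟩ : ∃ w, m * (n - 1) = w + 1 := ⟨m * (n - 1) - 1, by omega⟩
    rw [hw, pow_succ, Nat.mul_div_cancel _ (by norm_num), Nat.add_sub_cancel]

include hm hn in
lemma nn_fermat (hk : 2 ≤ k) : n ^ n + 1 = Nat.fermatNumber (k + m) := by
  obtain ⟨-, -, -, -, -, h6, -⟩ := nn_basic hm hk hn
  rw [h6]
  rfl

lemma prec_n {m e o : ℕ} (hm : 4 ≤ m) (ho : Odd o) (h : 1 < 2 ^ e * o) :
    2 ^ (e + m + 3) ∣ (2 ^ m) ^ (2 ^ e * o) := by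
  rw [← pow_mul]
  apply pow_dvd_pow
  have h1 : 2 ^ e ≤ 2 ^ e * o := Nat.le_mul_of_pos_right _ ho.pos
  have h2 : e < 2 ^ e := Nat.lt_two_pow_self
  obtain ⟨w, hw⟩ : ∃ w, 2 ^ e * o = w + 2 := ⟨2 ^ e * o - 2, by omega⟩
  rw [hw] at h1 ⊢
  nlinarith

include hn hc hsc in
/-- the law at `x = n` for the base `n^s - 1`. -/
lemma nn_law (hm4 : 4 ≤ m) (hm : m = 2 ^ k) (hk : 2 ≤ k) (hF : (n ^ n + 1).Prime) :
    ((n : ZMod (n ^ n + 1)) ^ s - 1) ^ (n ^ (n - 1) / 2) =
      (n : ZMod (n ^ n + 1)) ^ ((if c < n then 1 else 7) * s * (n / 4)) := by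
  obtain ⟨-, h16, h4n, h4n', h5, h6, h7⟩ := nn_basic hm hk hn
  have : Fact (n ^ n + 1).Prime := ⟨hF⟩
  have hp : n ^ n + 1 = n ^ (2 ^ m) + 1 := by rw [← hn]
  have hN : 2 ^ (m + 1) = 2 * n := by rw [hn]; ring
  have h2dvd : 2 ∣ n ^ (n - 1) := by
    apply dvd_pow _ (by omega)
    rw [hn]
    exact dvd_pow_self 2 (by omega)
  have hT : 2 ^ (m + 1) * (n ^ (n - 1) / 2) = n ^ (2 ^ m) := by
    rw [hN, ← hn, mul_comm 2 n, mul_assoc, Nat.mul_div_cancel' h2dvd, ← pow_succ']
    congr 1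
    omega
  have h8 : 2 ^ (k + m) = m * n := by rw [pow_add, ← hm, ← hn]
  have hTe : Even (n ^ (n - 1) / 2) := by
    rw [h7]
    apply Even.pow_of_ne_zero even_two
    rw [h8]
    have : 16 * m ≤ m * n := by nlinarith
    omega
  have h2T : (2 : ZMod (n ^ n + 1)) ^ (n ^ (n - 1) / 2) = 1 := by
    have h1 := xpow (x := n) hp
    have h2 : (n : ZMod (n ^ n + 1)) = 2 ^ m := by
      have h3 := congrArg (Nat.cast : ℕ → ZMod (n ^ n + 1)) hn
      rw [Nat.cast_pow, Nat.cast_ofNat] at h3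
      exact h3
    rw [h2, ← pow_mul] at h1
    have h3 : n ^ (n - 1) / 2 = m * 2 ^ m * (2 * 2 ^ (m * n - (m + 1) - (k + m + 1))) := by
      rw [h7, h8]
      have e1 : m * 2 ^ m * (2 * 2 ^ (m * n - (m + 1) - (k + m + 1))) =
          2 ^ (k + m + 1 + (m * n - (m + 1) - (k + m + 1))) := by
        rw [pow_add, pow_add, pow_add, ← hm]; ring
      rw [e1]
      congr 1
      have e2 : 16 * m ≤ m * n := by nlinarith
      have e3 : k < m := by rw [hm]; exact Nat.lt_two_pow_self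
      omega
    rw [h3, pow_mul, h1, pow_mul]
    norm_num
  have hsodd : Odd s := by
    rw [← Nat.not_even_iff_odd]
    intro he
    have h9 : s * c ≡ 1 [MOD 2] := hsc.of_dvd (Dvd.intro _ rfl)
    obtain ⟨w, rfl⟩ := he
    have h10 : (w + w) * c % 2 = 1 % 2 := h9
    have h11 : (w + w) * c = 2 * (w * c) := by ring
    rw [h11, Nat.mul_mod_right] at h10
    norm_num at h10
  have hsgn : sgn m s 1 = if c < n then 1 else -1 := by
    unfold sgn
    have h9 : ((s : ZMod (2 ^ (m + 1)))⁻¹) = ((c : ℕ) : ZMod (2 ^ (m + 1))) := by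
      obtain ⟨u, hu⟩ := unit_of_odd m hsodd
      rw [← hu, ZMod.inv_coe_unit]
      have h10 : (u : ZMod (2 ^ (m + 1))) * (c : ZMod (2 ^ (m + 1))) = 1 := by
        rw [hu, ← Nat.cast_mul]
        have h11 : s * c ≡ 1 [MOD 2 ^ (m + 1)] := by rw [hN]; exact hsc
        have h12 := (ZMod.natCast_eq_natCast_iff (s * c) 1 (2 ^ (m + 1))).mpr h11
        rw [h12, Nat.cast_one]
      have h13 : ((u⁻¹ : (ZMod (2 ^ (m + 1)))ˣ) : ZMod (2 ^ (m + 1))) *
          (u : ZMod (2 ^ (m + 1))) = 1 := by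
        rw [← Units.val_mul, inv_mul_cancel, Units.val_one]
      calc ((u⁻¹ : (ZMod (2 ^ (m + 1)))ˣ) : ZMod (2 ^ (m + 1))) =
          ((u⁻¹ : (ZMod (2 ^ (m + 1)))ˣ) : ZMod (2 ^ (m + 1))) *
            ((u : ZMod (2 ^ (m + 1))) * (c : ZMod (2 ^ (m + 1)))) := by rw [h10, mul_one]
        _ = (c : ZMod (2 ^ (m + 1))) := by rw [← mul_assoc, h13, one_mul]
    rw [Nat.cast_one, one_mul, h9, ZMod.val_natCast, Nat.mod_eq_of_lt (by rw [hN]; exact hc), ← hn]
  have hE : IsInd m n s 1 ((if c < n then 1 else 7) * s * (n / 4)) := by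
    have h9 : AA m n s 1 = (if c < n then 1 else -1 : ℤ) * (n : ℚ) := by
      unfold AA
      rw [Finset.sum_range_one, zero_add, hsgn]
      norm_num
    have h10 : (n : ℚ) = 4 * ((n / 4 : ℕ) : ℚ) := by
      conv_lhs => rw [← h4n]
      push_cast
      ring
    have h11 : (2 : ℚ) ^ (m + 3) = 8 * n := by
      rw [hn]; push_cast; ring
    by_cases hcn : c < n
    · refine ⟨1, 0, odd_one, ?_⟩
      rw [h9, if_pos hcn, if_pos hcn]
      push_cast
      rw [h10]
      ring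
    · refine ⟨1, s, odd_one, ?_⟩
      rw [h9, if_neg hcn, if_neg hcn, h11]
      push_cast
      rw [h10]
      ring
  have h3F : n ^ n + 1 ≠ 2 := by
    have : 2 ≤ n ^ n := by
      calc 2 ≤ n := by omega
        _ ≤ n ^ n := Nat.le_self_pow (by omega) n
    omega
  have h4dvd : 4 ∣ n := ⟨n / 4, h4n.symm⟩
  exact index_law (x := n) hp h3F hT (by omega) hTe h2T (Or.inl h4dvd) hsodd
    (K0 := 1) (by rw [← hn]; omega) (fun e o ho h => by
      have := prec_n hm4 ho h
      rw [← hn] at this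
      exact this) hE

end

/-- The criterion for the primality of `n^n + 1`. -/
theorem nn_criterion {k n s c : ℕ} (hk : 2 ≤ k) (hn : n = 2 ^ (2 ^ k))
    (hc : c < 2 * n) (hsc : s * c ≡ 1 [MOD 2 * n]) :
    ((n ^ n + 1).Prime ↔ ((n ^ s - 1 : ℕ) : ZMod (n ^ n + 1)) ^ (n ^ (n - 1) / 2) =
      (n : ZMod (n ^ n + 1)) ^ ((if c < n then 1 else 7) * s * (n / 4))) ∧
    ((n ^ n + 1).Prime ↔ ((n ^ s + 1 : ℕ) : ZMod (n ^ n + 1)) ^ (n ^ (n - 1) / 2) =
      (n : ZMod (n ^ n + 1)) ^ ((if c < n then 7 else 1) * s * (n / 4))) := by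
  obtain ⟨m, hm⟩ : ∃ m, m = 2 ^ k := ⟨_, rfl⟩
  rw [← hm] at hn
  obtain ⟨hm4, h16, h4n, h4n', h5, h6, h7⟩ := nn_basic hm hk hn
  have hF := nn_fermat hm hn hk
  have h8 : 2 ^ (k + m) = m * n := by rw [pow_add, ← hm, ← hn]
  have hcast : ((n ^ s - 1 : ℕ) : ZMod (n ^ n + 1)) = (n : ZMod (n ^ n + 1)) ^ s - 1 := by
    rw [Nat.cast_sub (Nat.one_le_pow _ _ (by omega))]
    push_cast
    ring
  have hnn : (n : ZMod (n ^ n + 1)) ^ n = -1 := by
    have h9 : ((n ^ n + 1 : ℕ) : ZMod (n ^ n + 1)) = 0 := ZMod.natCast_self _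
    push_cast at h9
    linear_combination h9
  have hn2n : ∀ w : ℕ, (n : ZMod (n ^ n + 1)) ^ (2 * n * w) = 1 := by
    intro w
    rw [mul_comm 2 n, pow_mul, pow_mul, hnn]
    norm_num
  have hsodd : Odd s := by
    rw [← Nat.not_even_iff_odd]
    intro he
    have h9 : s * c ≡ 1 [MOD 2] := hsc.of_dvd (Dvd.intro _ rfl)
    obtain ⟨w, rfl⟩ := he
    have h10 : (w + w) * c % 2 = 1 % 2 := h9
    have h11 : (w + w) * c = 2 * (w * c) := by ring
    rw [h11, Nat.mul_mod_right] at h10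
    norm_num at h10
  -- the converse direction
  have hconv : ∀ b e f : ℕ, Odd f → e + f = 8 →
      (b : ZMod (n ^ n + 1)) ^ (n ^ (n - 1) / 2) = (n : ZMod (n ^ n + 1)) ^ (e * s * (n / 4)) →
      (n ^ n + 1).Prime := by
    intro b e f hf hef hb
    have h9 : (b : ZMod (n ^ n + 1)) ^ (n ^ (n - 1) / 2) *
        (n : ZMod (n ^ n + 1)) ^ (f * s * (n / 4)) = 1 := by
      rw [hb, ← pow_add]
      have h10 : e * s * (n / 4) + f * s * (n / 4) = 2 * n * s := by
        calc e * s * (n / 4) + f * s * (n / 4) = (e + f) * s * (n / 4) := by ring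
          _ = 2 * (4 * (n / 4)) * s := by rw [hef]; ring
          _ = _ := by rw [h4n]
      rw [h10, hn2n]
    have h11 : (n : ZMod (n ^ n + 1)) = 2 ^ (2 ^ k) := by
      have h3 := congrArg (Nat.cast : ℕ → ZMod (n ^ n + 1)) hn
      rw [Nat.cast_pow, Nat.cast_ofNat, hm] at h3
      exact h3
    have h12 : ¬ 2 ^ (m + 1) ∣ f * s * (n / 4) := by
      intro hd
      rw [h4n', mul_comm, show m + 1 = (m - 2) + 3 by omega, pow_add] at hd
      have h13 := Nat.dvd_of_mul_dvd_mul_left (by positivity) hd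
      have h14 : 2 ∣ f * s := (by norm_num : 2 ∣ 2 ^ 3).trans h13
      exact (Nat.not_even_iff_odd.mpr (hf.mul hsodd)) (even_iff_two_dvd.mpr h14)
    rw [hF]
    apply conv (j := k) (r := m) (b := b) (y := f * s * (n / 4)) (by omega) h12
    rw [h7, h11, ← pow_mul, hF] at h9
    exact h9
  refine ⟨⟨fun hP => ?_, fun h => ?_⟩, ⟨fun hP => ?_, fun h => ?_⟩⟩
  · rw [hcast]
    exact nn_law hn hc hsc hm4 hm hk hP
  · by_cases hcn : c < n
    · rw [if_pos hcn] at h
      exact hconv _ 1 7 (by decide) rfl h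
    · rw [if_neg hcn] at h
      exact hconv _ 7 1 (by decide) rfl h
  · -- the base `n^s + 1` through `s + n`
    have hcpos : c ≠ n := by
      rintro rfl
      have h9 : s * c ≡ 1 [MOD c] := hsc.of_dvd (Dvd.intro_left _ rfl)
      have h10 : s * c % c = 1 % c := h9
      rw [Nat.mul_mod_left, Nat.mod_eq_of_lt (by omega)] at h10
      omega
    set c' := if c < n then c + n else c - n with hc'
    have hc'lt : c' < 2 * n := by
      rw [hc']
      split_ifs <;> omega
    have hcodd : Odd c := by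
      rw [← Nat.not_even_iff_odd]
      intro he
      have h9 : s * c ≡ 1 [MOD 2] := hsc.of_dvd (Dvd.intro _ rfl)
      obtain ⟨w, hw⟩ := he
      have h10 : s * c % 2 = 1 % 2 := h9
      have h11 : s * c = 2 * (s * w) := by rw [hw]; ring
      rw [h11, Nat.mul_mod_right] at h10
      norm_num at h10
    have hnE : 2 ∣ n := by rw [hn]; exact dvd_pow_self 2 (by omega)
    have hsc' : (s + n) * c' ≡ 1 [MOD 2 * n] := by
      have h9 : (s + n) * (c + n) ≡ 1 [MOD 2 * n] := by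
        obtain ⟨a, ha⟩ := hsodd
        obtain ⟨b, hb⟩ := hcodd
        obtain ⟨n', hn'⟩ := hnE
        have h10 : (s + n) * (c + n) = s * c + 2 * n * (a + b + 1 + n') := by
          rw [ha, hb]
          conv_lhs => rw [show (2 * a + 1 + n) * (2 * b + 1 + n) =
            (2 * a + 1) * (2 * b + 1) + n * (2 * a + 2 * b + 2 + n) by ring]
          congr 1
          rw [show 2 * a + 2 * b + 2 + n = 2 * (a + b + 1 + n') by omega]
          ring
        rw [h10]
        have h11 : s * c + 2 * n * (a + b + 1 + n') ≡ s * c [MOD 2 * n] := by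
          rw [Nat.ModEq, Nat.add_mul_mod_self_left]
        exact h11.trans hsc
      rw [hc']
      split_ifs with hcn
      · exact h9
      · have h10 : (s + n) * (c + n) = (s + n) * (c - n) + 2 * n * (s + n) := by
          have : c + n = (c - n) + 2 * n := by omega
          rw [this]; ring
        rw [h10] at h9
        have h11 : (s + n) * (c - n) + 2 * n * (s + n) ≡ (s + n) * (c - n) [MOD 2 * n] := by
          rw [Nat.ModEq, Nat.add_mul_mod_self_left]
        exact h11.symm.trans h9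
    have h9 := nn_law hn hc'lt hsc' hm4 hm hk hP
    have hTe : Even (n ^ (n - 1) / 2) := by
      rw [h7]
      apply Even.pow_of_ne_zero even_two
      rw [h8]
      have : 16 * m ≤ m * n := by nlinarith
      omega
    have h10 : (n : ZMod (n ^ n + 1)) ^ (s + n) - 1 = -((n ^ s + 1 : ℕ) : ZMod (n ^ n + 1)) := by
      rw [pow_add, hnn]
      push_cast
      ring
    rw [h10, hTe.neg_pow] at h9
    rw [h9]
    have h11 : (if c' < n then 1 else 7) = (if c < n then 7 else 1) := by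
      by_cases hcn : c < n
      · have h12 : ¬ c' < n := by rw [hc', if_pos hcn]; omega
        rw [if_neg h12, if_pos hcn]
      · have h12 : c' < n := by rw [hc', if_neg hcn]; omega
        rw [if_pos h12, if_neg hcn]
    rw [h11]
    set e := (if c < n then 7 else 1) with he
    have h12 : e * (s + n) * (n / 4) = e * s * (n / 4) + 2 * n * (e * (n / 8)) := by
      have h13 : n / 4 = 2 * (n / 8) := by
        have h14 : n = 8 * 2 ^ (m - 3) := by
          rw [hn]
          have : (8 : ℕ) = 2 ^ 3 := by norm_num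
          rw [this, ← pow_add]
          congr 1
          omega
        omega
      rw [h13]
      ring
    rw [h12, pow_add, hn2n, mul_one]
  · by_cases hcn : c < n
    · rw [if_pos hcn] at h
      exact hconv _ 7 1 (by decide) rfl h
    · rw [if_neg hcn] at h
      exact hconv _ 1 7 (by decide) rfl h

end Pool.Agent.Y875.FP
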