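import Mathlib

/-!
The additive character `a ↦ z^a` of `ZMod (2^n)` and products over the units of `ZMod (2^n)`.
-/

namespace Pool.Agent.Y875.FP

/-- `z^a` for `a : ZMod N`. -/
def ex {A : Type} [CommRing A] {N : ℕ} (z : A) (a : ZMod N) : A := z ^ a.val

section

variable {A : Type} [CommRing A] {N : ℕ} [NeZero N] {z : A}

lemma pow_mod_of (hz : z ^ N = 1) (k : ℕ) : z ^ (k % N) = z ^ k := by
  conv_rhs => rw [← Nat.div_add_mod k N, pow_add, pow_mul, hz, one_pow, one_mul]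

lemma ex_natCast (hz : z ^ N = 1) (k : ℕ) : ex z (k : ZMod N) = z ^ k := by
  unfold ex
  rw [ZMod.val_natCast, pow_mod_of hz]

lemma ex_zero : ex z (0 : ZMod N) = 1 := by
  unfold ex
  simp

lemma ex_add (hz : z ^ N = 1) (a b : ZMod N) : ex z (a + b) = ex z a * ex z b := by
  unfold ex
  rw [ZMod.val_add, pow_mod_of hz, pow_add]

lemma ex_neg_mul (hz : z ^ N = 1) (a : ZMod N) : ex z (-a) * ex z a = 1 := by
  rw [← ex_add hz, neg_add_cancel, ex_zero]

lemma ex_mul_neg (hz : z ^ N = 1) (a : ZMod N) : ex z a * ex z (-a) = 1 := by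
  rw [← ex_add hz, add_neg_cancel, ex_zero]

lemma ex_nat_mul (hz : z ^ N = 1) (k : ℕ) (a : ZMod N) : ex z ((k : ZMod N) * a) = ex z a ^ k := by
  induction k with
  | zero => simp [ex_zero]
  | succ k ih => rw [Nat.cast_succ, add_mul, one_mul, ex_add hz, ih, pow_succ]

lemma ex_mul (hz : z ^ N = 1) (b a : ZMod N) : ex z (b * a) = ex z a ^ b.val := by
  rw [← ex_nat_mul hz, ZMod.natCast_zmod_val]

lemma ex_pow_card (hz : z ^ N = 1) (a : ZMod N) : ex z a ^ N = 1 := by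
  unfold ex
  rw [← pow_mul, mul_comm, pow_mul, hz, one_pow]

lemma ex_isUnit (hz : z ^ N = 1) (a : ZMod N) : IsUnit (ex z a) :=
  IsUnit.of_mul_eq_one _ (ex_mul_neg hz a)

end

lemma map_ex {A B : Type} [CommRing A] [CommRing B] {N : ℕ} (τ : A →+* B) (z : A) (a : ZMod N) :
    τ (ex z a) = ex (τ z) a := by
  unfold ex
  rw [map_pow]

lemma prod_odd {A : Type} [CommRing A] (n : ℕ) : ∀ (z x : A), z ^ (2 ^ n) = -1 →
    ∏ i ∈ Finset.range (2 ^ n), (1 - x * z ^ (2 * i + 1)) = 1 + x ^ (2 ^ n) := by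
  induction n with
  | zero =>
    intro z x hz
    simp at hz
    simp [hz]
  | succ n ih =>
    intro z x hz
    have h1 : (z ^ 2) ^ (2 ^ n) = -1 := by rw [← pow_mul, ← hz]; congr 1; ring
    have h2 := ih (z ^ 2) (x ^ 2) h1
    have h3 : (2 : ℕ) ^ (n + 1) = 2 ^ n + 2 ^ n := by ring
    rw [h3, Finset.prod_range_add, ← Finset.prod_mul_distrib]
    have h4 : ∀ i ∈ Finset.range (2 ^ n),
        (1 - x * z ^ (2 * i + 1)) * (1 - x * z ^ (2 * (2 ^ n + i) + 1)) =
        1 - x ^ 2 * (z ^ 2) ^ (2 * i + 1) := by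
      intro i _
      have : z ^ (2 * (2 ^ n + i) + 1) = - z ^ (2 * i + 1) := by
        have : 2 * (2 ^ n + i) + 1 = 2 ^ (n + 1) + (2 * i + 1) := by ring
        rw [this, pow_add, hz]; ring
      rw [this, ← pow_mul]
      ring
    rw [Finset.prod_congr rfl h4, h2, ← pow_mul]
    congr 2
    ring

/-- The units of `ZMod (2^(m+1))` are the odd residues. -/
lemma prod_units {A : Type} [CommMonoid A] (m : ℕ) (f : ZMod (2 ^ (m + 1)) → A) :
    ∏ t : (ZMod (2 ^ (m + 1)))ˣ, f (t : ZMod (2 ^ (m + 1))) =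
      ∏ i ∈ Finset.range (2 ^ m), f ((2 * i + 1 : ℕ) : ZMod (2 ^ (m + 1))) := by
  have hN : (2 : ℕ) ^ (m + 1) = 2 * 2 ^ m := by ring
  have hodd : ∀ t : (ZMod (2 ^ (m + 1)))ˣ, (t : ZMod (2 ^ (m + 1))).val % 2 = 1 := by
    intro t
    have h := ZMod.val_coe_unit_coprime t
    have : Nat.Coprime (t : ZMod (2 ^ (m + 1))).val 2 :=
      Nat.Coprime.coprime_dvd_right (dvd_pow_self 2 (by omega)) h
    rw [Nat.coprime_two_right, Nat.odd_iff] at this
    exact this
  refine Finset.prod_bij (fun t _ => (t : ZMod (2 ^ (m + 1))).val / 2) ?_ ?_ ?_ ?_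
  · intro t _
    have h1 := ZMod.val_lt (t : ZMod (2 ^ (m + 1)))
    simp only [Finset.mem_range]
    omega
  · intro t _ t' _ h
    have h1 := hodd t
    have h2 := hodd t'
    apply Units.ext
    apply ZMod.val_injective
    omega
  · intro i hi
    simp only [Finset.mem_range] at hi
    have hc : Nat.Coprime (2 * i + 1) (2 ^ (m + 1)) := by
      apply Nat.Coprime.pow_right
      rw [Nat.coprime_two_right]
      exact ⟨i, rfl⟩
    refine ⟨ZMod.unitOfCoprime (2 * i + 1) hc, Finset.mem_univ _, ?_⟩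
    rw [ZMod.coe_unitOfCoprime, ZMod.val_natCast, Nat.mod_eq_of_lt (by omega)]
    omega
  · intro t _
    congr 1
    have h1 := hodd t
    have h2 : 2 * ((t : ZMod (2 ^ (m + 1))).val / 2) + 1 = (t : ZMod (2 ^ (m + 1))).val := by
      omega
    rw [h2, ZMod.natCast_zmod_val]

lemma prod_one_sub {A : Type} [CommRing A] (m : ℕ) (z x : A) (hz : z ^ (2 ^ m) = -1) :
    ∏ t : (ZMod (2 ^ (m + 1)))ˣ, (1 - x * ex z ((t⁻¹ : (ZMod (2 ^ (m + 1)))ˣ) :
      ZMod (2 ^ (m + 1)))) = 1 + x ^ (2 ^ m) := by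
  have hzN : z ^ (2 ^ (m + 1)) = 1 := by
    have : (2 : ℕ) ^ (m + 1) = 2 ^ m * 2 := by ring
    rw [this, pow_mul, hz]; ring
  have hinv := Equiv.prod_comp (Equiv.inv (ZMod (2 ^ (m + 1)))ˣ)
    (fun t : (ZMod (2 ^ (m + 1)))ˣ => (1 - x * ex z (t : ZMod (2 ^ (m + 1)))))
  simp only [Equiv.inv_apply] at hinv
  rw [hinv, prod_units m (fun t => 1 - x * ex z t), ← prod_odd m z x hz]
  refine Finset.prod_congr rfl fun i _ => ?_
  rw [ex_natCast hzN]

end Pool.Agent.Y875.FP
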