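import Pool.Agent.Y875.FP.Abs

/-!
The half system `{t : t.val < 2^m}` of units of `ZMod (2^(m+1))`.
-/

namespace Pool.Agent.Y875.FP

/-- the half system -/
def HS (m : ℕ) : Finset (ZMod (2 ^ (m + 1)))ˣ :=
  Finset.univ.filter fun t => (t : ZMod (2 ^ (m + 1))).val < 2 ^ m

lemma mem_HS {m : ℕ} {t : (ZMod (2 ^ (m + 1)))ˣ} :
    t ∈ HS m ↔ (t : ZMod (2 ^ (m + 1))).val < 2 ^ m := by
  unfold HS; simp

lemma neg_mem_HS {m : ℕ} (hm : 1 ≤ m) (t : (ZMod (2 ^ (m + 1)))ˣ) : -t ∈ HS m ↔ t ∉ HS m := by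
  rw [mem_HS, mem_HS, val_neg_unit]
  have h1 := ZMod.val_lt (t : ZMod (2 ^ (m + 1)))
  have h2 : (2 : ℕ) ^ (m + 1) = 2 * 2 ^ m := by ring
  have h3 : (t : ZMod (2 ^ (m + 1))).val ≠ 2 ^ m := by
    intro h
    have h4 := unit_val_odd t
    rw [h] at h4
    have h5 : Even (2 ^ m) := (Nat.even_pow.mpr ⟨even_two, by omega⟩)
    exact (Nat.not_even_iff_odd.mpr h4) h5
  omega

open Classical in
/-- the representative of `±t` in the half system -/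
noncomputable def hr {m : ℕ} (t : (ZMod (2 ^ (m + 1)))ˣ) : (ZMod (2 ^ (m + 1)))ˣ :=
  if t ∈ HS m then t else -t

lemma hr_of_mem {m : ℕ} {t : (ZMod (2 ^ (m + 1)))ˣ} (h : t ∈ HS m) : hr t = t := if_pos h

lemma hr_of_not_mem {m : ℕ} {t : (ZMod (2 ^ (m + 1)))ˣ} (h : t ∉ HS m) : hr t = -t := if_neg h

lemma hr_mem {m : ℕ} (hm : 1 ≤ m) (t : (ZMod (2 ^ (m + 1)))ˣ) : hr t ∈ HS m := by
  by_cases h : t ∈ HS m
  · rwa [hr_of_mem h]
  · rw [hr_of_not_mem h, neg_mem_HS hm]; exact h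

lemma hr_neg {m : ℕ} (hm : 1 ≤ m) (t : (ZMod (2 ^ (m + 1)))ˣ) : hr (-t) = hr t := by
  by_cases h : t ∈ HS m
  · have h2 : -t ∉ HS m := by rw [neg_mem_HS hm]; exact not_not.mpr h
    rw [hr_of_mem h, hr_of_not_mem h2, neg_neg]
  · have h2 : -t ∈ HS m := by rw [neg_mem_HS hm]; exact h
    rw [hr_of_mem h2, hr_of_not_mem h]

lemma hr_eq_or {m : ℕ} (t : (ZMod (2 ^ (m + 1)))ˣ) : hr t = t ∨ hr t = -t := by
  by_cases h : t ∈ HS m
  · left; exact hr_of_mem h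
  · right; exact hr_of_not_mem h

lemma hr_mul_hr {m : ℕ} (hm : 1 ≤ m) (Q R t : (ZMod (2 ^ (m + 1)))ˣ) (hQR : Q * R = 1)
    (ht : t ∈ HS m) : hr (Q * hr (R * t)) = t := by
  rcases hr_eq_or (R * t) with h | h
  · rw [h, ← mul_assoc, hQR, one_mul, hr_of_mem ht]
  · rw [h, mul_neg, hr_neg hm, ← mul_assoc, hQR, one_mul, hr_of_mem ht]

/-- Multiplication by a unit permutes the half system. -/
lemma prod_hr {m : ℕ} (hm : 1 ≤ m) {A : Type} [CommMonoid A] (Q : (ZMod (2 ^ (m + 1)))ˣ)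
    (f : (ZMod (2 ^ (m + 1)))ˣ → A) : ∏ t ∈ HS m, f (hr (Q * t)) = ∏ t ∈ HS m, f t := by
  refine Finset.prod_nbij' (fun t => hr (Q * t)) (fun t => hr (Q⁻¹ * t)) ?_ ?_ ?_ ?_ ?_
  · intro t _
    exact hr_mem hm _
  · intro t _
    exact hr_mem hm _
  · intro t ht
    exact hr_mul_hr hm _ _ t (inv_mul_cancel Q) ht
  · intro t ht
    exact hr_mul_hr hm _ _ t (mul_inv_cancel Q) ht
  · intro t _
    rfl

lemma mem_hr_iff {m : ℕ} (hm : 1 ≤ m) (Q t : (ZMod (2 ^ (m + 1)))ˣ) (ht : t ∈ HS m) :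
    Q * hr (Q⁻¹ * t) ∈ HS m ↔ Q⁻¹ * t ∈ HS m := by
  by_cases h : Q⁻¹ * t ∈ HS m
  · rw [hr_of_mem h, mul_inv_cancel_left]
    exact ⟨fun _ => h, fun _ => ht⟩
  · rw [hr_of_not_mem h, mul_neg, mul_inv_cancel_left, neg_mem_HS hm]
    exact ⟨fun h1 => absurd ht h1, fun h1 => absurd h1 h⟩

lemma prod_univ_HS {m : ℕ} (hm : 1 ≤ m) {A : Type} [CommMonoid A]
    (f : (ZMod (2 ^ (m + 1)))ˣ → A) :
    ∏ t : (ZMod (2 ^ (m + 1)))ˣ, f t = ∏ t ∈ HS m, (f t * f (-t)) := by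
  classical
  rw [Finset.prod_mul_distrib, ← Finset.prod_mul_prod_compl (HS m) f]
  congr 1
  symm
  refine Finset.prod_bij (fun t _ => -t) ?_ ?_ ?_ ?_
  · intro t ht
    rw [Finset.mem_compl, neg_mem_HS hm]
    exact not_not.mpr ht
  · intro t _ t' _ h
    exact neg_injective h
  · intro t ht
    refine ⟨-t, ?_, neg_neg t⟩
    rw [neg_mem_HS hm]
    exact Finset.mem_compl.mp ht
  · intro t _
    rfl

lemma card_HS (m : ℕ) (hm : 1 ≤ m) : (HS m).card = 2 ^ (m - 1) := by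
  have h1 : Fintype.card (ZMod (2 ^ (m + 1)))ˣ = 2 ^ m := by
    rw [ZMod.card_units_eq_totient, Nat.totient_prime_pow_succ Nat.prime_two]
    simp
  have h2 : Fintype.card (ZMod (2 ^ (m + 1)))ˣ = 2 * (HS m).card := by
    classical
    rw [← Finset.card_add_card_compl (HS m), two_mul]
    congr 1
    symm
    refine Finset.card_bij (fun t _ => -t) ?_ ?_ ?_
    · intro t ht
      rw [Finset.mem_compl, neg_mem_HS hm]
      exact not_not.mpr ht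
    · intro t _ t' _ h
      exact neg_injective h
    · intro t ht
      refine ⟨-t, ?_, neg_neg t⟩
      rw [neg_mem_HS hm]
      exact Finset.mem_compl.mp ht
  obtain ⟨k, rfl⟩ : ∃ k, m = k + 1 := ⟨m - 1, by omega⟩
  rw [Nat.add_sub_cancel]
  have h3 : (2 : ℕ) ^ (k + 1) = 2 * 2 ^ k := by ring
  omega

end Pool.Agent.Y875.FP
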