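import Pool.Agent.Y875.FP.Ind
import Pool.Agent.Y875.FP.Half

/-!
The sum `A = ∑ ζ^{t⁻¹}`, `t` odd, `t < 2^m`, is highly divisible by `1 - ζ`.
-/

open Polynomial

namespace Pool.Agent.Y875.FP

lemma TS_one (m : ℕ) : TS m 1 = HS m := by
  ext t
  rw [mem_TS, mem_HS, one_mul, Nat.mod_eq_of_lt (ZMod.val_lt _)]
  have : (2 : ℕ) ^ (m + 1) = 2 * 2 ^ m := by ring
  omega

section

variable {k : ℕ}

/-- reduction of units. -/
noncomputable def pr (k : ℕ) : (ZMod (2 ^ (k + 1 + 1)))ˣ →* (ZMod (2 ^ (k + 1)))ˣ :=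
  ZMod.unitsMap (Nat.pow_dvd_pow 2 (by omega))

lemma pr_val (t : (ZMod (2 ^ (k + 1 + 1)))ˣ) :
    (pr k t : ZMod (2 ^ (k + 1))).val = (t : ZMod (2 ^ (k + 1 + 1))).val % 2 ^ (k + 1) := by
  unfold pr
  rw [ZMod.unitsMap_val]
  rw [ZMod.cast_eq_val, ZMod.val_natCast]

lemma sum_HS_pr {A : Type} [AddCommMonoid A] (g : (ZMod (2 ^ (k + 1)))ˣ → A) :
    ∑ t ∈ HS (k + 1), g (pr k t) = ∑ w : (ZMod (2 ^ (k + 1)))ˣ, g w := by
  refine Finset.sum_bij (fun t _ => pr k t) ?_ ?_ ?_ ?_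
  · intro t _
    exact Finset.mem_univ _
  · intro t ht t' ht' h
    rw [mem_HS] at ht ht'
    have h1 := congrArg (fun w : (ZMod (2 ^ (k + 1)))ˣ => (w : ZMod (2 ^ (k + 1))).val) h
    simp only [pr_val] at h1
    rw [Nat.mod_eq_of_lt ht, Nat.mod_eq_of_lt ht'] at h1
    apply Units.ext
    exact ZMod.val_injective _ h1
  · intro w _
    have h1 := unit_val_odd w
    have h2 := ZMod.val_lt (w : ZMod (2 ^ (k + 1)))
    have hlt : 2 ^ (k + 1) < 2 ^ (k + 1 + 1) := Nat.pow_lt_pow_right (by norm_num) (by omega)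
    have hc : Nat.Coprime (w : ZMod (2 ^ (k + 1))).val (2 ^ (k + 1 + 1)) :=
      Nat.Coprime.pow_right _ (Nat.coprime_two_right.mpr h1)
    have h3 : ((ZMod.unitOfCoprime _ hc : (ZMod (2 ^ (k + 1 + 1)))ˣ) :
        ZMod (2 ^ (k + 1 + 1))).val = (w : ZMod (2 ^ (k + 1))).val := by
      rw [ZMod.coe_unitOfCoprime, ZMod.val_natCast, Nat.mod_eq_of_lt (by omega)]
    refine ⟨ZMod.unitOfCoprime _ hc, ?_, ?_⟩
    · rw [mem_HS, h3]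
      exact h2
    · apply Units.ext
      apply ZMod.val_injective
      rw [pr_val, h3, Nat.mod_eq_of_lt h2]
  · intro t _
    rfl

lemma sum_units {A : Type} [AddCommMonoid A] (m : ℕ) (f : ZMod (2 ^ (m + 1)) → A) :
    ∑ t : (ZMod (2 ^ (m + 1)))ˣ, f (t : ZMod (2 ^ (m + 1))) =
      ∑ i ∈ Finset.range (2 ^ m), f ((2 * i + 1 : ℕ) : ZMod (2 ^ (m + 1))) :=
  prod_units (A := Multiplicative A) m f

variable {O : Type} [CommRing O] {ζ : O} (H : CycRing (k + 1 + 1) O ζ)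

include H in
lemma CycRing.two_dvd_A : (2 : O) ∣ (1 - ζ ^ 2) *
    ∑ t ∈ TS (k + 1) 1, ex ζ ((t⁻¹ : (ZMod (2 ^ (k + 1 + 1)))ˣ) : ZMod (2 ^ (k + 1 + 1))) := by
  have hhalf := H.pow_half
  have h1 : ∀ t : (ZMod (2 ^ (k + 1 + 1)))ˣ, (2 : O) ∣
      ex ζ (t : ZMod (2 ^ (k + 1 + 1))) - ζ ^ (pr k t : ZMod (2 ^ (k + 1))).val := by
    intro t
    rw [pr_val]
    unfold ex
    have h2 := Nat.mod_add_div (t : ZMod (2 ^ (k + 1 + 1))).val (2 ^ (k + 1))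
    conv_rhs => rw [← h2]
    rw [Nat.add_mul_mod_self_left, Nat.mod_mod, pow_add, pow_mul, hhalf]
    rcases neg_one_pow_eq_or O ((t : ZMod (2 ^ (k + 1 + 1))).val / 2 ^ (k + 1)) with h | h
    · rw [h]; simp
    · rw [h]
      exact ⟨-ζ ^ ((t : ZMod (2 ^ (k + 1 + 1))).val % 2 ^ (k + 1)), by ring⟩
  have h2 : ∑ t ∈ HS (k + 1), ζ ^ (pr k (t⁻¹) : ZMod (2 ^ (k + 1))).val =
      ∑ i ∈ Finset.range (2 ^ k), ζ ^ (2 * i + 1) := by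
    have h3 := sum_HS_pr (fun w : (ZMod (2 ^ (k + 1)))ˣ =>
      ζ ^ ((w⁻¹ : (ZMod (2 ^ (k + 1)))ˣ) : ZMod (2 ^ (k + 1))).val)
    simp only [← map_inv] at h3
    rw [h3]
    have h4 : ∑ w : (ZMod (2 ^ (k + 1)))ˣ,
        ζ ^ ((w⁻¹ : (ZMod (2 ^ (k + 1)))ˣ) : ZMod (2 ^ (k + 1))).val =
        ∑ w : (ZMod (2 ^ (k + 1)))ˣ, ζ ^ (w : ZMod (2 ^ (k + 1))).val :=
      Finset.sum_equiv (Equiv.inv _) (by simp) (by simp)
    rw [h4, sum_units k (fun w => ζ ^ w.val)]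
    refine Finset.sum_congr rfl fun i hi => ?_
    have hi' := Finset.mem_range.mp hi
    rw [ZMod.val_natCast, Nat.mod_eq_of_lt]
    rw [pow_succ]
    omega
  have h3 : (1 - ζ ^ 2) * ∑ i ∈ Finset.range (2 ^ k), ζ ^ (2 * i + 1) = 2 * ζ := by
    have h4 : ∑ i ∈ Finset.range (2 ^ k), ζ ^ (2 * i + 1) =
        ζ * ∑ i ∈ Finset.range (2 ^ k), (ζ ^ 2) ^ i := by
      rw [Finset.mul_sum]
      refine Finset.sum_congr rfl fun i _ => ?_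
      rw [← pow_mul]
      ring
    have h5 := mul_neg_geom_sum (ζ ^ 2) (2 ^ k)
    rw [← pow_mul, ← pow_succ', hhalf] at h5
    rw [h4]
    linear_combination ζ * h5
  rw [TS_one]
  have h4 : (2 : O) ∣ ∑ t ∈ HS (k + 1),
      (ex ζ ((t⁻¹ : (ZMod (2 ^ (k + 1 + 1)))ˣ) : ZMod (2 ^ (k + 1 + 1))) -
      ζ ^ (pr k (t⁻¹) : ZMod (2 ^ (k + 1))).val) := Finset.dvd_sum fun t _ => h1 _
  rw [Finset.sum_sub_distrib, h2] at h4
  have h5 : (1 - ζ ^ 2) * ∑ t ∈ HS (k + 1),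
      ex ζ ((t⁻¹ : (ZMod (2 ^ (k + 1 + 1)))ˣ) : ZMod (2 ^ (k + 1 + 1))) =
      (1 - ζ ^ 2) * (∑ t ∈ HS (k + 1),
      ex ζ ((t⁻¹ : (ZMod (2 ^ (k + 1 + 1)))ˣ) : ZMod (2 ^ (k + 1 + 1))) -
      ∑ i ∈ Finset.range (2 ^ k), ζ ^ (2 * i + 1)) + 2 * ζ := by
    linear_combination h3
  rw [h5]
  exact dvd_add (h4.mul_left _) (dvd_mul_right _ _)

variable {K : Type} [NormedField K] [IsUltrametricDist K] (h2 : ‖(2 : K)‖ < 1)
  (h20 : (2 : K) ≠ 0) (τ : O →+* K)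

end

section

variable {m : ℕ} {O : Type} [CommRing O] {ζ : O} (H : CycRing (m + 1) O ζ)
  {K : Type} [NormedField K] [IsUltrametricDist K] (h2 : ‖(2 : K)‖ < 1)
  (h20 : (2 : K) ≠ 0) (τ : O →+* K)

include H in
lemma CycRing.norm_two_eq : ‖(2 : K)‖ = ‖τ (1 - ζ)‖ ^ (2 ^ m) := by
  apply le_antisymm (H.norm_two_le τ)
  obtain ⟨c, hc⟩ := H.two_dvd_lam_pow
  have h1 := congrArg (fun y => ‖τ y‖) hc
  simp only [map_pow, map_mul, map_ofNat, norm_pow, norm_mul] at h1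
  rw [h1]
  have h3 := H.norm_le τ c
  have h4 := norm_nonneg (2 : K)
  nlinarith

include H h2 h20 in
/-- `‖1 - z^2‖ = ‖1 - z‖^2`. -/
lemma CycRing.norm_sq_lam (hm : 2 ≤ 2 ^ m) : ‖τ (1 - ζ ^ 2)‖ = ‖τ (1 - ζ)‖ ^ 2 := by
  have h3 : (1 - ζ ^ 2) = (1 - ζ) * (1 + ζ) := by ring
  rw [h3, map_mul, norm_mul, sq]
  congr 1
  have h4 : ‖τ (1 + ζ) - τ (1 - ζ)‖ < ‖τ (1 - ζ)‖ := by
    have h5 : τ (1 + ζ) - τ (1 - ζ) = 2 * τ ζ := by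
      rw [← map_sub, ← map_ofNat τ 2, ← map_mul]
      congr 1
      ring
    rw [h5, norm_mul, H.norm_z τ, mul_one, H.norm_two_eq τ]
    have hl := H.norm_lam_lt h2 τ
    have hl0 := H.norm_lam_pos h20 τ
    exact pow_lt_self_of_lt_one₀ hl0 hl (by omega)
  exact um_eq h4

end

section

variable {k : ℕ} {O : Type} [CommRing O] {ζ : O} (H : CycRing (k + 1 + 1) O ζ)
  {K : Type} [NormedField K] [IsUltrametricDist K] (h2 : ‖(2 : K)‖ < 1)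
  (h20 : (2 : K) ≠ 0) (τ : O →+* K)

include H h2 h20 in
lemma CycRing.norm_A : ‖τ (∑ t ∈ TS (k + 1) 1,
    ex ζ ((t⁻¹ : (ZMod (2 ^ (k + 1 + 1)))ˣ) : ZMod (2 ^ (k + 1 + 1))))‖ * ‖τ (1 - ζ)‖ ^ 2 ≤
      ‖(2 : K)‖ := by
  have hm : 2 ≤ 2 ^ (k + 1) := by
    rw [pow_succ]
    have := Nat.one_le_two_pow (n := k)
    omega
  rw [← H.norm_sq_lam h2 h20 τ hm, mul_comm, ← norm_mul, ← map_mul]
  obtain ⟨c, hc⟩ := H.two_dvd_A
  rw [hc, map_mul, map_ofNat, norm_mul]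
  have h3 := H.norm_le τ c
  have h4 := norm_nonneg (2 : K)
  nlinarith

include H h2 h20 in
lemma CycRing.norm_P (x : ℕ) (hx : 2 ∣ x) :
    ‖τ (∏ t ∈ TS (k + 1) 1, al (x : O) ζ t) - 1‖ * ‖τ (1 - ζ)‖ ^ 2 ≤ ‖(x : K)‖ * ‖(2 : K)‖ := by
  obtain ⟨c, hc⟩ := prod_al_expand (x : O) ζ (TS (k + 1) 1)
  have h3 := H.norm_A h2 h20 τ
  set A := ∑ t ∈ TS (k + 1) 1,
    ex ζ ((t⁻¹ : (ZMod (2 ^ (k + 1 + 1)))ˣ) : ZMod (2 ^ (k + 1 + 1))) with hA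
  have h4 : τ (∏ t ∈ TS (k + 1) 1, al (x : O) ζ t) - 1 = (x : K) ^ 2 * τ c - (x : K) * τ A := by
    rw [hc, map_add, map_sub, map_mul, map_mul, map_pow, map_natCast, map_one]
    ring
  have hl := H.norm_lam_lt h2 τ
  have hl0 := H.norm_lam_pos h20 τ
  have hx2 : ‖(x : K)‖ ≤ ‖(2 : K)‖ := by
    obtain ⟨y, rfl⟩ := hx
    push_cast
    rw [norm_mul]
    have := um_nat (K := K) y
    have := norm_nonneg (2 : K)
    nlinarith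
  have hl2 : 0 < ‖τ (1 - ζ)‖ ^ 2 := by positivity
  have hl3 : ‖τ (1 - ζ)‖ ^ 2 ≤ 1 := pow_le_one₀ hl0.le hl.le
  rw [h4, ← le_div_iff₀ hl2]
  apply um_sub_le
  · rw [le_div_iff₀ hl2, norm_mul, norm_pow]
    have h5 := H.norm_le τ c
    have h6 := norm_nonneg (x : K)
    have h7 := norm_nonneg (τ c)
    calc ‖(x : K)‖ ^ 2 * ‖τ c‖ * ‖τ (1 - ζ)‖ ^ 2 ≤ ‖(x : K)‖ ^ 2 * 1 * 1 := by gcongr
      _ = ‖(x : K)‖ * ‖(x : K)‖ := by ring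
      _ ≤ ‖(x : K)‖ * ‖(2 : K)‖ := by gcongr
  · rw [le_div_iff₀ hl2, norm_mul, mul_assoc]
    have h6 := norm_nonneg (x : K)
    gcongr

end

end Pool.Agent.Y875.FP
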