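import Pool.Agent.Y875.FP.Jac

/-!
Absolute values of Jacobi sums and of products of the `α_t`.
-/

open Polynomial ComplexConjugate

namespace Pool.Agent.Y875.FP

lemma prim_of_half {A : Type} [CommRing A] [IsDomain A] {m : ℕ} {z : A} (hz : z ^ (2 ^ m) = -1)
    (h2 : (2 : A) ≠ 0) : IsPrimitiveRoot z (2 ^ (m + 1)) := by
  have h3 : orderOf z = 2 ^ (m + 1) := by
    apply orderOf_eq_prime_pow
    · rw [hz]
      intro h
      apply h2
      linear_combination -h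
    · rw [pow_succ, pow_mul, hz]
      ring
  rw [← h3]
  exact IsPrimitiveRoot.orderOf _

lemma map_half {m : ℕ} {O : Type} [CommRing O] {ζ : O} (H : CycRing (m + 1) O ζ)
    {A : Type} [CommRing A] (τ : O →+* A) : (τ ζ) ^ (2 ^ m) = -1 := by
  rw [← map_pow, H.pow_half, map_neg, map_one]

section

variable {m : ℕ} {O : Type} [CommRing O] {ζ : O} (H : CycRing (m + 1) O ζ)
  {p x T : ℕ} [hpp : Fact p.Prime] (hp : p = x ^ (2 ^ m) + 1) (hp2 : p ≠ 2)
  (hT : 2 ^ (m + 1) * T = x ^ (2 ^ m))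
  {χ : MulChar (ZMod p) O} (hχ : IsRes m p x T ζ χ)

include H hp hp2 hT hχ

lemma CycRing.comp_pow_ne_one {A : Type} [CommRing A] [IsDomain A] (h2 : (2 : A) ≠ 0)
    (τ : O →+* A) {a : ℕ} (ha : ¬ (2 ^ (m + 1) ∣ a)) : (χ.ringHomComp τ) ^ a ≠ 1 := by
  have h1 := H.pow_ne_one hp hp2 hT hχ ha
  intro hcon
  apply h1
  ext u
  have h3 : ((χ.ringHomComp τ) ^ a) (u : ZMod p) = 1 := by rw [hcon, MulChar.one_apply_coe]
  rw [MulChar.pow_apply_coe, MulChar.ringHomComp_apply] at h3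
  obtain ⟨j, h4, h5⟩ := hχ u (Units.ne_zero u)
  rw [MulChar.pow_apply_coe, MulChar.one_apply_coe, h4]
  rw [h4, map_ex, ← ex_nat_mul (by rw [pow_succ, pow_mul, map_half H τ]; ring)] at h3
  have h6 := prim_of_half (map_half H τ) h2
  have h7 : (a : ZMod (2 ^ (m + 1))) * j = 0 := by
    apply ex_injective h6
    rw [h3, ex_zero]
  rw [← ex_nat_mul H.pow_card, h7, ex_zero]

lemma CycRing.norm_jacobi (σ : O →+* ℂ) {a : ℕ} (ha : ¬ (2 ^ (m + 1) ∣ a))
    (ha' : ¬ (2 ^ (m + 1) ∣ a + 1)) : ‖σ (jacobiSum χ (χ ^ a))‖ ^ 2 = p := by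
  have hC2 : (2 : ℂ) ≠ 0 := two_ne_zero
  set φ := χ.ringHomComp σ with hφ
  have h1 : σ (jacobiSum χ (χ ^ a)) = jacobiSum φ (φ ^ a) := by
    rw [← jacobiSum_ringHomComp, MulChar.ringHomComp_pow]
  have hm1 : ¬ (2 ^ (m + 1) ∣ 1) := by
    rw [Nat.dvd_one]
    exact (Nat.one_lt_two_pow (by omega)).ne'
  have h2 : φ ≠ 1 := by
    have := H.comp_pow_ne_one hp hp2 hT hχ hC2 σ hm1
    rwa [pow_one] at this
  have h3 : φ ^ a ≠ 1 := H.comp_pow_ne_one hp hp2 hT hχ hC2 σ ha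
  have h4 : φ * φ ^ a ≠ 1 := by
    have := H.comp_pow_ne_one hp hp2 hT hχ hC2 σ ha'
    rwa [pow_succ'] at this
  have hchar : ringChar ℂ ≠ ringChar (ZMod p) := by
    rw [ringChar.eq_zero, ZMod.ringChar_zmod_n]
    exact (Fact.out : p.Prime).ne_zero.symm
  have h5 := jacobiSum_mul_jacobiSum_inv hchar h2 h3 h4
  rw [ZMod.card] at h5
  have h6 : conj (jacobiSum φ (φ ^ a)) = jacobiSum φ⁻¹ (φ ^ a)⁻¹ := by
    unfold jacobiSum
    rw [map_sum]
    refine Finset.sum_congr rfl fun u _ => ?_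
    rw [map_mul]
    congr 1
    · exact MulChar.star_apply' φ u
    · exact MulChar.star_apply' (φ ^ a) (1 - u)
  rw [← h6] at h5
  rw [h1, ← Complex.ofReal_inj]
  rw [Complex.ofReal_pow, ← Complex.mul_conj']
  rw [h5]
  simp

end

lemma conj_ex {N : ℕ} [NeZero N] {z : ℂ} (hz : z ^ N = 1) (s : ZMod N) :
    conj (ex z s) = ex z (-s) := by
  have h1 : ‖ex z s‖ = 1 :=
    Complex.norm_eq_one_of_pow_eq_one (ex_pow_card hz s) (NeZero.ne N)
  have h2 : conj (ex z s) * ex z s = 1 := by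
    rw [Complex.conj_mul', h1]; simp
  have h3 : ex z (-s) * ex z s = 1 := ex_neg_mul hz s
  have h4 : ex z s ≠ 0 := by
    intro h; rw [h] at h1; simp at h1
  exact mul_right_cancel₀ h4 (h2.trans h3.symm)

lemma conj_al {N : ℕ} [NeZero N] {z : ℂ} (hz : z ^ N = 1) (x : ℕ) (t : (ZMod N)ˣ) :
    conj (al (x : ℂ) z t) = al (x : ℂ) z (-t) := by
  unfold al
  rw [map_sub, map_one, map_mul, conj_ex hz, Complex.conj_natCast]
  rw [inv_neg, Units.val_neg]

lemma mem_TS {m a : ℕ} (t : (ZMod (2 ^ (m + 1)))ˣ) : t ∈ TS m a ↔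
    (a * (t : ZMod (2 ^ (m + 1))).val) % 2 ^ (m + 1) +
    (t : ZMod (2 ^ (m + 1))).val < 2 ^ (m + 1) := by
  unfold TS
  simp

lemma val_neg_unit {m : ℕ} (t : (ZMod (2 ^ (m + 1)))ˣ) :
    ((-t : (ZMod (2 ^ (m + 1)))ˣ) : ZMod (2 ^ (m + 1))).val =
      2 ^ (m + 1) - (t : ZMod (2 ^ (m + 1))).val := by
  rw [Units.val_neg, ZMod.neg_val]
  rw [if_neg]
  intro h
  have h1 := unit_val_odd t
  rw [h, ZMod.val_zero] at h1
  exact absurd h1 (by decide)

lemma mod_sub_eq {N a k : ℕ} (hkN : k < N) (h1 : ¬ (N ∣ a * k)) :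
    (a * (N - k)) % N = N - (a * k) % N := by
  have h4 : a * (N - k) + a * k = a * N := by
    rw [← mul_add, Nat.sub_add_cancel hkN.le]
  have h5 : (a * (N - k) + a * k) % N = 0 := by rw [h4]; exact Nat.mul_mod_left _ _
  have h6 : 0 < (a * k) % N := by
    rcases Nat.eq_zero_or_pos ((a * k) % N) with h | h
    · exact absurd (Nat.dvd_of_mod_eq_zero h) h1
    · exact h
  have h7 : (a * k) % N < N := Nat.mod_lt _ (by omega)
  have h8 : (a * (N - k)) % N < N := Nat.mod_lt _ (by omega)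
  rw [Nat.add_mod] at h5
  have h9 : N ∣ (a * (N - k)) % N + (a * k) % N := Nat.dvd_of_mod_eq_zero h5
  obtain ⟨c, hc⟩ := h9
  have hc1 : c = 1 := by
    have : N * c < N * 2 := by omega
    have h10 : c < 2 := Nat.lt_of_mul_lt_mul_left this
    have h11 : c ≠ 0 := by rintro rfl; omega
    omega
  rw [hc1] at hc
  omega

lemma nat_compl {N a k : ℕ} (hkN : k < N) (h1 : ¬ (N ∣ a * k)) (h2 : ¬ (N ∣ (a + 1) * k)) :
    (a * (N - k)) % N + (N - k) < N ↔ ¬ ((a * k) % N + k < N) := by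
  rw [mod_sub_eq hkN h1]
  have h4 : (a * k) % N + k ≠ N := by
    intro h
    apply h2
    rw [add_mul, one_mul, ← Nat.mod_add_div (a * k) N]
    have : a * k % N + N * (a * k / N) + k = N * (a * k / N + 1) := by
      rw [mul_add, mul_one]
      omega
    rw [this]
    exact Dvd.intro _ rfl
  have h7 : (a * k) % N < N := Nat.mod_lt _ (by omega)
  omega

lemma coprime_val {m : ℕ} (t : (ZMod (2 ^ (m + 1)))ˣ) :
    Nat.Coprime (2 ^ (m + 1)) (t : ZMod (2 ^ (m + 1))).val :=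
  Nat.Coprime.pow_left _ (Nat.coprime_two_left.mpr (unit_val_odd t))

lemma neg_mem_TS {m a : ℕ} (ha : ¬ (2 ^ (m + 1) ∣ a)) (ha' : ¬ (2 ^ (m + 1) ∣ a + 1))
    (t : (ZMod (2 ^ (m + 1)))ˣ) : -t ∈ TS m a ↔ t ∉ TS m a := by
  rw [mem_TS, mem_TS, val_neg_unit]
  exact nat_compl (ZMod.val_lt _) (fun h => ha ((coprime_val t).dvd_of_dvd_mul_right h))
    (fun h => ha' ((coprime_val t).dvd_of_dvd_mul_right h))

section

variable {m : ℕ} {O : Type} [CommRing O] {ζ : O} (H : CycRing (m + 1) O ζ)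
  {p x T : ℕ} (hp : p = x ^ (2 ^ m) + 1)

include H hp

lemma CycRing.norm_prod_al (σ : O →+* ℂ) {a : ℕ} (ha : ¬ (2 ^ (m + 1) ∣ a))
    (ha' : ¬ (2 ^ (m + 1) ∣ a + 1)) : ‖σ (∏ t ∈ TS m a, al (x : O) ζ t)‖ ^ 2 = p := by
  have hz : (σ ζ) ^ (2 ^ (m + 1)) = 1 := by rw [pow_succ, pow_mul, map_half H σ]; ring
  have e1 : σ (∏ t ∈ TS m a, al (x : O) ζ t) = ∏ t ∈ TS m a, al (x : ℂ) (σ ζ) t := by
    rw [map_prod]
    exact Finset.prod_congr rfl fun t _ => by rw [map_al, map_natCast]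
  have h0 : ∀ t ∈ TS m a, conj (al (x : ℂ) (σ ζ) t) = al (x : ℂ) (σ ζ) (-t) :=
    fun t _ => conj_al hz x t
  rw [e1, ← Complex.ofReal_inj, Complex.ofReal_pow, ← Complex.mul_conj', map_prod,
    Finset.prod_congr rfl h0]
  have h1 : ∏ t ∈ TS m a, al (x : ℂ) (σ ζ) (-t) = ∏ t ∈ (TS m a)ᶜ, al (x : ℂ) (σ ζ) t := by
    refine Finset.prod_bij (fun t _ => -t) ?_ ?_ ?_ ?_
    · intro t ht
      rw [Finset.mem_compl, neg_mem_TS ha ha']
      exact not_not.mpr ht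
    · intro t _ t' _ h
      exact neg_injective h
    · intro t ht
      refine ⟨-t, ?_, neg_neg t⟩
      rw [neg_mem_TS ha ha']
      exact Finset.mem_compl.mp ht
    · intro t _
      rfl
  rw [h1, Finset.prod_mul_prod_compl]
  have h2 := prod_al m (σ ζ) (x : ℂ) (map_half H σ)
  rw [h2, hp]
  push_cast
  ring

end

end Pool.Agent.Y875.FP
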