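import Pool.Agent.Y875.FP.Cyc
import Pool.Agent.Y875.FP.Ex

/-!
The elements `α_t = 1 - x ζ^{t⁻¹}` of `ℤ[ζ]` and the homomorphisms to `ZMod p` killing them.
-/

open Polynomial

namespace Pool.Agent.Y875.FP

/-- `α_t = 1 - x ζ^{t⁻¹}`. -/
def al {A : Type} [CommRing A] {N : ℕ} (x : A) (z : A) (t : (ZMod N)ˣ) : A :=
  1 - x * ex z ((t⁻¹ : (ZMod N)ˣ) : ZMod N)

lemma map_al {A B : Type} [CommRing A] [CommRing B] {N : ℕ} (τ : A →+* B) (x z : A)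
    (t : (ZMod N)ˣ) : τ (al x z t) = al (τ x) (τ z) t := by
  unfold al
  rw [map_sub, map_one, map_mul, map_ex]

lemma prod_al {A : Type} [CommRing A] (m : ℕ) (z x : A) (hz : z ^ (2 ^ m) = -1) :
    ∏ t : (ZMod (2 ^ (m + 1)))ˣ, al x z t = 1 + x ^ (2 ^ m) :=
  prod_one_sub m z x hz

lemma CycRing.pow_half {m : ℕ} {O : Type} [CommRing O] {ζ : O} (H : CycRing (m + 1) O ζ) :
    ζ ^ (2 ^ m) = -1 := by
  have := H.dom
  have h : IsPrimitiveRoot (ζ ^ (2 ^ m)) 2 :=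
    H.prim.pow (by positivity) (by ring)
  exact h.eq_neg_one_of_two_right

lemma unit_val_odd {m : ℕ} (t : (ZMod (2 ^ (m + 1)))ˣ) :
    Odd (t : ZMod (2 ^ (m + 1))).val := by
  have h := ZMod.val_coe_unit_coprime t
  have : Nat.Coprime (t : ZMod (2 ^ (m + 1))).val 2 :=
    Nat.Coprime.coprime_dvd_right (dvd_pow_self 2 (by omega)) h
  exact Nat.coprime_two_right.mp this

lemma cpow {m p x : ℕ} (hp : p = x ^ (2 ^ m) + 1) :
    ((-(x : ZMod p) ^ (2 ^ m - 1)) * (x : ZMod p)) = 1 := by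
  have h : ((x ^ (2 ^ m) + 1 : ℕ) : ZMod p) = 0 := by rw [← hp]; exact ZMod.natCast_self p
  have : (2 : ℕ) ^ m = (2 ^ m - 1) + 1 := (Nat.sub_add_cancel Nat.one_le_two_pow).symm
  push_cast at h
  rw [this, pow_succ] at h
  linear_combination -h

lemma xpow {m p x : ℕ} (hp : p = x ^ (2 ^ m) + 1) : (x : ZMod p) ^ (2 ^ m) = -1 := by
  have h : ((x ^ (2 ^ m) + 1 : ℕ) : ZMod p) = 0 := by rw [← hp]; exact ZMod.natCast_self p
  push_cast at h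
  linear_combination h

lemma cpow_half {m p x : ℕ} (hp : p = x ^ (2 ^ m) + 1) :
    (-(x : ZMod p) ^ (2 ^ m - 1)) ^ (2 ^ m) = -1 := by
  have h4 := congrArg (· ^ (2 ^ m)) (cpow hp)
  simp only [mul_pow, xpow hp, one_pow] at h4
  linear_combination -h4

section

variable {m : ℕ} {O : Type} [CommRing O] {ζ : O} (H : CycRing (m + 1) O ζ)

include H

lemma CycRing.pow_card : ζ ^ (2 ^ (m + 1)) = 1 := H.prim.pow_eq_one

lemma CycRing.ex_neg_one_pow {j : ZMod (2 ^ (m + 1))} (hj : j ≠ 0) :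
    ∃ k : ℕ, (ex ζ j) ^ k = -1 := by
  have h0 : j.val ≠ 0 := by rwa [Ne, ZMod.val_eq_zero]
  obtain ⟨e, o, ho, he⟩ := Nat.exists_eq_two_pow_mul_odd h0
  have hlt : j.val < 2 ^ (m + 1) := ZMod.val_lt j
  have hem : e ≤ m := by
    by_contra hcon
    have h1 : 2 ^ (m + 1) ≤ 2 ^ e := Nat.pow_le_pow_right (by norm_num) (by omega)
    have h2 : 1 ≤ o := ho.pos
    have h3 : 2 ^ e * 1 ≤ 2 ^ e * o := Nat.mul_le_mul_left _ h2
    omega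
  refine ⟨2 ^ (m - e), ?_⟩
  unfold ex
  rw [he, ← pow_mul]
  have : 2 ^ e * o * 2 ^ (m - e) = 2 ^ m * o := by
    have : (2 : ℕ) ^ m = 2 ^ e * 2 ^ (m - e) := by rw [← pow_add]; congr 1; omega
    rw [this]; ring
  rw [this, pow_mul, H.pow_half, ho.neg_one_pow]

lemma CycRing.one_sub_ex_dvd_two {j : ZMod (2 ^ (m + 1))} (hj : j ≠ 0) :
    (1 - ex ζ j) ∣ (2 : O) := by
  obtain ⟨k, hk⟩ := H.ex_neg_one_pow hj
  have h := sub_dvd_pow_sub_pow (1 : O) (ex ζ j) k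
  rw [hk, one_pow] at h
  have : (1 : O) - -1 = 2 := by norm_num
  rwa [this] at h

variable {p x : ℕ} (hp : p = x ^ (2 ^ m) + 1)

include hp

lemma CycRing.prod_al_eq : ∏ t : (ZMod (2 ^ (m + 1)))ˣ, al (x : O) ζ t = (p : O) := by
  rw [prod_al m ζ (x : O) H.pow_half, hp]
  push_cast
  ring

lemma CycRing.al_dvd_p (t : (ZMod (2 ^ (m + 1)))ˣ) : al (x : O) ζ t ∣ (p : O) := by
  rw [← H.prod_al_eq hp]
  exact Finset.dvd_prod_of_mem _ (Finset.mem_univ t)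

/-- `ζ` is congruent to an integer modulo `α_t`. -/
lemma CycRing.al_dvd_zeta_sub (t : (ZMod (2 ^ (m + 1)))ˣ) :
    al (x : O) ζ t ∣ ζ - (((-(x : ℤ) ^ (2 ^ m - 1)) ^ (t : ZMod (2 ^ (m + 1))).val : ℤ) : O) := by
  have hxC : (x : O) * ((-(x : ℤ) ^ (2 ^ m - 1) : ℤ) : O) = 1 - (p : O) := by
    rw [hp]
    have : (2 : ℕ) ^ m = (2 ^ m - 1) + 1 := (Nat.sub_add_cancel Nat.one_le_two_pow).symm
    push_cast
    conv_rhs => rw [this, pow_succ]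
    ring
  set C : O := ((-(x : ℤ) ^ (2 ^ m - 1) : ℤ) : O) with hC
  have h1 : al (x : O) ζ t ∣ ex ζ ((t⁻¹ : (ZMod (2 ^ (m + 1)))ˣ) : ZMod (2 ^ (m + 1))) - C := by
    have : ex ζ ((t⁻¹ : (ZMod (2 ^ (m + 1)))ˣ) : ZMod (2 ^ (m + 1))) - C =
        (p : O) * ex ζ ((t⁻¹ : (ZMod (2 ^ (m + 1)))ˣ) : ZMod (2 ^ (m + 1))) -
        C * al (x : O) ζ t := by
      unfold al
      linear_combination (-ex ζ ((t⁻¹ : (ZMod (2 ^ (m + 1)))ˣ) : ZMod (2 ^ (m + 1)))) * hxC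
    rw [this]
    exact dvd_sub (Dvd.dvd.mul_right (H.al_dvd_p hp t) _) (Dvd.intro_left _ rfl)
  have h2 : ζ = (ex ζ ((t⁻¹ : (ZMod (2 ^ (m + 1)))ˣ) : ZMod (2 ^ (m + 1)))) ^
      (t : ZMod (2 ^ (m + 1))).val := by
    rw [← ex_mul H.pow_card, ← Units.val_mul, mul_inv_cancel, Units.val_one]
    have := ex_natCast (N := 2 ^ (m + 1)) (z := ζ) H.pow_card 1
    simp only [Nat.cast_one, pow_one] at this
    exact this.symm
  have h3 := (sub_dvd_pow_sub_pow (ex ζ ((t⁻¹ : (ZMod (2 ^ (m + 1)))ˣ) : ZMod (2 ^ (m + 1)))) C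
    (t : ZMod (2 ^ (m + 1))).val)
  rw [← h2] at h3
  have h4 := h1.trans h3
  rw [hC, ← Int.cast_pow] at h4
  exact h4



/-- the homomorphism `ρ_t : O → ZMod p` with `x ρ_t(ζ^{t⁻¹}) = 1`. -/
lemma CycRing.exists_rho (t : (ZMod (2 ^ (m + 1)))ˣ) :
    ∃ ρ : O →+* ZMod p, ρ ζ = (-(x : ZMod p) ^ (2 ^ m - 1)) ^ (t : ZMod (2 ^ (m + 1))).val := by
  apply H.lift
  rw [Nat.add_sub_cancel, ← pow_mul, mul_comm, pow_mul, cpow_half hp, (unit_val_odd t).neg_one_pow]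

lemma CycRing.al_dvd_of_rho (t : (ZMod (2 ^ (m + 1)))ˣ) {ρ : O →+* ZMod p}
    (hρ : ρ ζ = (-(x : ZMod p) ^ (2 ^ m - 1)) ^ (t : ZMod (2 ^ (m + 1))).val) {y : O}
    (hy : ρ y = 0) : al (x : O) ζ t ∣ y := by
  obtain ⟨f, rfl⟩ := H.gen y
  set D : ℤ := (-(x : ℤ) ^ (2 ^ m - 1)) ^ (t : ZMod (2 ^ (m + 1))).val with hD
  have h1 : al (x : O) ζ t ∣ ζ - (D : O) := H.al_dvd_zeta_sub hp t
  have h2 : ζ - (D : O) ∣ aeval ζ f - aeval (D : O) f := by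
    simp only [aeval_def, ← eval_map]
    exact Polynomial.sub_dvd_eval_sub _ _ _
  have h3 : aeval (D : O) f = ((f.eval D : ℤ) : O) := by
    have := Polynomial.aeval_algebraMap_apply O D f
    simpa using this
  have h4 : (p : ℤ) ∣ f.eval D := by
    rw [← ZMod.intCast_zmod_eq_zero_iff_dvd]
    have e1 : ρ (aeval ζ f) = eval₂ (ρ.comp (algebraMap ℤ O)) (ρ ζ) f := by
      rw [aeval_def, hom_eval₂]
    have e2 : ρ.comp (algebraMap ℤ O) = Int.castRingHom (ZMod p) := RingHom.ext_int _ _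
    have e3 : ρ ζ = Int.castRingHom (ZMod p) D := by
      rw [hρ, hD]; simp
    rw [e1, e2, e3, eval₂_at_apply] at hy
    simpa using hy
  have h5 : al (x : O) ζ t ∣ ((f.eval D : ℤ) : O) := by
    obtain ⟨k, hk⟩ := h4
    rw [hk]
    push_cast
    exact Dvd.dvd.mul_right (H.al_dvd_p hp t) _
  have h6 := h1.trans h2
  rw [h3] at h6
  have := dvd_add h6 h5
  simpa using this

lemma CycRing.isCoprime_al (hx : 2 ∣ x) {t t' : (ZMod (2 ^ (m + 1)))ˣ} (htt : t ≠ t') :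
    IsCoprime (al (x : O) ζ t) (al (x : O) ζ t') := by
  set e := ex ζ ((t⁻¹ : (ZMod (2 ^ (m + 1)))ˣ) : ZMod (2 ^ (m + 1))) with he
  set e' := ex ζ ((t'⁻¹ : (ZMod (2 ^ (m + 1)))ˣ) : ZMod (2 ^ (m + 1))) with he'
  have hj : ((t⁻¹ : (ZMod (2 ^ (m + 1)))ˣ) : ZMod (2 ^ (m + 1))) -
      ((t'⁻¹ : (ZMod (2 ^ (m + 1)))ˣ) : ZMod (2 ^ (m + 1))) ≠ 0 := by
    intro h
    apply htt
    have h1 := sub_eq_zero.mp h
    have h2 := Units.ext h1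
    exact inv_injective h2
  obtain ⟨d, hd⟩ := H.one_sub_ex_dvd_two hj
  have h1 : e = e' * ex ζ (((t⁻¹ : (ZMod (2 ^ (m + 1)))ˣ) : ZMod (2 ^ (m + 1))) -
      ((t'⁻¹ : (ZMod (2 ^ (m + 1)))ˣ) : ZMod (2 ^ (m + 1)))) := by
    rw [he, he', ← ex_add H.pow_card]
    congr 1
    ring
  obtain ⟨v, hv⟩ := (ex_isUnit H.pow_card ((t'⁻¹ : (ZMod (2 ^ (m + 1)))ˣ) :
    ZMod (2 ^ (m + 1)))).exists_left_inv
  rw [← he'] at hv
  obtain ⟨P, hP⟩ := H.al_dvd_p hp t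
  obtain ⟨y, hy⟩ := hx
  have hodd : ∃ k : ℕ, p = 2 * k + 1 := by
    obtain ⟨w, hw⟩ : 2 ∣ x ^ (2 ^ m) := dvd_pow (Dvd.intro _ hy.symm) (by positivity)
    exact ⟨w, by rw [hp, hw]⟩
  obtain ⟨k, hk⟩ := hodd
  have hpk : (p : O) = 2 * k + 1 := by rw [hk]; push_cast; ring
  set j := ex ζ (((t⁻¹ : (ZMod (2 ^ (m + 1)))ˣ) : ZMod (2 ^ (m + 1))) -
      ((t'⁻¹ : (ZMod (2 ^ (m + 1)))ˣ) : ZMod (2 ^ (m + 1)))) with hjj
  -- e' * al t - e * al t' = e' - e = e' (1 - j)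
  refine ⟨P - k * (d * v * e'), k * (d * v * e), ?_⟩
  have h2 : al (x : O) ζ t = 1 - (x : O) * e := rfl
  have h3 : al (x : O) ζ t' = 1 - (x : O) * e' := rfl
  rw [h2] at hP
  rw [h2, h3]
  rw [h1] at hP ⊢
  linear_combination (-1 : O) * hP + hpk + (k : O) * hd - (k : O) * d * (1 - j) * hv

end

end Pool.Agent.Y875.FP
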