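import Pool.Agent.Y875.FP.Conv

/-!
The power residue law for an arbitrary prime base `q`, in terms of a product in characteristic `q`.
-/

namespace Pool.Agent.Y875.FP

/-- The product in characteristic `q`. -/
noncomputable def DD {L : Type} [Field L] (r q : ℕ) (x z : L) : L :=
  ∏ t : (ZMod (2 ^ (r + 1)))ˣ, (1 - x * z ^ ((t⁻¹ : (ZMod (2 ^ (r + 1)))ˣ) :
    ZMod (2 ^ (r + 1))).val) ^ (q - 1 - q * (t : ZMod (2 ^ (r + 1))).val / 2 ^ (r + 1))

lemma DD_eq {L : Type} [Field L] (r q : ℕ) (x z : L) :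
    DD r q x z = ∏ t : (ZMod (2 ^ (r + 1)))ˣ, al x z t ^
        (q - 1 - q * (t : ZMod (2 ^ (r + 1))).val / 2 ^ (r + 1)) := rfl

lemma natCast_pow_char {L : Type} [Field L] {q : ℕ} [Fact q.Prime] [CharP L q] (n : ℕ) :
    (n : L) ^ q = (n : L) := by
  have h1 := map_natCast (frobenius L q) n
  rwa [frobenius_def] at h1

lemma exp_id {s E N v q : ℕ} (hs : q - 1 = s + E) (hE : E = q * v / N) :
    s * N + q * v = (q - 1) * N + (q * v % N) := by
  have h2 := Nat.mod_add_div (q * v) N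
  rw [← hE] at h2
  rw [hs]
  calc s * N + q * v = s * N + (q * v % N + N * E) := by rw [h2]
    _ = (s + E) * N + q * v % N := by ring

/-- `D ^ N = 1`. -/
lemma DD_pow {L : Type} [Field L] {r q : ℕ} [hq : Fact q.Prime] [CharP L q] (hq2 : q ≠ 2)
    {x : ℕ} {z : L} (hz : z ^ (2 ^ r) = -1) (hx : ((x ^ (2 ^ r) + 1 : ℕ) : L) ≠ 0) :
    DD r q (x : L) z ^ (2 ^ (r + 1)) = 1 := by
  have hqodd : Odd q := hq.out.odd_of_ne_two hq2
  have hcopN : Nat.Coprime q (2 ^ (r + 1)) :=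
    Nat.Coprime.pow_right _ (Nat.coprime_two_right.mpr hqodd)
  set Q : (ZMod (2 ^ (r + 1)))ˣ := ZMod.unitOfCoprime q hcopN with hQdef
  have hQ : (Q : ZMod (2 ^ (r + 1))) = q := ZMod.coe_unitOfCoprime q hcopN
  have hprod : ∏ t : (ZMod (2 ^ (r + 1)))ˣ, al (x : L) z t = ((x ^ (2 ^ r) + 1 : ℕ) : L) := by
    rw [prod_al r z (x : L) hz]
    push_cast
    ring
  have hxq : (x : L) ^ q = (x : L) := natCast_pow_char x
  have hfrob : ∀ t : (ZMod (2 ^ (r + 1)))ˣ, al (x : L) z (Q⁻¹ * t) = al (x : L) z t ^ q := by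
    intro t
    unfold al
    rw [sub_pow_char, one_pow, mul_pow, hxq, ← ex_nat_mul (zN hz), mul_inv, inv_inv,
      Units.val_mul, hQ]
  have hr : ∏ t : (ZMod (2 ^ (r + 1)))ˣ, al (x : L) z t ^ ((Q * t : (ZMod (2 ^ (r + 1)))ˣ) :
      ZMod (2 ^ (r + 1))).val =
      ∏ t : (ZMod (2 ^ (r + 1)))ˣ, al (x : L) z t ^ (q * (t : ZMod (2 ^ (r + 1))).val) := by
    refine Fintype.prod_equiv (Equiv.mulLeft Q) _ _ ?_
    intro t
    rw [Equiv.coe_mulLeft, pow_mul, ← hfrob, inv_mul_cancel_left]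
  have hne : ∀ t : (ZMod (2 ^ (r + 1)))ˣ, al (x : L) z t ≠ 0 := by
    intro t ht
    apply hx
    rw [← hprod]
    exact Finset.prod_eq_zero (Finset.mem_univ t) ht
  have hne2 : ∏ t : (ZMod (2 ^ (r + 1)))ˣ, al (x : L) z t ^ (q * (t : ZMod (2 ^ (r + 1))).val) ≠ 0 :=
    Finset.prod_ne_zero_iff.mpr fun t _ => pow_ne_zero _ (hne t)
  have hval : ∀ t : (ZMod (2 ^ (r + 1)))ˣ, ((Q * t : (ZMod (2 ^ (r + 1)))ˣ) :
      ZMod (2 ^ (r + 1))).val = (q * (t : ZMod (2 ^ (r + 1))).val) % 2 ^ (r + 1) := by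
    intro t
    rw [Units.val_mul, hQ, ZMod.val_mul, ZMod.val_natCast, Nat.mod_mul_mod]
  have hflt : ((x ^ (2 ^ r) + 1 : ℕ) : L) ^ (q - 1) = 1 := by
    have h1 : ((x ^ (2 ^ r) + 1 : ℕ) : L) ^ q = _ := natCast_pow_char (x ^ (2 ^ r) + 1)
    have h2 : ((x ^ (2 ^ r) + 1 : ℕ) : L) ^ (q - 1) * ((x ^ (2 ^ r) + 1 : ℕ) : L) =
        1 * ((x ^ (2 ^ r) + 1 : ℕ) : L) := by
      rw [← pow_succ, Nat.sub_add_cancel hq.out.one_lt.le, h1, one_mul]
    exact mul_right_cancel₀ hx h2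
  have key : DD r q (x : L) z ^ (2 ^ (r + 1)) *
      ∏ t : (ZMod (2 ^ (r + 1)))ˣ, al (x : L) z t ^ (q * (t : ZMod (2 ^ (r + 1))).val) =
      (∏ t : (ZMod (2 ^ (r + 1)))ˣ, al (x : L) z t) ^ ((q - 1) * 2 ^ (r + 1)) *
      ∏ t : (ZMod (2 ^ (r + 1)))ˣ, al (x : L) z t ^ ((Q * t : (ZMod (2 ^ (r + 1)))ˣ) :
      ZMod (2 ^ (r + 1))).val := by
    rw [DD_eq, ← Finset.prod_pow, ← Finset.prod_pow, ← Finset.prod_mul_distrib,
      ← Finset.prod_mul_distrib]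
    refine Finset.prod_congr rfl fun t _ => ?_
    rw [← pow_mul, ← pow_add, ← pow_add, hval]
    congr 1
    have h1 := div_lt_self' (k := q) hq.out.one_lt.le (ZMod.val_lt (t : ZMod (2 ^ (r + 1))))
    refine exp_id ?_ rfl
    have h3 : ∀ E : ℕ, E < q → q - 1 = q - 1 - E + E := by intro E hE; omega
    exact h3 _ h1
  rw [hr, hprod, pow_mul, hflt, one_pow, one_mul] at key
  exact mul_right_cancel₀ hne2 (key.trans (one_mul _).symm)

/-- existence and uniqueness of the exponent. -/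
lemma DD_exists {L : Type} [Field L] {r q : ℕ} [hq : Fact q.Prime] [CharP L q] (hq2 : q ≠ 2)
    {x : ℕ} {z : L} (hz : z ^ (2 ^ r) = -1) (hx : ((x ^ (2 ^ r) + 1 : ℕ) : L) ≠ 0) :
    ∃ c : ZMod (2 ^ (r + 1)), DD r q (x : L) z * ex z ((q : ZMod (2 ^ (r + 1))) * c) = 1 := by
  have hqodd : Odd q := hq.out.odd_of_ne_two hq2
  have h2L : (2 : L) ≠ 0 := by
    intro h
    have h2 : ((2 : ℕ) : L) = 0 := by exact_mod_cast h
    rw [CharP.cast_eq_zero_iff L q 2] at h2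
    have := Nat.le_of_dvd (by norm_num) h2
    have := hq.out.two_le
    omega
  have hcopN : Nat.Coprime q (2 ^ (r + 1)) :=
    Nat.Coprime.pow_right _ (Nat.coprime_two_right.mpr hqodd)
  set Q : (ZMod (2 ^ (r + 1)))ˣ := ZMod.unitOfCoprime q hcopN with hQdef
  have hQ : (Q : ZMod (2 ^ (r + 1))) = q := ZMod.coe_unitOfCoprime q hcopN
  have h1 := DD_pow hq2 hz hx
  obtain ⟨i, hi, hi2⟩ := (prim_of_half hz h2L).eq_pow_of_pow_eq_one h1
  refine ⟨((Q⁻¹ : (ZMod (2 ^ (r + 1)))ˣ) : ZMod (2 ^ (r + 1))) *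
    (-(i : ZMod (2 ^ (r + 1)))), ?_⟩
  rw [← hQ, ← mul_assoc, Units.mul_inv, one_mul, ← hi2, ← ex_natCast (zN hz) i]
  exact ex_mul_neg (zN hz) _

/-- The reciprocity law for an arbitrary odd prime `q`. -/
theorem any_law {r p x T q : ℕ} [hpp : Fact p.Prime] (hp : p = x ^ (2 ^ r) + 1) (hp2 : p ≠ 2)
    (hT : 2 ^ (r + 1) * T = x ^ (2 ^ r)) (hr : 2 ≤ r) (hTe : Even T) (h2T : (2 : ZMod p) ^ T = 1)
    (hx : 4 ∣ x ∨ (2 ∣ x ∧ 3 ≤ r)) [hq : Fact q.Prime] (hq2 : q ≠ 2) (hqp : q ≠ p)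
    {L : Type} [Field L] [CharP L q] {z : L} (hz : z ^ (2 ^ r) = -1)
    {c : ZMod (2 ^ (r + 1))} (hc : DD r q (x : L) z * ex z ((q : ZMod (2 ^ (r + 1))) * c) = 1) :
    (q : ZMod p) ^ T * (x : ZMod p) ^ c.val = 1 := by
  let F := AlgebraicClosure L
  have hF : CharP F q := charP_of_injective_algebraMap (algebraMap L F).injective q
  have hpF : ((p : ℕ) : F) ≠ 0 := by
    intro h
    rw [CharP.cast_eq_zero_iff F q p] at h
    exact hqp ((Nat.prime_dvd_prime_iff_eq hq.out hpp.out).mp h)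
  have : NeZero ((p : ℕ) : F) := ⟨hpF⟩
  obtain ⟨ω, hω⟩ := HasEnoughRootsOfUnity.exists_primitiveRoot F p
  set ψ : AddChar (ZMod p) F := AddChar.zmodChar p ((IsPrimitiveRoot.iff_def ω p).mp hω).left
  have hψ : ψ.IsPrimitive := AddChar.zmodChar_primitive_of_primitive_root p hω
  set w : F := algebraMap L F z with hw
  have hwz : w ^ (2 ^ r) = -1 := by rw [hw, ← map_pow, hz, map_neg, map_one]
  have h2F : (2 : F) ≠ 0 := by
    intro h
    have h2 : ((2 : ℕ) : F) = 0 := by exact_mod_cast h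
    rw [CharP.cast_eq_zero_iff F q 2] at h2
    have := Nat.le_of_dvd (by norm_num) h2
    have := hq.out.two_le
    omega
  obtain ⟨O, _, ζ, H⟩ := exists_cycRing (r + 1) (by omega)
  obtain ⟨χ, hχ⟩ := H.exists_chi hp hp2 hT
  have hχ : IsRes r p x T ζ χ := hχ
  have h20 : (2 : ZMod p) ≠ 0 := by
    intro h
    have h3 : ((2 : ℕ) : ZMod p) = 0 := by exact_mod_cast h
    rw [ZMod.natCast_eq_zero_iff] at h3
    exact hp2 ((Nat.prime_dvd_prime_iff_eq hpp.out Nat.prime_two).mp h3)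
  have hχ2 : χ 2 = 1 := by
    obtain ⟨j, hj1, hj2⟩ := hχ 2 h20
    have h3 : j = 0 := by
      apply ex_injective (ci_prim hp hp2)
      rw [hj2, h2T, ex_zero]
    rw [hj1, h3, ex_zero]
  have hJac : JacVal r x ζ χ := fun a ha ha' =>
    H.jacobi_eq_even hp hp2 hT hχ hr hTe hχ2 hx ha ha'
  obtain ⟨τ, hτ⟩ := H.lift F w (by rw [Nat.add_sub_cancel]; exact hwz)
  have hfrob := H.frob hp hp2 hT hχ (by omega) hTe hJac h2F τ hψ q hq2 hqp
  have hq0 : (q : ZMod p) ≠ 0 := by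
    intro h
    rw [ZMod.natCast_eq_zero_iff] at h
    exact hqp ((Nat.prime_dvd_prime_iff_eq hpp.out hq.out).mp h).symm
  obtain ⟨j, hj1, hj2⟩ := hχ (q : ZMod p) hq0
  rw [hj1, map_ex, hτ, ← ex_nat_mul (zN hwz), ← DD_eq] at hfrob
  have hc' : DD r q (x : F) w * ex w ((q : ZMod (2 ^ (r + 1))) * c) = 1 := by
    have h1 := congrArg (algebraMap L F) hc
    rw [map_mul, map_one, map_ex, ← hw] at h1
    have h3 : algebraMap L F (DD r q (x : L) z) = DD r q (x : F) w := by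
      rw [DD_eq, DD_eq, map_prod]
      refine Finset.prod_congr rfl fun t _ => ?_
      rw [map_pow, map_al, map_natCast]
    rwa [h3] at h1
  have hD0 : DD r q (x : F) w ≠ 0 := by
    intro h
    rw [h, zero_mul] at hc'
    exact zero_ne_one hc'
  have h1 : ex w ((q : ZMod (2 ^ (r + 1))) * j) = ex w ((q : ZMod (2 ^ (r + 1))) * c) := by
    apply mul_left_cancel₀ hD0
    rw [hc', mul_comm]
    exact hfrob
  have h2 := ex_injective (prim_of_half hwz h2F) h1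
  have hqodd : Odd q := hq.out.odd_of_ne_two hq2
  have hcopN : Nat.Coprime q (2 ^ (r + 1)) :=
    Nat.Coprime.pow_right _ (Nat.coprime_two_right.mpr hqodd)
  have hQ : ((ZMod.unitOfCoprime q hcopN : (ZMod (2 ^ (r + 1)))ˣ) : ZMod (2 ^ (r + 1))) = q :=
    ZMod.coe_unitOfCoprime q hcopN
  rw [← hQ] at h2
  have h3 : j = c := (Units.isUnit _).mul_left_cancel h2
  have hcc := cpow hp
  rw [← hj2, h3]
  unfold ex ci
  rw [← mul_pow, hcc, one_pow]

end Pool.Agent.Y875.FP
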