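import Pool.Agent.Y875.FP.Any

/-!
Specialisation of `any_law` to Fermat numbers.
-/

namespace Pool.Agent.Y875.FP

theorem any_fermat {j r q : ℕ} (hr : 2 ≤ r) (hjr : 3 ≤ j + r)
    (hq : q.Prime) (hq2 : q ≠ 2) (hqF : ¬ q ∣ Nat.fermatNumber (j + r))
    {L : Type} [Field L] [CharP L q] {z : L} (hz : z ^ (2 ^ r) = -1) :
    ∃ c : ℕ, c < 2 ^ (r + 1) ∧
      (∏ t : (ZMod (2 ^ (r + 1)))ˣ, (1 - 2 ^ (2 ^ j) * z ^ (t⁻¹.val.val)) ^
        (q - 1 - q * t.val.val / 2 ^ (r + 1))) * z ^ (q * c) = 1 ∧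
      ((Nat.fermatNumber (j + r)).Prime →
        (q : ZMod (Nat.fermatNumber (j + r))) ^ (2 ^ (2 ^ (j + r) - (r + 1))) *
          2 ^ (2 ^ j * c) = 1) ∧
      (c ≠ 0 → (q : ZMod (Nat.fermatNumber (j + r))) ^ (2 ^ (2 ^ (j + r) - (r + 1))) *
          2 ^ (2 ^ j * c) = 1 → (Nat.fermatNumber (j + r)).Prime) := by
  have : Fact q.Prime := ⟨hq⟩
  have hpow : (2 ^ 2 ^ j) ^ 2 ^ r = 2 ^ 2 ^ (j + r) := by
    rw [← pow_mul, ← pow_add]
  have hp : Nat.fermatNumber (j + r) = (2 ^ 2 ^ j) ^ 2 ^ r + 1 := by rw [hpow]; rfl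
  have hx : (((2 ^ 2 ^ j) ^ (2 ^ r) + 1 : ℕ) : L) ≠ 0 := by
    intro h
    rw [CharP.cast_eq_zero_iff L q] at h
    apply hqF
    rwa [hp]
  obtain ⟨c, hc⟩ := DD_exists (r := r) hq2 hz hx
  have hval : ex z ((q : ZMod (2 ^ (r + 1))) * c) = z ^ (q * c.val) := by
    rw [← ex_natCast (zN hz) (q * c.val)]
    congr 1
    push_cast
    rw [ZMod.natCast_zmod_val]
  refine ⟨c.val, ZMod.val_lt c, ?_, ?_, ?_⟩
  · rw [hval] at hc
    unfold DD at hc
    push_cast at hc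
    exact hc
  · intro hF
    have : Fact (Nat.fermatNumber (j + r)).Prime := ⟨hF⟩
    have hbd := exp_bound (j := j) hr
    have hp2 : Nat.fermatNumber (j + r) ≠ 2 := by
      have := Nat.three_le_fermatNumber (j + r)
      omega
    have hjr' : 1 ≤ j ∨ 3 ≤ r := by omega
    have hbd2 := exp_bound2 hr hjr'
    have hqp : q ≠ Nat.fermatNumber (j + r) := by
      intro h
      exact hqF (by rw [h])
    have h1 := any_law (r := r) (x := 2 ^ 2 ^ j) (T := 2 ^ (2 ^ (j + r) - (r + 1))) hp hp2 ?_ hr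
      ?_ ?_ ?_ hq2 hqp hz hc
    · rw [pow_mul]
      push_cast at h1
      exact h1
    · rw [hpow, ← pow_add, Nat.add_sub_cancel' (by omega)]
    · rw [Nat.even_pow]
      exact ⟨even_two, by omega⟩
    · obtain ⟨c, hc⟩ : 2 ^ (j + r + 1) ∣ 2 ^ (2 ^ (j + r) - (r + 1)) := Nat.pow_dvd_pow 2 hbd2
      have h2k : (2 : ZMod (Nat.fermatNumber (j + r))) ^ (2 ^ (j + r)) = -1 := by
        have h1 : ((Nat.fermatNumber (j + r) : ℕ) : ZMod (Nat.fermatNumber (j + r))) = 0 :=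
          ZMod.natCast_self _
        conv at h1 => lhs; arg 1; unfold Nat.fermatNumber
        push_cast at h1
        linear_combination h1
      rw [hc, pow_mul, pow_succ, pow_mul, h2k]
      simp
    · rcases hjr' with h | h
      · left
        have h4 : (4 : ℕ) = 2 ^ 2 := by norm_num
        rw [h4]
        apply Nat.pow_dvd_pow
        calc 2 = 2 ^ 1 := by norm_num
          _ ≤ 2 ^ j := Nat.pow_le_pow_right (by norm_num) h
      · right
        exact ⟨dvd_pow_self 2 (by positivity), h⟩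
  · intro hc0 h
    refine conv hr ?_ h
    intro hdvd
    have h1 := Nat.le_of_dvd (Nat.pos_of_ne_zero hc0) hdvd
    have h2 := ZMod.val_lt c
    omega

end Pool.Agent.Y875.FP
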