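import Pool.Agent.Y875.FP.Alpha

/-!
The power residue character of order `2^(m+1)` modulo the prime `p = x^(2^m)+1`.
-/

open Polynomial

namespace Pool.Agent.Y875.FP

/-- the inverse of `x` in `ZMod p`. -/
def ci (m p x : ℕ) : ZMod p := -(x : ZMod p) ^ (2 ^ m - 1)

lemma neg_one_ne_one {p : ℕ} [Fact p.Prime] (hp2 : p ≠ 2) : (-1 : ZMod p) ≠ 1 := by
  have : Fact (2 < p) := ⟨by have := (Fact.out : p.Prime).two_le; omega⟩
  exact ZMod.neg_one_ne_one

lemma ci_prim {m p x : ℕ} [Fact p.Prime] (hp : p = x ^ (2 ^ m) + 1) (hp2 : p ≠ 2) :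
    IsPrimitiveRoot (ci m p x) (2 ^ (m + 1)) := by
  have h1 := cpow_half hp
  have h2 : orderOf (ci m p x) = 2 ^ (m + 1) := by
    apply orderOf_eq_prime_pow
    · unfold ci
      rw [h1]
      exact neg_one_ne_one hp2
    · unfold ci
      rw [pow_succ, pow_mul, h1]
      ring
  rw [← h2]
  exact IsPrimitiveRoot.orderOf _

lemma ex_injective {A : Type} [CommRing A] {N : ℕ} [NeZero N] {z : A}
    (hz : IsPrimitiveRoot z N) : Function.Injective (ex z : ZMod N → A) := by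
  intro a b hab
  unfold ex at hab
  apply ZMod.val_injective
  exact hz.pow_inj (ZMod.val_lt a) (ZMod.val_lt b) hab

section

variable {m : ℕ} {O : Type} [CommRing O] {ζ : O} (H : CycRing (m + 1) O ζ)
  {p x T : ℕ} [hpp : Fact p.Prime] (hp : p = x ^ (2 ^ m) + 1) (hp2 : p ≠ 2)
  (hT : 2 ^ (m + 1) * T = x ^ (2 ^ m))

include hp hp2 hT

lemma exists_index (u : ZMod p) (hu : u ≠ 0) :
    ∃ j : ZMod (2 ^ (m + 1)), ex (ci m p x) j = u ^ T := by
  have hc := ci_prim hp hp2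
  have h1 : (u ^ T) ^ (2 ^ (m + 1)) = 1 := by
    rw [← pow_mul, mul_comm, hT]
    have : x ^ (2 ^ m) = p - 1 := by omega
    rw [this]
    exact ZMod.pow_card_sub_one_eq_one hu
  obtain ⟨i, hi, hi2⟩ := hc.eq_pow_of_pow_eq_one h1
  refine ⟨(i : ZMod (2 ^ (m + 1))), ?_⟩
  rw [ex_natCast hc.pow_eq_one, hi2]

include H

/-- The power residue character `χ` with `χ(u) ≡ u^T`. -/
theorem CycRing.exists_chi :
    ∃ χ : MulChar (ZMod p) O, ∀ u : ZMod p, u ≠ 0 →
      ∃ j : ZMod (2 ^ (m + 1)), χ u = ex ζ j ∧ ex (ci m p x) j = u ^ T := by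
  have hc := ci_prim hp hp2
  choose! j hj using exists_index hp hp2 hT
  let g : (ZMod p)ˣ →* O :=
    { toFun := fun u => ex ζ (j u)
      map_one' := by
        have h1 : ex (ci m p x) (j ((1 : (ZMod p)ˣ) : ZMod p)) =
            ex (ci m p x) (0 : ZMod (2 ^ (m + 1))) := by
          rw [hj _ (Units.ne_zero _), ex_zero]; simp
        rw [ex_injective hc h1, ex_zero]
      map_mul' := by
        intro u v
        have h1 : ex (ci m p x) (j ((u * v : (ZMod p)ˣ) : ZMod p)) =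
            ex (ci m p x) (j (u : ZMod p) + j (v : ZMod p)) := by
          rw [hj _ (Units.ne_zero _), ex_add hc.pow_eq_one, hj _ (Units.ne_zero _),
            hj _ (Units.ne_zero _), Units.val_mul, mul_pow]
        rw [ex_injective hc h1, ex_add H.pow_card] }
  refine ⟨MulChar.ofUnitHom g.toHomUnits, ?_⟩
  intro u hu
  refine ⟨j u, ?_, hj u hu⟩
  have h2 := MulChar.ofUnitHom_coe g.toHomUnits (Units.mk0 u hu)
  rw [Units.val_mk0] at h2
  rw [h2]
  rfl

end

section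

variable {m : ℕ} {O : Type} [CommRing O] {ζ : O}
  {p x T : ℕ} [hpp : Fact p.Prime] 

/-- `χ` is the power residue character. -/
def IsRes (m p x T : ℕ) {O : Type} [CommRing O] (ζ : O) (χ : MulChar (ZMod p) O) : Prop :=
  ∀ u : ZMod p, u ≠ 0 → ∃ j : ZMod (2 ^ (m + 1)), χ u = ex ζ j ∧ ex (ci m p x) j = u ^ T

variable {χ : MulChar (ZMod p) O} (hχ : IsRes m p x T ζ χ)
include hχ

lemma IsRes.rho {k : ℕ} {ρ : O →+* ZMod p} (hρ : ρ ζ = (ci m p x) ^ k)
    (u : ZMod p) (hu : u ≠ 0) : ρ (χ u) = u ^ (T * k) := by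
  obtain ⟨j, h1, h2⟩ := hχ u hu
  rw [h1, map_ex, hρ, pow_mul, ← h2]
  unfold ex
  rw [← pow_mul, ← pow_mul, mul_comm]

lemma IsRes.pow_card (hz : ζ ^ (2 ^ (m + 1)) = 1) : χ ^ (2 ^ (m + 1)) = 1 := by
  ext u
  obtain ⟨j, h1, h2⟩ := hχ u (Units.ne_zero u)
  rw [MulChar.pow_apply_coe, h1, ex_pow_card hz, MulChar.one_apply_coe]

end

end Pool.Agent.Y875.FP
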