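import Mathlib

/-!
An abstract interface for the ring `ℤ[ζ]`, `ζ` a primitive root of unity of order `2^n`,
together with its realisation as the ring of integers of the cyclotomic field.
-/

open Polynomial NumberField

namespace Pool.Agent.Y875.FP

/-- The ring `O` is generated by the primitive root of unity `ζ` of order `2^n`, ring
homomorphisms out of it are given by elements `c` with `c^(2^(n-1)) = -1`, and Kronecker's theorem
holds for it. -/
structure CycRing (n : ℕ) (O : Type) [CommRing O] (ζ : O) : Prop where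
  dom : IsDomain O
  ch0 : CharZero O
  prim : IsPrimitiveRoot ζ (2 ^ n)
  gen : ∀ y : O, ∃ f : ℤ[X], aeval ζ f = y
  lift : ∀ (A : Type) [CommRing A] (c : A), c ^ (2 ^ (n - 1)) = -1 → ∃ τ : O →+* A, τ ζ = c
  inj : ∀ σ : O →+* ℂ, Function.Injective σ
  kron : ∀ m : O, m ≠ 0 → (∀ σ : O →+* ℂ, ‖σ m‖ ≤ 1) → ∃ k : ℕ, 0 < k ∧ m ^ k = 1

lemma cyclotomic_two_pow_eval {A : Type} [CommRing A] (n : ℕ) (hn : 1 ≤ n) (c : A) :
    aeval c (cyclotomic (2 ^ n) ℤ) = c ^ (2 ^ (n - 1)) + 1 := by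
  obtain ⟨k, rfl⟩ : ∃ k, n = k + 1 := ⟨n - 1, by omega⟩
  rw [cyclotomic_prime_pow_eq_geom_sum Nat.prime_two]
  simp [Finset.sum_range_succ, add_comm]

theorem exists_cycRing (n : ℕ) (hn : 1 ≤ n) :
    ∃ (O : Type) (_ : CommRing O) (ζ : O), CycRing n O ζ := by
  let K := CyclotomicField (2 ^ n) ℚ
  have : NeZero (2 ^ n) := ⟨by positivity⟩
  have : IsCyclotomicExtension {2 ^ n} ℚ K := CyclotomicField.isCyclotomicExtension (2 ^ n) ℚ
  have : NumberField K := IsCyclotomicExtension.numberField {2 ^ n} ℚ K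
  have hζ : IsPrimitiveRoot (IsCyclotomicExtension.zeta (2 ^ n) ℚ K) (2 ^ n) :=
    IsCyclotomicExtension.zeta_spec (2 ^ n) ℚ K
  refine ⟨𝓞 K, inferInstance, hζ.toInteger, ?_, ?_, ?_, ?_, ?_, ?_, ?_⟩
  · infer_instance
  · infer_instance
  · exact hζ.toInteger_isPrimitiveRoot
  · intro y
    have h := hζ.integralPowerBasis.exists_eq_aeval' y
    obtain ⟨f, hf⟩ := h
    refine ⟨f, ?_⟩
    rw [hf, IsPrimitiveRoot.integralPowerBasis_gen]
  · intro A _ c hc
    have hmin : minpoly ℤ hζ.integralPowerBasis.gen = cyclotomic (2 ^ n) ℤ := by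
      rw [IsPrimitiveRoot.integralPowerBasis_gen, cyclotomic_eq_minpoly hζ (by positivity)]
      exact (minpoly.algebraMap_eq (RingOfIntegers.coe_injective) hζ.toInteger).symm
    have h0 : aeval c (minpoly ℤ hζ.integralPowerBasis.gen) = 0 := by
      rw [hmin, cyclotomic_two_pow_eval n hn, hc]
      ring
    refine ⟨(hζ.integralPowerBasis.lift c h0 : 𝓞 K →+* A), ?_⟩
    have := hζ.integralPowerBasis.lift_gen c h0
    rw [IsPrimitiveRoot.integralPowerBasis_gen] at this
    exact this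
  · intro σ
    rw [RingHom.injective_iff_ker_eq_bot]
    apply Ideal.eq_bot_of_comap_eq_bot (R := ℤ)
    rw [RingHom.comap_ker, ← RingHom.injective_iff_ker_eq_bot]
    have : σ.comp (algebraMap ℤ (𝓞 K)) = Int.castRingHom ℂ := RingHom.ext_int _ _
    rw [this]
    exact Int.cast_injective
  · intro m hm hσ
    have h1 : (m : K) ≠ 0 := by simpa using hm
    obtain ⟨k, hk, hk2⟩ := NumberField.Embeddings.pow_eq_one_of_norm_le_one K ℂ (x := (m : K)) h1
      m.2 (fun φ => hσ (φ.comp (algebraMap (𝓞 K) K)))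
    refine ⟨k, hk, ?_⟩
    apply RingOfIntegers.ext
    rw [RingOfIntegers.coe_eq_algebraMap, RingOfIntegers.coe_eq_algebraMap, map_pow, map_one]
    exact hk2

end Pool.Agent.Y875.FP
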