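import Pool.Agent.Y875.FP.Self

/-!
Evaluation of Jacobi sums from their residue modulo twice the maximal ideal.
-/

open Polynomial

namespace Pool.Agent.Y875.FP

lemma root_eq_one {O K : Type} [CommRing O] [IsDomain O] [Field K] [CharZero K] (τ : O →+* K)
    {ω : O} {k : ℕ} (hk : 0 < k) (h1 : ω ^ k = 1) (h2 : τ ω = 1) : ω = 1 := by
  have h3 : (∑ i ∈ Finset.range k, ω ^ i) * (ω - 1) = 0 := by
    rw [geom_sum_mul, h1, sub_self]
  rcases mul_eq_zero.mp h3 with h4 | h4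
  · exfalso
    have h5 := congrArg τ h4
    rw [map_sum, map_zero] at h5
    simp only [map_pow, h2, one_pow, Finset.sum_const, Finset.card_range, nsmul_eq_mul,
      mul_one] at h5
    have h6 : k = 0 := by exact_mod_cast h5
    omega
  · linear_combination h4

lemma prod_al_expand {A : Type} [CommRing A] {N : ℕ} (x z : A) (S : Finset (ZMod N)ˣ) :
    ∃ c : A, ∏ t ∈ S, al x z t =
      1 - x * ∑ t ∈ S, ex z ((t⁻¹ : (ZMod N)ˣ) : ZMod N) + x ^ 2 * c := by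
  classical
  induction S using Finset.induction_on with
  | empty => exact ⟨0, by simp⟩
  | insert t S ht ih =>
    obtain ⟨c, hc⟩ := ih
    rw [Finset.prod_insert ht, Finset.sum_insert ht, hc]
    unfold al
    exact ⟨c - x * ex z ((t⁻¹ : (ZMod N)ˣ) : ZMod N) * c + ex z ((t⁻¹ : (ZMod N)ˣ) : ZMod N) *
      ∑ t ∈ S, ex z ((t⁻¹ : (ZMod N)ˣ) : ZMod N), by ring⟩

section

variable {m : ℕ} {O : Type} [CommRing O] {ζ : O} (H : CycRing (m + 1) O ζ)
  {K : Type} [NormedField K] [IsUltrametricDist K] [CharZero K] (h2 : ‖(2 : K)‖ < 1)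
  (h20 : (2 : K) ≠ 0) (τ : O →+* K)
  {p x T : ℕ} [hpp : Fact p.Prime] (hp : p = x ^ (2 ^ m) + 1) (hp2 : p ≠ 2)
  (hT : 2 ^ (m + 1) * T = x ^ (2 ^ m))
  {χ : MulChar (ZMod p) O} (hχ : IsRes m p x T ζ χ)

include H hp hp2 hT hχ in
lemma CycRing.exists_unit (hx : 2 ∣ x) {a : ℕ} (ha : ¬ (2 ^ (m + 1) ∣ a))
    (ha' : ¬ (2 ^ (m + 1) ∣ a + 1)) :
    ∃ (e : O) (k : ℕ), 0 < k ∧ e ^ k = 1 ∧
      jacobiSum χ (χ ^ a) = (∏ t ∈ TS m a, al (x : O) ζ t) * e := by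
  have := H.dom
  obtain ⟨e, he⟩ := H.prod_dvd_jacobi hp hp2 hT hχ hx ha
  have h1 : ∀ σ : O →+* ℂ, ‖σ e‖ = 1 := by
    intro σ
    have h3 := H.norm_jacobi hp hp2 hT hχ σ ha ha'
    have h4 := H.norm_prod_al hp σ ha ha'
    rw [he, map_mul, norm_mul, mul_pow, h4] at h3
    have hp0 : (p : ℝ) ≠ 0 := by
      have := (Fact.out : p.Prime).ne_zero
      exact_mod_cast this
    have h5 : ‖σ e‖ ^ 2 = 1 := by
      have : (p : ℝ) * (‖σ e‖ ^ 2 - 1) = 0 := by linear_combination h3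
      rcases mul_eq_zero.mp this with h | h
      · exact absurd h hp0
      · linarith
    have h6 := norm_nonneg (σ e)
    nlinarith
  obtain ⟨c, hc⟩ : ∃ c : ℂ, c ^ (2 ^ m) = -1 :=
    IsAlgClosed.exists_pow_nat_eq (-1 : ℂ) (by positivity)
  obtain ⟨σ, -⟩ := H.lift ℂ c (by simpa using hc)
  have he0 : e ≠ 0 := by
    rintro rfl
    have := h1 σ
    rw [map_zero, norm_zero] at this
    exact zero_ne_one this
  obtain ⟨k, hk, hk1⟩ := H.kron e he0 (fun σ => (h1 σ).le)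
  exact ⟨e, k, hk, hk1, he⟩

include H h2 h20 hp hp2 hT hχ in
theorem CycRing.jacobi_of_close (hx : 2 ∣ x) {a : ℕ} (ha : ¬ (2 ^ (m + 1) ∣ a))
    (ha' : ¬ (2 ^ (m + 1) ∣ a + 1)) (h3 : ‖τ (jacobiSum χ (χ ^ a)) + 1‖ < ‖(2 : K)‖)
    (h4 : ‖τ (∏ t ∈ TS m a, al (x : O) ζ t) - 1‖ < ‖(2 : K)‖) :
    jacobiSum χ (χ ^ a) = -∏ t ∈ TS m a, al (x : O) ζ t := by
  have := H.dom
  obtain ⟨e, k, hk, hk1, he⟩ := H.exists_unit hp hp2 hT hχ hx ha ha'
  have h5 : ‖-τ e - 1‖ < ‖(2 : K)‖ := by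
    have h6 : -τ e - 1 = τ e * (τ (∏ t ∈ TS m a, al (x : O) ζ t) - 1) -
        (τ (jacobiSum χ (χ ^ a)) + 1) := by
      rw [he, map_mul]
      ring
    rw [h6]
    apply um_sub_lt _ h3
    rw [norm_mul]
    have h7 := H.norm_le τ e
    have h8 := norm_nonneg (τ (∏ t ∈ TS m a, al (x : O) ζ t) - 1)
    have h9 := norm_nonneg (τ e)
    nlinarith
  have h6 : -τ e - 1 = 0 := by
    apply near_one h2 (k := 2 * k) (by omega) h5
    have h7 : (1 + (-τ e - 1)) = τ (-e) := by rw [map_neg]; ring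
    rw [h7, ← map_pow, pow_mul, neg_sq, ← pow_mul, mul_comm, pow_mul, hk1, one_pow, map_one]
  have h7 : -e = 1 := by
    apply root_eq_one τ (k := 2 * k) (by omega)
    · rw [pow_mul, neg_sq, ← pow_mul, mul_comm, pow_mul, hk1, one_pow]
    · rw [map_neg]
      linear_combination h6
  rw [he]
  linear_combination (-(∏ t ∈ TS m a, al (x : O) ζ t)) * h7

end

end Pool.Agent.Y875.FP
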