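import Pool.Agent.Y875.FP.Four

/-!
Powers of the Gauss sum in characteristic `q`, and the Frobenius relation.
-/

open Polynomial

namespace Pool.Agent.Y875.FP

lemma div_succ_eq {N k t : ℕ} (hN : 0 < N) (htN : t < N) :
    (k + 1) * t / N = k * t / N + if (k * t) % N + t < N then 0 else 1 := by
  have h1 : (k + 1) * t = (k * t % N + t) + N * (k * t / N) := by
    have := Nat.mod_add_div (k * t) N
    rw [add_mul, one_mul]; omega
  rw [h1, Nat.add_mul_div_left _ _ hN, add_comm]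
  congr 1
  have h2 : k * t % N < N := Nat.mod_lt _ hN
  split_ifs with h
  · exact Nat.div_eq_of_lt h
  · rw [Nat.div_eq_iff hN]
    constructor <;> omega

lemma div_lt_self' {N k t : ℕ} (hk : 1 ≤ k) (htN : t < N) : k * t / N < k := by
  rw [Nat.div_lt_iff_lt_mul (by omega)]
  exact Nat.mul_lt_mul_of_pos_left htN (by omega)

/-- The evaluation of all the Jacobi sums `J(χ, χ^a)`. -/
def JacVal {O : Type} [CommRing O] {p : ℕ} [NeZero p] (m x : ℕ) (ζ : O) (χ : MulChar (ZMod p) O) :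
    Prop :=
  ∀ a : ℕ, ¬ (2 ^ (m + 1) ∣ a) → ¬ (2 ^ (m + 1) ∣ a + 1) →
    jacobiSum χ (χ ^ a) = -∏ t ∈ TS m a, al (x : O) ζ t

section

variable {m : ℕ} {O : Type} [CommRing O] {ζ : O} (H : CycRing (m + 1) O ζ)
  {p x T : ℕ} [hpp : Fact p.Prime] (hp : p = x ^ (2 ^ m) + 1) (hp2 : p ≠ 2)
  (hT : 2 ^ (m + 1) * T = x ^ (2 ^ m))
  {χ : MulChar (ZMod p) O} (hχ : IsRes m p x T ζ χ) (hm : 1 ≤ m) (hTe : Even T)
  (hJac : JacVal m x ζ χ)
  {L : Type} [Field L] (h2L : (2 : L) ≠ 0) (τ : O →+* L) {ψ : AddChar (ZMod p) L}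
  (hψ : ψ.IsPrimitive)

include H hp hp2 hT hχ in
lemma CycRing.chi_pow_mod (k : ℕ) : χ ^ (k % 2 ^ (m + 1)) = χ ^ k := by
  conv_rhs => rw [← Nat.div_add_mod k (2 ^ (m + 1)), pow_add, pow_mul, hχ.pow_card H.pow_card,
    one_pow, one_mul]

include H hp hp2 hT hχ hm hTe hJac h2L hψ in
lemma CycRing.gauss_step {k : ℕ} (hk : ¬ (2 ^ (m + 1) ∣ k)) (hk' : ¬ (2 ^ (m + 1) ∣ k + 1)) :
    gaussSum ((χ.ringHomComp τ) ^ k) ψ * gaussSum (χ.ringHomComp τ) ψ =
      (-∏ t ∈ TS m k, al (x : L) (τ ζ) t) * gaussSum ((χ.ringHomComp τ) ^ (k + 1)) ψ := by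
  set φ := χ.ringHomComp τ with hφ
  have h1 : φ * φ ^ k ≠ 1 := by
    have := H.comp_pow_ne_one hp hp2 hT hχ h2L τ hk'
    rwa [pow_succ'] at this
  have h2 := jacobiSum_mul_nontrivial h1 ψ
  have h3 : jacobiSum φ (φ ^ k) = -∏ t ∈ TS m k, al (x : L) (τ ζ) t := by
    have h4 : jacobiSum φ (φ ^ k) = τ (jacobiSum χ (χ ^ k)) := by
      rw [← jacobiSum_ringHomComp, MulChar.ringHomComp_pow]
    rw [h4, hJac k hk hk', map_neg, map_prod]
    congr 1
    exact Finset.prod_congr rfl fun t _ => by rw [map_al, map_natCast]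
  have h6 : φ ^ (k + 1) = φ * φ ^ k := pow_succ' φ k
  rw [h6, ← h3]
  linear_combination -h2

include H hp hp2 hT hχ hm hTe hJac h2L hψ in
lemma CycRing.gauss_pow (k : ℕ) (hk : 1 ≤ k) :
    (¬ (2 ^ (m + 1) ∣ k) → gaussSum (χ.ringHomComp τ) ψ ^ k * (-1) ^ (k - 1) =
      (∏ t : (ZMod (2 ^ (m + 1)))ˣ, al (x : L) (τ ζ) t ^
        (k - 1 - k * (t : ZMod (2 ^ (m + 1))).val / 2 ^ (m + 1))) *
        gaussSum ((χ.ringHomComp τ) ^ k) ψ) ∧
    (2 ^ (m + 1) ∣ k → gaussSum (χ.ringHomComp τ) ψ ^ k * (-1) ^ k =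
      ∏ t : (ZMod (2 ^ (m + 1)))ˣ, al (x : L) (τ ζ) t ^
        (k - k * (t : ZMod (2 ^ (m + 1))).val / 2 ^ (m + 1))) := by
  have hN : 0 < 2 ^ (m + 1) := by positivity
  have hm1 : ¬ (2 ^ (m + 1) ∣ 1) := by
    rw [Nat.dvd_one]
    exact (Nat.one_lt_two_pow (by omega)).ne'
  induction k, hk using Nat.le_induction with
  | base =>
    refine ⟨fun _ => ?_, fun h => absurd h hm1⟩
    rw [pow_one, pow_one]
    simp
  | succ k hk ih =>
    obtain ⟨ih1, ih2⟩ := ih
    set φ := χ.ringHomComp τ with hφ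
    refine ⟨fun hk1 => ?_, fun hk1 => ?_⟩
    · by_cases hkN : 2 ^ (m + 1) ∣ k
      · -- `N ∣ k`
        have h1 := ih2 hkN
        have h2 : φ ^ (k + 1) = φ := by
          obtain ⟨c, hc⟩ := hkN
          have h3 : φ ^ (2 ^ (m + 1)) = 1 := by
            rw [hφ, MulChar.ringHomComp_pow, hχ.pow_card H.pow_card, MulChar.ringHomComp_one]
          rw [pow_succ, hc, pow_mul, h3, one_pow, one_mul]
        rw [h2, Nat.add_sub_cancel, pow_succ]
        have h3 : gaussSum φ ψ ^ k * gaussSum φ ψ * (-1) ^ k =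
          (gaussSum φ ψ ^ k * (-1) ^ k) * gaussSum φ ψ := by ring
        rw [h3, h1]
        congr 1
        refine Finset.prod_congr rfl fun t _ => ?_
        congr 2
        have h4 := div_succ_eq (k := k) hN (ZMod.val_lt (t : ZMod (2 ^ (m + 1))))
        have h5 : (k * (t : ZMod (2 ^ (m + 1))).val) % 2 ^ (m + 1) = 0 :=
          Nat.mod_eq_zero_of_dvd (Dvd.dvd.mul_right hkN _)
        rw [h5, zero_add, if_pos (ZMod.val_lt _), add_zero] at h4
        exact h4.symm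
      · -- generic step
        have h1 := ih1 hkN
        have h2 := H.gauss_step hp hp2 hT hχ hm hTe hJac h2L τ hψ hkN hk1
        rw [← hφ] at h2
        obtain ⟨k', rfl⟩ : ∃ k', k = k' + 1 := ⟨k - 1, by omega⟩
        rw [Nat.add_sub_cancel] at h1 ⊢
        have h3 : gaussSum φ ψ ^ (k' + 1 + 1) * (-1) ^ (k' + 1) =
          -((gaussSum φ ψ ^ (k' + 1) * (-1) ^ k') * gaussSum φ ψ) := by ring
        rw [h3, h1, mul_assoc, h2]
        have h4 : ∏ t : (ZMod (2 ^ (m + 1)))ˣ, al (x : L) (τ ζ) t ^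
            (k' + 1 - (k' + 1 + 1) * (t : ZMod (2 ^ (m + 1))).val / 2 ^ (m + 1)) =
            (∏ t : (ZMod (2 ^ (m + 1)))ˣ, al (x : L) (τ ζ) t ^
            (k' - (k' + 1) * (t : ZMod (2 ^ (m + 1))).val / 2 ^ (m + 1))) *
            ∏ t ∈ TS m (k' + 1), al (x : L) (τ ζ) t := by
          have h5 : ∏ t ∈ TS m (k' + 1), al (x : L) (τ ζ) t =
              ∏ t : (ZMod (2 ^ (m + 1)))ˣ, if t ∈ TS m (k' + 1) then al (x : L) (τ ζ) t else 1 := by
            rw [Finset.prod_ite_mem, Finset.univ_inter]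
          rw [h5, ← Finset.prod_mul_distrib]
          refine Finset.prod_congr rfl fun t _ => ?_
          have h6 := div_succ_eq (k := k' + 1) hN (ZMod.val_lt (t : ZMod (2 ^ (m + 1))))
          have h7 := div_lt_self' (k := k' + 1) (by omega) (ZMod.val_lt (t : ZMod (2 ^ (m + 1))))
          by_cases ht : t ∈ TS m (k' + 1)
          · rw [if_pos ht, ← pow_succ]
            rw [mem_TS] at ht
            rw [if_pos ht] at h6
            congr 1
            omega
          · rw [if_neg ht, mul_one]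
            rw [mem_TS] at ht
            rw [if_neg ht] at h6
            congr 1
            omega
        rw [h4]
        ring
    · -- `N ∣ k + 1`
      have hkN : ¬ (2 ^ (m + 1) ∣ k) := by
        intro h
        apply hm1
        exact (Nat.dvd_add_right h).mp hk1
      have h1 := ih1 hkN
      have hφ1 : φ ≠ 1 := by
        have := H.comp_pow_ne_one hp hp2 hT hχ h2L τ hm1
        rwa [pow_one] at this
      have h2 : φ ^ k = φ⁻¹ := by
        rw [eq_inv_iff_mul_eq_one, ← pow_succ]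
        obtain ⟨c, hc⟩ := hk1
        have h3 : φ ^ (2 ^ (m + 1)) = 1 := by
          rw [hφ, MulChar.ringHomComp_pow, hχ.pow_card H.pow_card, MulChar.ringHomComp_one]
        rw [hc, pow_mul, h3, one_pow]
      have h3 : gaussSum (φ ^ k) ψ * gaussSum φ ψ = (p : L) := by
        have h4 := gaussSum_mul_gaussSum_eq_card hφ1 hψ
        rw [ZMod.card] at h4
        have h5 := mul_gaussSum_inv_eq_gaussSum φ⁻¹ ψ
        have h6 : φ⁻¹ (-1) = 1 := by
          rw [MulChar.inv_apply', inv_neg_one, hφ, MulChar.ringHomComp_apply,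
            chi_neg_one hp hp2 hχ hTe, map_one]
        rw [h6, one_mul] at h5
        rw [h2, ← h5, mul_comm]
        exact h4
      have h4 := prod_al m (τ ζ) (x : L) (map_half H τ)
      have h5 : (p : L) = ∏ t : (ZMod (2 ^ (m + 1)))ˣ, al (x : L) (τ ζ) t := by
        rw [h4, hp]; push_cast; ring
      obtain ⟨k', rfl⟩ : ∃ k', k = k' + 1 := ⟨k - 1, by omega⟩
      rw [Nat.add_sub_cancel] at h1
      have h6 : gaussSum φ ψ ^ (k' + 1 + 1) * (-1) ^ (k' + 1 + 1) =
          ((gaussSum φ ψ ^ (k' + 1) * (-1) ^ k') * gaussSum φ ψ) := by ring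
      rw [h6, h1, mul_assoc, h3, h5, ← Finset.prod_mul_distrib]
      refine Finset.prod_congr rfl fun t _ => ?_
      rw [← pow_succ]
      congr 1
      have h7 := div_succ_eq (k := k' + 1) hN (ZMod.val_lt (t : ZMod (2 ^ (m + 1))))
      have h8 := div_lt_self' (k := k' + 1) (by omega) (ZMod.val_lt (t : ZMod (2 ^ (m + 1))))
      have h9 : ¬ ((k' + 1) * (t : ZMod (2 ^ (m + 1))).val % 2 ^ (m + 1) +
          (t : ZMod (2 ^ (m + 1))).val < 2 ^ (m + 1)) := by
        intro hlt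
        have h10 : 2 ^ (m + 1) ∣ (k' + 1 + 1) * (t : ZMod (2 ^ (m + 1))).val :=
          Dvd.dvd.mul_right hk1 _
        have h11 : (k' + 1 + 1) * (t : ZMod (2 ^ (m + 1))).val =
            ((k' + 1) * (t : ZMod (2 ^ (m + 1))).val % 2 ^ (m + 1) +
            (t : ZMod (2 ^ (m + 1))).val) + 2 ^ (m + 1) *
            ((k' + 1) * (t : ZMod (2 ^ (m + 1))).val / 2 ^ (m + 1)) := by
          have := Nat.mod_add_div ((k' + 1) * (t : ZMod (2 ^ (m + 1))).val) (2 ^ (m + 1))
          rw [add_mul, one_mul]; omega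
        rw [h11] at h10
        have h12 := (Nat.dvd_add_left (Dvd.intro _ rfl)).mp h10
        have h13 := (unit_val_odd t).pos
        have := Nat.le_of_dvd (by omega) h12
        omega
      rw [if_neg h9] at h7
      omega

include H hp hp2 hT hχ hm hTe hJac h2L hψ in
/-- The Frobenius relation for the Gauss sum in characteristic `q`. -/
theorem CycRing.frob (q : ℕ) [hq : Fact q.Prime] [CharP L q] (hq2 : q ≠ 2) (hqp : q ≠ p) :
    (τ (χ (q : ZMod p))) ^ q * ∏ t : (ZMod (2 ^ (m + 1)))ˣ, al (x : L) (τ ζ) t ^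
        (q - 1 - q * (t : ZMod (2 ^ (m + 1))).val / 2 ^ (m + 1)) = 1 := by
  set φ := χ.ringHomComp τ with hφ
  have hqodd : Odd q := hq.out.odd_of_ne_two hq2
  have hNq : ¬ (2 ^ (m + 1) ∣ q) := by
    intro h
    have h1 : 2 ∣ q := (dvd_pow_self 2 (by omega)).trans h
    exact (Nat.not_even_iff_odd.mpr hqodd) (even_iff_two_dvd.mpr h1)
  have h1 := (H.gauss_pow hp hp2 hT hχ hm hTe hJac h2L τ hψ q hq.out.one_lt.le).1 hNq
  have hev : Even (q - 1) := by
    obtain ⟨r, hr⟩ := hqodd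
    exact ⟨r, by omega⟩
  rw [hev.neg_one_pow, mul_one, ← hφ] at h1
  have h2 := gaussSum_frob q φ ψ
  have hqu : IsUnit ((q : ℕ) : ZMod p) := by
    rw [ZMod.isUnit_iff_coprime]
    exact (Nat.coprime_primes hq.out hpp.out).mpr hqp
  obtain ⟨u, hu⟩ := hqu
  have h3 := gaussSum_mulShift (φ ^ q) ψ u
  have h4 : ψ ^ q = ψ.mulShift (u : ZMod p) := by
    rw [hu]
    exact AddChar.pow_mulShift ψ q
  rw [h4] at h2
  rw [← h2] at h3
  have h5 : (φ ^ q) (u : ZMod p) = (τ (χ (q : ZMod p))) ^ q := by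
    rw [MulChar.pow_apply_coe, hφ, MulChar.ringHomComp_apply, hu]
  rw [h5, h1] at h3
  have hcard : ((Fintype.card (ZMod p) : ℕ) : L) ≠ 0 := by
    rw [ZMod.card]
    intro h
    have := (CharP.cast_eq_zero_iff L q p).mp h
    exact hqp ((Nat.prime_dvd_prime_iff_eq hq.out hpp.out).mp this)
  have h6 : gaussSum (φ ^ q) ψ ≠ 0 := gaussSum_ne_zero_of_nontrivial hcard
    (H.comp_pow_ne_one hp hp2 hT hχ h2L τ hNq) hψ
  apply mul_right_cancel₀ h6
  rw [one_mul, mul_assoc]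
  exact h3

end

end Pool.Agent.Y875.FP
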