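import Pool.Agent.Y875.FP.Half
import Pool.Agent.Y875.FP.Gauss

/-!
Evaluation of `∏ (1 - z^{t⁻¹})^{q-1-⌊qt/N⌋}` in characteristic `q`.
-/

namespace Pool.Agent.Y875.FP

lemma E_neg {m q : ℕ} (hq : Nat.Coprime (2 ^ (m + 1)) q) (hq1 : 1 ≤ q)
    (t : (ZMod (2 ^ (m + 1)))ˣ) (hm : 1 ≤ m) :
    q * ((-t : (ZMod (2 ^ (m + 1)))ˣ) : ZMod (2 ^ (m + 1))).val / 2 ^ (m + 1) =
      q - 1 - q * (t : ZMod (2 ^ (m + 1))).val / 2 ^ (m + 1) := by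
  rw [val_neg_unit]
  have hlt := ZMod.val_lt (t : ZMod (2 ^ (m + 1)))
  have hcop := coprime_val t
  generalize (t : ZMod (2 ^ (m + 1))).val = k at hlt hcop ⊢
  have hN : 1 < 2 ^ (m + 1) := Nat.one_lt_two_pow (by omega)
  generalize 2 ^ (m + 1) = N at hlt hcop hq hN ⊢
  have h1 : ¬ N ∣ q * k := by
    intro h
    have h2 := hcop.dvd_of_dvd_mul_right h
    have h3 : N ∣ 1 := by
      have := Nat.dvd_gcd (dvd_refl N) h2
      rwa [hq] at this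
    have := Nat.le_of_dvd (by norm_num) h3
    omega
  have h2 : 0 < q * k % N := by
    rcases Nat.eq_zero_or_pos (q * k % N) with h | h
    · exact absurd (Nat.dvd_of_mod_eq_zero h) h1
    · exact h
  have h3 : q * k % N < N := Nat.mod_lt _ (by omega)
  have h4 := Nat.mod_add_div (q * k) N
  have h5 : q * k / N < q := div_lt_self' hq1 hlt
  have h6 : q * (N - k) = (N - q * k % N) + N * (q - 1 - q * k / N) := by
    have e1 : q * (N - k) + q * k = q * N := by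
      rw [← mul_add, Nat.sub_add_cancel hlt.le]
    have e2 : N * (q - 1 - q * k / N) + N * (q * k / N) + N = q * N := by
      rw [← mul_add, ← Nat.mul_succ, mul_comm]
      congr 1
      omega
    omega
  rw [h6, Nat.add_mul_div_left _ _ (by omega), Nat.div_eq_of_lt (by omega), zero_add]

section

variable {m : ℕ} (hm : 1 ≤ m) {L : Type} [Field L] {z : L} (hz : z ^ (2 ^ m) = -1)
  (h2L : (2 : L) ≠ 0)

include hz in
lemma zN : z ^ (2 ^ (m + 1)) = 1 := by rw [pow_succ, pow_mul, hz]; ring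

include hz in
lemma neg_ex (s : ZMod (2 ^ (m + 1))) : -ex z s = ex z (((2 ^ m : ℕ) : ZMod (2 ^ (m + 1))) + s) := by
  rw [ex_add (zN hz), ex_natCast (zN hz), hz]; ring

include hz in
lemma one_sub_ex_neg (s : ZMod (2 ^ (m + 1))) :
    1 - ex z (-s) = (-ex z (-s)) * (1 - ex z s) := by
  have h := ex_neg_mul (zN hz) s
  linear_combination -h

lemma inv_neg_val (t : (ZMod (2 ^ (m + 1)))ˣ) :
    (((-t)⁻¹ : (ZMod (2 ^ (m + 1)))ˣ) : ZMod (2 ^ (m + 1))) =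
      -((t⁻¹ : (ZMod (2 ^ (m + 1)))ˣ) : ZMod (2 ^ (m + 1))) := by
  rw [inv_neg, Units.val_neg]

include hz in
lemma f_neg (t : (ZMod (2 ^ (m + 1)))ˣ) :
    1 - ex z (((-t)⁻¹ : (ZMod (2 ^ (m + 1)))ˣ) : ZMod (2 ^ (m + 1))) =
      (-ex z (-((t⁻¹ : (ZMod (2 ^ (m + 1)))ˣ) : ZMod (2 ^ (m + 1))))) *
      (1 - ex z ((t⁻¹ : (ZMod (2 ^ (m + 1)))ˣ) : ZMod (2 ^ (m + 1)))) := by
  rw [inv_neg_val, one_sub_ex_neg hz]

include hm hz in
lemma prod_pairs {q : ℕ} (hq : Nat.Coprime (2 ^ (m + 1)) q) (hq1 : 1 ≤ q) :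
    ∏ t : (ZMod (2 ^ (m + 1)))ˣ,
      (1 - ex z ((t⁻¹ : (ZMod (2 ^ (m + 1)))ˣ) : ZMod (2 ^ (m + 1)))) ^
        (q - 1 - q * (t : ZMod (2 ^ (m + 1))).val / 2 ^ (m + 1)) =
    (∏ t ∈ HS m, (1 - ex z ((t⁻¹ : (ZMod (2 ^ (m + 1)))ˣ) : ZMod (2 ^ (m + 1))))) ^ (q - 1) *
    ∏ t ∈ HS m, (-ex z (-((t⁻¹ : (ZMod (2 ^ (m + 1)))ˣ) : ZMod (2 ^ (m + 1))))) ^
        (q * (t : ZMod (2 ^ (m + 1))).val / 2 ^ (m + 1)) := by
  rw [prod_univ_HS hm, ← Finset.prod_pow, ← Finset.prod_mul_distrib]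
  refine Finset.prod_congr rfl fun t _ => ?_
  rw [E_neg hq hq1 t hm, f_neg hz]
  have h1 := div_lt_self' (k := q) hq1 (ZMod.val_lt (t : ZMod (2 ^ (m + 1))))
  have h2 : ∀ E : ℕ, E < q → q - 1 - (q - 1 - E) = E := by intro E hE; omega
  have h3 : ∀ E : ℕ, E < q → q - 1 - E + E = q - 1 := by intro E hE; omega
  rw [h2 _ h1, mul_pow, mul_comm ((-ex z (-((t⁻¹ : (ZMod (2 ^ (m + 1)))ˣ) : ZMod (2 ^ (m + 1))))) ^ _),
    ← mul_assoc, ← pow_add, h3 _ h1]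

include hz h2L in
lemma V_ne_zero : ∏ t ∈ HS m,
    (1 - ex z ((t⁻¹ : (ZMod (2 ^ (m + 1)))ˣ) : ZMod (2 ^ (m + 1)))) ≠ 0 := by
  rw [Finset.prod_ne_zero_iff]
  intro t _ h
  have h1 : ex z ((t⁻¹ : (ZMod (2 ^ (m + 1)))ˣ) : ZMod (2 ^ (m + 1))) =
      ex z (0 : ZMod (2 ^ (m + 1))) := by
    rw [ex_zero]
    linear_combination -h
  have h2 := ex_injective (prim_of_half hz h2L) h1
  have h3 := unit_val_odd (t⁻¹)
  rw [h2, ZMod.val_zero] at h3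
  exact absurd h3 (by decide)

include hm hz in
open Classical in
lemma V_frob {q : ℕ} [hq : Fact q.Prime] [CharP L q] (Q : (ZMod (2 ^ (m + 1)))ˣ)
    (hQ : (Q : ZMod (2 ^ (m + 1))) = q) :
    (∏ t ∈ HS m, (1 - ex z ((t⁻¹ : (ZMod (2 ^ (m + 1)))ˣ) : ZMod (2 ^ (m + 1))))) ^ q =
    (∏ t ∈ HS m, (1 - ex z ((t⁻¹ : (ZMod (2 ^ (m + 1)))ˣ) : ZMod (2 ^ (m + 1))))) *
    ∏ t ∈ HS m, (if Q * t ∈ HS m then 1 else
      (-ex z (-((t⁻¹ : (ZMod (2 ^ (m + 1)))ˣ) : ZMod (2 ^ (m + 1)))))) := by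
  set f : (ZMod (2 ^ (m + 1)))ˣ → L :=
    fun t => 1 - ex z ((t⁻¹ : (ZMod (2 ^ (m + 1)))ˣ) : ZMod (2 ^ (m + 1))) with hf
  set g : (ZMod (2 ^ (m + 1)))ˣ → L :=
    fun t => (if Q * t ∈ HS m then 1 else
      (-ex z (-((t⁻¹ : (ZMod (2 ^ (m + 1)))ˣ) : ZMod (2 ^ (m + 1)))))) with hg
  have h1 : (∏ t ∈ HS m, f t) ^ q = ∏ t ∈ HS m, f (Q⁻¹ * t) := by
    rw [← Finset.prod_pow]
    refine Finset.prod_congr rfl fun t _ => ?_
    rw [hf]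
    simp only
    rw [sub_pow_char, one_pow]
    congr 1
    rw [← ex_nat_mul (zN hz), mul_inv, inv_inv, Units.val_mul, hQ]
  have h2 : ∀ t ∈ HS m, f (Q⁻¹ * t) = f (hr (Q⁻¹ * t)) * g (hr (Q⁻¹ * t)) := by
    intro t ht
    by_cases h : Q⁻¹ * t ∈ HS m
    · have h3 : g (hr (Q⁻¹ * t)) = 1 := by
        rw [hg]
        simp only
        rw [if_pos ((mem_hr_iff hm Q t ht).mpr h)]
      rw [h3, mul_one, hr_of_mem h]
    · have h3 : g (hr (Q⁻¹ * t)) = (-ex z (-(((hr (Q⁻¹ * t))⁻¹ : (ZMod (2 ^ (m + 1)))ˣ) :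
          ZMod (2 ^ (m + 1))))) := by
        rw [hg]
        simp only
        rw [if_neg (fun h4 => h ((mem_hr_iff hm Q t ht).mp h4))]
      rw [h3, hr_of_not_mem h]
      have h4 := f_neg hz (-(Q⁻¹ * t))
      rw [neg_neg] at h4
      rw [hf]
      simp only
      rw [h4]
      ring
  rw [h1, Finset.prod_congr rfl h2, Finset.prod_mul_distrib, prod_hr hm, prod_hr hm]

include hm hz h2L in
open Classical in
theorem prod_eval {q : ℕ} [hq : Fact q.Prime] [CharP L q] (hq2 : q ≠ 2)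
    (Q : (ZMod (2 ^ (m + 1)))ˣ) (hQ : (Q : ZMod (2 ^ (m + 1))) = q) :
    ∏ t : (ZMod (2 ^ (m + 1)))ˣ,
      (1 - ex z ((t⁻¹ : (ZMod (2 ^ (m + 1)))ˣ) : ZMod (2 ^ (m + 1)))) ^
        (q - 1 - q * (t : ZMod (2 ^ (m + 1))).val / 2 ^ (m + 1)) =
    ∏ t ∈ HS m, (-ex z (-((t⁻¹ : (ZMod (2 ^ (m + 1)))ˣ) : ZMod (2 ^ (m + 1))))) ^
        (q * (t : ZMod (2 ^ (m + 1))).val / 2 ^ (m + 1) + if Q * t ∈ HS m then 0 else 1) := by
  have hcop : Nat.Coprime (2 ^ (m + 1)) q := by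
    apply Nat.Coprime.pow_left
    rw [Nat.coprime_two_left]
    exact hq.out.odd_of_ne_two hq2
  rw [prod_pairs hm hz hcop hq.out.one_lt.le]
  have h1 := V_frob hm hz Q hQ
  have h2 := V_ne_zero hz h2L
  set V := ∏ t ∈ HS m, (1 - ex z ((t⁻¹ : (ZMod (2 ^ (m + 1)))ˣ) : ZMod (2 ^ (m + 1)))) with hV
  have h3 : V ^ (q - 1) = ∏ t ∈ HS m, (if Q * t ∈ HS m then 1 else
      (-ex z (-((t⁻¹ : (ZMod (2 ^ (m + 1)))ˣ) : ZMod (2 ^ (m + 1)))))) := by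
    apply mul_left_cancel₀ h2
    rw [← pow_succ', Nat.sub_add_cancel hq.out.one_lt.le, h1]
  rw [h3, ← Finset.prod_mul_distrib]
  refine Finset.prod_congr rfl fun t _ => ?_
  split_ifs
  · rw [one_mul, add_zero]
  · exact (pow_succ' _ _).symm

end

end Pool.Agent.Y875.FP
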