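import Pool.Agent.Y875.FP.Per2

/-!
The Jacobi sums `J(φ, φ^a)` are congruent to `-1` modulo twice the maximal ideal.
-/

open Polynomial

namespace Pool.Agent.Y875.FP

section

variable {K : Type} [NormedField K] [IsUltrametricDist K] [CharZero K] (h2 : ‖(2 : K)‖ < 1)

/-- the normalised Gauss sum. -/
noncomputable def un {p : ℕ} [NeZero p] (z : K) (φ : MulChar (ZMod p) K) (ψ : AddChar (ZMod p) K)
    (j a : ℕ) : K := -gaussSum (φ ^ a) ψ / (z ^ j) ^ a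

/-- All normalised Gauss sums of even index are close to `1`, those of odd index close to each
other. -/
def Fine {p : ℕ} [NeZero p] (m : ℕ) (z : K) (φ : MulChar (ZMod p) K) (ψ : AddChar (ZMod p) K) :
    Prop :=
  ∃ j : ℕ, (∀ a : ℕ, Even a → ¬ (2 ^ (m + 1) ∣ a) → ‖un z φ ψ j a - 1‖ < ‖(2 : K)‖) ∧
    (∀ a : ℕ, Odd a → ‖un z φ ψ j a - un z φ ψ j 1‖ < ‖(2 : K)‖) ∧
    ‖un z φ ψ j 1 ^ 2 - 1‖ < ‖(2 : K)‖

lemma norm_z_one {m : ℕ} {z : K} (hz : z ^ (2 ^ m) = -1) : ‖z‖ = 1 := by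
  have h1 := congrArg norm hz
  rw [norm_pow, norm_neg, norm_one] at h1
  exact (pow_eq_one_iff_of_nonneg (norm_nonneg _) (by positivity)).mp h1

lemma un_sub_one {p : ℕ} [NeZero p] {m : ℕ} {z : K} (hz : z ^ (2 ^ m) = -1)
    (φ : MulChar (ZMod p) K) (ψ : AddChar (ZMod p) K) (j a : ℕ) :
    ‖un z φ ψ j a - 1‖ = ‖-gaussSum (φ ^ a) ψ - (z ^ j) ^ a‖ := by
  have hnz := norm_z_one hz
  have hz0 : z ≠ 0 := by
    intro h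
    rw [h, norm_zero] at hnz
    exact zero_ne_one hnz
  have h1 : (z ^ j) ^ a ≠ 0 := pow_ne_zero _ (pow_ne_zero _ hz0)
  unfold un
  have h3 : -gaussSum (φ ^ a) ψ / (z ^ j) ^ a - 1 =
      (-gaussSum (φ ^ a) ψ - (z ^ j) ^ a) / (z ^ j) ^ a := by
    field_simp
  rw [h3, norm_div, norm_pow, norm_pow, hnz, one_pow, one_pow, div_one]

include h2 in
/-- Case `4 ∣ x`. -/
theorem stepA {p : ℕ} [hpp : Fact p.Prime] (hp2 : p ≠ 2) {ψ : AddChar (ZMod p) K}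
    (hψ : ψ.IsPrimitive) {m x T : ℕ} (hm : 1 ≤ m) (hp : p = x ^ (2 ^ (m + 1)) + 1)
    (hT : 2 ^ (m + 1 + 1) * T = x ^ (2 ^ (m + 1))) {z : K}
    (hz : z ^ (2 ^ (m + 1)) = -1) {φ : MulChar (ZMod p) K}
    (hφ : IsRes (m + 1) p x T z φ) (hφ2 : φ 2 = 1) (hx : 4 ∣ x) :
    ∃ i : ℕ, ‖-gaussSum φ ψ - z ^ i‖ * ‖1 - z‖ ^ 2 ≤ ‖(x : K)‖ ∧
      ∀ a : ℕ, ¬ (2 ^ (m + 1 + 1) ∣ a) → ‖-gaussSum (φ ^ a) ψ - (z ^ i) ^ a‖ < ‖(2 : K)‖ := by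
  have h20 : (2 : K) ≠ 0 := two_ne_zero
  have h2p : 0 < ‖(2 : K)‖ := norm_pos_iff.mpr h20
  have hp' : p = (x ^ 2) ^ (2 ^ m) + 1 := by rw [← pow_mul, ← pow_succ']; exact hp
  have hT' : 2 ^ (m + 1) * (2 * T) = (x ^ 2) ^ (2 ^ m) := by
    rw [← pow_mul, ← pow_succ', ← hT]; ring
  have hz' : (z ^ 2) ^ (2 ^ m) = -1 := by rw [← pow_mul, ← pow_succ']; exact hz
  have hφ' := IsRes.sq hp hp2 hz hφ
  have hφ2' : (φ ^ 2) 2 = 1 := by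
    rw [MulChar.pow_apply' _ two_ne_zero, hφ2, one_pow]
  have hx' : 16 ∣ x ^ 2 := by
    have := pow_dvd_pow_of_dvd hx 2
    norm_num at this
    exact this
  obtain ⟨j, hj1, hj2⟩ := close_ind h2 hp2 hψ m (x ^ 2) (2 * T) (z ^ 2) (φ ^ 2) hp' hT' hz' hφ'
    hφ2' hx'
  obtain ⟨O, _, ζ, H⟩ := exists_cycRing (m + 1 + 1) (by omega)
  obtain ⟨τ, hτ⟩ := H.lift K z (by rw [Nat.add_sub_cancel]; exact hz)
  have hL : ‖τ (1 - ζ)‖ = ‖1 - z‖ := by rw [map_sub, map_one, hτ]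
  have hl := H.norm_lam_lt h2 τ
  have hl0 := H.norm_lam_pos h20 τ
  have h2L := H.norm_two_eq τ
  rw [hL] at hl hl0 h2L
  have hx4 : ‖(x : K)‖ ≤ ‖(2 : K)‖ ^ 2 := by
    obtain ⟨y, rfl⟩ := hx
    push_cast
    have : (4 : K) = 2 ^ 2 := by norm_num
    rw [norm_mul, this, norm_pow]
    have h3 := um_nat (K := K) y
    have : 0 ≤ ‖(2 : K)‖ ^ 2 := by positivity
    nlinarith
  have h2L2 : ‖(2 : K)‖ < ‖1 - z‖ ^ 2 := by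
    rw [h2L]
    apply pow_lt_pow_right_of_lt_one₀ hl0 hl
    have h3 : 2 ^ 2 ≤ 2 ^ (m + 1) := Nat.pow_le_pow_right (by norm_num) (by omega)
    omega
  have hL2p : 0 < ‖1 - z‖ ^ 2 := by positivity
  have hL21 : ‖1 - z‖ ^ 2 ≤ 1 := pow_le_one₀ hl0.le hl.le
  have hPb := H.norm_P h2 h20 τ x ((by norm_num : 2 ∣ 4).trans hx)
  rw [hL] at hPb
  have hxn := norm_nonneg (x : K)
  have hP : ‖τ (∏ t ∈ TS (m + 1) 1, al (x : O) ζ t) - 1‖ ≤ ‖(x : K)‖ * ‖(2 : K)‖ / ‖1 - z‖ ^ 2 := by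
    rw [le_div_iff₀ hL2p]
    exact hPb
  have hrlt : ‖(x : K)‖ * ‖(2 : K)‖ / ‖1 - z‖ ^ 2 / ‖(2 : K)‖ < ‖(2 : K)‖ := by
    rw [div_div, div_lt_iff₀ (by positivity)]
    calc ‖(x : K)‖ * ‖(2 : K)‖ ≤ ‖(2 : K)‖ ^ 2 * ‖(2 : K)‖ := by gcongr
      _ = ‖(2 : K)‖ * (‖(2 : K)‖ * ‖(2 : K)‖) := by ring
      _ < ‖(2 : K)‖ * (‖1 - z‖ ^ 2 * ‖(2 : K)‖) := by gcongr
  have hPlt : ‖τ (∏ t ∈ TS (m + 1) 1, al (x : O) ζ t) - 1‖ < ‖(2 : K)‖ := by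
    refine lt_of_le_of_lt hP ?_
    rw [div_lt_iff₀ h2p] at hrlt
    nlinarith
  have hr1 : ‖-gaussSum (φ ^ 2) ψ - (z ^ 2) ^ j‖ ≤ ‖(x : K)‖ * ‖(2 : K)‖ / ‖1 - z‖ ^ 2 := by
    refine hj1.trans ?_
    rw [div_le_div_iff₀ h2p hL2p]
    push_cast
    rw [norm_pow]
    calc ‖(x : K)‖ ^ 2 * ‖1 - z‖ ^ 2 ≤ ‖(x : K)‖ ^ 2 * 1 := by gcongr
      _ = ‖(x : K)‖ * ‖(x : K)‖ := by ring
      _ ≤ ‖(x : K)‖ * ‖(2 : K)‖ ^ 2 := by gcongr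
      _ = ‖(x : K)‖ * ‖(2 : K)‖ * ‖(2 : K)‖ := by ring
  have h2x : 2 ∣ x := (by norm_num : 2 ∣ 4).trans hx
  have hsq := sqrt_step h2 hp hp2 hT hz hφ hφ2 ψ h2x H τ hτ hPlt hr1 hP
  have hsq' := um_sqrt h20 hsq
  obtain ⟨i, hi, hi1, hi2⟩ := close_step h2 hp hp2 hz hφ hφ2 ψ (j := j)
    (hsq'.imp (fun h => lt_of_le_of_lt h hrlt) (fun h => lt_of_le_of_lt h hrlt)) hj2
  refine ⟨i, ?_, hi2⟩
  have hnz := norm_z_one hz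
  have hz0 : z ≠ 0 := by
    intro h
    rw [h, norm_zero] at hnz
    exact zero_ne_one hnz
  have hsqi := sqrt_step h2 hp hp2 hT hz hφ hφ2 ψ h2x H τ hτ
    hPlt (j := i) (r := ‖(x : K)‖ * ‖(2 : K)‖ / ‖1 - z‖ ^ 2) (by
      have h5 : (z ^ 2) ^ i = (z ^ 2) ^ j := by
        rcases hi with rfl | rfl
        · rfl
        · rw [pow_add, ← pow_mul z 2 (2 ^ (m + 1)), mul_comm 2, pow_mul z, hz]
          ring
      rw [h5]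
      exact hr1) hP
  have h6 : -gaussSum φ ψ - z ^ i = z ^ i * ((-gaussSum φ ψ / z ^ i) - 1) := by
    have := pow_ne_zero i hz0
    field_simp
  rw [h6, norm_mul, norm_pow, hnz, one_pow, one_mul] at hi1 ⊢
  rcases um_sqrt h20 hsqi with h | h
  · have h7 : ‖(x : K)‖ * ‖(2 : K)‖ / ‖1 - z‖ ^ 2 / ‖(2 : K)‖ = ‖(x : K)‖ / ‖1 - z‖ ^ 2 := by
      field_simp
    rw [h7, le_div_iff₀ hL2p] at h
    exact h
  · exfalso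
    have h7 : ‖(2 : K)‖ < ‖(2 : K)‖ := by
      have h8 : (2 : K) = ((-gaussSum φ ψ / z ^ i) + 1) - ((-gaussSum φ ψ / z ^ i) - 1) := by
        ring
      conv_lhs => rw [h8]
      exact um_sub_lt (lt_of_le_of_lt h hrlt) hi1
    exact lt_irrefl _ h7

end

end Pool.Agent.Y875.FP
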