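import Pool.Agent.Y875.FP.Fin

/-!
The case of even `x`.
-/

open Polynomial

namespace Pool.Agent.Y875.FP

section

variable {K : Type} [NormedField K] [IsUltrametricDist K] [CharZero K] (h2 : ‖(2 : K)‖ < 1)

include h2 in
lemma norm_un {p : ℕ} [hpp : Fact p.Prime] {m x T : ℕ} {z : K} (hz : z ^ (2 ^ m) = -1)
    {φ : MulChar (ZMod p) K} (hφ : IsRes m p x T z φ) (ψ : AddChar (ZMod p) K) (j a : ℕ) :
    ‖un z φ ψ j a‖ ≤ 1 := by
  unfold un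
  rw [norm_div, norm_neg, norm_pow, norm_pow, norm_z_one hz, one_pow, one_pow, div_one]
  exact norm_gauss_le h2 hz hφ ψ a

include h2 in
theorem fineA {p : ℕ} [hpp : Fact p.Prime] (hp2 : p ≠ 2) {ψ : AddChar (ZMod p) K}
    (hψ : ψ.IsPrimitive) {m x T : ℕ} (hm : 1 ≤ m) (hp : p = x ^ (2 ^ (m + 1)) + 1)
    (hT : 2 ^ (m + 1 + 1) * T = x ^ (2 ^ (m + 1))) {z : K}
    (hz : z ^ (2 ^ (m + 1)) = -1) {φ : MulChar (ZMod p) K}
    (hφ : IsRes (m + 1) p x T z φ) (hφ2 : φ 2 = 1) (hx : 4 ∣ x) : Fine (m + 1) z φ ψ := by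
  obtain ⟨i, -, hi⟩ := stepA h2 hp2 hψ hm hp hT hz hφ hφ2 hx
  have h1 : ∀ a : ℕ, ¬ (2 ^ (m + 1 + 1) ∣ a) → ‖un z φ ψ i a - 1‖ < ‖(2 : K)‖ := by
    intro a ha
    rw [un_sub_one hz]
    exact hi a ha
  have hodd : ∀ a : ℕ, Odd a → ¬ (2 ^ (m + 1 + 1) ∣ a) := by
    intro a ha hd
    have h3 : 2 ∣ a := (dvd_pow_self 2 (by omega)).trans hd
    exact (Nat.not_even_iff_odd.mpr ha) (even_iff_two_dvd.mpr h3)
  refine ⟨i, fun a _ ha => h1 a ha, ?_, ?_⟩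
  · intro a ha
    have h3 := h1 a (hodd a ha)
    have h4 := h1 1 (hodd 1 odd_one)
    have h5 : un z φ ψ i a - un z φ ψ i 1 = (un z φ ψ i a - 1) - (un z φ ψ i 1 - 1) := by ring
    rw [h5]
    exact um_sub_lt h3 h4
  · have h4 := h1 1 (hodd 1 odd_one)
    have h5 : un z φ ψ i 1 ^ 2 - 1 = (un z φ ψ i 1 - 1) * (un z φ ψ i 1 + 1) := by ring
    rw [h5, norm_mul]
    have h6 : ‖un z φ ψ i 1 + 1‖ ≤ 1 := um_add_le (norm_un h2 hz hφ ψ i 1) norm_one.le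
    have h7 := norm_nonneg (un z φ ψ i 1 - 1)
    nlinarith

include h2 in
theorem fineB {p : ℕ} [hpp : Fact p.Prime] (hp2 : p ≠ 2) {ψ : AddChar (ZMod p) K}
    (hψ : ψ.IsPrimitive) {m x T : ℕ} (hm : 1 ≤ m) (hp : p = x ^ (2 ^ (m + 1 + 1)) + 1)
    (hT : 2 ^ (m + 1 + 1 + 1) * T = x ^ (2 ^ (m + 1 + 1))) (hTe : Even T) {z : K}
    (hz : z ^ (2 ^ (m + 1 + 1)) = -1) {φ : MulChar (ZMod p) K}
    (hφ : IsRes (m + 1 + 1) p x T z φ) (hφ2 : φ 2 = 1) (hx : 2 ∣ x) : Fine (m + 1 + 1) z φ ψ := by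
  have h20 : (2 : K) ≠ 0 := two_ne_zero
  have h2p : 0 < ‖(2 : K)‖ := norm_pos_iff.mpr h20
  have hp' : p = (x ^ 2) ^ (2 ^ (m + 1)) + 1 := by rw [← pow_mul, ← pow_succ']; exact hp
  have hT' : 2 ^ (m + 1 + 1) * (2 * T) = (x ^ 2) ^ (2 ^ (m + 1)) := by
    rw [← pow_mul, ← pow_succ', ← hT]; ring
  have hz' : (z ^ 2) ^ (2 ^ (m + 1)) = -1 := by rw [← pow_mul, ← pow_succ']; exact hz
  have hφ' := IsRes.sq hp hp2 hz hφ
  have hφ2' : (φ ^ 2) 2 = 1 := by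
    rw [MulChar.pow_apply' _ two_ne_zero, hφ2, one_pow]
  have hx' : 4 ∣ x ^ 2 := by
    have := pow_dvd_pow_of_dvd hx 2
    norm_num at this
    exact this
  obtain ⟨j, hj1, hj2⟩ := stepA h2 hp2 hψ hm hp' hT' hz' hφ' hφ2' hx'
  obtain ⟨O, _, ζ, H⟩ := exists_cycRing (m + 1 + 1 + 1) (by omega)
  obtain ⟨τ, hτ⟩ := H.lift K z (by rw [Nat.add_sub_cancel]; exact hz)
  have hL : ‖τ (1 - ζ)‖ = ‖1 - z‖ := by rw [map_sub, map_one, hτ]
  have hl := H.norm_lam_lt h2 τ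
  have hl0 := H.norm_lam_pos h20 τ
  have h2L := H.norm_two_eq τ
  have hM : 2 ^ 3 ≤ 2 ^ (m + 1 + 1) := Nat.pow_le_pow_right (by norm_num) (by omega)
  have hsqL := H.norm_sq_lam h2 h20 τ (le_trans (by norm_num) hM)
  rw [map_sub, map_one, map_pow, hτ] at hsqL
  rw [hL] at hl hl0 h2L hsqL
  rw [hsqL] at hj1
  have hx2 : ‖(x : K)‖ ≤ ‖(2 : K)‖ := by
    obtain ⟨y, rfl⟩ := hx
    push_cast
    rw [norm_mul]
    have h3 := um_nat (K := K) y
    nlinarith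
  have hxn := norm_nonneg (x : K)
  have h2L4 : ‖(2 : K)‖ < ‖1 - z‖ ^ 4 := by
    rw [h2L]
    apply pow_lt_pow_right_of_lt_one₀ hl0 hl
    exact lt_of_lt_of_le (by norm_num) hM
  have hL2p : 0 < ‖1 - z‖ ^ 2 := by positivity
  have hL4p : 0 < ‖1 - z‖ ^ 4 := by positivity
  have hL21 : ‖1 - z‖ ^ 2 ≤ 1 := pow_le_one₀ hl0.le hl.le
  have hL42 : ‖1 - z‖ ^ 4 ≤ ‖1 - z‖ ^ 2 := by nlinarith
  have hPb := H.norm_P h2 h20 τ x hx
  rw [hL] at hPb
  have hP : ‖τ (∏ t ∈ TS (m + 1 + 1) 1, al (x : O) ζ t) - 1‖ ≤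
      ‖(2 : K)‖ ^ 2 / ‖1 - z‖ ^ 4 := by
    rw [le_div_iff₀ hL4p]
    have h3 := norm_nonneg (τ (∏ t ∈ TS (m + 1 + 1) 1, al (x : O) ζ t) - 1)
    calc ‖τ (∏ t ∈ TS (m + 1 + 1) 1, al (x : O) ζ t) - 1‖ * ‖1 - z‖ ^ 4
        ≤ ‖τ (∏ t ∈ TS (m + 1 + 1) 1, al (x : O) ζ t) - 1‖ * ‖1 - z‖ ^ 2 := by gcongr
      _ ≤ ‖(x : K)‖ * ‖(2 : K)‖ := hPb
      _ ≤ ‖(2 : K)‖ * ‖(2 : K)‖ := by gcongr
      _ = ‖(2 : K)‖ ^ 2 := by ring
  have hrlt : ‖(2 : K)‖ ^ 2 / ‖1 - z‖ ^ 4 < ‖(2 : K)‖ := by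
    rw [div_lt_iff₀ hL4p]
    nlinarith
  have hPlt := lt_of_le_of_lt hP hrlt
  have hr1 : ‖-gaussSum (φ ^ 2) ψ - (z ^ 2) ^ j‖ ≤ ‖(2 : K)‖ ^ 2 / ‖1 - z‖ ^ 4 := by
    rw [le_div_iff₀ hL4p]
    have h3 : (‖1 - z‖ ^ 2) ^ 2 = ‖1 - z‖ ^ 4 := by ring
    rw [h3] at hj1
    refine hj1.trans ?_
    push_cast
    rw [norm_pow]
    gcongr
  have hsq := sqrt_step h2 hp hp2 hT hz hφ hφ2 ψ hx H τ hτ hPlt hr1 hP
  set u1 := -gaussSum φ ψ / z ^ j with hu1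
  -- `u1 - 1` is small
  have hclose : ‖u1 - 1‖ * ‖1 - z‖ ^ 2 ≤ ‖(2 : K)‖ := by
    by_contra hcon
    push Not at hcon
    have h3 : ‖(2 : K)‖ < ‖u1 - 1‖ := by
      have h4 := norm_nonneg (u1 - 1)
      nlinarith
    have h4 : ‖u1 + 1‖ = ‖u1 - 1‖ := by
      apply um_eq
      have h5 : u1 + 1 - (u1 - 1) = 2 := by ring
      rw [h5]
      exact h3
    have h5 : ‖u1 - 1‖ * ‖u1 + 1‖ ≤ ‖(2 : K)‖ ^ 2 / ‖1 - z‖ ^ 4 := by
      rw [← norm_mul]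
      have h6 : (u1 - 1) * (u1 + 1) = u1 ^ 2 - 1 := by ring
      rw [h6]
      exact hsq
    rw [h4, le_div_iff₀ hL4p] at h5
    have h6 : (‖u1 - 1‖ * ‖1 - z‖ ^ 2) ^ 2 ≤ ‖(2 : K)‖ ^ 2 := by nlinarith
    have h7 := abs_le_of_sq_le_sq h6 h2p.le
    linarith [(abs_le.mp h7).2]
  have hnz := norm_z_one hz
  have hz0 : z ≠ 0 := by
    intro h
    rw [h, norm_zero] at hnz
    exact zero_ne_one hnz
  have hzj0 : z ^ j ≠ 0 := pow_ne_zero _ hz0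
  have hnzj : ‖z ^ j‖ = 1 := by rw [norm_pow, hnz, one_pow]
  have hun1 : un z φ ψ j 1 = u1 := by
    unfold un
    rw [pow_one, pow_one]
  have hun1n : ‖u1‖ ≤ 1 := by rw [← hun1]; exact norm_un h2 hz hφ ψ j 1
  have hu1sq : ‖u1 ^ 2 - 1‖ < ‖(2 : K)‖ := lt_of_le_of_lt hsq hrlt
  have h41 : ∀ b : ℕ, ‖un z φ ψ j (4 * b + 1) - u1‖ < ‖(2 : K)‖ := by
    intro b
    have h3 := H.galois_close2 h2 h20 τ hp2 (by rw [hτ]; exact hφ) hφ2 ψ (by omega) (j := j) (by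
      rw [hτ, hL]
      have h4 : -gaussSum φ ψ - z ^ j = z ^ j * (u1 - 1) := by
        rw [hu1]
        field_simp
      rw [h4, norm_mul, hnzj, one_mul]
      exact hclose) b
    rw [hτ] at h3
    exact h3
  refine ⟨j, ?_, ?_, ?_⟩
  · intro a ha hda
    obtain ⟨b, rfl⟩ := ha
    have hb1 : ¬ (2 ^ (m + 1 + 1) ∣ b) := by
      intro hd
      apply hda
      rw [← two_mul, pow_succ' 2 (m + 1 + 1)]
      exact Nat.mul_dvd_mul_left 2 hd
    have h3 := hj2 b hb1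
    rw [un_sub_one hz]
    have h4 : (φ ^ 2) ^ b = φ ^ (b + b) := by rw [← pow_mul, two_mul]
    have h5 : ((z ^ 2) ^ j) ^ b = (z ^ j) ^ (b + b) := by
      rw [← pow_mul, ← pow_mul, ← pow_mul]
      congr 1
      ring
    rw [← h4, ← h5]
    exact h3
  · intro a ha
    rw [hun1]
    have ha4 : a % 4 = 1 ∨ a % 4 = 3 := by
      obtain ⟨c, rfl⟩ := ha
      omega
    rcases ha4 with h | h
    · have h3 := h41 (a / 4)
      have h4 : 4 * (a / 4) + 1 = a := by omega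
      rwa [h4] at h3
    · -- `a ≡ 3 mod 4`
      obtain ⟨χ, hχ⟩ := H.exists_chi hp hp2 hT
      have hχ : IsRes (m + 1 + 1) p x T ζ χ := hχ
      have hcomp : φ = χ.ringHomComp τ := IsRes.eq_comp hp hp2 τ hχ (by rw [hτ]; exact hφ)
      have hNa : ¬ (2 ^ (m + 1 + 1 + 1) ∣ a) := by
        intro hd
        have h3 : 2 ∣ a := (dvd_pow_self 2 (by omega)).trans hd
        exact (Nat.not_even_iff_odd.mpr ha) (even_iff_two_dvd.mpr h3)
      have hne : φ ^ a ≠ 1 := by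
        have := H.comp_pow_ne_one hp hp2 hT hχ h20 τ hNa
        rwa [← hcomp] at this
      set a' := 2 ^ (m + 1 + 1 + 1) * a - a with ha'
      have hN8 : 2 ^ (m + 1 + 1 + 1) = 4 * 2 ^ (m + 1) := by ring
      have hpos : 1 ≤ 2 ^ (m + 1 + 1 + 1) := Nat.one_le_two_pow
      have hle : a ≤ 2 ^ (m + 1 + 1 + 1) * a := Nat.le_mul_of_pos_left _ (by omega)
      have hsum : a + a' = 2 ^ (m + 1 + 1 + 1) * a := by omega
      have ha'4 : a' % 4 = 1 := by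
        have h3 : (a + a') % 4 = 0 := by
          rw [hsum, hN8, mul_assoc]
          exact Nat.mul_mod_right _ _
        omega
      have hφN : φ ^ (2 ^ (m + 1 + 1 + 1)) = 1 := hφ.pow_card (by rw [pow_succ, pow_mul, hz]; ring)
      have hinv : φ ^ a' = (φ ^ a)⁻¹ := by
        rw [eq_inv_iff_mul_eq_one, ← pow_add, add_comm, hsum, pow_mul, hφN, one_pow]
      have hcard := gaussSum_mul_gaussSum_eq_card hne hψ
      have hneg1 : φ (-1) = 1 := chi_neg_one hp hp2 hφ hTe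
      have hψinv : gaussSum (φ ^ a)⁻¹ ψ⁻¹ = gaussSum (φ ^ a') ψ := by
        rw [← hinv]
        have h3 := gaussSum_mulShift (φ ^ a') ψ (-1)
        rw [Units.val_neg, Units.val_one] at h3
        have h4 : (φ ^ a') ((-1 : (ZMod p)ˣ) : ZMod p) = 1 := by
          rw [MulChar.pow_apply_coe, Units.val_neg, Units.val_one, hneg1, one_pow]
        rw [Units.val_neg, Units.val_one] at h4
        rw [h4, one_mul] at h3
        rw [AddChar.inv_mulShift]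
        exact h3
      rw [hψinv, ZMod.card] at hcard
      have huu : un z φ ψ j a * un z φ ψ j a' = (p : K) := by
        unfold un
        rw [div_mul_div_comm, neg_mul_neg, hcard, ← pow_add, hsum, pow_mul, ← pow_mul z,
          mul_comm j, pow_mul z, pow_succ, pow_mul z, hz]
        norm_num
      have hpK : ‖(p : K) - 1‖ < ‖(2 : K)‖ := by
        rw [hp]
        push_cast
        rw [add_sub_cancel_right, norm_pow]
        have h3 : ‖(x : K)‖ ^ (2 ^ (m + 1 + 1)) ≤ ‖(x : K)‖ ^ 2 :=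
          pow_le_pow_of_le_one hxn (hx2.trans h2.le) (by omega)
        nlinarith
      have h3 := h41 (a' / 4)
      have h4 : 4 * (a' / 4) + 1 = a' := by omega
      rw [h4] at h3
      have hua'n : ‖un z φ ψ j a'‖ = 1 := by
        have h5 : ‖(p : K)‖ = 1 := by
          have h6 : ‖(p : K)‖ = ‖(1 : K)‖ := um_eq (by
            rw [norm_one]
            exact hpK.trans h2)
          rw [h6, norm_one]
        rw [← huu, norm_mul] at h5
        have h6 := norm_un h2 hz hφ ψ j a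
        have h7 := norm_un h2 hz hφ ψ j a'
        have h8 := norm_nonneg (un z φ ψ j a)
        have h9 := norm_nonneg (un z φ ψ j a')
        nlinarith
      have h5 : (un z φ ψ j a - u1) * un z φ ψ j a' =
          ((p : K) - 1) - (u1 ^ 2 - 1) - u1 * (un z φ ψ j a' - u1) := by
        linear_combination huu
      have h6 : ‖(un z φ ψ j a - u1) * un z φ ψ j a'‖ < ‖(2 : K)‖ := by
        rw [h5]
        apply um_sub_lt (um_sub_lt hpK hu1sq)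
        rw [norm_mul]
        have := norm_nonneg (un z φ ψ j a' - u1)
        have := norm_nonneg u1
        nlinarith
      rwa [norm_mul, hua'n, mul_one] at h6
  · rw [hun1]
    exact hu1sq

end

end Pool.Agent.Y875.FP
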