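import Pool.Agent.Y875.FP.Fin2

/-!
Evaluation of all Jacobi sums `J(χ, χ^a)` for even `x`.
-/

open Polynomial

namespace Pool.Agent.Y875.FP

lemma two_card_TS {m a : ℕ} (ha : ¬ (2 ^ (m + 1) ∣ a)) (ha' : ¬ (2 ^ (m + 1) ∣ a + 1)) :
    2 * (TS m a).card = 2 ^ m := by
  have h1 : (TS m a).card = (TS m a)ᶜ.card := by
    refine Finset.card_bij (fun t _ => -t) ?_ ?_ ?_
    · intro t ht
      rw [Finset.mem_compl, neg_mem_TS ha ha']
      exact not_not.mpr ht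
    · intro t _ t' _ h
      exact neg_injective h
    · intro t ht
      refine ⟨-t, ?_, neg_neg t⟩
      rw [neg_mem_TS ha ha']
      exact Finset.mem_compl.mp ht
  have h2 := Finset.card_add_card_compl (TS m a)
  rw [← h1, ZMod.card_units_eq_totient, Nat.totient_prime_pow Nat.prime_two (by omega)] at h2
  simp at h2
  omega

section

variable {m : ℕ} {O : Type} [CommRing O] {ζ : O} (H : CycRing (m + 1) O ζ)
  {K : Type} [NormedField K] [IsUltrametricDist K] [CharZero K] (h2 : ‖(2 : K)‖ < 1)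
  (τ : O →+* K)

include H h2 in
lemma CycRing.norm_TS (hm : 2 ≤ m) {x : ℕ} (hx : 2 ∣ x) {a : ℕ} (ha : ¬ (2 ^ (m + 1) ∣ a))
    (ha' : ¬ (2 ^ (m + 1) ∣ a + 1)) :
    ‖τ (∏ t ∈ TS m a, al (x : O) ζ t) - 1‖ < ‖(2 : K)‖ := by
  have h20 : (2 : K) ≠ 0 := two_ne_zero
  have h2p : 0 < ‖(2 : K)‖ := norm_pos_iff.mpr h20
  obtain ⟨c, hc⟩ := prod_al_expand (x : O) ζ (TS m a)
  set A := ∑ t ∈ TS m a, ex ζ ((t⁻¹ : (ZMod (2 ^ (m + 1)))ˣ) : ZMod (2 ^ (m + 1))) with hA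
  have h4 : τ (∏ t ∈ TS m a, al (x : O) ζ t) - 1 = (x : K) ^ 2 * τ c - (x : K) * τ A := by
    rw [hc, map_add, map_sub, map_mul, map_mul, map_pow, map_natCast, map_one]
    ring
  have hx2 : ‖(x : K)‖ ≤ ‖(2 : K)‖ := by
    obtain ⟨y, rfl⟩ := hx
    push_cast
    rw [norm_mul]
    have := um_nat (K := K) y
    nlinarith
  have hxn := norm_nonneg (x : K)
  have hA1 : ‖τ A‖ < 1 := by
    have h5 : τ A = ∑ t ∈ TS m a, (τ (ex ζ ((t⁻¹ : (ZMod (2 ^ (m + 1)))ˣ) :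
        ZMod (2 ^ (m + 1)))) - 1) + (((TS m a).card : ℕ) : K) := by
      rw [Finset.sum_sub_distrib, hA, map_sum]
      simp
    rw [h5]
    apply um_add_lt
    · apply um_sum_lt _ one_pos
      intro t _
      have h6 := H.norm_lt_of_dvd h2 τ (lam_dvd_one_sub_ex ζ ((t⁻¹ : (ZMod (2 ^ (m + 1)))ˣ) :
        ZMod (2 ^ (m + 1))))
      rw [map_sub, map_one] at h6
      rwa [← norm_neg, neg_sub]
    · apply um_even h2
      have h6 := two_card_TS ha ha'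
      have h7 : 2 ^ m = 2 * (2 * 2 ^ (m - 2)) := by
        rw [← pow_succ', ← pow_succ']
        congr 1
        omega
      exact ⟨2 ^ (m - 2), by omega⟩
  rw [h4]
  apply um_sub_lt
  · rw [norm_mul, norm_pow]
    have h5 := H.norm_le τ c
    have h6 := norm_nonneg (τ c)
    calc ‖(x : K)‖ ^ 2 * ‖τ c‖ ≤ ‖(2 : K)‖ ^ 2 * 1 := by gcongr
      _ < ‖(2 : K)‖ := by nlinarith
  · rw [norm_mul]
    have h6 := norm_nonneg (τ A)
    calc ‖(x : K)‖ * ‖τ A‖ ≤ ‖(2 : K)‖ * ‖τ A‖ := by gcongr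
      _ < ‖(2 : K)‖ := by nlinarith

variable {p x T : ℕ} [hpp : Fact p.Prime] (hp : p = x ^ (2 ^ m) + 1) (hp2 : p ≠ 2)
  (hT : 2 ^ (m + 1) * T = x ^ (2 ^ m))
  {χ : MulChar (ZMod p) O} (hχ : IsRes m p x T ζ χ) {ψ : AddChar (ZMod p) K}

include H h2 hp hp2 hT hχ in
lemma CycRing.jac_close {φ : MulChar (ZMod p) K} (hφ : IsRes m p x T (τ ζ) φ)
    (hfine : Fine m (τ ζ) φ ψ) (hψ : ψ.IsPrimitive) {a : ℕ}
    (ha : ¬ (2 ^ (m + 1) ∣ a)) (ha' : ¬ (2 ^ (m + 1) ∣ a + 1)) :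
    ‖τ (jacobiSum χ (χ ^ a)) + 1‖ < ‖(2 : K)‖ := by
  have h20 : (2 : K) ≠ 0 := two_ne_zero
  have h2p : 0 < ‖(2 : K)‖ := norm_pos_iff.mpr h20
  have hz := map_half H τ
  have hcomp : φ = χ.ringHomComp τ := IsRes.eq_comp hp hp2 τ hχ hφ
  obtain ⟨j, hE, hO, hS⟩ := hfine
  set u := un (τ ζ) φ ψ j with hu
  have hnz := norm_z_one hz
  have hz0 : τ ζ ≠ 0 := by
    intro h
    rw [h, norm_zero] at hnz
    exact zero_ne_one hnz
  have hw0 : (τ ζ) ^ j ≠ 0 := pow_ne_zero _ hz0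
  have hne : φ * φ ^ a ≠ 1 := by
    have := H.comp_pow_ne_one hp hp2 hT hχ h20 τ ha'
    rwa [← hcomp, pow_succ'] at this
  have hJ : τ (jacobiSum χ (χ ^ a)) = jacobiSum φ (φ ^ a) := by
    rw [← jacobiSum_ringHomComp, hcomp, MulChar.ringHomComp_pow]
  have h3 := jacobiSum_mul_nontrivial hne ψ
  rw [← pow_succ'] at h3
  rw [hJ]
  set J := jacobiSum φ (φ ^ a) with hJdef
  have hua : ∀ c : ℕ, gaussSum (φ ^ c) ψ = -(u c * ((τ ζ) ^ j) ^ c) := by
    intro c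
    rw [hu]
    unfold un
    have := pow_ne_zero c hw0
    field_simp
  have h1 := hua 1
  rw [pow_one] at h1
  rw [hua (a + 1), hua a, h1] at h3
  have h4 : u (a + 1) * (J + 1) = u (a + 1) - u 1 * u a := by
    have h5 : ((τ ζ) ^ j) ^ (a + 1) ≠ 0 := pow_ne_zero _ hw0
    apply mul_right_cancel₀ h5
    linear_combination -h3
  have hn : ∀ c, ‖u c‖ ≤ 1 := fun c => norm_un h2 hz hφ ψ j c
  have hu1 : ‖u 1‖ = 1 := by
    have h5 : ‖u 1 ^ 2‖ = ‖(1 : K)‖ := um_eq (by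
      rw [norm_one]
      exact hS.trans h2)
    rw [norm_pow, norm_one] at h5
    exact (pow_eq_one_iff_of_nonneg (norm_nonneg _) two_ne_zero).mp h5
  have hkey : ‖u (a + 1)‖ = 1 ∧ ‖u (a + 1) - u 1 * u a‖ < ‖(2 : K)‖ := by
    rcases Nat.even_or_odd a with he | ho
    · have h5 := hE a he ha
      have h6 := hO (a + 1) he.add_one
      constructor
      · rw [← hu1]
        apply um_eq
        rw [hu1]
        exact h6.trans h2
      · have h7 : u (a + 1) - u 1 * u a = (u (a + 1) - u 1) - u 1 * (u a - 1) := by ring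
        rw [h7]
        apply um_sub_lt h6
        rw [norm_mul, hu1, one_mul]
        exact h5
    · have h5 := hE (a + 1) (ho.add_one) ha'
      have h6 := hO a ho
      constructor
      · rw [← norm_one (α := K)]
        apply um_eq
        rw [norm_one]
        exact h5.trans h2
      · have h7 : u (a + 1) - u 1 * u a = (u (a + 1) - 1) - (u 1 ^ 2 - 1) -
            u 1 * (u a - u 1) := by ring
        rw [h7]
        apply um_sub_lt (um_sub_lt h5 hS)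
        rw [norm_mul, hu1, one_mul]
        exact h6
  have h5 := congrArg norm h4
  rw [norm_mul, hkey.1, one_mul] at h5
  rw [h5]
  exact hkey.2

end

section

variable {m : ℕ} {O : Type} [CommRing O] {ζ : O} (H : CycRing (m + 1) O ζ)
  {p x T : ℕ} [hpp : Fact p.Prime] (hp : p = x ^ (2 ^ m) + 1) (hp2 : p ≠ 2)
  (hT : 2 ^ (m + 1) * T = x ^ (2 ^ m))
  {χ : MulChar (ZMod p) O} (hχ : IsRes m p x T ζ χ)

include H hp hp2 hT hχ in
/-- The evaluation of the Jacobi sums for even `x`. -/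
theorem CycRing.jacobi_eq_even (hm : 2 ≤ m) (hTe : Even T) (hχ2 : χ 2 = 1)
    (hx : 4 ∣ x ∨ (2 ∣ x ∧ 3 ≤ m)) {a : ℕ}
    (ha : ¬ (2 ^ (m + 1) ∣ a)) (ha' : ¬ (2 ^ (m + 1) ∣ a + 1)) :
    jacobiSum χ (χ ^ a) = -∏ t ∈ TS m a, al (x : O) ζ t := by
  let K := PadicAlgCl 2
  have h2 : ‖(2 : K)‖ < 1 := by
    have h3 : (2 : K) = algebraMap ℚ_[2] K 2 := (map_ofNat _ 2).symm
    rw [h3]
    have h4 := PadicAlgCl.norm_extends 2 (2 : ℚ_[2])
    rw [h4]
    have h5 := Padic.norm_p_lt_one (p := 2)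
    exact_mod_cast h5
  obtain ⟨ω, hω⟩ := HasEnoughRootsOfUnity.exists_primitiveRoot K p
  set ψ : AddChar (ZMod p) K := AddChar.zmodChar p ((IsPrimitiveRoot.iff_def ω p).mp hω).left
  have hψ : ψ.IsPrimitive := AddChar.zmodChar_primitive_of_primitive_root p hω
  obtain ⟨z, hz⟩ := IsAlgClosed.exists_pow_nat_eq (-1 : K) (n := 2 ^ m) (by positivity)
  obtain ⟨τ, hτ⟩ := H.lift K z (by rw [Nat.add_sub_cancel]; exact hz)
  set φ := χ.ringHomComp τ with hφdef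
  have hφ : IsRes m p x T (τ ζ) φ := by
    intro u hu
    obtain ⟨j, hj1, hj2⟩ := hχ u hu
    refine ⟨j, ?_, hj2⟩
    rw [hφdef, MulChar.ringHomComp_apply, hj1, map_ex]
  have hφ2 : φ 2 = 1 := by
    rw [hφdef, MulChar.ringHomComp_apply, hχ2, map_one]
  have hx2 : 2 ∣ x := by
    rcases hx with h | h
    · exact (by norm_num : 2 ∣ 4).trans h
    · exact h.1
  have hfine : Fine m (τ ζ) φ ψ := by
    rcases hx with h | ⟨h, h3⟩
    · obtain ⟨n, rfl⟩ : ∃ n, m = n + 1 := ⟨m - 1, by omega⟩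
      exact fineA h2 hp2 hψ (by omega) hp hT (map_half H τ) hφ hφ2 h
    · obtain ⟨n, rfl⟩ : ∃ n, m = n + 1 + 1 := ⟨m - 2, by omega⟩
      exact fineB h2 hp2 hψ (by omega) hp hT hTe (map_half H τ) hφ hφ2 h
  exact H.jacobi_of_close h2 two_ne_zero τ hp hp2 hT hχ hx2 ha ha'
    (H.jac_close h2 τ hp hp2 hT hχ hφ hfine hψ ha ha') (H.norm_TS h2 τ hm hx2 ha ha')

end

end Pool.Agent.Y875.FP
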