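import Pool.Agent.Y875.FP.Abs

/-!
Evaluation of the Jacobi sums `J(χ, χ^a)` by Fourier analysis on `ZMod N` and Kronecker's theorem.
-/

open Polynomial ComplexConjugate

namespace Pool.Agent.Y875.FP

lemma geom_ex {A : Type} [CommRing A] [IsDomain A] {N : ℕ} [NeZero N] {z : A}
    (hz : IsPrimitiveRoot z N) (w : ZMod N) :
    ∑ a ∈ Finset.range N, (ex z w) ^ a = if w = 0 then (N : A) else 0 := by
  split_ifs with h
  · rw [h, ex_zero]; simp
  · have h1 : (ex z w - 1) * ∑ a ∈ Finset.range N, (ex z w) ^ a = 0 := by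
      rw [mul_comm, geom_sum_mul, ex_pow_card hz.pow_eq_one, sub_self]
    rcases mul_eq_zero.mp h1 with h2 | h2
    · exfalso
      apply h
      apply ex_injective hz
      rw [ex_zero]
      linear_combination h2
    · exact h2

lemma T_even {m x T : ℕ} (hT : 2 ^ (m + 1) * T = x ^ (2 ^ m)) (hm : 1 ≤ m)
    (hx : 2 ^ (m + 1) ∣ x) : Even T := by
  have h1 : 2 ^ (m + 1) * 2 ^ (m + 1) ∣ 2 ^ (m + 1) * T := by
    rw [hT, ← sq]
    have h2 : 2 ≤ 2 ^ m := by
      calc 2 = 2 ^ 1 := by norm_num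
        _ ≤ 2 ^ m := Nat.pow_le_pow_right (by norm_num) hm
    exact (pow_dvd_pow_of_dvd hx 2).trans (pow_dvd_pow x h2)
  have h3 : 2 ^ (m + 1) ∣ T := Nat.dvd_of_mul_dvd_mul_left (by positivity) h1
  exact even_iff_two_dvd.mpr ((dvd_pow_self 2 (by omega)).trans h3)

/-- Equality case in the triangle inequality. -/
lemma eq_of_sum_eq {N : ℕ} {w : ℕ → ℂ} {μ : ℂ} (hw : ∀ a ∈ Finset.range N, ‖w a‖ ≤ 1)
    (hμ : ‖μ‖ = 1) (hsum : ∑ a ∈ Finset.range N, w a = N * μ) :
    ∀ a ∈ Finset.range N, w a = μ := by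
  have hμ2 : conj μ * μ = 1 := by rw [Complex.conj_mul', hμ]; simp
  have h1 : ∀ a ∈ Finset.range N, (conj μ * w a).re ≤ 1 := by
    intro a ha
    calc (conj μ * w a).re ≤ ‖conj μ * w a‖ := Complex.re_le_norm _
      _ = ‖w a‖ := by rw [norm_mul, Complex.norm_conj, hμ, one_mul]
      _ ≤ 1 := hw a ha
  have h2 : ∑ a ∈ Finset.range N, (conj μ * w a).re = N := by
    rw [← Complex.re_sum, ← Finset.mul_sum, hsum]
    have : conj μ * (N * μ) = (N : ℂ) := by
      calc conj μ * (N * μ) = N * (conj μ * μ) := by ring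
        _ = N := by rw [hμ2, mul_one]
    rw [this]; simp
  have h3 : ∀ a ∈ Finset.range N, (conj μ * w a).re = 1 := by
    by_contra hcon
    push Not at hcon
    obtain ⟨a, ha, hne⟩ := hcon
    have hlt : (conj μ * w a).re < 1 := lt_of_le_of_ne (h1 a ha) hne
    have : ∑ a ∈ Finset.range N, (conj μ * w a).re < ∑ a ∈ Finset.range N, (1 : ℝ) :=
      Finset.sum_lt_sum h1 ⟨a, ha, hlt⟩
    rw [h2] at this
    simp at this
  intro a ha
  have h4 := h3 a ha
  have h5 : ‖conj μ * w a‖ ≤ 1 := by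
    rw [norm_mul, Complex.norm_conj, hμ, one_mul]; exact hw a ha
  have h6 : conj μ * w a = 1 := by
    apply Complex.ext
    · rw [h4]; simp
    · have h7 := Complex.sq_norm (conj μ * w a)
      rw [Complex.normSq_apply, h4] at h7
      have h8 : ‖conj μ * w a‖ ^ 2 ≤ 1 := by
        have := norm_nonneg (conj μ * w a)
        nlinarith
      have h9 : (conj μ * w a).im * (conj μ * w a).im ≤ 0 := by nlinarith
      have h10 : (conj μ * w a).im = 0 := by
        have := mul_self_nonneg (conj μ * w a).im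
        nlinarith [mul_self_eq_zero.mp (le_antisymm h9 this)]
      rw [h10]; simp
  calc w a = (conj μ * μ) * w a := by rw [hμ2, one_mul]
    _ = μ * (conj μ * w a) := by ring
    _ = μ := by rw [h6, mul_one]

section

variable {m : ℕ} {O : Type} [CommRing O] {ζ : O} (H : CycRing (m + 1) O ζ)
  {p x T : ℕ} [hpp : Fact p.Prime] (hp : p = x ^ (2 ^ m) + 1) (hp2 : p ≠ 2)
  (hT : 2 ^ (m + 1) * T = x ^ (2 ^ m))
  {χ : MulChar (ZMod p) O} (hχ : IsRes m p x T ζ χ)

include H hχ in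
lemma CycRing.sum_jacobi (i : ZMod (2 ^ (m + 1))) :
    ((2 ^ (m + 1) : ℕ) : O) ∣ ∑ a ∈ Finset.range (2 ^ (m + 1)),
      jacobiSum χ (χ ^ a) * (ex ζ (-i)) ^ a := by
  have := H.dom
  have h1 : ∀ a ∈ Finset.range (2 ^ (m + 1)), jacobiSum χ (χ ^ a) * (ex ζ (-i)) ^ a =
      ∑ u : ZMod p, χ u * ((χ ^ a) (1 - u) * (ex ζ (-i)) ^ a) := by
    intro a _
    unfold jacobiSum
    rw [Finset.sum_mul]
    exact Finset.sum_congr rfl fun u _ => by ring
  rw [Finset.sum_congr rfl h1, Finset.sum_comm]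
  apply Finset.dvd_sum
  intro u _
  rw [← Finset.mul_sum]
  apply Dvd.dvd.mul_left
  by_cases hu : (1 : ZMod p) - u = 0
  · rw [hu]
    simp [MulChar.map_zero]
  · obtain ⟨j, h2, _⟩ := hχ (1 - u) hu
    have h3 : ∀ a ∈ Finset.range (2 ^ (m + 1)), (χ ^ a) (1 - u) * (ex ζ (-i)) ^ a =
        (ex ζ (j - i)) ^ a := by
      intro a _
      have h4 := MulChar.pow_apply_coe χ a (Units.mk0 (1 - u) hu)
      rw [Units.val_mk0] at h4
      rw [h4, h2, ← mul_pow, ← ex_add H.pow_card, sub_eq_add_neg]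
    rw [Finset.sum_congr rfl h3, geom_ex H.prim]
    split_ifs
    · exact dvd_refl _
    · exact dvd_zero _

omit hpp in
lemma dvd_prod_al_sub_one {N : ℕ} (S : Finset (ZMod N)ˣ) :
    (x : O) ∣ ∏ t ∈ S, al (x : O) ζ t - 1 := by
  classical
  induction S using Finset.induction_on with
  | empty => simp
  | insert t S ht ih =>
    rw [Finset.prod_insert ht]
    have h1 : al (x : O) ζ t * ∏ t ∈ S, al (x : O) ζ t - 1 =
        al (x : O) ζ t * (∏ t ∈ S, al (x : O) ζ t - 1) + (al (x : O) ζ t - 1) := by ring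
    rw [h1]
    apply dvd_add (Dvd.dvd.mul_left ih _)
    unfold al
    have : (1 : O) - (x : O) * ex ζ ((t⁻¹ : (ZMod N)ˣ) : ZMod N) - 1 =
      (x : O) * (- ex ζ ((t⁻¹ : (ZMod N)ˣ) : ZMod N)) := by ring
    rw [this]
    exact Dvd.intro _ rfl

include H hp hp2 hT hχ in
lemma CycRing.exists_eps (hm : 1 ≤ m) (hx : 2 ^ (m + 1) ∣ x) (a : ℕ) (haN : a < 2 ^ (m + 1)) :
    ∃ ε P : O, jacobiSum χ (χ ^ a) = -(ε * P) ∧ (x : O) ∣ P - 1 ∧ (∀ σ : O →+* ℂ, ‖σ ε‖ = 1) ∧
      (a = 0 → ε = 1) ∧ (a = 2 ^ (m + 1) - 1 → ε = 1) ∧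
      (¬ (2 ^ (m + 1) ∣ a) → ¬ (2 ^ (m + 1) ∣ a + 1) → P = ∏ t ∈ TS m a, al (x : O) ζ t) := by
  have := H.dom
  have hm1 : ¬ (2 ^ (m + 1) ∣ 1) := by
    rw [Nat.dvd_one]
    exact (Nat.one_lt_two_pow (by omega)).ne'
  have hχ1 : χ ≠ 1 := by
    have := H.pow_ne_one hp hp2 hT hχ hm1
    rwa [pow_one] at this
  by_cases ha0 : a = 0
  · refine ⟨1, 1, ?_, by simp, by simp, fun _ => rfl, fun _ => rfl, ?_⟩
    · rw [ha0, pow_zero, jacobiSum_comm, jacobiSum_one_nontrivial hχ1]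
      ring
    · intro h
      exact absurd (by rw [ha0]; exact dvd_zero _) h
  by_cases ha1 : a = 2 ^ (m + 1) - 1
  · have hpos : 1 ≤ 2 ^ (m + 1) := Nat.one_le_two_pow
    refine ⟨1, 1, ?_, by simp, by simp, fun _ => rfl, fun _ => rfl, ?_⟩
    · have h1 : χ ^ a = χ⁻¹ := by
        rw [eq_inv_iff_mul_eq_one, ← pow_succ, ha1, Nat.sub_add_cancel hpos]
        exact hχ.pow_card H.pow_card
      have hTe : Even T := T_even hT hm hx
      rw [h1, jacobiSum_nontrivial_inv hχ1, chi_neg_one hp hp2 hχ hTe]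
      ring
    · intro _ h
      exact absurd (by rw [ha1, Nat.sub_add_cancel hpos]) h
  have h1 : ¬ (2 ^ (m + 1) ∣ a) := fun h => by
    have := Nat.le_of_dvd (Nat.pos_of_ne_zero ha0) h
    omega
  have h2 : ¬ (2 ^ (m + 1) ∣ a + 1) := fun h => by
    have := Nat.le_of_dvd (by omega) h
    omega
  have hx2 : 2 ∣ x := Dvd.dvd.trans (dvd_pow_self 2 (by omega)) hx
  obtain ⟨e, he⟩ := H.prod_dvd_jacobi hp hp2 hT hχ hx2 h1
  refine ⟨-e, ∏ t ∈ TS m a, al (x : O) ζ t, ?_, dvd_prod_al_sub_one _, ?_, fun h => absurd h ha0,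
    fun h => absurd h ha1, fun _ _ => rfl⟩
  · rw [he]; ring
  · intro σ
    have h3 := H.norm_jacobi hp hp2 hT hχ σ h1 h2
    have h4 := H.norm_prod_al hp σ h1 h2
    rw [he, map_mul, norm_mul, mul_pow, h4] at h3
    have hp0 : (p : ℝ) ≠ 0 := by
      have := (Fact.out : p.Prime).ne_zero
      exact_mod_cast this
    have h5 : ‖σ e‖ ^ 2 = 1 := by
      have : (p : ℝ) * (‖σ e‖ ^ 2 - 1) = 0 := by linear_combination h3
      rcases mul_eq_zero.mp this with h | h
      · exact absurd h hp0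
      · linarith
    rw [map_neg, norm_neg]
    have h6 := norm_nonneg (σ e)
    nlinarith

include H hp hp2 hT hχ in
/-- The evaluation of the Jacobi sums `J(χ, χ^a)`. -/
theorem CycRing.jacobi_eq (hm : 1 ≤ m) (hx : 2 ^ (m + 1) ∣ x) {a : ℕ} (haN : a < 2 ^ (m + 1))
    (ha : ¬ (2 ^ (m + 1) ∣ a)) (ha' : ¬ (2 ^ (m + 1) ∣ a + 1)) :
    jacobiSum χ (χ ^ a) = -∏ t ∈ TS m a, al (x : O) ζ t := by
  have := H.dom
  have := H.ch0
  have hN0 : (2 ^ (m + 1) : ℕ) ≠ 0 := by positivity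
  have hNO : ((2 ^ (m + 1) : ℕ) : O) ≠ 0 := Nat.cast_ne_zero.mpr hN0
  have hNx : ((2 ^ (m + 1) : ℕ) : O) ∣ (x : O) := by exact_mod_cast Nat.cast_dvd_cast hx
  choose! ε P hJ hP hε hε0 hε1 hTS using H.exists_eps hp hp2 hT hχ hm hx
  -- the Fourier coefficients are divisible by `N`
  have hdiv : ∀ i : ZMod (2 ^ (m + 1)), ((2 ^ (m + 1) : ℕ) : O) ∣
      ∑ a ∈ Finset.range (2 ^ (m + 1)), ε a * (ex ζ (-i)) ^ a := by
    intro i
    have h1 := H.sum_jacobi hχ i
    have h2 : ((2 ^ (m + 1) : ℕ) : O) ∣ ∑ a ∈ Finset.range (2 ^ (m + 1)),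
        (ε a * (ex ζ (-i)) ^ a + jacobiSum χ (χ ^ a) * (ex ζ (-i)) ^ a) := by
      apply Finset.dvd_sum
      intro a ha
      rw [hJ a (Finset.mem_range.mp ha)]
      have h3 := hNx.trans (hP a (Finset.mem_range.mp ha))
      have h4 : ε a * (ex ζ (-i)) ^ a + -(ε a * P a) * (ex ζ (-i)) ^ a =
          (P a - 1) * (-(ε a * (ex ζ (-i)) ^ a)) := by ring
      rw [h4]
      exact Dvd.dvd.mul_right h3 _
    rw [Finset.sum_add_distrib] at h2
    exact (dvd_add_left h1).mp h2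
  choose μ hμ using hdiv
  -- some coefficient is nonzero
  have hsum : ∑ i : ZMod (2 ^ (m + 1)), μ i = 1 := by
    have h1 : ((2 ^ (m + 1) : ℕ) : O) * ∑ i : ZMod (2 ^ (m + 1)), μ i =
        ((2 ^ (m + 1) : ℕ) : O) * 1 := by
      rw [Finset.mul_sum]
      rw [← Finset.sum_congr rfl fun i _ => hμ i, Finset.sum_comm]
      have h2 : ∀ a ∈ Finset.range (2 ^ (m + 1)),
          ∑ i : ZMod (2 ^ (m + 1)), ε a * (ex ζ (-i)) ^ a =
          if a = 0 then ((2 ^ (m + 1) : ℕ) : O) else 0 := by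
        intro a ha
        rw [← Finset.mul_sum]
        have h3 : ∀ i : ZMod (2 ^ (m + 1)), (ex ζ (-i)) ^ a =
            (ex ζ (-(a : ZMod (2 ^ (m + 1))))) ^ i.val := by
          intro i
          rw [← ex_nat_mul H.pow_card, ← ex_mul H.pow_card]
          congr 1
          ring
        rw [Finset.sum_congr rfl fun i _ => h3 i]
        have h4 : ∑ i : ZMod (2 ^ (m + 1)), (ex ζ (-(a : ZMod (2 ^ (m + 1))))) ^ i.val =
            ∑ k ∈ Finset.range (2 ^ (m + 1)), (ex ζ (-(a : ZMod (2 ^ (m + 1))))) ^ k := by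
          refine Finset.sum_bij (fun i _ => i.val) ?_ ?_ ?_ ?_
          · intro i _
            exact Finset.mem_range.mpr (ZMod.val_lt i)
          · intro i _ j _ h
            exact ZMod.val_injective _ h
          · intro k hk
            exact ⟨(k : ZMod (2 ^ (m + 1))), Finset.mem_univ _, by
              rw [ZMod.val_natCast, Nat.mod_eq_of_lt (Finset.mem_range.mp hk)]⟩
          · intro i _
            rfl
        rw [h4, geom_ex H.prim]
        have h5 : (-(a : ZMod (2 ^ (m + 1))) = 0) ↔ a = 0 := by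
          rw [neg_eq_zero, ZMod.natCast_eq_zero_iff]
          constructor
          · intro h
            by_contra h6
            have := Nat.le_of_dvd (Nat.pos_of_ne_zero h6) h
            have := Finset.mem_range.mp ha
            omega
          · rintro rfl
            exact dvd_zero _
        by_cases h6 : a = 0
        · rw [if_pos (h5.mpr h6), if_pos h6, hε0 a (Finset.mem_range.mp ha) h6, one_mul]
        · rw [if_neg (fun h => h6 (h5.mp h)), if_neg h6, mul_zero]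
      rw [Finset.sum_congr rfl h2, Finset.sum_ite_eq' (Finset.range (2 ^ (m + 1))) 0
        (fun _ => ((2 ^ (m + 1) : ℕ) : O)), if_pos (Finset.mem_range.mpr (by positivity)), mul_one]
    exact mul_left_cancel₀ hNO h1
  obtain ⟨i, hi⟩ : ∃ i, μ i ≠ 0 := by
    by_contra hcon
    push Not at hcon
    rw [Finset.sum_eq_zero fun i _ => hcon i] at hsum
    exact zero_ne_one hsum
  -- all its conjugates have absolute value at most one
  have hle : ∀ σ : O →+* ℂ, ‖σ (μ i)‖ ≤ 1 := by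
    intro σ
    have hz : (σ ζ) ^ (2 ^ (m + 1)) = 1 := by rw [pow_succ, pow_mul, map_half H σ]; ring
    have h1 : ((2 ^ (m + 1) : ℕ) : ℂ) * σ (μ i) =
        ∑ a ∈ Finset.range (2 ^ (m + 1)), σ (ε a * (ex ζ (-i)) ^ a) := by
      rw [← map_sum, hμ i, map_mul, map_natCast]
    have h2 : ‖((2 ^ (m + 1) : ℕ) : ℂ) * σ (μ i)‖ ≤ 2 ^ (m + 1) := by
      rw [h1]
      calc ‖∑ a ∈ Finset.range (2 ^ (m + 1)), σ (ε a * (ex ζ (-i)) ^ a)‖
          ≤ ∑ a ∈ Finset.range (2 ^ (m + 1)), ‖σ (ε a * (ex ζ (-i)) ^ a)‖ := norm_sum_le _ _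
        _ ≤ ∑ a ∈ Finset.range (2 ^ (m + 1)), (1 : ℝ) := by
            apply Finset.sum_le_sum
            intro a ha
            rw [map_mul, map_pow, map_ex, norm_mul, norm_pow, hε a (Finset.mem_range.mp ha) σ,
              Complex.norm_eq_one_of_pow_eq_one (ex_pow_card hz (-i)) hN0]
            simp
        _ = 2 ^ (m + 1) := by simp
    rw [norm_mul, Complex.norm_natCast] at h2
    push_cast at h2
    have h3 : (0 : ℝ) < 2 ^ (m + 1) := by positivity
    by_contra hcon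
    push Not at hcon
    nlinarith
  obtain ⟨k, hk, hk1⟩ := H.kron (μ i) hi hle
  -- fix an embedding
  obtain ⟨c, hc⟩ : ∃ c : ℂ, c ^ (2 ^ m) = -1 :=
    IsAlgClosed.exists_pow_nat_eq (-1 : ℂ) (by positivity)
  obtain ⟨σ, -⟩ := H.lift ℂ c (by simpa using hc)
  have hz : (σ ζ) ^ (2 ^ (m + 1)) = 1 := by rw [pow_succ, pow_mul, map_half H σ]; ring
  have hμ1 : ‖σ (μ i)‖ = 1 := by
    apply Complex.norm_eq_one_of_pow_eq_one (n := k) _ hk.ne'
    rw [← map_pow, hk1, map_one]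
  have hall := eq_of_sum_eq (N := 2 ^ (m + 1)) (w := fun a => σ (ε a * (ex ζ (-i)) ^ a))
    (μ := σ (μ i)) (by
      intro a ha
      rw [map_mul, map_pow, map_ex, norm_mul, norm_pow, hε a (Finset.mem_range.mp ha) σ,
        Complex.norm_eq_one_of_pow_eq_one (ex_pow_card hz (-i)) hN0]
      simp) hμ1 (by
      rw [← map_sum, hμ i, map_mul, map_natCast])
  have hall' : ∀ a < 2 ^ (m + 1), ε a * (ex ζ (-i)) ^ a = μ i := by
    intro a ha
    exact H.inj σ (hall a (Finset.mem_range.mpr ha))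
  have hμi : μ i = 1 := by
    rw [← hall' 0 (by positivity), hε0 0 (by positivity) rfl, pow_zero, mul_one]
  have hexi : ex ζ (-i) = 1 := by
    have h1 := hall' (2 ^ (m + 1) - 1) (by omega)
    rw [hε1 _ (by omega) rfl, one_mul, hμi] at h1
    have h2 : (ex ζ (-i)) ^ (2 ^ (m + 1) - 1) * ex ζ (-i) = 1 := by
      rw [← pow_succ, Nat.sub_add_cancel Nat.one_le_two_pow]
      exact ex_pow_card H.pow_card (-i)
    rw [h1, one_mul] at h2
    exact h2
  have hfin : ε a = 1 := by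
    have h1 := hall' a haN
    rw [hexi, one_pow, mul_one, hμi] at h1
    exact h1
  rw [hJ a haN, hfin, one_mul, hTS a haN ha ha']

end

end Pool.Agent.Y875.FP
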