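import Pool.Agent.Y875.FP.Eps

/-!
Gauss sums are close to roots of unity: induction on the level.
-/

open Polynomial

namespace Pool.Agent.Y875.FP

lemma IsRes.sq {A : Type} [CommRing A] {m p x T : ℕ} [hpp : Fact p.Prime]
    (hp : p = x ^ (2 ^ (m + 1)) + 1) (hp2 : p ≠ 2) {z : A} (hz : z ^ (2 ^ (m + 1)) = -1)
    {φ : MulChar (ZMod p) A} (hφ : IsRes (m + 1) p x T z φ) :
    IsRes m p (x ^ 2) (2 * T) (z ^ 2) (φ ^ 2) := by
  intro u hu
  obtain ⟨j, hj1, hj2⟩ := hφ u hu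
  have hp' : p = (x ^ 2) ^ (2 ^ m) + 1 := by rw [← pow_mul, ← pow_succ']; exact hp
  have hz2 : (z ^ 2) ^ (2 ^ (m + 1)) = 1 := by
    rw [← pow_mul, mul_comm, pow_mul, hz]; ring
  refine ⟨((j.val : ℕ) : ZMod (2 ^ (m + 1))), ?_, ?_⟩
  · rw [MulChar.pow_apply' _ two_ne_zero, hj1, ex_natCast hz2]
    unfold ex
    rw [← pow_mul, ← pow_mul, mul_comm]
  · rw [ex_natCast (ci_prim hp' hp2).pow_eq_one]
    have h1 : ci m p (x ^ 2) = (ci (m + 1) p x) ^ 2 := by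
      have e1 := cpow hp'
      have e2 := cpow hp
      have e3 : ((x ^ 2 : ℕ) : ZMod p) ≠ 0 := by
        intro h
        rw [h, mul_zero] at e1
        exact zero_ne_one e1
      apply mul_right_cancel₀ e3
      unfold ci
      rw [e1]
      push_cast
      linear_combination (-(((-(x : ZMod p) ^ (2 ^ (m + 1) - 1)) * (x : ZMod p)) + 1)) * e2
    rw [h1, ← pow_mul, mul_comm 2 j.val, pow_mul, mul_comm 2 T, pow_mul, ← hj2]
    rfl

lemma IsRes.eq_comp {O A : Type} [CommRing O] [CommRing A] {m p x T : ℕ} [hpp : Fact p.Prime]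
    (hp : p = x ^ (2 ^ m) + 1) (hp2 : p ≠ 2) {ζ : O} (τ : O →+* A) {χ : MulChar (ZMod p) O}
    (hχ : IsRes m p x T ζ χ) {φ : MulChar (ZMod p) A} (hφ : IsRes m p x T (τ ζ) φ) :
    φ = χ.ringHomComp τ := by
  ext u
  obtain ⟨j, hj1, hj2⟩ := hφ u (Units.ne_zero u)
  obtain ⟨i, hi1, hi2⟩ := hχ u (Units.ne_zero u)
  have h1 : i = j := ex_injective (ci_prim hp hp2) (hi2.trans hj2.symm)
  rw [MulChar.ringHomComp_apply, hj1, hi1, map_ex, h1]

section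

variable {K : Type} [NormedField K] [IsUltrametricDist K] [CharZero K] (h2 : ‖(2 : K)‖ < 1)

include h2 in
lemma norm_sub_one_lt {m p x T : ℕ} {z : K} (hz : z ^ (2 ^ m) = -1) {φ : MulChar (ZMod p) K}
    (hφ : IsRes m p x T z φ) (u : ZMod p) (hu : u ≠ 0) : ‖φ u - 1‖ < 1 := by
  obtain ⟨O, _, ζ, H⟩ := exists_cycRing (m + 1) (by omega)
  obtain ⟨τ, hτ⟩ := H.lift K z (by rw [Nat.add_sub_cancel]; exact hz)
  obtain ⟨j, hj, _⟩ := hφ u hu
  have h1 := H.norm_lt_of_dvd h2 τ (lam_dvd_one_sub_ex ζ j)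
  rw [map_sub, map_one, map_ex, hτ, ← hj] at h1
  rwa [← norm_neg, neg_sub]

include h2 in
lemma norm_gauss_le {m p x T : ℕ} [hpp : Fact p.Prime] {z : K} (hz : z ^ (2 ^ m) = -1)
    {φ : MulChar (ZMod p) K}
    (hφ : IsRes m p x T z φ) (ψ : AddChar (ZMod p) K) (a : ℕ) : ‖gaussSum (φ ^ a) ψ‖ ≤ 1 := by
  unfold gaussSum
  apply um_sum_le _ zero_le_one
  intro u _
  rw [norm_mul, norm_psi, mul_one]
  by_cases hu : u = 0
  · rw [hu, MulChar.map_zero, norm_zero]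
    exact zero_le_one
  · have h4 := MulChar.pow_apply_coe φ a (Units.mk0 u hu)
    rw [Units.val_mk0] at h4
    have h5 : ‖φ u‖ = ‖(1 : K)‖ := um_eq (by
      rw [norm_one]
      exact norm_sub_one_lt h2 hz hφ u hu)
    rw [h4, norm_pow, h5, norm_one, one_pow]

/-- The Gauss sums attached to `φ` are close to the powers of a root of unity. -/
def Close {p : ℕ} (m x : ℕ) (z : K) (φ : MulChar (ZMod p) K) (ψ : AddChar (ZMod p) K) [NeZero p] :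
    Prop :=
  ∃ j : ℕ, ‖-gaussSum φ ψ - z ^ j‖ ≤ ‖(x : K)‖ / ‖(2 : K)‖ ∧
    ∀ a : ℕ, ¬ (2 ^ (m + 1) ∣ a) → ‖-gaussSum (φ ^ a) ψ - (z ^ j) ^ a‖ < ‖(2 : K)‖

include h2 in
/-- Square root step. -/
lemma sqrt_step {p : ℕ} [hpp : Fact p.Prime] {m x T : ℕ} (hp : p = x ^ (2 ^ (m + 1)) + 1)
    (hp2 : p ≠ 2) (hT : 2 ^ (m + 1 + 1) * T = x ^ (2 ^ (m + 1))) {z : K}
    (hz : z ^ (2 ^ (m + 1)) = -1) {φ : MulChar (ZMod p) K}
    (hφ : IsRes (m + 1) p x T z φ) (hφ2 : φ 2 = 1) (ψ : AddChar (ZMod p) K)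
    (hx : 2 ∣ x) {j : ℕ}
    {O : Type} [CommRing O] {ζ : O} (H : CycRing (m + 1 + 1) O ζ) (τ : O →+* K) (hτ : τ ζ = z)
    (h4 : ‖τ (∏ t ∈ TS (m + 1) 1, al (x : O) ζ t) - 1‖ < ‖(2 : K)‖)
    {r : ℝ} (hr1 : ‖-gaussSum (φ ^ 2) ψ - (z ^ 2) ^ j‖ ≤ r)
    (hr2 : ‖τ (∏ t ∈ TS (m + 1) 1, al (x : O) ζ t) - 1‖ ≤ r) :
    ‖(-gaussSum φ ψ / z ^ j) ^ 2 - 1‖ ≤ r := by
  have h20 : (2 : K) ≠ 0 := two_ne_zero
  obtain ⟨χ, hχ⟩ := H.exists_chi hp hp2 hT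
  have hχ : IsRes (m + 1) p x T ζ χ := hχ
  have hcomp : φ = χ.ringHomComp τ := IsRes.eq_comp hp hp2 τ hχ (by rw [hτ]; exact hφ)
  have hN1 : ¬ (2 ^ (m + 1 + 1) ∣ 1) := by
    rw [Nat.dvd_one]
    exact (Nat.one_lt_two_pow (by omega)).ne'
  have hN2 : ¬ (2 ^ (m + 1 + 1) ∣ 1 + 1) := by
    intro h
    have h1 := Nat.le_of_dvd (by norm_num) h
    have h3 : 2 ^ 2 ≤ 2 ^ (m + 1 + 1) := Nat.pow_le_pow_right (by norm_num) (by omega)
    omega
  have hxev : ∃ s, x ^ (2 ^ (m + 1)) = 2 * s ∧ Even s := by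
    obtain ⟨y, rfl⟩ := hx
    refine ⟨2 ^ (2 ^ (m + 1) - 1) * y ^ (2 ^ (m + 1)), ?_, ?_⟩
    · rw [mul_pow, ← mul_assoc, ← pow_succ', Nat.sub_add_cancel Nat.one_le_two_pow]
    · apply Even.mul_right
      have h3 : 2 ^ 1 ≤ 2 ^ (m + 1) := Nat.pow_le_pow_right (by norm_num) (by omega)
      exact Nat.even_pow.mpr ⟨even_two, by omega⟩
  obtain ⟨s, hs1, hs2⟩ := hxev
  have hself := jac_self h2 h20 (φ := φ) (fun u hu => norm_sub_one_lt h2 hz hφ u hu) (r := s)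
    (by omega) hs2 hφ2
  have hJ : jacobiSum φ φ = τ (jacobiSum χ (χ ^ 1)) := by
    rw [pow_one, hcomp, jacobiSum_ringHomComp]
  rw [hJ] at hself
  have hval := H.jacobi_of_close h2 h20 τ hp hp2 hT hχ hx hN1 hN2 hself h4
  have h5 : φ * φ ≠ 1 := by
    have := H.comp_pow_ne_one hp hp2 hT hχ h20 τ hN2
    rw [← hcomp] at this
    rwa [← sq]
  have h6 := jacobiSum_mul_nontrivial h5 ψ
  rw [hJ, hval, map_neg, ← sq] at h6
  have hz0 : z ≠ 0 := by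
    rintro rfl
    rw [zero_pow (by positivity)] at hz
    exact (neg_ne_zero.mpr one_ne_zero) hz.symm
  have hnz : ‖z‖ = 1 := by rw [← hτ]; exact H.norm_z τ
  set P : K := τ (∏ t ∈ TS (m + 1) 1, al (x : O) ζ t) with hP
  have h7 : (-gaussSum φ ψ / z ^ j) ^ 2 - 1 =
      ((-gaussSum (φ ^ 2) ψ - (z ^ 2) ^ j) + (-gaussSum (φ ^ 2) ψ) * (P - 1)) / (z ^ 2) ^ j := by
    have h8 : (z ^ 2) ^ j ≠ 0 := pow_ne_zero _ (pow_ne_zero _ hz0)
    have h9 : (z ^ j) ^ 2 = (z ^ 2) ^ j := by rw [← pow_mul, ← pow_mul, mul_comm]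
    rw [div_pow, neg_sq, sq (gaussSum φ ψ), ← h6, h9]
    field_simp
    ring
  rw [h7, norm_div, norm_pow, norm_pow, hnz, one_pow, one_pow, div_one]
  apply um_add_le hr1
  rw [norm_mul, norm_neg]
  have h8 := norm_gauss_le h2 hz hφ ψ 2
  have h9 := norm_nonneg (P - 1)
  nlinarith [norm_nonneg (gaussSum (φ ^ 2) ψ)]

include h2 in
/-- Choice of the sign of the square root and Galois action. -/
lemma close_step {p : ℕ} [hpp : Fact p.Prime] {m x T : ℕ} (hp : p = x ^ (2 ^ (m + 1)) + 1)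
    (hp2 : p ≠ 2) {z : K}
    (hz : z ^ (2 ^ (m + 1)) = -1) {φ : MulChar (ZMod p) K}
    (hφ : IsRes (m + 1) p x T z φ) (hφ2 : φ 2 = 1) (ψ : AddChar (ZMod p) K) {j : ℕ}
    (hlt : ‖(-gaussSum φ ψ / z ^ j) - 1‖ < ‖(2 : K)‖ ∨ ‖(-gaussSum φ ψ / z ^ j) + 1‖ < ‖(2 : K)‖)
    (hev : ∀ a : ℕ, ¬ (2 ^ (m + 1) ∣ a) →
      ‖-gaussSum ((φ ^ 2) ^ a) ψ - ((z ^ 2) ^ j) ^ a‖ < ‖(2 : K)‖) :
    ∃ i : ℕ, (i = j ∨ i = j + 2 ^ (m + 1)) ∧ ‖-gaussSum φ ψ - z ^ i‖ < ‖(2 : K)‖ ∧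
      ∀ a : ℕ, ¬ (2 ^ (m + 1 + 1) ∣ a) → ‖-gaussSum (φ ^ a) ψ - (z ^ i) ^ a‖ < ‖(2 : K)‖ := by
  have h20 : (2 : K) ≠ 0 := two_ne_zero
  obtain ⟨O, _, ζ, H⟩ := exists_cycRing (m + 1 + 1) (by omega)
  obtain ⟨τ, hτ⟩ := H.lift K z (by rw [Nat.add_sub_cancel]; exact hz)
  have hz0 : z ≠ 0 := by
    rintro rfl
    rw [zero_pow (by positivity)] at hz
    exact (neg_ne_zero.mpr one_ne_zero) hz.symm
  have hnz : ‖z‖ = 1 := by rw [← hτ]; exact H.norm_z τ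
  have hzj : z ^ j ≠ 0 := pow_ne_zero _ hz0
  obtain ⟨i, hi, hi1⟩ : ∃ i : ℕ, (i = j ∨ i = j + 2 ^ (m + 1)) ∧
      ‖-gaussSum φ ψ - z ^ i‖ < ‖(2 : K)‖ := by
    rcases hlt with h | h
    · refine ⟨j, Or.inl rfl, ?_⟩
      have h3 : -gaussSum φ ψ - z ^ j = z ^ j * ((-gaussSum φ ψ / z ^ j) - 1) := by
        field_simp
      rw [h3, norm_mul, norm_pow, hnz, one_pow, one_mul]
      exact h
    · refine ⟨j + 2 ^ (m + 1), Or.inr rfl, ?_⟩
      have h3 : -gaussSum φ ψ - z ^ (j + 2 ^ (m + 1)) =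
          z ^ j * ((-gaussSum φ ψ / z ^ j) + 1) := by
        rw [pow_add, hz]
        field_simp
        ring
      rw [h3, norm_mul, norm_pow, hnz, one_pow, one_mul]
      exact h
  refine ⟨i, hi, hi1, ?_⟩
  intro a ha
  rcases Nat.even_or_odd a with ⟨b, hb⟩ | hodd
  · have hb1 : ¬ (2 ^ (m + 1) ∣ b) := by
      intro hd
      apply ha
      rw [hb, ← two_mul, pow_succ']
      exact Nat.mul_dvd_mul_left 2 hd
    have h3 := hev b hb1
    have h4 : (φ ^ 2) ^ b = φ ^ a := by rw [← pow_mul, hb, two_mul]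
    have h5 : ((z ^ 2) ^ j) ^ b = (z ^ i) ^ a := by
      rcases hi with rfl | rfl
      · rw [hb, ← pow_mul, ← pow_mul, ← pow_mul]
        congr 1
        ring
      · rw [pow_add, hz, hb, ← two_mul, pow_mul _ 2 b]
        congr 1
        rw [← pow_mul]
        ring
    rw [← h4, ← h5]
    exact h3
  · have h3 := H.galois_close h2 h20 τ hp2 (by rw [hτ]; exact hφ) hφ2 ψ (j := i)
      (by rw [hτ]; exact hi1) hodd
    rwa [hτ] at h3

include h2 in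
theorem close_ind {p : ℕ} [hpp : Fact p.Prime] (hp2 : p ≠ 2) {ψ : AddChar (ZMod p) K}
    (hψ : ψ.IsPrimitive) (m : ℕ) :
    ∀ (x T : ℕ) (z : K) (φ : MulChar (ZMod p) K), p = x ^ (2 ^ m) + 1 →
      2 ^ (m + 1) * T = x ^ (2 ^ m) → z ^ (2 ^ m) = -1 → IsRes m p x T z φ → φ 2 = 1 → 16 ∣ x →
      Close m x z φ ψ := by
  have h20 : (2 : K) ≠ 0 := two_ne_zero
  have h2p : 0 < ‖(2 : K)‖ := norm_pos_iff.mpr h20
  have hx16 : ∀ x : ℕ, 16 ∣ x → ‖(x : K)‖ ≤ ‖(2 : K)‖ ^ 4 := by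
    rintro x ⟨y, rfl⟩
    push_cast
    have : (16 : K) = 2 ^ 4 := by norm_num
    rw [norm_mul, this, norm_pow]
    have h3 := um_nat (K := K) y
    have : 0 ≤ ‖(2 : K)‖ ^ 4 := by positivity
    nlinarith
  induction m with
  | zero =>
    intro x T z φ hp hT hz hφ hφ2 hx
    simp only [pow_zero, pow_one, zero_add] at hp hT hz
    obtain ⟨O, _, ζ, H⟩ := exists_cycRing (0 + 1) (by omega)
    obtain ⟨τ, hτ⟩ := H.lift K z (by simpa using hz)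
    have hp' : p = x ^ (2 ^ 0) + 1 := by simpa using hp
    have hT' : 2 ^ (0 + 1) * T = x ^ (2 ^ 0) := by simpa using hT
    obtain ⟨χ, hχ⟩ := H.exists_chi hp' hp2 hT'
    have hχ : IsRes 0 p x T ζ χ := hχ
    have hcomp : φ = χ.ringHomComp τ := IsRes.eq_comp hp' hp2 τ hχ (by rw [hτ]; exact hφ)
    have hne : φ ≠ 1 := by
      have := H.comp_pow_ne_one hp' hp2 hT' hχ h20 τ (a := 1) (by norm_num)
      rwa [pow_one, ← hcomp] at this
    have hquad : φ.IsQuadratic := by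
      intro u
      by_cases hu : u = 0
      · left; rw [hu, MulChar.map_zero]
      · right
        obtain ⟨j, hj, _⟩ := hφ u hu
        rw [hj]
        unfold ex
        rw [hz]
        exact neg_one_pow_eq_or K _
    have hsq := gaussSum_sq hne hquad hψ
    have hTe : Even T := by
      obtain ⟨y, rfl⟩ := hx
      exact ⟨4 * y, by omega⟩
    rw [chi_neg_one hp' hp2 hφ hTe, one_mul, ZMod.card] at hsq
    have h3 : ‖(-gaussSum φ ψ) ^ 2 - 1‖ ≤ ‖(x : K)‖ := by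
      rw [neg_sq, hsq, hp]
      push_cast
      rw [add_sub_cancel_right]
    have hex : ∃ j : ℕ, ‖-gaussSum φ ψ - z ^ j‖ ≤ ‖(x : K)‖ / ‖(2 : K)‖ := by
      rcases um_sqrt h20 h3 with h | h
      · exact ⟨0, by rw [pow_zero]; exact h⟩
      · exact ⟨1, by rw [pow_one, hz, sub_neg_eq_add]; exact h⟩
    obtain ⟨j, hj⟩ := hex
    refine ⟨j, hj, ?_⟩
    intro a ha
    have haodd : Odd a := by
      rw [← Nat.not_even_iff_odd]
      intro h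
      exact ha (by simpa using even_iff_two_dvd.mp h)
    obtain ⟨b, rfl⟩ := haodd
    have hφsq : φ ^ 2 = 1 := hquad.sq_eq_one
    rw [pow_succ φ, pow_mul, hφsq, one_pow, one_mul, pow_succ (z ^ j), pow_mul, ← pow_mul z, hz]
    have h5 : ((-1 : K) ^ (j * 2)) ^ b = 1 := by
      rw [mul_comm, pow_mul]; simp
    rw [h5, one_mul]
    rw [hz] at hj
    refine lt_of_le_of_lt hj ?_
    rw [div_lt_iff₀ h2p]
    have h6 := hx16 x hx
    nlinarith [pow_pos h2p 2, pow_pos h2p 3, pow_pos h2p 4, mul_pos h2p h2p]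
  | succ m ih =>
    intro x T z φ hp hT hz hφ hφ2 hx
    have hp' : p = (x ^ 2) ^ (2 ^ m) + 1 := by rw [← pow_mul, ← pow_succ']; exact hp
    have hT' : 2 ^ (m + 1) * (2 * T) = (x ^ 2) ^ (2 ^ m) := by
      rw [← pow_mul, ← pow_succ', ← hT]; ring
    have hz' : (z ^ 2) ^ (2 ^ m) = -1 := by rw [← pow_mul, ← pow_succ']; exact hz
    have hφ' := IsRes.sq hp hp2 hz hφ
    have hφ2' : (φ ^ 2) 2 = 1 := by
      rw [MulChar.pow_apply' _ two_ne_zero, hφ2, one_pow]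
    have hx' : 16 ∣ x ^ 2 := hx.trans (dvd_pow_self x two_ne_zero)
    obtain ⟨j, hj1, hj2⟩ := ih (x ^ 2) (2 * T) (z ^ 2) (φ ^ 2) hp' hT' hz' hφ' hφ2' hx'
    obtain ⟨O, _, ζ, H⟩ := exists_cycRing (m + 1 + 1) (by omega)
    obtain ⟨τ, hτ⟩ := H.lift K z (by rw [Nat.add_sub_cancel]; exact hz)
    have hx16' := hx16 x hx
    have hxlt : ‖(x : K)‖ / ‖(2 : K)‖ < ‖(2 : K)‖ := by
      rw [div_lt_iff₀ h2p]
      nlinarith [pow_pos h2p 2, pow_pos h2p 3, pow_pos h2p 4, mul_pos h2p h2p]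
    have hxlt2 : ‖(x : K)‖ < ‖(2 : K)‖ := by
      nlinarith [pow_pos h2p 2, pow_pos h2p 3, pow_pos h2p 4, mul_pos h2p h2p]
    have hP : ‖τ (∏ t ∈ TS (m + 1) 1, al (x : O) ζ t) - 1‖ ≤ ‖(x : K)‖ := by
      obtain ⟨c, hc⟩ := dvd_prod_al_sub_one (x := x) (ζ := ζ) (TS (m + 1) 1)
      rw [← map_one τ, ← map_sub, hc, map_mul, map_natCast, norm_mul]
      have h3 := H.norm_le τ c
      have h4 := norm_nonneg (x : K)
      nlinarith
    have hr1 : ‖-gaussSum (φ ^ 2) ψ - (z ^ 2) ^ j‖ ≤ ‖(x : K)‖ := by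
      refine hj1.trans ?_
      rw [div_le_iff₀ h2p]
      push_cast
      rw [norm_pow, sq]
      have h4 := norm_nonneg (x : K)
      nlinarith
    have hsq := sqrt_step h2 hp hp2 hT hz hφ hφ2 ψ ((by norm_num : 2 ∣ 16).trans hx) H τ hτ
      (lt_of_le_of_lt hP hxlt2) hr1 hP
    have hsq' := um_sqrt h20 hsq
    obtain ⟨i, hi, hi1, hi2⟩ := close_step h2 hp hp2 hz hφ hφ2 ψ (j := j)
      (hsq'.imp (fun h => lt_of_le_of_lt h hxlt) (fun h => lt_of_le_of_lt h hxlt)) hj2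
    refine ⟨i, ?_, hi2⟩
    have hz0 : z ≠ 0 := by
      rintro rfl
      rw [zero_pow (by positivity)] at hz
      exact (neg_ne_zero.mpr one_ne_zero) hz.symm
    have hnz : ‖z‖ = 1 := by rw [← hτ]; exact H.norm_z τ
    have hsqi := sqrt_step h2 hp hp2 hT hz hφ hφ2 ψ ((by norm_num : 2 ∣ 16).trans hx) H τ hτ
      (lt_of_le_of_lt hP hxlt2) (j := i) (r := ‖(x : K)‖) (by
        have h5 : (z ^ 2) ^ i = (z ^ 2) ^ j := by
          rcases hi with rfl | rfl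
          · rfl
          · rw [pow_add, ← pow_mul z 2 (2 ^ (m + 1)), mul_comm 2, pow_mul z, hz]
            ring
        rw [h5]
        exact hr1) hP
    have h6 : -gaussSum φ ψ - z ^ i = z ^ i * ((-gaussSum φ ψ / z ^ i) - 1) := by
      have := pow_ne_zero i hz0
      field_simp
    rw [h6, norm_mul, norm_pow, hnz, one_pow, one_mul] at hi1 ⊢
    rcases um_sqrt h20 hsqi with h | h
    · exact h
    · exfalso
      have h7 : ‖(2 : K)‖ < ‖(2 : K)‖ := by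
        have h8 : (2 : K) = ((-gaussSum φ ψ / z ^ i) + 1) - ((-gaussSum φ ψ / z ^ i) - 1) := by
          ring
        conv_lhs => rw [h8]
        exact um_sub_lt (lt_of_le_of_lt h hxlt) hi1
      exact lt_irrefl _ h7

end

end Pool.Agent.Y875.FP
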