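import Pool.Agent.Y875.FP.Chi

/-!
Divisibility of Jacobi sums by the `α_t`.
-/

open Polynomial

namespace Pool.Agent.Y875.FP

lemma sum_pow_mul_pow {p : ℕ} [Fact p.Prime] {i j : ℕ} (h : i + j < p - 1) :
    ∑ u : ZMod p, u ^ i * (1 - u) ^ j = 0 := by
  have h1 : ∀ u : ZMod p, u ^ i * (1 - u) ^ j =
      ∑ k ∈ Finset.range (j + 1), ((-1) ^ k * (j.choose k : ZMod p)) * u ^ (i + k) := by
    intro u
    have : (1 - u) ^ j = (-u + 1) ^ j := by ring
    rw [this, add_pow, Finset.mul_sum]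
    refine Finset.sum_congr rfl fun k _ => ?_
    rw [neg_pow, pow_add]
    ring
  rw [Finset.sum_congr rfl fun u _ => h1 u, Finset.sum_comm]
  refine Finset.sum_eq_zero fun k hk => ?_
  rw [← Finset.mul_sum, FiniteField.sum_pow_lt_card_sub_one, mul_zero]
  rw [ZMod.card]
  have := Finset.mem_range.mp hk
  omega

lemma T_pos {m p x T : ℕ} [hpp : Fact p.Prime] (hp : p = x ^ (2 ^ m) + 1)
    (hT : 2 ^ (m + 1) * T = x ^ (2 ^ m)) : 0 < T := by
  rcases Nat.eq_zero_or_pos T with h | h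
  · exfalso
    rw [h, mul_zero] at hT
    have := (Fact.out : p.Prime).one_lt
    omega
  · exact h

section

variable {m : ℕ} {O : Type} [CommRing O] {ζ : O} (H : CycRing (m + 1) O ζ)
  {p x T : ℕ} [hpp : Fact p.Prime] (hp : p = x ^ (2 ^ m) + 1) (hp2 : p ≠ 2)
  (hT : 2 ^ (m + 1) * T = x ^ (2 ^ m))
  {χ : MulChar (ZMod p) O} (hχ : IsRes m p x T ζ χ)

include H hp hp2 hT hχ

lemma CycRing.pow_ne_one {a : ℕ} (ha : ¬ (2 ^ (m + 1) ∣ a)) : χ ^ a ≠ 1 := by
  intro hcon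
  apply ha
  obtain ⟨ρ, hρ⟩ := H.exists_rho hp (1 : (ZMod (2 ^ (m + 1)))ˣ)
  have h1 : ∀ u : (ZMod p)ˣ, u ^ (T * (((1 : (ZMod (2 ^ (m + 1)))ˣ) : ZMod (2 ^ (m + 1))).val) * a)
      = 1 := by
    intro u
    have h2 := hχ.rho hρ (u : ZMod p) (Units.ne_zero u)
    have h3 : (χ ^ a) (u : ZMod p) = 1 := by rw [hcon, MulChar.one_apply_coe]
    rw [MulChar.pow_apply_coe] at h3
    have h4 := congrArg ρ h3
    rw [map_pow, map_one, h2, ← pow_mul] at h4
    apply Units.ext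
    rw [Units.val_pow_eq_pow_val, h4, Units.val_one]
  rw [FiniteField.forall_pow_eq_one_iff, ZMod.card] at h1
  have hTp := T_pos hp hT
  rcases Nat.eq_zero_or_pos m with hm | hm
  · subst hm
    simp only [zero_add, pow_one] at *
    have h5 : p - 1 = 2 * T := by omega
    rw [h5] at h1
    have h6 : ((1 : ZMod 2).val) = 1 := by decide
    rw [Units.val_one, h6, mul_one, mul_comm 2 T] at h1
    exact Nat.dvd_of_mul_dvd_mul_left hTp h1
  · have h5 : p - 1 = T * 2 ^ (m + 1) := by rw [mul_comm]; omega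
    have : Fact (1 < 2 ^ (m + 1)) := ⟨Nat.one_lt_two_pow (by omega)⟩
    rw [h5, Units.val_one, ZMod.val_one, mul_one] at h1
    exact Nat.dvd_of_mul_dvd_mul_left hTp h1

omit H hT in
lemma chi_neg_one (hTe : Even T) : χ (-1) = 1 := by
  have hc := ci_prim hp hp2
  obtain ⟨j, h1, h2⟩ := hχ (-1) (neg_ne_zero.mpr one_ne_zero)
  rw [hTe.neg_one_pow] at h2
  have h3 : ex (ci m p x) j = ex (ci m p x) (0 : ZMod (2 ^ (m + 1))) := by rw [h2, ex_zero]
  rw [h1, ex_injective hc h3, ex_zero]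

lemma CycRing.al_dvd_jacobi {a : ℕ} (ha : ¬ (2 ^ (m + 1) ∣ a)) (t : (ZMod (2 ^ (m + 1)))ˣ)
    (hta : (a * (t : ZMod (2 ^ (m + 1))).val) % 2 ^ (m + 1) + (t : ZMod (2 ^ (m + 1))).val <
      2 ^ (m + 1)) :
    al (x : O) ζ t ∣ jacobiSum χ (χ ^ a) := by
  obtain ⟨ρ, hρ⟩ := H.exists_rho hp t
  apply H.al_dvd_of_rho hp t hρ
  have hTp := T_pos hp hT
  set k := (t : ZMod (2 ^ (m + 1))).val with hk
  have hkodd : Odd k := unit_val_odd t
  have hkpos : 0 < k := hkodd.pos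
  have ha0 : a ≠ 0 := by rintro rfl; exact ha (dvd_zero _)
  have hcop : Nat.Coprime (2 ^ (m + 1)) k :=
    (Nat.Coprime.pow_left _ (Nat.coprime_two_left.mpr hkodd))
  have hr : 0 < (a * k) % 2 ^ (m + 1) := by
    rcases Nat.eq_zero_or_pos ((a * k) % 2 ^ (m + 1)) with h | h
    · exfalso
      apply ha
      exact hcop.dvd_of_dvd_mul_right (Nat.dvd_of_mod_eq_zero h)
    · exact h
  have h1 : ∀ u : ZMod p, ρ (χ u) = u ^ (T * k) := by
    intro u
    by_cases hu : u = 0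
    · rw [hu, MulChar.map_zero, map_zero, zero_pow (by positivity)]
    · exact hχ.rho hρ u hu
  have h2 : ∀ v : ZMod p, ρ ((χ ^ a) v) = v ^ (T * ((a * k) % 2 ^ (m + 1))) := by
    intro v
    rw [MulChar.pow_apply' χ ha0, map_pow, h1]
    by_cases hv : v = 0
    · rw [hv, zero_pow (n := T * k) (by positivity), zero_pow ha0, zero_pow (by positivity)]
    · rw [← pow_mul]
      have e1 : T * k * a = T * ((a * k) % 2 ^ (m + 1)) + (p - 1) * ((a * k) / 2 ^ (m + 1)) := by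
        have e2 : p - 1 = 2 ^ (m + 1) * T := by omega
        have e3 := Nat.mod_add_div (a * k) (2 ^ (m + 1))
        rw [e2]
        calc T * k * a = T * (a * k) := by ring
          _ = T * ((a * k) % 2 ^ (m + 1) + 2 ^ (m + 1) * ((a * k) / 2 ^ (m + 1))) := by rw [e3]
          _ = _ := by ring
      rw [e1, pow_add, pow_mul v (p - 1), ZMod.pow_card_sub_one_eq_one hv, one_pow, mul_one]
  unfold jacobiSum
  rw [map_sum]
  simp only [map_mul, h1, h2]
  apply sum_pow_mul_pow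
  have e2 : p - 1 = 2 ^ (m + 1) * T := by omega
  rw [e2]
  calc T * k + T * (a * k % 2 ^ (m + 1)) = T * (a * k % 2 ^ (m + 1) + k) := by ring
    _ < T * 2 ^ (m + 1) := Nat.mul_lt_mul_of_pos_left hta hTp
    _ = _ := by ring

/-- The set of `t` such that `α_t` divides `J(χ, χ^a)`. -/
def TS (m a : ℕ) : Finset (ZMod (2 ^ (m + 1)))ˣ :=
  Finset.univ.filter fun t => (a * (t : ZMod (2 ^ (m + 1))).val) % 2 ^ (m + 1) +
    (t : ZMod (2 ^ (m + 1))).val < 2 ^ (m + 1)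

lemma CycRing.prod_dvd_jacobi (hx : 2 ∣ x) {a : ℕ} (ha : ¬ (2 ^ (m + 1) ∣ a)) :
    ∏ t ∈ TS m a, al (x : O) ζ t ∣ jacobiSum χ (χ ^ a) := by
  apply Finset.prod_dvd_of_coprime
  · intro t _ t' _ htt
    exact H.isCoprime_al hp hx htt
  · intro t ht
    apply H.al_dvd_jacobi hp hp2 hT hχ ha
    unfold TS at ht
    simpa using ht

end

end Pool.Agent.Y875.FP
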