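import Mathlib

/-!
Elementary facts on ultrametric fields in which `2` is small.
-/

namespace Pool.Agent.Y875.FP

section

variable {K : Type} [NormedField K] [IsUltrametricDist K]

lemma um_add_lt {a b : K} {r : ℝ} (ha : ‖a‖ < r) (hb : ‖b‖ < r) : ‖a + b‖ < r :=
  lt_of_le_of_lt (IsUltrametricDist.norm_add_le_max a b) (max_lt ha hb)

lemma um_add_le {a b : K} {r : ℝ} (ha : ‖a‖ ≤ r) (hb : ‖b‖ ≤ r) : ‖a + b‖ ≤ r :=
  (IsUltrametricDist.norm_add_le_max a b).trans (max_le ha hb)

lemma um_sub_lt {a b : K} {r : ℝ} (ha : ‖a‖ < r) (hb : ‖b‖ < r) : ‖a - b‖ < r := by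
  rw [sub_eq_add_neg]
  exact um_add_lt ha (by rwa [norm_neg])

lemma um_sub_le {a b : K} {r : ℝ} (ha : ‖a‖ ≤ r) (hb : ‖b‖ ≤ r) : ‖a - b‖ ≤ r := by
  rw [sub_eq_add_neg]
  exact um_add_le ha (by rwa [norm_neg])

lemma um_nat (n : ℕ) : ‖(n : K)‖ ≤ 1 := IsUltrametricDist.norm_natCast_le_one K n

lemma um_int (n : ℤ) : ‖(n : K)‖ ≤ 1 := IsUltrametricDist.norm_intCast_le_one K n

/-- if `‖a - b‖ < ‖b‖` then `‖a‖ = ‖b‖`. -/
lemma um_eq {a b : K} (h : ‖a - b‖ < ‖b‖) : ‖a‖ = ‖b‖ := by
  apply le_antisymm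
  · have : a = (a - b) + b := by ring
    rw [this]
    exact um_add_le h.le le_rfl
  · by_contra hcon
    push Not at hcon
    have h2 : ‖b‖ < ‖b‖ := by
      have h3 : b = a - (a - b) := by ring
      conv_lhs => rw [h3]
      exact um_sub_lt hcon h
    exact lt_irrefl _ h2

variable (h2 : ‖(2 : K)‖ < 1)
include h2

lemma um_even {n : ℕ} (hn : Even n) : ‖(n : K)‖ < 1 := by
  obtain ⟨k, rfl⟩ := hn
  have : ((k + k : ℕ) : K) = 2 * k := by push_cast; ring
  rw [this, norm_mul]
  have h3 := um_nat (K := K) k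
  have h4 := norm_nonneg (k : K)
  have h5 := norm_nonneg (2 : K)
  nlinarith

lemma um_odd {n : ℕ} (hn : Odd n) : ‖(n : K)‖ = 1 := by
  obtain ⟨k, rfl⟩ := hn
  have h1 : ‖((2 * k + 1 : ℕ) : K) - 1‖ < ‖(1 : K)‖ := by
    rw [norm_one]
    push_cast
    rw [add_sub_cancel_right]
    have := um_even h2 (n := 2 * k) (even_two_mul k)
    push_cast at this
    exact this
  rw [um_eq h1, norm_one]

lemma near_one {k : ℕ} : ∀ {d : K}, 0 < k → ‖d‖ < ‖(2 : K)‖ → (1 + d) ^ k = 1 → d = 0 := by
  induction k using Nat.strong_induction_on with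
  | _ k ih =>
    intro d hk hd hpow
    have h20 : 0 < ‖(2 : K)‖ := lt_of_le_of_lt (norm_nonneg d) hd
    have hd1 : ‖d‖ < 1 := hd.trans h2
    rcases Nat.even_or_odd k with he | ho
    · obtain ⟨l, rfl⟩ := he
      have hl : 0 < l := by omega
      have h3 : (1 + (2 * d + d * d)) ^ l = 1 := by
        have h3' : 1 + (2 * d + d * d) = (1 + d) ^ 2 := by ring
        rw [h3', ← pow_mul, two_mul]
        exact hpow
      have h4 : ‖2 * d + d * d‖ < ‖(2 : K)‖ := by
        apply um_add_lt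
        · rw [norm_mul]
          nlinarith [norm_nonneg d]
        · rw [norm_mul]
          nlinarith [norm_nonneg d]
      have h5 := ih l (by omega) hl h4 h3
      have h6 : d * (2 + d) = 0 := by linear_combination h5
      rcases mul_eq_zero.mp h6 with h7 | h7
      · exact h7
      · exfalso
        have h8 : d = -2 := by linear_combination h7
        rw [h8, norm_neg] at hd
        exact lt_irrefl _ hd
    · have h3 : (1 + d) ^ k - 1 = d * ∑ i ∈ Finset.range k, (1 + d) ^ i := by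
        have := geom_sum_mul (1 + d) k
        rw [← this]; ring
      rw [hpow, sub_self] at h3
      rcases mul_eq_zero.mp h3.symm with h4 | h4
      · exact h4
      · exfalso
        have h5 : ‖∑ i ∈ Finset.range k, (1 + d) ^ i - (k : K)‖ < ‖(k : K)‖ := by
          rw [um_odd h2 ho]
          have h6 : ∑ i ∈ Finset.range k, (1 + d) ^ i - (k : K) =
              ∑ i ∈ Finset.range k, ((1 + d) ^ i - 1) := by
            rw [Finset.sum_sub_distrib]; simp
          rw [h6]
          apply Finset.sum_induction _ (fun y => ‖y‖ < 1)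
          · intro a b ha hb
            exact um_add_lt ha hb
          · rw [norm_zero]; exact one_pos
          · intro i _
            have h7 : (1 + d) ^ i - 1 = d * ∑ j ∈ Finset.range i, (1 + d) ^ j := by
              have := geom_sum_mul (1 + d) i
              rw [← this]; ring
            rw [h7, norm_mul]
            have h8 : ‖∑ j ∈ Finset.range i, (1 + d) ^ j‖ ≤ 1 := by
              apply Finset.sum_induction _ (fun y => ‖y‖ ≤ 1)
              · intro a b ha hb
                exact um_add_le ha hb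
              · rw [norm_zero]; exact zero_le_one
              · intro j _
                rw [norm_pow]
                apply pow_le_one₀ (norm_nonneg _)
                exact um_add_le norm_one.le hd1.le
            nlinarith [norm_nonneg d, norm_nonneg (∑ j ∈ Finset.range i, (1 + d) ^ j)]
        have h6 := um_eq h5
        rw [h4, norm_zero, um_odd h2 ho] at h6
        exact zero_ne_one h6

omit h2 in
/-- square roots: `u^2` close to `1` forces `u` close to `1` or `-1`. -/
lemma um_sqrt {u : K} {r : ℝ} (h20 : (2 : K) ≠ 0) (h : ‖u ^ 2 - 1‖ ≤ r) :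
    ‖u - 1‖ ≤ r / ‖(2 : K)‖ ∨ ‖u + 1‖ ≤ r / ‖(2 : K)‖ := by
  have h2p : 0 < ‖(2 : K)‖ := norm_pos_iff.mpr h20
  have h3 : ‖u - 1‖ * ‖u + 1‖ ≤ r := by
    rw [← norm_mul]
    have : (u - 1) * (u + 1) = u ^ 2 - 1 := by ring
    rw [this]
    exact h
  have h4 : ‖(2 : K)‖ ≤ max ‖u + 1‖ ‖u - 1‖ := by
    have : (2 : K) = (u + 1) - (u - 1) := by ring
    rw [this]
    exact um_sub_le (le_max_left _ _) (le_max_right _ _)
  rcases le_max_iff.mp h4 with h5 | h5
  · left
    rw [le_div_iff₀ h2p]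
    have := norm_nonneg (u - 1)
    nlinarith
  · right
    rw [le_div_iff₀ h2p]
    have := norm_nonneg (u + 1)
    nlinarith

omit h2 in
lemma um_sqrt_lt {u : K} (h : ‖u ^ 2 - 1‖ < ‖(2 : K)‖ ^ 2) :
    ‖u - 1‖ < ‖(2 : K)‖ ∨ ‖u + 1‖ < ‖(2 : K)‖ := by
  by_contra hcon
  push Not at hcon
  have h3 : ‖u - 1‖ * ‖u + 1‖ < ‖(2 : K)‖ ^ 2 := by
    rw [← norm_mul]
    have : (u - 1) * (u + 1) = u ^ 2 - 1 := by ring
    rw [this]
    exact h
  have := norm_nonneg (2 : K)
  nlinarith [hcon.1, hcon.2]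

end

end Pool.Agent.Y875.FP
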