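import Pool.Agent.Y875.FP.Four
import Pool.Agent.Y875.FP.Ultra

/-!
The prime `1 - ζ` above `2`, and maps of `ℤ[ζ]` to ultrametric fields of residue characteristic `2`.
-/

open Polynomial

namespace Pool.Agent.Y875.FP

lemma add_pow_two_pow {A : Type} [CommRing A] (a b : A) (k : ℕ) :
    ∃ c, (a + b) ^ (2 ^ k) = a ^ (2 ^ k) + b ^ (2 ^ k) + 2 * c := by
  induction k with
  | zero => exact ⟨0, by ring⟩
  | succ k ih =>
    obtain ⟨c, hc⟩ := ih
    refine ⟨a ^ (2 ^ k) * b ^ (2 ^ k) + 2 * c * (a ^ (2 ^ k) + b ^ (2 ^ k)) + 2 * c ^ 2, ?_⟩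
    rw [pow_succ 2 k, pow_mul, hc, pow_mul, pow_mul]
    ring

section

variable {m : ℕ} {O : Type} [CommRing O] {ζ : O} (H : CycRing (m + 1) O ζ)
include H

lemma CycRing.two_dvd_lam_pow : (2 : O) ∣ (1 - ζ) ^ (2 ^ m) := by
  obtain ⟨c, hc⟩ := add_pow_two_pow (1 : O) (-ζ) m
  rw [← sub_eq_add_neg] at hc
  rw [hc]
  rcases Nat.eq_zero_or_pos m with h0 | h0
  · subst h0
    have h1 := H.pow_half
    rw [pow_zero, pow_one] at h1
    rw [h1]
    exact ⟨1 + c, by ring⟩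
  · have h1 : (-ζ) ^ (2 ^ m) = -1 := by
      rw [Even.neg_pow (Nat.even_pow.mpr ⟨even_two, by omega⟩), H.pow_half]
    rw [h1, one_pow]
    exact ⟨c, by ring⟩

omit [CommRing O] H in
lemma lam_dvd_one_sub_ex {A : Type} [CommRing A] {N : ℕ} (z : A) (a : ZMod N) :
    (1 - z) ∣ 1 - ex z a := by
  unfold ex
  have := sub_dvd_pow_sub_pow (1 : A) z a.val
  rwa [one_pow] at this

lemma CycRing.lam_pow_dvd_two : (1 - ζ) ^ (2 ^ m) ∣ (2 : O) := by
  have h1 := prod_one_sub m ζ (1 : O) H.pow_half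
  rw [one_pow] at h1
  have h2 : (2 : O) = ∏ t : (ZMod (2 ^ (m + 1)))ˣ, (1 - 1 * ex ζ ((t⁻¹ : (ZMod (2 ^ (m + 1)))ˣ) :
      ZMod (2 ^ (m + 1)))) := by
    rw [h1]; norm_num
  have h3 : (1 - ζ) ^ (2 ^ m) = ∏ t : (ZMod (2 ^ (m + 1)))ˣ, (1 - ζ) := by
    rw [Finset.prod_const, Finset.card_univ, ZMod.card_units_eq_totient,
      Nat.totient_prime_pow Nat.prime_two (by omega)]
    simp
  rw [h2, h3]
  apply Finset.prod_dvd_prod_of_dvd
  intro t _
  rw [one_mul]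
  exact lam_dvd_one_sub_ex ζ _

lemma CycRing.lam_dvd_two : (1 - ζ) ∣ (2 : O) :=
  (dvd_pow_self _ (by positivity)).trans H.lam_pow_dvd_two

omit H in
lemma sub_dvd_aeval_sub {A : Type} [CommRing A] (a b : A) (f : ℤ[X]) :
    a - b ∣ aeval a f - aeval b f := by
  have h := sub_dvd_eval_sub a b (f.map (algebraMap ℤ A))
  rwa [eval_map_algebraMap, eval_map_algebraMap] at h

lemma CycRing.residue (y : O) : (1 - ζ) ∣ y ∨ (1 - ζ) ∣ y - 1 := by
  obtain ⟨f, rfl⟩ := H.gen y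
  have h1 : (1 - ζ) ∣ aeval ζ f - ((f.eval 1 : ℤ) : O) := by
    have h2 := sub_dvd_aeval_sub ζ (1 : O) f
    have h3 : aeval (1 : O) f = ((f.eval 1 : ℤ) : O) := by
      have := aeval_algebraMap_apply O (1 : ℤ) f
      simpa using this
    rw [h3] at h2
    have h4 : ζ - 1 = -(1 - ζ) := by ring
    rw [h4, neg_dvd] at h2
    exact h2
  rcases Int.even_or_odd (f.eval 1) with ⟨k, hk⟩ | ⟨k, hk⟩
  · left
    rw [hk] at h1
    have h5 : (1 - ζ) ∣ ((k + k : ℤ) : O) := by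
      have : ((k + k : ℤ) : O) = 2 * k := by push_cast; ring
      rw [this]
      exact H.lam_dvd_two.mul_right _
    exact (dvd_sub_comm.mp h1 |> fun h => (dvd_sub_right h5).mp h)
  · right
    rw [hk] at h1
    have h5 : (1 - ζ) ∣ ((2 * k : ℤ) : O) := by
      have : ((2 * k : ℤ) : O) = 2 * k := by push_cast; ring
      rw [this]
      exact H.lam_dvd_two.mul_right _
    have h6 : aeval ζ f - 1 = (aeval ζ f - ((2 * k + 1 : ℤ) : O)) + ((2 * k : ℤ) : O) := by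
      push_cast; ring
    rw [h6]
    exact dvd_add h1 h5

lemma CycRing.sigma_sub {a : ℕ} (ha : 1 ≤ a) {σ : O →+* O} (hσ : σ ζ = ζ ^ a) (y : O) :
    (1 - ζ) ∣ σ y - y := by
  obtain ⟨f, rfl⟩ := H.gen y
  have h1 : σ (aeval ζ f) = aeval (ζ ^ a) f := by
    have := aeval_algHom_apply σ.toIntAlgHom ζ f
    rw [← hσ]
    exact this.symm
  rw [h1]
  have h2 := sub_dvd_aeval_sub (ζ ^ a) ζ f
  refine Dvd.dvd.trans ?_ h2
  have h3 : ζ ^ a - ζ = -((1 - ζ ^ (a - 1)) * ζ) := by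
    obtain ⟨b, rfl⟩ : ∃ b, a = b + 1 := ⟨a - 1, by omega⟩
    rw [Nat.add_sub_cancel]
    ring
  rw [h3, dvd_neg]
  apply Dvd.dvd.mul_right
  have := sub_dvd_pow_sub_pow (1 : O) ζ (a - 1)
  rwa [one_pow] at this

variable {K : Type} [NormedField K] [IsUltrametricDist K] (h2 : ‖(2 : K)‖ < 1)
  (h20 : (2 : K) ≠ 0) (τ : O →+* K)

omit [IsUltrametricDist K] in
lemma CycRing.norm_z : ‖τ ζ‖ = 1 := by
  have h1 := congrArg norm (map_half H τ)
  rw [norm_pow, norm_neg, norm_one] at h1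
  exact (pow_eq_one_iff_of_nonneg (norm_nonneg _) (by positivity)).mp h1

lemma CycRing.norm_le (y : O) : ‖τ y‖ ≤ 1 := by
  obtain ⟨f, rfl⟩ := H.gen y
  rw [aeval_eq_sum_range, map_sum]
  apply Finset.sum_induction _ (fun y => ‖y‖ ≤ 1)
  · intro a b ha hb
    exact um_add_le ha hb
  · rw [norm_zero]; exact zero_le_one
  · intro i _
    rw [zsmul_eq_mul, map_mul, map_intCast, map_pow, norm_mul, norm_pow, H.norm_z τ, one_pow,
      mul_one]
    exact um_int _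

include h2 in
lemma CycRing.norm_lam_lt : ‖τ (1 - ζ)‖ < 1 := by
  obtain ⟨c, hc⟩ := H.two_dvd_lam_pow
  have h1 := congrArg (fun y => ‖τ y‖) hc
  simp only [map_pow, map_mul, map_ofNat, norm_pow, norm_mul] at h1
  have h3 : ‖τ (1 - ζ)‖ ^ (2 ^ m) < 1 := by
    rw [h1]
    have := H.norm_le τ c
    have := norm_nonneg (τ c)
    have := norm_nonneg (2 : K)
    nlinarith
  by_contra hcon
  push Not at hcon
  have := one_le_pow₀ (n := 2 ^ m) hcon
  linarith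

lemma CycRing.norm_two_le : ‖(2 : K)‖ ≤ ‖τ (1 - ζ)‖ ^ (2 ^ m) := by
  obtain ⟨c, hc⟩ := H.lam_pow_dvd_two
  have h1 := congrArg (fun y => ‖τ y‖) hc
  simp only [map_pow, map_mul, map_ofNat, norm_pow, norm_mul] at h1
  rw [h1]
  have h3 := H.norm_le τ c
  have h4 : 0 ≤ ‖τ (1 - ζ)‖ ^ (2 ^ m) := by positivity
  nlinarith

include h20 in
lemma CycRing.norm_lam_pos : 0 < ‖τ (1 - ζ)‖ := by
  have h1 := H.norm_two_le τ
  have h3 : 0 < ‖(2 : K)‖ := norm_pos_iff.mpr h20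
  by_contra hcon
  have h4 : ‖τ (1 - ζ)‖ = 0 := le_antisymm (not_lt.mp hcon) (norm_nonneg _)
  rw [h4, zero_pow (by positivity)] at h1
  linarith

include h2 in
lemma CycRing.norm_lt_of_dvd {y : O} (hy : (1 - ζ) ∣ y) : ‖τ y‖ < 1 := by
  obtain ⟨c, rfl⟩ := hy
  rw [map_mul, norm_mul]
  have h1 := H.norm_lam_lt h2 τ
  have h3 := H.norm_le τ c
  have h4 := norm_nonneg (τ (1 - ζ))
  nlinarith [norm_nonneg (τ c)]

include h2 h20 in
lemma CycRing.lam_pow_dvd (k : ℕ) (y : O) (hy : ‖τ y‖ ≤ ‖τ (1 - ζ)‖ ^ k) : (1 - ζ) ^ k ∣ y := by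
  induction k with
  | zero => rw [pow_zero]; exact one_dvd _
  | succ k ih =>
    have hl := H.norm_lam_lt h2 τ
    have hl0 := H.norm_lam_pos h20 τ
    have h1 : ‖τ y‖ ≤ ‖τ (1 - ζ)‖ ^ k := by
      refine hy.trans ?_
      rw [pow_succ]
      have : 0 ≤ ‖τ (1 - ζ)‖ ^ k := by positivity
      nlinarith
    obtain ⟨y', rfl⟩ := ih h1
    rw [map_mul, map_pow, norm_mul, norm_pow, pow_succ] at hy
    have h3 : ‖τ y'‖ ≤ ‖τ (1 - ζ)‖ := le_of_mul_le_mul_left hy (by positivity)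
    rcases H.residue y' with h4 | h4
    · rw [pow_succ]
      exact mul_dvd_mul_left _ h4
    · exfalso
      have h5 := H.norm_lt_of_dvd h2 τ h4
      rw [map_sub, map_one] at h5
      have h6 : ‖τ y'‖ = ‖(1 : K)‖ := um_eq (by rwa [norm_one])
      rw [norm_one] at h6
      linarith

include h2 h20 in
lemma CycRing.two_dvd_of_norm {y : O} (hy : ‖τ y‖ ≤ ‖(2 : K)‖) : (2 : O) ∣ y :=
  H.two_dvd_lam_pow.trans (H.lam_pow_dvd h2 h20 τ _ y (hy.trans (H.norm_two_le τ)))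

end

end Pool.Agent.Y875.FP
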