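import Pool.Agent.Y875.FP.Main

/-!
The power residue law for every `b` all of whose prime factors divide `x + 1`, and the
specialisation to Fermat numbers.
-/

namespace Pool.Agent.Y875.FP

/-- The law for a product, given the law for its prime factors. -/
theorem full_law {m p x T : ℕ} (hp : p = x ^ (2 ^ m) + 1) (b : ℕ)
    (hlaw : ∀ q : ℕ, q.Prime → q ∣ b → ∃ y : ℕ, q ^ (2 ^ (m - 1)) = 1 + 2 ^ (m + 1) * y ∧
      (q : ZMod p) ^ T * (x : ZMod p) ^ y = 1) (hb : b ≠ 0) :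
    ∃ y : ℕ, b ^ (2 ^ (m - 1)) = 1 + 2 ^ (m + 1) * y ∧
      (b : ZMod p) ^ T * (x : ZMod p) ^ y = 1 := by
  have hxN : (x : ZMod p) ^ (2 ^ (m + 1)) = 1 := by
    rw [pow_succ, pow_mul, xpow hp]
    ring
  induction b using induction_on_primes with
  | zero => exact absurd rfl hb
  | one => exact ⟨0, by simp, by simp⟩
  | prime_mul q a hq ih =>
    have ha : a ≠ 0 := by
      rintro rfl
      exact hb (by simp)
    obtain ⟨y1, hy1, hy1'⟩ := ih (fun r hr hra => hlaw r hr (hra.mul_left q)) ha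
    obtain ⟨y2, hy2, hy2'⟩ := hlaw q hq (dvd_mul_right q a)
    refine ⟨y1 + y2 + 2 ^ (m + 1) * (y1 * y2), ?_, ?_⟩
    · rw [mul_pow, hy1, hy2]
      ring
    · rw [pow_add, pow_add, pow_mul (x : ZMod p) (2 ^ (m + 1)), hxN, one_pow, mul_one,
        Nat.cast_mul, mul_pow]
      linear_combination hy1' * (((q : ZMod p)) ^ T * (x : ZMod p) ^ y2) + hy2'

lemma exp_bound {j r : ℕ} (hr : 2 ≤ r) : r + 2 ≤ 2 ^ (j + r) := by
  have h1 : 2 ^ r ≤ 2 ^ (j + r) := Nat.pow_le_pow_right (by norm_num) (by omega)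
  have h2 : ∀ r : ℕ, 2 ≤ r → r + 2 ≤ 2 ^ r := by
    intro r hr
    induction r, hr using Nat.le_induction with
    | base => norm_num
    | succ r hr ih => rw [pow_succ]; omega
  exact (h2 r hr).trans h1

lemma exp_bound2 {j r : ℕ} (hr : 2 ≤ r) (hjr : 1 ≤ j ∨ 3 ≤ r) :
    j + r + 1 ≤ 2 ^ (j + r) - (r + 1) := by
  have h2 : ∀ s : ℕ, 3 ≤ s → 2 * s + 2 ≤ 2 ^ s := by
    intro s hs
    induction s, hs using Nat.le_induction with
    | base => norm_num
    | succ s hs ih => rw [pow_succ]; omega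
  have h3 := h2 (j + r) (by omega)
  have h4 : 2 * (j + r) + 2 = (j + r + 1) + (r + 1) + j := by ring
  omega

/-- The law for a Fermat prime `F_(j+r)` and the prime factors of `F_j`. -/
theorem fermat_law {j r b : ℕ} (hr : 2 ≤ r) (hF : (Nat.fermatNumber (j + r)).Prime)
    (hb : ∀ q : ℕ, q.Prime → q ∣ b → q ∣ Nat.fermatNumber j) (hb0 : b ≠ 0) :
    ∃ y : ℕ, b ^ (2 ^ (r - 1)) = 1 + 2 ^ (r + 1) * y ∧
      (b : ZMod (Nat.fermatNumber (j + r))) ^ (2 ^ (2 ^ (j + r) - (r + 1))) *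
        (2 : ZMod (Nat.fermatNumber (j + r))) ^ (2 ^ j * y) = 1 := by
  have : Fact (Nat.fermatNumber (j + r)).Prime := ⟨hF⟩
  have hpow : (2 ^ 2 ^ j) ^ 2 ^ r = 2 ^ 2 ^ (j + r) := by
    rw [← pow_mul, ← pow_add]
  have hbd := exp_bound (j := j) hr
  have hp : Nat.fermatNumber (j + r) = (2 ^ 2 ^ j) ^ 2 ^ r + 1 := by rw [hpow]; rfl
  have hp2 : Nat.fermatNumber (j + r) ≠ 2 := by
    have := Nat.three_le_fermatNumber (j + r)
    omega
  have hlaw : ∀ q : ℕ, q.Prime → q ∣ b → ∃ y : ℕ, q ^ (2 ^ (r - 1)) = 1 + 2 ^ (r + 1) * y ∧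
      (q : ZMod (Nat.fermatNumber (j + r))) ^ (2 ^ (2 ^ (j + r) - (r + 1))) *
      ((2 ^ 2 ^ j : ℕ) : ZMod (Nat.fermatNumber (j + r))) ^ y = 1 := by
    intro q hq hqb
    have hqF := hb q hq hqb
    have hqx : ((2 ^ 2 ^ j : ℕ) : ZMod q) = -1 := by
      have h1 : ((Nat.fermatNumber j : ℕ) : ZMod q) = 0 := by rwa [ZMod.natCast_eq_zero_iff]
      unfold Nat.fermatNumber at h1
      push_cast at h1 ⊢
      linear_combination h1
    have hq2 : q ≠ 2 := by
      rintro rfl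
      exact (Nat.not_even_iff_odd.mpr (Nat.odd_fermatNumber j)) (even_iff_two_dvd.mpr hqF)
    by_cases hjr : 1 ≤ j ∨ 3 ≤ r
    · have hbd2 := exp_bound2 hr hjr
      apply prime_law (m := r) hp hp2 ?_ hr ?_ ?_ ?_ hq hq2 hqx
      · rw [hpow, ← pow_add, Nat.add_sub_cancel' (by omega)]
      · rw [Nat.even_pow]
        exact ⟨even_two, by omega⟩
      · obtain ⟨c, hc⟩ : 2 ^ (j + r + 1) ∣ 2 ^ (2 ^ (j + r) - (r + 1)) := Nat.pow_dvd_pow 2 hbd2
        have h2k : (2 : ZMod (Nat.fermatNumber (j + r))) ^ (2 ^ (j + r)) = -1 := by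
          have h1 : ((Nat.fermatNumber (j + r) : ℕ) : ZMod (Nat.fermatNumber (j + r))) = 0 :=
            ZMod.natCast_self _
          conv at h1 => lhs; arg 1; unfold Nat.fermatNumber
          push_cast at h1
          linear_combination h1
        rw [hc, pow_mul, pow_succ, pow_mul, h2k]
        simp
      · rcases hjr with h | h
        · left
          have h4 : (4 : ℕ) = 2 ^ 2 := by norm_num
          rw [h4]
          apply Nat.pow_dvd_pow
          calc 2 = 2 ^ 1 := by norm_num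
            _ ≤ 2 ^ j := Nat.pow_le_pow_right (by norm_num) h
        · right
          exact ⟨dvd_pow_self 2 (by positivity), h⟩
    · -- `F_2 = 17`
      have hj0 : j = 0 := by omega
      have hr2 : r = 2 := by omega
      subst hj0 hr2
      have hq3 : q = 3 := by
        have h3 : Nat.fermatNumber 0 = 3 := by norm_num [Nat.fermatNumber]
        rw [h3] at hqF
        exact (Nat.prime_dvd_prime_iff_eq hq Nat.prime_three).mp hqF
      subst hq3
      refine ⟨1, by norm_num, ?_⟩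
      have h18 : ((3 ^ 2 ^ (2 ^ (0 + 2) - (2 + 1)) * (2 ^ 2 ^ 0) ^ 1 : ℕ) :
          ZMod (Nat.fermatNumber (0 + 2))) = ((1 : ℕ) : ZMod (Nat.fermatNumber (0 + 2))) := by
        rw [ZMod.natCast_eq_natCast_iff]
        norm_num [Nat.ModEq, Nat.fermatNumber]
      rw [← Nat.cast_pow, ← Nat.cast_pow, ← Nat.cast_mul, h18, Nat.cast_one]
  obtain ⟨y, hy1, hy2⟩ := full_law (p := Nat.fermatNumber (j + r)) (x := 2 ^ 2 ^ j)
    (T := 2 ^ (2 ^ (j + r) - (r + 1))) (m := r) hp b hlaw hb0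
  refine ⟨y, hy1, ?_⟩
  rw [pow_mul]
  push_cast at hy2
  exact hy2

end Pool.Agent.Y875.FP
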