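import Pool.Agent.Y875.FP.Half

/-!
A Lerch type congruence for the half system modulo `2^(m+1)`.
-/

namespace Pool.Agent.Y875.FP

open Classical in
/-- nearest integer to `q t / N`. -/
noncomputable def nu (m q : ℕ) (Q t : (ZMod (2 ^ (m + 1)))ˣ) : ℕ :=
  q * (t : ZMod (2 ^ (m + 1))).val / 2 ^ (m + 1) + if Q * t ∈ HS m then 0 else 1

lemma prod_one_add_nil {R : Type} [CommRing R] {n : R} (hn : n * n = 0) {ι : Type} (S : Finset ι)
    (c : ι → R) : ∏ i ∈ S, (1 + n * c i) = 1 + n * ∑ i ∈ S, c i := by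
  classical
  induction S using Finset.induction_on with
  | empty => simp
  | insert a S ha ih =>
    rw [Finset.prod_insert ha, Finset.sum_insert ha, ih]
    linear_combination (c a * ∑ i ∈ S, c i) * hn

open Classical in
lemma nu_eq {m q : ℕ} (hm : 1 ≤ m) (Q t : (ZMod (2 ^ (m + 1)))ˣ)
    (hQ : (Q : ZMod (2 ^ (m + 1))) = q) :
    (q : ℤ) * ((t : ZMod (2 ^ (m + 1))).val : ℤ) =
      ((2 ^ (m + 1) : ℕ) : ℤ) * (nu m q Q t : ℤ) + (if Q * t ∈ HS m then 1 else -1) *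
        ((hr (Q * t) : ZMod (2 ^ (m + 1))).val : ℤ) := by
  have h1 : ((Q * t : (ZMod (2 ^ (m + 1)))ˣ) : ZMod (2 ^ (m + 1))).val =
      (q * (t : ZMod (2 ^ (m + 1))).val) % 2 ^ (m + 1) := by
    rw [Units.val_mul, hQ, ZMod.val_mul, ZMod.val_natCast, Nat.mod_mul_mod]
  have h2 := Nat.mod_add_div (q * (t : ZMod (2 ^ (m + 1))).val) (2 ^ (m + 1))
  have h3 : (q : ℤ) * ((t : ZMod (2 ^ (m + 1))).val : ℤ) =
      ((q * (t : ZMod (2 ^ (m + 1))).val % 2 ^ (m + 1) : ℕ) : ℤ) +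
      ((2 ^ (m + 1) : ℕ) : ℤ) * ((q * (t : ZMod (2 ^ (m + 1))).val / 2 ^ (m + 1) : ℕ) : ℤ) := by
    exact_mod_cast h2.symm
  rw [h3, ← h1]
  unfold nu
  by_cases h : Q * t ∈ HS m
  · rw [if_pos h, if_pos h, hr_of_mem h]
    push_cast
    ring
  · rw [if_neg h, if_neg h, hr_of_not_mem h, val_neg_unit,
      Nat.cast_sub (ZMod.val_lt _).le]
    push_cast
    ring

section

variable {m : ℕ}

/-- the ring `ZMod (N^2)`. -/
abbrev R2 (m : ℕ) : Type := ZMod (2 ^ (m + 1) * 2 ^ (m + 1))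

/-- reduction modulo `N`. -/
def red (m : ℕ) : R2 m →+* ZMod (2 ^ (m + 1)) :=
  ZMod.castHom (Dvd.intro _ rfl) (ZMod (2 ^ (m + 1)))

lemma red_natCast (k : ℕ) : red m (k : R2 m) = (k : ZMod (2 ^ (m + 1))) := map_natCast _ _

lemma nil_mul : ((2 ^ (m + 1) : ℕ) : R2 m) * ((2 ^ (m + 1) : ℕ) : R2 m) = 0 := by
  rw [← Nat.cast_mul]
  exact ZMod.natCast_self _

lemma red_eq_zero_of_mul {w : R2 m} (hw : ((2 ^ (m + 1) : ℕ) : R2 m) * w = 0) : red m w = 0 := by
  have : NeZero (2 ^ (m + 1) * 2 ^ (m + 1)) := ⟨by positivity⟩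
  rw [← ZMod.natCast_zmod_val w, ← Nat.cast_mul, ZMod.natCast_eq_zero_iff] at hw
  have h2 := Nat.dvd_of_mul_dvd_mul_left (by positivity) hw
  rw [← ZMod.natCast_zmod_val w, red_natCast, ZMod.natCast_eq_zero_iff]
  exact h2

lemma isUnit_R2 {k : ℕ} (hk : Odd k) : IsUnit (k : R2 m) := by
  rw [ZMod.isUnit_iff_coprime]
  apply Nat.Coprime.mul_right
  · exact Nat.Coprime.pow_right _ (Nat.coprime_two_right.mpr hk)
  · exact Nat.Coprime.pow_right _ (Nat.coprime_two_right.mpr hk)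

open Classical in
theorem lerch {q : ℕ} (hm : 2 ≤ m) (hq : Odd q) (Q : (ZMod (2 ^ (m + 1)))ˣ)
    (hQ : (Q : ZMod (2 ^ (m + 1))) = q) :
    ∃ y : ℕ, q ^ (2 ^ (m - 1)) = 1 + 2 ^ (m + 1) * y ∧
      ∑ t ∈ HS m, (nu m q Q t : ZMod (2 ^ (m + 1))) *
        ((t⁻¹ : (ZMod (2 ^ (m + 1)))ˣ) : ZMod (2 ^ (m + 1))) = (q : ZMod (2 ^ (m + 1))) * y ∧
      ((∑ t ∈ HS m, nu m q Q t : ℕ) : ZMod 2) = y := by
  have hm1 : 1 ≤ m := by omega
  set s : (ZMod (2 ^ (m + 1)))ˣ → R2 m := fun t => if Q * t ∈ HS m then 1 else -1 with hs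
  -- inverses
  have hinv : ∀ t : (ZMod (2 ^ (m + 1)))ˣ, ∃ u : R2 m,
      s t * ((hr (Q * t) : ZMod (2 ^ (m + 1))).val : R2 m) * u = 1 := by
    intro t
    obtain ⟨v, hv⟩ := (isUnit_R2 (m := m) (unit_val_odd (hr (Q * t)))).exists_right_inv
    refine ⟨s t * v, ?_⟩
    have h1 : s t * s t = 1 := by
      rw [hs]; simp only; split_ifs <;> ring
    linear_combination (s t * s t) * hv + h1
  choose u hu using hinv
  have hid : ∀ t : (ZMod (2 ^ (m + 1)))ˣ, (q : R2 m) * ((t : ZMod (2 ^ (m + 1))).val : R2 m) =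
      (s t * ((hr (Q * t) : ZMod (2 ^ (m + 1))).val : R2 m)) *
        (1 + ((2 ^ (m + 1) : ℕ) : R2 m) * ((nu m q Q t : R2 m) * u t)) := by
    intro t
    have h1 := nu_eq hm1 Q t hQ
    have h2 := congrArg (fun z : ℤ => (z : R2 m)) h1
    push_cast at h2
    have h3 : (s t : R2 m) = (if Q * t ∈ HS m then 1 else -1) := rfl
    have h4 : (((if Q * t ∈ HS m then (1 : ℤ) else -1) : ℤ) : R2 m) = s t := by
      rw [h3]; split_ifs <;> simp
    push_cast at h4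
    rw [h4] at h2
    push_cast
    linear_combination h2 - ((2 : R2 m) ^ (m + 1) * (nu m q Q t : R2 m)) * hu t
  -- the product
  have hprod : ((q : R2 m) ^ (2 ^ (m - 1)) - (∏ t ∈ HS m, s t) *
      (1 + ((2 ^ (m + 1) : ℕ) : R2 m) * ∑ t ∈ HS m, (nu m q Q t : R2 m) * u t)) = 0 := by
    have h1 : ∏ t ∈ HS m, ((q : R2 m) * ((t : ZMod (2 ^ (m + 1))).val : R2 m)) =
      ∏ t ∈ HS m, ((s t * ((hr (Q * t) : ZMod (2 ^ (m + 1))).val : R2 m)) *
        (1 + ((2 ^ (m + 1) : ℕ) : R2 m) * ((nu m q Q t : R2 m) * u t))) :=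
      Finset.prod_congr rfl fun t _ => hid t
    rw [Finset.prod_mul_distrib, Finset.prod_mul_distrib, Finset.prod_mul_distrib,
      prod_one_add_nil nil_mul, Finset.prod_const, card_HS m hm1,
      prod_hr hm1 Q (fun t => ((t : ZMod (2 ^ (m + 1))).val : R2 m))] at h1
    have h2 : IsUnit (∏ t ∈ HS m, ((t : ZMod (2 ^ (m + 1))).val : R2 m)) := by
      rw [← Nat.cast_prod]
      apply isUnit_R2
      apply Finset.prod_induction _ Odd
      · intro a b ha hb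
        exact ha.mul hb
      · exact odd_one
      · intro t _
        exact unit_val_odd t
    apply h2.mul_right_cancel
    linear_combination h1
  -- the sign is `1`
  have hsign : ∏ t ∈ HS m, s t = 1 ∨ ∏ t ∈ HS m, s t = -1 := by
    apply Finset.prod_induction s (fun a => a = 1 ∨ a = -1)
    · rintro a b (rfl | rfl) (rfl | rfl) <;> simp
    · left; rfl
    · intro t _
      rw [hs]; simp only; split_ifs <;> simp
  have h4N : 4 ∣ 2 ^ (m + 1) := by
    have : (4 : ℕ) = 2 ^ 2 := by norm_num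
    rw [this]
    exact Nat.pow_dvd_pow 2 (by omega)
  have hsign1 : ∏ t ∈ HS m, s t = 1 := by
    rcases hsign with h | h
    · exact h
    · exfalso
      rw [h] at hprod
      have h1 : 4 ∣ 2 ^ (m + 1) * 2 ^ (m + 1) := Dvd.dvd.mul_right h4N _
      have h2 := congrArg (ZMod.castHom h1 (ZMod 4)) hprod
      have h3 : ((2 ^ (m + 1) : ℕ) : ZMod 4) = 0 := by
        rwa [ZMod.natCast_eq_zero_iff]
      rw [map_sub, map_mul, map_add, map_mul, map_pow, map_natCast, map_natCast, map_neg, map_one,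
        map_zero, h3] at h2
      have h4 : (q : ZMod 4) ^ (2 ^ (m - 1)) = 1 := by
        obtain ⟨k, hk⟩ : ∃ k, m - 1 = k + 1 := ⟨m - 2, by omega⟩
        rw [hk, pow_succ', pow_mul]
        have h5 : (q : ZMod 4) ^ 2 = 1 := by
          obtain ⟨r, rfl⟩ := hq
          push_cast
          have h6 : ((r : ZMod 4)) = 0 ∨ (r : ZMod 4) = 1 ∨ (r : ZMod 4) = 2 ∨ (r : ZMod 4) = 3 := by
            generalize (r : ZMod 4) = a
            revert a
            decide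
          rcases h6 with h | h | h | h <;> rw [h] <;> decide
        rw [h5, one_pow]
      rw [h4] at h2
      have h7 : (2 : ZMod 4) = 0 := by linear_combination h2
      exact absurd h7 (by decide)
  rw [hsign1, one_mul] at hprod
  -- the quotient `y`
  have hdvd : (2 ^ (m + 1)) ∣ q ^ (2 ^ (m - 1)) - 1 := by
    have h1 := congrArg (red m) hprod
    rw [map_sub, map_add, map_mul, map_pow, red_natCast, red_natCast, ZMod.natCast_self, zero_mul,
      map_one, map_zero, add_zero] at h1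
    have h2 : ((q ^ (2 ^ (m - 1)) - 1 : ℕ) : ZMod (2 ^ (m + 1))) = 0 := by
      rw [Nat.cast_sub (Nat.one_le_pow _ _ hq.pos)]
      push_cast
      exact h1
    rwa [ZMod.natCast_eq_zero_iff] at h2
  obtain ⟨y, hy⟩ := hdvd
  have hy' : q ^ (2 ^ (m - 1)) = 1 + 2 ^ (m + 1) * y := by
    have := Nat.one_le_pow (2 ^ (m - 1)) q hq.pos
    omega
  have hy2 : red m ((y : R2 m) - ∑ t ∈ HS m, (nu m q Q t : R2 m) * u t) = 0 := by
    apply red_eq_zero_of_mul
    have h1 : (q : R2 m) ^ (2 ^ (m - 1)) = 1 + ((2 ^ (m + 1) : ℕ) : R2 m) * (y : R2 m) := by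
      exact_mod_cast congrArg (fun k : ℕ => (k : R2 m)) hy'
    linear_combination hprod - h1
  have hu2 : ∀ t, red m (u t) = (((Q * t)⁻¹ : (ZMod (2 ^ (m + 1)))ˣ) : ZMod (2 ^ (m + 1))) := by
    intro t
    have h0 : red m (1 + ((2 ^ (m + 1) : ℕ) : R2 m) * ((nu m q Q t : R2 m) * u t)) = 1 := by
      rw [map_add, map_one, map_mul, red_natCast, ZMod.natCast_self, zero_mul, add_zero]
    have h1 := congrArg (red m) (hid t)
    rw [map_mul, map_mul, h0, mul_one, red_natCast, red_natCast, ZMod.natCast_zmod_val, ← hQ,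
      ← Units.val_mul] at h1
    have h2 := congrArg (red m) (hu t)
    rw [map_mul, ← h1, map_one] at h2
    have h3 : ((Q * t : (ZMod (2 ^ (m + 1)))ˣ) : ZMod (2 ^ (m + 1))) *
      (((Q * t)⁻¹ : (ZMod (2 ^ (m + 1)))ˣ) : ZMod (2 ^ (m + 1))) = 1 := Units.mul_inv _
    exact (Units.isUnit (Q * t)).mul_left_cancel (h2.trans h3.symm)
  have hmain : ∑ t ∈ HS m, (nu m q Q t : ZMod (2 ^ (m + 1))) *
        ((t⁻¹ : (ZMod (2 ^ (m + 1)))ˣ) : ZMod (2 ^ (m + 1))) = (q : ZMod (2 ^ (m + 1))) * y := by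
    rw [map_sub, map_sum, red_natCast, sub_eq_zero] at hy2
    rw [hy2, Finset.mul_sum]
    refine Finset.sum_congr rfl fun t _ => ?_
    rw [map_mul, red_natCast, hu2, mul_inv, Units.val_mul, ← hQ]
    have h3 : (Q : ZMod (2 ^ (m + 1))) * ((Q⁻¹ : (ZMod (2 ^ (m + 1)))ˣ) : ZMod (2 ^ (m + 1))) = 1 :=
      Units.mul_inv _
    linear_combination (-(nu m q Q t : ZMod (2 ^ (m + 1))) *
      ((t⁻¹ : (ZMod (2 ^ (m + 1)))ˣ) : ZMod (2 ^ (m + 1)))) * h3
  refine ⟨y, hy', hmain, ?_⟩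
  have h2N : 2 ∣ 2 ^ (m + 1) := dvd_pow_self 2 (by omega)
  have h1 := congrArg (ZMod.castHom h2N (ZMod 2)) hmain
  rw [map_sum, map_mul, map_natCast, map_natCast] at h1
  have hone : ∀ a : ZMod 2, a ≠ 0 → a = 1 := by decide
  have h5 : (q : ZMod 2) = 1 := by
    apply hone
    rw [Ne, ZMod.natCast_eq_zero_iff]
    exact fun h => (Nat.not_even_iff_odd.mpr hq) (even_iff_two_dvd.mpr h)
  have h6 : ∀ t : (ZMod (2 ^ (m + 1)))ˣ, ZMod.castHom h2N (ZMod 2)
      ((t⁻¹ : (ZMod (2 ^ (m + 1)))ˣ) : ZMod (2 ^ (m + 1))) = 1 := by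
    intro t
    apply hone
    intro h7
    have h8 := (Units.isUnit (t⁻¹)).map (ZMod.castHom h2N (ZMod 2))
    rw [h7] at h8
    exact not_isUnit_zero h8
  rw [h5, one_mul] at h1
  rw [← h1, Nat.cast_sum]
  refine Finset.sum_congr rfl fun t _ => ?_
  rw [map_mul, map_natCast, h6, mul_one]

end

end Pool.Agent.Y875.FP
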