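import Pool.Agent.Y875.FP.Eval
import Pool.Agent.Y875.FP.Lerch
import Pool.Agent.Y875.FP.Fin3

/-!
The power residue symbol of a prime `q ∣ x + 1` modulo the prime `p = x^(2^m) + 1`.
-/

namespace Pool.Agent.Y875.FP

lemma exists_L (q p m : ℕ) [hq : Fact q.Prime] [hpp : Fact p.Prime] (hqp : q ≠ p) :
    ∃ (L : Type) (_ : Field L) (_ : CharP L q) (ψ : AddChar (ZMod p) L) (z : L),
      ψ.IsPrimitive ∧ z ^ (2 ^ m) = -1 := by
  let F := AlgebraicClosure (ZMod q)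
  have hF : CharP F q := inferInstance
  have hpF : ((⟨p, hpp.out.pos⟩ : ℕ+) : F) ≠ 0 := by
    intro h
    have h2 : ((p : ℕ) : F) = 0 := h
    rw [CharP.cast_eq_zero_iff F q p] at h2
    exact hqp ((Nat.prime_dvd_prime_iff_eq hq.out hpp.out).mp h2)
  have : NeZero ((p : ℕ) : F) := ⟨hpF⟩
  let c := AddChar.primitiveZModChar ⟨p, hpp.out.pos⟩ F hpF
  let L := CyclotomicField c.n F
  have hL : CharP L q := charP_of_injective_algebraMap (algebraMap F L).injective q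
  obtain ⟨z, hz⟩ := IsAlgClosed.exists_pow_nat_eq (-1 : F) (n := 2 ^ m) (by positivity)
  refine ⟨L, inferInstance, hL, c.char, algebraMap F L z, c.prim, ?_⟩
  rw [← map_pow, hz, map_neg, map_one]

lemma half_mul {m a y : ℕ} (h : (a : ZMod 2) = y) :
    ((2 ^ m : ℕ) : ZMod (2 ^ (m + 1))) * (a : ZMod (2 ^ (m + 1))) =
      ((2 ^ m : ℕ) : ZMod (2 ^ (m + 1))) * (y : ZMod (2 ^ (m + 1))) := by
  rw [ZMod.natCast_eq_natCast_iff] at h
  rw [← Nat.cast_mul, ← Nat.cast_mul, ZMod.natCast_eq_natCast_iff, pow_succ]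
  exact h.mul_left' _

lemma ex_sum {A : Type} [CommRing A] {N : ℕ} [NeZero N] {z : A} (hz : z ^ N = 1) {ι : Type}
    (S : Finset ι) (f : ι → ZMod N) : ∏ i ∈ S, ex z (f i) = ex z (∑ i ∈ S, f i) := by
  classical
  induction S using Finset.induction_on with
  | empty => rw [Finset.prod_empty, Finset.sum_empty, ex_zero]
  | insert a S ha ih => rw [Finset.prod_insert ha, Finset.sum_insert ha, ih, ex_add hz]

section

variable {m : ℕ} (hm : 2 ≤ m)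

include hm in
open Classical in
lemma sum_exponent {q y : ℕ} (hq : Odd q) (Q : (ZMod (2 ^ (m + 1)))ˣ)
    (h1 : ∑ t ∈ HS m, (nu m q Q t : ZMod (2 ^ (m + 1))) *
        ((t⁻¹ : (ZMod (2 ^ (m + 1)))ˣ) : ZMod (2 ^ (m + 1))) = (q : ZMod (2 ^ (m + 1))) * y)
    (h2 : ((∑ t ∈ HS m, nu m q Q t : ℕ) : ZMod 2) = y) :
    ∑ t ∈ HS m, (nu m q Q t : ZMod (2 ^ (m + 1))) * (((2 ^ m : ℕ) : ZMod (2 ^ (m + 1))) +
      -((t⁻¹ : (ZMod (2 ^ (m + 1)))ˣ) : ZMod (2 ^ (m + 1)))) +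
      (q : ZMod (2 ^ (m + 1))) * ((1 + ((2 ^ m : ℕ) : ZMod (2 ^ (m + 1)))) * y) = 0 := by
  have h3 := half_mul (m := m) h2
  have h4 : ∑ t ∈ HS m, (nu m q Q t : ZMod (2 ^ (m + 1))) * (((2 ^ m : ℕ) : ZMod (2 ^ (m + 1))) +
      -((t⁻¹ : (ZMod (2 ^ (m + 1)))ˣ) : ZMod (2 ^ (m + 1)))) =
      ((2 ^ m : ℕ) : ZMod (2 ^ (m + 1))) * ((∑ t ∈ HS m, nu m q Q t : ℕ) : ZMod (2 ^ (m + 1))) -
      ∑ t ∈ HS m, (nu m q Q t : ZMod (2 ^ (m + 1))) *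
        ((t⁻¹ : (ZMod (2 ^ (m + 1)))ˣ) : ZMod (2 ^ (m + 1))) := by
    rw [Nat.cast_sum, Finset.mul_sum, ← Finset.sum_sub_distrib]
    refine Finset.sum_congr rfl fun t _ => ?_
    ring
  have h5 : (q : ZMod (2 ^ (m + 1))) * ((2 ^ m : ℕ) : ZMod (2 ^ (m + 1))) +
      ((2 ^ m : ℕ) : ZMod (2 ^ (m + 1))) = 0 := by
    obtain ⟨r, rfl⟩ := hq
    have : ((2 * r + 1 : ℕ) : ZMod (2 ^ (m + 1))) * ((2 ^ m : ℕ) : ZMod (2 ^ (m + 1))) +
      ((2 ^ m : ℕ) : ZMod (2 ^ (m + 1))) = ((2 ^ (m + 1) * (r + 1) : ℕ) : ZMod (2 ^ (m + 1))) := by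
      push_cast
      ring
    rw [this, Nat.cast_mul, ZMod.natCast_self, zero_mul]
  rw [h4, h1, h3]
  linear_combination (y : ZMod (2 ^ (m + 1))) * h5

end

lemma ex_neg_base {m : ℕ} {L : Type} [CommRing L] {z : L} (hz : z ^ (2 ^ m) = -1)
    (s : ZMod (2 ^ (m + 1))) :
    ex (-z) s = ex z ((1 + ((2 ^ m : ℕ) : ZMod (2 ^ (m + 1)))) * s) := by
  have hzN : z ^ (2 ^ (m + 1)) = 1 := by rw [pow_succ, pow_mul, hz]; ring
  have h1 : (1 + ((2 ^ m : ℕ) : ZMod (2 ^ (m + 1)))) = ((1 + 2 ^ m : ℕ) : ZMod (2 ^ (m + 1))) := by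
    push_cast
    ring
  have h2 : -z = z ^ (1 + 2 ^ m) := by rw [pow_add, pow_one, hz]; ring
  rw [h1, ex_nat_mul hzN, h2]
  unfold ex
  rw [← pow_mul, ← pow_mul, mul_comm]

lemma ex_neg_odd {m : ℕ} {L : Type} [CommRing L] (z : L) (t : (ZMod (2 ^ (m + 1)))ˣ) :
    ex (-z) (t : ZMod (2 ^ (m + 1))) = -ex z (t : ZMod (2 ^ (m + 1))) := by
  unfold ex
  rw [(unit_val_odd t).neg_pow]

lemma half_sq {m : ℕ} (hm : 1 ≤ m) :
    (1 + ((2 ^ m : ℕ) : ZMod (2 ^ (m + 1)))) * (1 + ((2 ^ m : ℕ) : ZMod (2 ^ (m + 1)))) = 1 := by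
  have h1 : ((2 ^ (m + 1) : ℕ) : ZMod (2 ^ (m + 1))) = 0 := ZMod.natCast_self _
  have h2 : (2 ^ m : ℕ) * 2 ^ m = 2 ^ (m + 1) * 2 ^ (m - 1) := by
    rw [← pow_add, ← pow_add]
    congr 1
    omega
  have h3 : ((2 ^ m : ℕ) : ZMod (2 ^ (m + 1))) * ((2 ^ m : ℕ) : ZMod (2 ^ (m + 1))) = 0 := by
    rw [← Nat.cast_mul, h2, Nat.cast_mul, h1, zero_mul]
  have h4 : ((2 ^ m : ℕ) : ZMod (2 ^ (m + 1))) + ((2 ^ m : ℕ) : ZMod (2 ^ (m + 1))) = 0 := by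
    rw [← Nat.cast_add, ← two_mul, ← pow_succ', h1]
  linear_combination h3 + h4

section

variable {m : ℕ} {O : Type} [CommRing O] {ζ : O} (H : CycRing (m + 1) O ζ)
  {p x T : ℕ} [hpp : Fact p.Prime] (hp : p = x ^ (2 ^ m) + 1) (hp2 : p ≠ 2)
  (hT : 2 ^ (m + 1) * T = x ^ (2 ^ m))
  {χ : MulChar (ZMod p) O} (hχ : IsRes m p x T ζ χ) (hm : 2 ≤ m) (hTe : Even T)
  (hJac : JacVal m x ζ χ)

include H hp hp2 hT hχ hm hTe hJac in
theorem CycRing.symbol (q : ℕ) [hq : Fact q.Prime] (hq2 : q ≠ 2) (hqp : q ≠ p)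
    (hxq : (x : ZMod q) = -1) :
    ∃ y : ℕ, q ^ (2 ^ (m - 1)) = 1 + 2 ^ (m + 1) * y ∧
      χ (q : ZMod p) = ex ζ (y : ZMod (2 ^ (m + 1))) := by
  classical
  obtain ⟨L, _, _, ψ, z, hψ, hz⟩ := exists_L q p m hqp
  have hqodd : Odd q := hq.out.odd_of_ne_two hq2
  have h2L : (2 : L) ≠ 0 := by
    intro h
    have h2 : ((2 : ℕ) : L) = 0 := by exact_mod_cast h
    rw [CharP.cast_eq_zero_iff L q 2] at h2
    have := Nat.le_of_dvd (by norm_num) h2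
    have := hq.out.two_le
    omega
  obtain ⟨τ, hτ⟩ := H.lift L z (by rw [Nat.add_sub_cancel]; exact hz)
  have hzn : (-z) ^ (2 ^ m) = -1 := by
    rw [Even.neg_pow (Nat.even_pow.mpr ⟨even_two, by omega⟩), hz]
  have hcopN : Nat.Coprime q (2 ^ (m + 1)) :=
    Nat.Coprime.pow_right _ (Nat.coprime_two_right.mpr hqodd)
  set Q : (ZMod (2 ^ (m + 1)))ˣ := ZMod.unitOfCoprime q hcopN with hQdef
  have hQ : (Q : ZMod (2 ^ (m + 1))) = q := ZMod.coe_unitOfCoprime q hcopN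
  have hfrob := H.frob hp hp2 hT hχ (by omega) hTe hJac h2L τ hψ q hq2 hqp
  have hxL : (x : L) = -1 := by
    have h1 : (((x : ℤ) + 1 : ℤ) : ZMod q) = 0 := by
      push_cast
      rw [hxq, neg_add_cancel]
    rw [ZMod.intCast_zmod_eq_zero_iff_dvd, ← CharP.intCast_eq_zero_iff L q] at h1
    push_cast at h1
    linear_combination h1
  rw [hxL, hτ] at hfrob
  have hal : ∀ t : (ZMod (2 ^ (m + 1)))ˣ, al (-1 : L) z t =
      1 - ex (-z) ((t⁻¹ : (ZMod (2 ^ (m + 1)))ˣ) : ZMod (2 ^ (m + 1))) := by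
    intro t
    unfold al
    rw [ex_neg_odd]
    ring
  simp only [hal] at hfrob
  rw [prod_eval (by omega) hzn h2L hq2 Q hQ] at hfrob
  obtain ⟨y, hy1, hy2, hy3⟩ := lerch hm hqodd Q hQ
  refine ⟨y, hy1, ?_⟩
  set S := ∑ t ∈ HS m, (nu m q Q t : ZMod (2 ^ (m + 1))) * (((2 ^ m : ℕ) : ZMod (2 ^ (m + 1))) +
      -((t⁻¹ : (ZMod (2 ^ (m + 1)))ˣ) : ZMod (2 ^ (m + 1)))) with hS
  have hprod : ∏ t ∈ HS m, (-ex (-z) (-((t⁻¹ : (ZMod (2 ^ (m + 1)))ˣ) : ZMod (2 ^ (m + 1))))) ^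
        (q * (t : ZMod (2 ^ (m + 1))).val / 2 ^ (m + 1) + if Q * t ∈ HS m then 0 else 1) =
      ex (-z) S := by
    rw [hS, ← ex_sum (zN hzn)]
    refine Finset.prod_congr rfl fun t _ => ?_
    rw [ex_nat_mul (zN hzn), neg_ex hzn]
    rfl
  rw [hprod, ex_neg_base hz] at hfrob
  have hq0 : (q : ZMod p) ≠ 0 := by
    intro h
    rw [ZMod.natCast_eq_zero_iff] at h
    exact hqp ((Nat.prime_dvd_prime_iff_eq hpp.out hq.out).mp h).symm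
  obtain ⟨j, hj1, hj2⟩ := hχ (q : ZMod p) hq0
  rw [hj1]
  congr 1
  rw [hj1, map_ex, hτ, ← ex_nat_mul (zN hz), ← ex_add (zN hz)] at hfrob
  have h1 : (q : ZMod (2 ^ (m + 1))) * j + (1 + ((2 ^ m : ℕ) : ZMod (2 ^ (m + 1)))) * S = 0 := by
    apply ex_injective (prim_of_half hz h2L)
    rw [hfrob, ex_zero]
  have h2 := sum_exponent hm hqodd Q hy2 hy3
  rw [← hS] at h2
  have h3 : (q : ZMod (2 ^ (m + 1))) * j = (q : ZMod (2 ^ (m + 1))) * y := by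
    have h4 := half_sq (m := m) (by omega)
    linear_combination h1 - (1 + ((2 ^ m : ℕ) : ZMod (2 ^ (m + 1)))) * h2 +
      (q : ZMod (2 ^ (m + 1))) * y * h4
  rw [← hQ] at h3
  exact (Units.isUnit Q).mul_left_cancel h3

end

/-- The rational power residue law for a prime `q ∣ x + 1`. -/
theorem prime_law {m p x T q : ℕ} [hpp : Fact p.Prime] (hp : p = x ^ (2 ^ m) + 1) (hp2 : p ≠ 2)
    (hT : 2 ^ (m + 1) * T = x ^ (2 ^ m)) (hm : 2 ≤ m) (hTe : Even T) (h2T : (2 : ZMod p) ^ T = 1)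
    (hx : 4 ∣ x ∨ (2 ∣ x ∧ 3 ≤ m))
    (hq : q.Prime) (hq2 : q ≠ 2) (hxq : (x : ZMod q) = -1) :
    ∃ y : ℕ, q ^ (2 ^ (m - 1)) = 1 + 2 ^ (m + 1) * y ∧
      (q : ZMod p) ^ T * (x : ZMod p) ^ y = 1 := by
  have : Fact q.Prime := ⟨hq⟩
  have hqp : q ≠ p := by
    rintro rfl
    have h1 : ((x ^ (2 ^ m) + 1 : ℕ) : ZMod q) = 0 := by
      rw [← hp]
      exact ZMod.natCast_self q
    push_cast at h1
    rw [hxq, Even.neg_pow (Nat.even_pow.mpr ⟨even_two, by omega⟩), one_pow] at h1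
    have h2 : ((2 : ℕ) : ZMod q) = 0 := by
      push_cast
      linear_combination h1
    rw [ZMod.natCast_eq_zero_iff] at h2
    have := Nat.le_of_dvd (by norm_num) h2
    have := hq.two_le
    omega
  obtain ⟨O, _, ζ, H⟩ := exists_cycRing (m + 1) (by omega)
  obtain ⟨χ, hχ⟩ := H.exists_chi hp hp2 hT
  have hχ : IsRes m p x T ζ χ := hχ
  have h20 : (2 : ZMod p) ≠ 0 := by
    intro h
    have h3 : ((2 : ℕ) : ZMod p) = 0 := by exact_mod_cast h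
    rw [ZMod.natCast_eq_zero_iff] at h3
    exact hp2 ((Nat.prime_dvd_prime_iff_eq hpp.out Nat.prime_two).mp h3)
  have hχ2 : χ 2 = 1 := by
    obtain ⟨j, hj1, hj2⟩ := hχ 2 h20
    have h3 : j = 0 := by
      apply ex_injective (ci_prim hp hp2)
      rw [hj2, h2T, ex_zero]
    rw [hj1, h3, ex_zero]
  have hJac : JacVal m x ζ χ := fun a ha ha' =>
    H.jacobi_eq_even hp hp2 hT hχ hm hTe hχ2 hx ha ha'
  obtain ⟨y, hy1, hy2⟩ := H.symbol hp hp2 hT hχ hm hTe hJac q hq2 hqp hxq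
  refine ⟨y, hy1, ?_⟩
  have hq0 : (q : ZMod p) ≠ 0 := by
    intro h
    rw [ZMod.natCast_eq_zero_iff] at h
    exact hqp ((Nat.prime_dvd_prime_iff_eq hpp.out hq).mp h).symm
  obtain ⟨j, hj1, hj2⟩ := hχ (q : ZMod p) hq0
  have h1 : j = (y : ZMod (2 ^ (m + 1))) := by
    apply ex_injective H.prim
    rw [← hj1, hy2]
  have hc := cpow hp
  rw [← hj2, h1, ex_natCast (ci_prim hp hp2).pow_eq_one, ← mul_pow]
  unfold ci
  rw [hc, one_pow]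

end Pool.Agent.Y875.FP
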