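import Pool.Agent.Y875.FP.Ex

/-!
Iterated squares in the group ring of `(ZMod N)²`, `N` even: the coefficients over an odd class and
their moments.
-/

namespace Pool.Agent.Y875.FP

section

variable {N : ℕ} [NeZero N]

/-- Convolution on `(ZMod N)²`. -/
def cv (f g : ZMod N → ZMod N → ℤ) (i j : ZMod N) : ℤ :=
  ∑ k : ZMod N, ∑ l : ZMod N, f k l * g (i - k) (j - l)

/-- Iterated squares. -/
def sqs (h : ZMod N → ZMod N → ℤ) : ℕ → ZMod N → ZMod N → ℤ
  | 0 => h
  | M + 1 => cv (sqs h M) (sqs h M)

/-- Evaluation at the pair of characters `(a, b)`. -/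
def ev {A : Type} [CommRing A] (z : A) (h : ZMod N → ZMod N → ℤ) (a b : ZMod N) : A :=
  ∑ i : ZMod N, ∑ j : ZMod N, (h i j : A) * (ex z (a * i) * ex z (b * j))

lemma ev_cv {A : Type} [CommRing A] {z : A} (hz : z ^ N = 1) (f g : ZMod N → ZMod N → ℤ)
    (a b : ZMod N) : ev z (cv f g) a b = ev z f a b * ev z g a b := by
  have h1 : ev z f a b * ev z g a b = ∑ k : ZMod N, ∑ l : ZMod N,
      ((f k l : A) * (ex z (a * k) * ex z (b * l))) * ev z g a b := by
    unfold ev
    rw [Finset.sum_mul]
    refine Finset.sum_congr rfl fun k _ => ?_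
    rw [Finset.sum_mul]
  have h2 : ∀ k l : ZMod N, ((f k l : A) * (ex z (a * k) * ex z (b * l))) * ev z g a b =
      ∑ i : ZMod N, ∑ j : ZMod N,
        ((f k l * g (i - k) (j - l) : ℤ) : A) * (ex z (a * i) * ex z (b * j)) := by
    intro k l
    unfold ev
    rw [← Equiv.sum_comp (Equiv.subRight k), Finset.mul_sum]
    refine Finset.sum_congr rfl fun i _ => ?_
    rw [← Equiv.sum_comp (Equiv.subRight l), Finset.mul_sum]
    refine Finset.sum_congr rfl fun j _ => ?_
    simp only [Equiv.subRight_apply]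
    have h3 : ex z (a * i) = ex z (a * k) * ex z (a * (i - k)) := by
      rw [← ex_add hz]; congr 1; ring
    have h4 : ex z (b * j) = ex z (b * l) * ex z (b * (j - l)) := by
      rw [← ex_add hz]; congr 1; ring
    rw [h3, h4]
    push_cast
    ring
  rw [h1, Finset.sum_congr rfl fun k _ => Finset.sum_congr rfl fun l _ => h2 k l]
  unfold ev cv
  have h5 : ∀ i : ZMod N, ∑ j : ZMod N,
      ((∑ k : ZMod N, ∑ l : ZMod N, f k l * g (i - k) (j - l) : ℤ) : A) *
        (ex z (a * i) * ex z (b * j)) =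
      ∑ k : ZMod N, ∑ l : ZMod N, ∑ j : ZMod N,
        ((f k l * g (i - k) (j - l) : ℤ) : A) * (ex z (a * i) * ex z (b * j)) := by
    intro i
    have : ∀ j : ZMod N, ((∑ k : ZMod N, ∑ l : ZMod N, f k l * g (i - k) (j - l) : ℤ) : A) *
        (ex z (a * i) * ex z (b * j)) = ∑ k : ZMod N, ∑ l : ZMod N,
        ((f k l * g (i - k) (j - l) : ℤ) : A) * (ex z (a * i) * ex z (b * j)) := by
      intro j
      rw [Int.cast_sum, Finset.sum_mul]
      refine Finset.sum_congr rfl fun k _ => ?_
      rw [Int.cast_sum, Finset.sum_mul]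
    rw [Finset.sum_congr rfl fun j _ => this j, Finset.sum_comm]
    refine Finset.sum_congr rfl fun k _ => ?_
    rw [Finset.sum_comm]
  rw [Finset.sum_congr rfl fun i _ => h5 i, Finset.sum_comm]
  refine Finset.sum_congr rfl fun k _ => ?_
  rw [Finset.sum_comm]

lemma ev_sqs {A : Type} [CommRing A] {z : A} (hz : z ^ N = 1) (h : ZMod N → ZMod N → ℤ)
    (M : ℕ) (a b : ZMod N) : ev z (sqs h M) a b = ev z h a b ^ (2 ^ M) := by
  induction M with
  | zero => simp [sqs]
  | succ M ih =>
    have : ev z (sqs h (M + 1)) a b = ev z (cv (sqs h M) (sqs h M)) a b := rfl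
    rw [this, ev_cv hz, ih, ← pow_add]
    congr 1
    ring

/-- `w`-weighted sums over the second variable. -/
lemma cv_moment (f g : ZMod N → ZMod N → ℤ) (w : ZMod N → ℤ) (i : ZMod N) :
    ∑ j : ZMod N, w j * cv f g i j =
      ∑ k : ZMod N, ∑ l : ZMod N, ∑ j : ZMod N, w (l + j) * (f k l * g (i - k) j) := by
  unfold cv
  have h1 : ∀ j : ZMod N, w j * ∑ k : ZMod N, ∑ l : ZMod N, f k l * g (i - k) (j - l) =
      ∑ k : ZMod N, ∑ l : ZMod N, w j * (f k l * g (i - k) (j - l)) := by
    intro j
    rw [Finset.mul_sum]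
    refine Finset.sum_congr rfl fun k _ => ?_
    rw [Finset.mul_sum]
  rw [Finset.sum_congr rfl fun j _ => h1 j, Finset.sum_comm]
  refine Finset.sum_congr rfl fun k _ => ?_
  rw [Finset.sum_comm]
  refine Finset.sum_congr rfl fun l _ => ?_
  rw [← Equiv.sum_comp (Equiv.addLeft l)]
  refine Finset.sum_congr rfl fun j _ => ?_
  simp only [Equiv.coe_addLeft, add_sub_cancel_left]

lemma val_add_odd (hN : Even N) (i k : ZMod N) (hi : Odd i.val) :
    Odd (i - k).val ↔ ¬ Odd k.val := by
  have h1 : (k + (i - k)).val = (k.val + (i - k).val) % N := ZMod.val_add k (i - k)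
  have h2 : k + (i - k) = i := by ring
  rw [h2] at h1
  obtain ⟨n, hn⟩ := hN
  have h3 := Nat.div_add_mod (k.val + (i - k).val) N
  rw [← h1] at h3
  rw [Nat.odd_iff] at hi ⊢
  rw [Nat.odd_iff]
  have h4 : N * ((k.val + (i - k).val) / N) = 2 * (n * ((k.val + (i - k).val) / N)) := by
    generalize (k.val + (i - k).val) / N = q
    rw [hn]
    ring
  rw [h4] at h3
  omega

/-- For odd `i` the terms of a square pair up. -/
lemma cv_sq (hN : Even N) (g : ZMod N → ZMod N → ℤ) {i : ZMod N} (hi : Odd i.val) (j : ZMod N) :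
    cv g g i j = 2 * ∑ k : ZMod N, if Odd k.val then ∑ l : ZMod N, g k l * g (i - k) (j - l)
      else 0 := by
  have h1 : cv g g i j = ∑ k : ZMod N, (if Odd k.val then
      ∑ l : ZMod N, g k l * g (i - k) (j - l) else 0) +
      ∑ k : ZMod N, (if Odd k.val then 0 else ∑ l : ZMod N, g k l * g (i - k) (j - l)) := by
    unfold cv
    rw [← Finset.sum_add_distrib]
    refine Finset.sum_congr rfl fun k _ => ?_
    split_ifs <;> simp
  have h2 : ∑ k : ZMod N, (if Odd k.val then 0 else ∑ l : ZMod N, g k l * g (i - k) (j - l)) =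
      ∑ k : ZMod N, (if Odd k.val then ∑ l : ZMod N, g k l * g (i - k) (j - l) else 0) := by
    rw [← Equiv.sum_comp (Equiv.subLeft i)]
    refine Finset.sum_congr rfl fun k _ => ?_
    simp only [Equiv.subLeft_apply, sub_sub_cancel]
    by_cases hk : Odd k.val
    · have h3 : ¬ Odd (i - k).val := by
        rw [val_add_odd hN i k hi]
        exact not_not.mpr hk
      rw [if_neg h3, if_pos hk, ← Equiv.sum_comp (Equiv.subLeft j)]
      refine Finset.sum_congr rfl fun l _ => ?_
      simp only [Equiv.subLeft_apply, sub_sub_cancel]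
      ring
    · have h3 : Odd (i - k).val := (val_add_odd hN i k hi).mpr hk
      rw [if_pos h3, if_neg hk]
  rw [h1, h2]
  ring

variable (h : ZMod N → ZMod N → ℤ)

lemma sqs_dvd (hN : Even N) (M : ℕ) : ∀ i : ZMod N, Odd i.val → ∀ j : ZMod N,
    (2 : ℤ) ^ M ∣ sqs h M i j := by
  induction M with
  | zero => intro i _ j; simp
  | succ M ih =>
    intro i hi j
    have : sqs h (M + 1) i j = cv (sqs h M) (sqs h M) i j := rfl
    rw [this, cv_sq hN _ hi, pow_succ']
    apply mul_dvd_mul_left
    apply Finset.dvd_sum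
    intro k _
    split_ifs with hk
    · apply Finset.dvd_sum
      intro l _
      exact Dvd.dvd.mul_right (ih k hk l) _
    · exact dvd_zero _

lemma sqs_row (h0 : ∀ i : ZMod N, ∑ j : ZMod N, h i j = if i = 0 then 1 else 0) (M : ℕ) :
    ∀ i : ZMod N, ∑ j : ZMod N, sqs h M i j = if i = 0 then 1 else 0 := by
  induction M with
  | zero => exact h0
  | succ M ih =>
    intro i
    have h1 := cv_moment (sqs h M) (sqs h M) (fun _ => 1) i
    simp only [one_mul] at h1
    have : ∀ j, sqs h (M + 1) i j = cv (sqs h M) (sqs h M) i j := fun _ => rfl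
    rw [Finset.sum_congr rfl fun j _ => this j, h1]
    have h2 : ∀ k : ZMod N, ∑ l : ZMod N, ∑ j : ZMod N, sqs h M k l * sqs h M (i - k) j =
        (if k = 0 then 1 else 0) * (if i - k = 0 then 1 else 0) := by
      intro k
      rw [← ih k, ← ih (i - k), Finset.sum_mul]
      refine Finset.sum_congr rfl fun l _ => ?_
      rw [Finset.mul_sum]
    rw [Finset.sum_congr rfl fun k _ => h2 k, Finset.sum_eq_single 0]
    · simp
    · intro k _ hk
      rw [if_neg hk, zero_mul]
    · intro hcon
      exact absurd (Finset.mem_univ _) hcon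

/-- The first moment over an odd class. -/
theorem sqs_moment (hN : Even N)
    (h0 : ∀ i : ZMod N, ∑ j : ZMod N, h i j = if i = 0 then 1 else 0) (M : ℕ) :
    ∀ i : ZMod N, Odd i.val → (2 : ℤ) ^ M * N ∣
      ∑ j : ZMod N, (j.val : ℤ) * sqs h M i j - 2 ^ M * ∑ j : ZMod N, (j.val : ℤ) * h i j := by
  induction M with
  | zero => intro i _; simp [sqs]
  | succ M ih =>
    intro i hi
    set g := sqs h M with hg
    have hrow := sqs_row h h0 M
    have hdvd := sqs_dvd h hN M
    rw [← hg] at hrow hdvd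
    -- the value of the moment of the square
    have h1 : ∑ j : ZMod N, (j.val : ℤ) * sqs h (M + 1) i j =
        2 * ∑ k : ZMod N, if Odd k.val then
          ∑ l : ZMod N, ∑ j : ZMod N, ((l + j).val : ℤ) * (g k l * g (i - k) j) else 0 := by
      have e1 : ∀ j, sqs h (M + 1) i j = cv g g i j := fun _ => rfl
      have e2 : ∀ j : ZMod N, (j.val : ℤ) * sqs h (M + 1) i j =
          2 * ∑ k : ZMod N, if Odd k.val then ∑ l : ZMod N,
            (j.val : ℤ) * (g k l * g (i - k) (j - l)) else 0 := by
        intro j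
        rw [e1, cv_sq hN g hi, mul_left_comm, Finset.mul_sum]
        congr 1
        refine Finset.sum_congr rfl fun k _ => ?_
        split_ifs
        · rw [Finset.mul_sum]
        · rw [mul_zero]
      rw [Finset.sum_congr rfl fun j _ => e2 j, ← Finset.mul_sum, Finset.sum_comm]
      congr 1
      refine Finset.sum_congr rfl fun k _ => ?_
      split_ifs
      · rw [Finset.sum_comm]
        refine Finset.sum_congr rfl fun l _ => ?_
        rw [← Equiv.sum_comp (Equiv.addLeft l)]
        refine Finset.sum_congr rfl fun j _ => ?_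
        simp only [Equiv.coe_addLeft, add_sub_cancel_left]
      · simp
    -- each odd class
    have h2 : ∀ k : ZMod N, Odd k.val → (2 : ℤ) ^ M * N ∣
        ∑ l : ZMod N, ∑ j : ZMod N, ((l + j).val : ℤ) * (g k l * g (i - k) j) -
          (if i = k then ∑ l : ZMod N, (l.val : ℤ) * g k l else 0) := by
      intro k hk
      have e1 : ∀ l j : ZMod N, ((l + j).val : ℤ) * (g k l * g (i - k) j) =
          (l.val : ℤ) * g k l * g (i - k) j + g k l * ((j.val : ℤ) * g (i - k) j) -
          (N : ℤ) * (((l.val + j.val) / N : ℕ) : ℤ) * (g k l * g (i - k) j) := by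
        intro l j
        have e2 : ((l + j).val : ℤ) = l.val + j.val - N * (((l.val + j.val) / N : ℕ) : ℤ) := by
          have e3 := Nat.mod_add_div (l.val + j.val) N
          rw [← ZMod.val_add] at e3
          have e4 : (((l + j).val + N * ((l.val + j.val) / N) : ℕ) : ℤ) =
              ((l.val + j.val : ℕ) : ℤ) := by rw [e3]
          rw [Nat.cast_add, Nat.cast_add, Nat.cast_mul] at e4
          linear_combination e4
        rw [e2]
        ring
      have e5 : ∑ l : ZMod N, ∑ j : ZMod N, ((l + j).val : ℤ) * (g k l * g (i - k) j) =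
          (∑ l : ZMod N, (l.val : ℤ) * g k l) * (∑ j : ZMod N, g (i - k) j) +
          (∑ l : ZMod N, g k l) * (∑ j : ZMod N, (j.val : ℤ) * g (i - k) j) -
          ∑ l : ZMod N, ∑ j : ZMod N,
            (N : ℤ) * (((l.val + j.val) / N : ℕ) : ℤ) * (g k l * g (i - k) j) := by
        rw [Finset.sum_mul, Finset.sum_mul, ← Finset.sum_add_distrib, ← Finset.sum_sub_distrib]
        refine Finset.sum_congr rfl fun l _ => ?_
        rw [Finset.mul_sum, Finset.mul_sum, ← Finset.sum_add_distrib, ← Finset.sum_sub_distrib]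
        refine Finset.sum_congr rfl fun j _ => ?_
        exact e1 l j
      have hk0 : k ≠ 0 := by
        rintro rfl
        rw [ZMod.val_zero] at hk
        exact absurd hk (by decide)
      have e6 : (if i = k then ∑ l : ZMod N, (l.val : ℤ) * g k l else 0) =
          (∑ l : ZMod N, (l.val : ℤ) * g k l) * (∑ j : ZMod N, g (i - k) j) := by
        rw [hrow (i - k)]
        by_cases hik : i = k
        · rw [if_pos hik, if_pos (sub_eq_zero.mpr hik), mul_one]
        · rw [if_neg hik, if_neg (fun h => hik (sub_eq_zero.mp h)), mul_zero]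
      rw [e5, e6, hrow k, if_neg hk0, zero_mul, add_zero, sub_sub, add_comm, ← sub_sub,
        sub_self, zero_sub, dvd_neg]
      apply Finset.dvd_sum
      intro l _
      apply Finset.dvd_sum
      intro j _
      obtain ⟨c, hc⟩ := hdvd k hk l
      rw [hc]
      exact ⟨(((l.val + j.val) / N : ℕ) : ℤ) * (c * g (i - k) j), by ring⟩
    have h3 : (2 : ℤ) ^ M * N ∣ ∑ k : ZMod N, (if Odd k.val then
        ∑ l : ZMod N, ∑ j : ZMod N, ((l + j).val : ℤ) * (g k l * g (i - k) j) else 0) -
        ∑ l : ZMod N, (l.val : ℤ) * g i l := by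
      have e1 : ∑ l : ZMod N, (l.val : ℤ) * g i l =
          ∑ k : ZMod N, (if i = k then ∑ l : ZMod N, (l.val : ℤ) * g k l else 0) := by simp
      rw [e1, ← Finset.sum_sub_distrib]
      apply Finset.dvd_sum
      intro k _
      by_cases hk : Odd k.val
      · rw [if_pos hk]
        exact h2 k hk
      · rw [if_neg hk, if_neg (by rintro rfl; exact hk hi), sub_zero]
        exact dvd_zero _
    have h4 := dvd_add h3 (ih i hi)
    rw [h1]
    have h5 : 2 * ∑ k : ZMod N, (if Odd k.val then
        ∑ l : ZMod N, ∑ j : ZMod N, ((l + j).val : ℤ) * (g k l * g (i - k) j) else 0) -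
        2 ^ (M + 1) * ∑ j : ZMod N, (j.val : ℤ) * h i j =
        2 * ((∑ k : ZMod N, (if Odd k.val then
        ∑ l : ZMod N, ∑ j : ZMod N, ((l + j).val : ℤ) * (g k l * g (i - k) j) else 0) -
        ∑ l : ZMod N, (l.val : ℤ) * g i l) + (∑ l : ZMod N, (l.val : ℤ) * g i l -
          2 ^ M * ∑ j : ZMod N, (j.val : ℤ) * h i j)) := by ring
    rw [h5, pow_succ', mul_assoc]
    exact mul_dvd_mul_left 2 h4

end

end Pool.Agent.Y875.FP
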