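import Pool.Agent.Y875.FP.MerA
import Pool.Agent.Y875.FP.Four
import Pool.Agent.Y875.FP.Abound

/-!
A functional on functions on `(ZMod N)²` and its values on the power sums attached to the
exponents of the Jacobi sums.
-/

namespace Pool.Agent.Y875.FP

/-- The exponents of the Jacobi sum of `(χ^a, χ^b)`. -/
def Th (m : ℕ) (a b : ZMod (2 ^ (m + 1))) : Finset (ZMod (2 ^ (m + 1)))ˣ :=
  Finset.univ.filter fun t => 2 ^ (m + 1) ≤
    (-(a * (t : ZMod (2 ^ (m + 1))))).val + (-(b * (t : ZMod (2 ^ (m + 1))))).val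

/-- The first moment of the Fourier coefficients, times `N²`. -/
def LL {A : Type} [CommRing A] {N : ℕ} [NeZero N] (z : A) (i : ZMod N)
    (f : ZMod N → ZMod N → A) : A :=
  ∑ j : ZMod N, (j.val : A) * ∑ a : ZMod N, ∑ b : ZMod N,
    f a b * (ex z (-(a * i)) * ex z (-(b * j)))

/-- The sign attached to `k` and the odd class `s`. -/
def eps (m : ℕ) (s : (ZMod (2 ^ (m + 1)))ˣ) (k : ℕ) : ℤ :=
  if (-((k : ZMod (2 ^ (m + 1))) * ((s⁻¹ : (ZMod (2 ^ (m + 1)))ˣ) : ZMod (2 ^ (m + 1))))).val < 2 ^ m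
    then -1 else 1

section

variable {A : Type} [CommRing A] [IsDomain A] {N : ℕ} [NeZero N] {z : A}

lemma sum_ex (hz : IsPrimitiveRoot z N) (w : ZMod N) :
    ∑ a : ZMod N, ex z (a * w) = if w = 0 then (N : A) else 0 := by
  rw [← geom_ex hz w]
  refine Finset.sum_bij (fun a _ => a.val) ?_ ?_ ?_ ?_
  · intro a _
    exact Finset.mem_range.mpr (ZMod.val_lt a)
  · intro a _ b _ h
    exact ZMod.val_injective _ h
  · intro k hk
    exact ⟨(k : ZMod N), Finset.mem_univ _, by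
      rw [ZMod.val_natCast, Nat.mod_eq_of_lt (Finset.mem_range.mp hk)]⟩
  · intro a _
    rw [ex_mul hz.pow_eq_one]

lemma sum_ex' (hz : IsPrimitiveRoot z N) (w : ZMod N) :
    ∑ a : ZMod N, ex z (-(a * w)) = if w = 0 then (N : A) else 0 := by
  have h1 := sum_ex hz (-w)
  simp only [mul_neg, neg_eq_zero] at h1
  exact h1

omit [IsDomain A] in
lemma LL_sum {ι : Type} (S : Finset ι) (i : ZMod N) (f : ι → ZMod N → ZMod N → A) :
    LL z i (fun a b => ∑ k ∈ S, f k a b) = ∑ k ∈ S, LL z i (f k) := by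
  unfold LL
  symm
  rw [Finset.sum_comm]
  refine Finset.sum_congr rfl fun j _ => ?_
  rw [← Finset.mul_sum]
  congr 1
  rw [Finset.sum_comm]
  refine Finset.sum_congr rfl fun a _ => ?_
  rw [Finset.sum_comm]
  refine Finset.sum_congr rfl fun b _ => ?_
  rw [Finset.sum_mul]

omit [IsDomain A] in
lemma LL_mul (c : A) (i : ZMod N) (f : ZMod N → ZMod N → A) :
    LL z i (fun a b => c * f a b) = c * LL z i f := by
  unfold LL
  rw [Finset.mul_sum]
  refine Finset.sum_congr rfl fun j _ => ?_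
  rw [mul_left_comm]
  congr 1
  rw [Finset.mul_sum]
  refine Finset.sum_congr rfl fun a _ => ?_
  rw [Finset.mul_sum]
  refine Finset.sum_congr rfl fun b _ => ?_
  ring

omit [IsDomain A] in
lemma LL_add (i : ZMod N) (f g : ZMod N → ZMod N → A) :
    LL z i (fun a b => f a b + g a b) = LL z i f + LL z i g := by
  unfold LL
  rw [← Finset.sum_add_distrib]
  refine Finset.sum_congr rfl fun j _ => ?_
  rw [← mul_add]
  congr 1
  rw [← Finset.sum_add_distrib]
  refine Finset.sum_congr rfl fun a _ => ?_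
  rw [← Finset.sum_add_distrib]
  refine Finset.sum_congr rfl fun b _ => ?_
  ring

lemma LL_left (hz : IsPrimitiveRoot z N) (i : ZMod N) (f : ZMod N → A) :
    LL z i (fun a _ => f a) = 0 := by
  unfold LL
  apply Finset.sum_eq_zero
  intro j _
  have h1 : ∀ a : ZMod N, ∑ b : ZMod N, f a * (ex z (-(a * i)) * ex z (-(b * j))) =
      f a * ex z (-(a * i)) * (if j = 0 then (N : A) else 0) := by
    intro a
    rw [← sum_ex' hz j, Finset.mul_sum]
    refine Finset.sum_congr rfl fun b _ => ?_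
    ring
  rw [Finset.sum_congr rfl fun a _ => h1 a]
  by_cases hj : j = 0
  · rw [hj, ZMod.val_zero, Nat.cast_zero, zero_mul]
  · simp [hj]

lemma LL_right (hz : IsPrimitiveRoot z N) {i : ZMod N} (hi : i ≠ 0) (f : ZMod N → A) :
    LL z i (fun _ b => f b) = 0 := by
  unfold LL
  apply Finset.sum_eq_zero
  intro j _
  rw [Finset.sum_comm]
  have h1 : ∀ b : ZMod N, ∑ a : ZMod N, f b * (ex z (-(a * i)) * ex z (-(b * j))) = 0 := by
    intro b
    have h2 := sum_ex' hz i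
    rw [if_neg hi] at h2
    calc ∑ a : ZMod N, f b * (ex z (-(a * i)) * ex z (-(b * j)))
        = f b * ex z (-(b * j)) * ∑ a : ZMod N, ex z (-(a * i)) := by
          rw [Finset.mul_sum]
          refine Finset.sum_congr rfl fun a _ => ?_
          ring
      _ = 0 := by rw [h2, mul_zero]
  rw [Finset.sum_congr rfl fun b _ => h1 b, Finset.sum_const_zero, mul_zero]

lemma LL_diag (hz : IsPrimitiveRoot z N) (i : ZMod N) (f : ZMod N → A) :
    LL z i (fun a b => f (a + b)) = N * (i.val * ∑ a : ZMod N, f a * ex z (-(a * i))) := by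
  unfold LL
  have h1 : ∀ j : ZMod N, ∑ a : ZMod N, ∑ b : ZMod N,
      f (a + b) * (ex z (-(a * i)) * ex z (-(b * j))) =
      (if i = j then (N : A) else 0) * ∑ a : ZMod N, f a * ex z (-(a * i)) := by
    intro j
    rw [Finset.sum_comm]
    have h2 : ∀ b : ZMod N, ∑ a : ZMod N, f (a + b) * (ex z (-(a * i)) * ex z (-(b * j))) =
        ex z (b * (i - j)) * ∑ a : ZMod N, f a * ex z (-(a * i)) := by
      intro b
      rw [← Equiv.sum_comp (Equiv.addRight b) (fun a => f a * ex z (-(a * i))), Finset.mul_sum]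
      refine Finset.sum_congr rfl fun a _ => ?_
      simp only [Equiv.coe_addRight]
      have h3 : ex z (-(a * i)) * ex z (-(b * j)) = ex z (b * (i - j)) * ex z (-((a + b) * i)) := by
        rw [← ex_add hz.pow_eq_one, ← ex_add hz.pow_eq_one]
        congr 1
        ring
      rw [h3]
      ring
    rw [Finset.sum_congr rfl fun b _ => h2 b, ← Finset.sum_mul, sum_ex hz]
    congr 1
    by_cases hij : i = j
    · rw [if_pos hij, if_pos (sub_eq_zero.mpr hij)]
    · rw [if_neg hij, if_neg (fun h => hij (sub_eq_zero.mp h))]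
  rw [Finset.sum_congr rfl fun j _ => by rw [h1 j]]
  rw [Finset.sum_eq_single i]
  · rw [if_pos rfl]; ring
  · intro j _ hj
    rw [if_neg (fun h => hj h.symm), zero_mul, mul_zero]
  · intro hcon
    exact absurd (Finset.mem_univ _) hcon

lemma LL_ev (hz : IsPrimitiveRoot z N) (i : ZMod N) (g : ZMod N → ZMod N → ℤ) :
    LL z i (ev z g) = (N : A) * N * ((∑ j : ZMod N, (j.val : ℤ) * g i j : ℤ) : A) := by
  unfold LL
  have h1 : ∀ j : ZMod N, ∑ a : ZMod N, ∑ b : ZMod N,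
      ev z g a b * (ex z (-(a * i)) * ex z (-(b * j))) = (N : A) * N * (g i j : A) := by
    intro j
    unfold ev
    have h2 : ∀ a b : ZMod N, (∑ i' : ZMod N, ∑ j' : ZMod N,
        (g i' j' : A) * (ex z (a * i') * ex z (b * j'))) * (ex z (-(a * i)) * ex z (-(b * j))) =
        ∑ i' : ZMod N, ∑ j' : ZMod N, (g i' j' : A) *
          (ex z (a * (i' - i)) * ex z (b * (j' - j))) := by
      intro a b
      rw [Finset.sum_mul]
      refine Finset.sum_congr rfl fun i' _ => ?_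
      rw [Finset.sum_mul]
      refine Finset.sum_congr rfl fun j' _ => ?_
      have h3 : ex z (a * (i' - i)) = ex z (a * i') * ex z (-(a * i)) := by
        rw [← ex_add hz.pow_eq_one]; congr 1; ring
      have h4 : ex z (b * (j' - j)) = ex z (b * j') * ex z (-(b * j)) := by
        rw [← ex_add hz.pow_eq_one]; congr 1; ring
      rw [h3, h4]
      ring
    rw [Finset.sum_congr rfl fun a _ => Finset.sum_congr rfl fun b _ => h2 a b]
    have h5 : ∀ a : ZMod N, ∑ b : ZMod N, ∑ i' : ZMod N, ∑ j' : ZMod N, (g i' j' : A) *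
          (ex z (a * (i' - i)) * ex z (b * (j' - j))) =
        ∑ i' : ZMod N, ∑ j' : ZMod N, (g i' j' : A) *
          (ex z (a * (i' - i)) * ∑ b : ZMod N, ex z (b * (j' - j))) := by
      intro a
      rw [Finset.sum_comm]
      refine Finset.sum_congr rfl fun i' _ => ?_
      rw [Finset.sum_comm]
      refine Finset.sum_congr rfl fun j' _ => ?_
      rw [← Finset.mul_sum, ← Finset.mul_sum]
    rw [Finset.sum_congr rfl fun a _ => h5 a, Finset.sum_comm]
    have h6 : ∀ i' : ZMod N, ∑ a : ZMod N, ∑ j' : ZMod N, (g i' j' : A) *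
          (ex z (a * (i' - i)) * ∑ b : ZMod N, ex z (b * (j' - j))) =
        ∑ j' : ZMod N, (g i' j' : A) * ((∑ a : ZMod N, ex z (a * (i' - i))) *
          ∑ b : ZMod N, ex z (b * (j' - j))) := by
      intro i'
      rw [Finset.sum_comm]
      refine Finset.sum_congr rfl fun j' _ => ?_
      rw [← Finset.mul_sum, ← Finset.sum_mul]
    rw [Finset.sum_congr rfl fun i' _ => h6 i']
    simp only [sum_ex hz, sub_eq_zero]
    rw [Finset.sum_eq_single i]
    · rw [Finset.sum_eq_single j]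
      · simp; ring
      · intro j' _ hj'
        simp [hj']
      · intro hcon
        exact absurd (Finset.mem_univ _) hcon
    · intro i' _ hi'
      simp [hi']
    · intro hcon
      exact absurd (Finset.mem_univ _) hcon
  rw [Finset.sum_congr rfl fun j _ => by rw [h1 j], Int.cast_sum, Finset.mul_sum]
  refine Finset.sum_congr rfl fun j _ => ?_
  push_cast
  ring

end

section

variable {A : Type} [CommRing A] [IsDomain A] {m : ℕ} {z : A}

lemma half_ne (m : ℕ) : (2 ^ m : ZMod (2 ^ (m + 1))) ≠ 0 := by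
  have h : ((2 ^ m : ℕ) : ZMod (2 ^ (m + 1))) ≠ 0 := by
    rw [Ne, ZMod.natCast_eq_zero_iff, Nat.pow_dvd_pow_iff_le_right (by norm_num)]
    omega
  exact_mod_cast h

lemma two_mul_eq_zero {w : ZMod (2 ^ (m + 1))} (h : 2 * w = 0) : w = 0 ∨ w = 2 ^ m := by
  have h1 : ((2 * w.val : ℕ) : ZMod (2 ^ (m + 1))) = 0 := by
    push_cast
    rw [ZMod.natCast_zmod_val]
    exact h
  rw [ZMod.natCast_eq_zero_iff] at h1
  have h2 : 2 ^ m ∣ w.val := by
    apply Nat.dvd_of_mul_dvd_mul_left (k := 2) (by norm_num)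
    rw [← pow_succ']
    exact h1
  obtain ⟨c, hc⟩ := h2
  have h3 := ZMod.val_lt w
  rw [hc, pow_succ] at h3
  have h4 : c < 2 := lt_of_mul_lt_mul_left h3 (by positivity)
  have h5 : w = ((w.val : ℕ) : ZMod (2 ^ (m + 1))) := (ZMod.natCast_zmod_val w).symm
  interval_cases c
  · left; rw [h5, hc]; simp
  · right; rw [h5, hc]; simp

lemma sum_units_ex (hz : z ^ (2 ^ m) = -1) (h2 : (2 : A) ≠ 0) (v : ZMod (2 ^ (m + 1))) :
    ∑ t : (ZMod (2 ^ (m + 1)))ˣ, ex z (v * (t : ZMod (2 ^ (m + 1)))) =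
      if v = 0 then (2 : A) ^ m else if v = 2 ^ m then -(2 : A) ^ m else 0 := by
  have hzp := prim_of_half hz h2
  have hzN := hzp.pow_eq_one
  have hcard : Fintype.card (ZMod (2 ^ (m + 1)))ˣ = 2 ^ m := by
    rw [ZMod.card_units_eq_totient, Nat.totient_prime_pow Nat.prime_two (by omega)]
    simp
  split_ifs with h0 h1
  · rw [h0]
    simp only [zero_mul, ex_zero, Finset.sum_const, Finset.card_univ, hcard]
    simp
  · have h3 : ∀ t : (ZMod (2 ^ (m + 1)))ˣ, ex z (v * (t : ZMod (2 ^ (m + 1)))) = -1 := by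
      intro t
      rw [h1, mul_comm, ex_mul hzN]
      have h4 : ex z (2 ^ m : ZMod (2 ^ (m + 1))) = -1 := by
        have := ex_natCast (N := 2 ^ (m + 1)) hzN (2 ^ m)
        push_cast at this
        rw [this, hz]
      rw [h4, (unit_val_odd t).neg_one_pow]
    rw [Finset.sum_congr rfl fun t _ => h3 t]
    simp [hcard]
  · rw [sum_units m (fun w => ex z (v * w))]
    have h3 : ∀ i ∈ Finset.range (2 ^ m), ex z (v * ((2 * i + 1 : ℕ) : ZMod (2 ^ (m + 1)))) =
        ex z v * (ex z (2 * v)) ^ i := by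
      intro i _
      rw [← ex_nat_mul hzN, ← ex_add hzN]
      congr 1
      push_cast
      ring
    rw [Finset.sum_congr rfl h3, ← Finset.mul_sum]
    have h4 : (ex z (2 * v) - 1) * ∑ i ∈ Finset.range (2 ^ m), (ex z (2 * v)) ^ i = 0 := by
      rw [mul_comm, geom_sum_mul]
      have h5 : ex z (2 * v) ^ 2 ^ m = 1 := by
        have h6 : (2 * v : ZMod (2 ^ (m + 1))) = ((2 : ℕ) : ZMod (2 ^ (m + 1))) * v := by norm_num
        rw [h6, ex_nat_mul hzN, ← pow_mul, ← pow_succ', ex_pow_card hzN]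
      rw [h5, sub_self]
    rcases mul_eq_zero.mp h4 with h5 | h5
    · exfalso
      have h6 : (2 * v : ZMod (2 ^ (m + 1))) = 0 := by
        apply ex_injective hzp
        rw [ex_zero]
        linear_combination h5
      rcases two_mul_eq_zero h6 with h7 | h7
      · exact h0 h7
      · exact h1 h7
    · rw [h5, mul_zero]

omit [IsDomain A] in
lemma val_add_half (u : ZMod (2 ^ (m + 1))) :
    ((u.val : A) - ((u + 2 ^ m : ZMod (2 ^ (m + 1))).val : A)) =
      if u.val < 2 ^ m then -(2 : A) ^ m else (2 : A) ^ m := by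
  have hv : (2 ^ m : ZMod (2 ^ (m + 1))).val = 2 ^ m := by
    have h1 : ((2 ^ m : ℕ) : ZMod (2 ^ (m + 1))).val = 2 ^ m := by
      rw [ZMod.val_natCast, Nat.mod_eq_of_lt]
      exact Nat.pow_lt_pow_right (by norm_num) (by omega)
    push_cast at h1
    exact h1
  have h2 := ZMod.val_lt u
  have h3 : (2 : ℕ) ^ (m + 1) = 2 ^ m + 2 ^ m := by ring
  rw [ZMod.val_add, hv]
  split_ifs with h
  · rw [Nat.mod_eq_of_lt (by omega)]
    push_cast
    ring
  · have h4 : (u.val + 2 ^ m) % 2 ^ (m + 1) = u.val - 2 ^ m := by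
      have h5 : u.val + 2 ^ m = (u.val - 2 ^ m) + 2 ^ (m + 1) := by omega
      rw [h5, Nat.add_mod_right, Nat.mod_eq_of_lt (by omega)]
    rw [h4, Nat.cast_sub (by omega)]
    push_cast
    ring

/-- The key character sum. -/
lemma sum_val_ex (hz : z ^ (2 ^ m) = -1) (h2 : (2 : A) ≠ 0) (s : (ZMod (2 ^ (m + 1)))ˣ) (k : ℕ) :
    ∑ a : ZMod (2 ^ (m + 1)), (∑ t : (ZMod (2 ^ (m + 1)))ˣ,
      ((-(a * (t : ZMod (2 ^ (m + 1))))).val : A) *
        ex z ((k : ZMod (2 ^ (m + 1))) * ((t⁻¹ : (ZMod (2 ^ (m + 1)))ˣ) : ZMod (2 ^ (m + 1))))) *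
        ex z (-(a * (s : ZMod (2 ^ (m + 1))))) =
      (2 : A) ^ m * (2 : A) ^ m * (eps m s k : A) := by
  have hzp := prim_of_half hz h2
  have hzN := hzp.pow_eq_one
  have h1 : ∀ t : (ZMod (2 ^ (m + 1)))ˣ, ∑ a : ZMod (2 ^ (m + 1)),
      ((-(a * (t : ZMod (2 ^ (m + 1))))).val : A) *
        ex z ((k : ZMod (2 ^ (m + 1))) * ((t⁻¹ : (ZMod (2 ^ (m + 1)))ˣ) : ZMod (2 ^ (m + 1)))) *
        ex z (-(a * (s : ZMod (2 ^ (m + 1))))) =
      ∑ u : ZMod (2 ^ (m + 1)), (u.val : A) *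
        ex z (((k : ZMod (2 ^ (m + 1))) + u * (s : ZMod (2 ^ (m + 1)))) *
          ((t⁻¹ : (ZMod (2 ^ (m + 1)))ˣ) : ZMod (2 ^ (m + 1)))) := by
    intro t
    rw [← Equiv.sum_comp ((Units.mulRight t).trans (Equiv.neg _))
      (fun u : ZMod (2 ^ (m + 1)) => (u.val : A) *
        ex z (((k : ZMod (2 ^ (m + 1))) + u * (s : ZMod (2 ^ (m + 1)))) *
          ((t⁻¹ : (ZMod (2 ^ (m + 1)))ˣ) : ZMod (2 ^ (m + 1)))))]
    refine Finset.sum_congr rfl fun a _ => ?_
    simp only [Equiv.trans_apply, Units.mulRight_apply, Equiv.neg_apply]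
    rw [mul_assoc, ← ex_add hzN]
    congr 2
    have h3 : (t : ZMod (2 ^ (m + 1))) * ((t⁻¹ : (ZMod (2 ^ (m + 1)))ˣ) : ZMod (2 ^ (m + 1))) = 1 := by
      rw [← Units.val_mul, mul_inv_cancel, Units.val_one]
    linear_combination (a * (s : ZMod (2 ^ (m + 1)))) * h3
  have h4 : ∑ a : ZMod (2 ^ (m + 1)), (∑ t : (ZMod (2 ^ (m + 1)))ˣ,
      ((-(a * (t : ZMod (2 ^ (m + 1))))).val : A) *
        ex z ((k : ZMod (2 ^ (m + 1))) * ((t⁻¹ : (ZMod (2 ^ (m + 1)))ˣ) : ZMod (2 ^ (m + 1))))) *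
        ex z (-(a * (s : ZMod (2 ^ (m + 1))))) =
      ∑ u : ZMod (2 ^ (m + 1)), (u.val : A) * ∑ t : (ZMod (2 ^ (m + 1)))ˣ,
        ex z (((k : ZMod (2 ^ (m + 1))) + u * (s : ZMod (2 ^ (m + 1)))) *
          ((t : (ZMod (2 ^ (m + 1)))ˣ) : ZMod (2 ^ (m + 1)))) := by
    rw [Finset.sum_congr rfl fun a _ => Finset.sum_mul _ _ _, Finset.sum_comm,
      Finset.sum_congr rfl fun t _ => h1 t, Finset.sum_comm]
    refine Finset.sum_congr rfl fun u _ => ?_
    rw [← Finset.mul_sum]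
    congr 1
    exact Equiv.sum_comp (Equiv.inv (ZMod (2 ^ (m + 1)))ˣ) (fun t =>
      ex z (((k : ZMod (2 ^ (m + 1))) + u * (s : ZMod (2 ^ (m + 1)))) *
          ((t : (ZMod (2 ^ (m + 1)))ˣ) : ZMod (2 ^ (m + 1)))))
  rw [h4]
  simp only [sum_units_ex hz h2]
  set u0 : ZMod (2 ^ (m + 1)) := -((k : ZMod (2 ^ (m + 1))) *
    ((s⁻¹ : (ZMod (2 ^ (m + 1)))ˣ) : ZMod (2 ^ (m + 1)))) with hu0
  have hss : (s : ZMod (2 ^ (m + 1))) * ((s⁻¹ : (ZMod (2 ^ (m + 1)))ˣ) : ZMod (2 ^ (m + 1))) = 1 := by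
    rw [← Units.val_mul, mul_inv_cancel, Units.val_one]
  have hhs : (2 ^ m : ZMod (2 ^ (m + 1))) * (s : ZMod (2 ^ (m + 1))) = 2 ^ m := by
    obtain ⟨c, hc⟩ := unit_val_odd s
    have h5 : (s : ZMod (2 ^ (m + 1))) = ((2 * c + 1 : ℕ) : ZMod (2 ^ (m + 1))) := by
      rw [← hc, ZMod.natCast_zmod_val]
    have h6 : (2 ^ m : ZMod (2 ^ (m + 1))) * 2 = 0 := by
      have : ((2 ^ (m + 1) : ℕ) : ZMod (2 ^ (m + 1))) = 0 := ZMod.natCast_self _
      push_cast at this
      rw [← pow_succ]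
      exact this
    rw [h5]
    push_cast
    linear_combination (c : ZMod (2 ^ (m + 1))) * h6
  have e1 : ∀ u : ZMod (2 ^ (m + 1)), (k : ZMod (2 ^ (m + 1))) + u * (s : ZMod (2 ^ (m + 1))) = 0 ↔
      u = u0 := by
    intro u
    constructor
    · intro h
      rw [hu0]
      linear_combination ((s⁻¹ : (ZMod (2 ^ (m + 1)))ˣ) : ZMod (2 ^ (m + 1))) * h - u * hss
    · intro h
      rw [h, hu0]
      linear_combination (-(k : ZMod (2 ^ (m + 1)))) * hss
  have e2 : ∀ u : ZMod (2 ^ (m + 1)), (k : ZMod (2 ^ (m + 1))) + u * (s : ZMod (2 ^ (m + 1))) =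
      2 ^ m ↔ u = u0 + 2 ^ m := by
    intro u
    constructor
    · intro h
      have h7 : (k : ZMod (2 ^ (m + 1))) + (u - 2 ^ m) * (s : ZMod (2 ^ (m + 1))) = 0 := by
        linear_combination h - hhs
      have h8 := (e1 (u - 2 ^ m)).mp h7
      linear_combination h8
    · intro h
      have h8 := (e1 (u - 2 ^ m)).mpr (by rw [h]; ring)
      linear_combination h8 + hhs
  have hne : u0 ≠ u0 + 2 ^ m := by
    intro h
    apply half_ne m
    linear_combination -h
  have h9 : ∀ u : ZMod (2 ^ (m + 1)), (u.val : A) * (if (k : ZMod (2 ^ (m + 1))) +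
      u * (s : ZMod (2 ^ (m + 1))) = 0 then (2 : A) ^ m else
      if (k : ZMod (2 ^ (m + 1))) + u * (s : ZMod (2 ^ (m + 1))) = 2 ^ m then -(2 : A) ^ m else 0) =
      (if u = u0 then (u.val : A) * (2 : A) ^ m else 0) +
      (if u = u0 + 2 ^ m then (u.val : A) * (-(2 : A) ^ m) else 0) := by
    intro u
    simp only [e1, e2]
    by_cases hu : u = u0
    · have hu' : u ≠ u0 + 2 ^ m := by rw [hu]; exact hne
      rw [if_pos hu, if_pos hu, if_neg hu', add_zero]
    · rw [if_neg hu, if_neg hu]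
      by_cases hu' : u = u0 + 2 ^ m
      · rw [if_pos hu', if_pos hu', zero_add]
      · rw [if_neg hu', if_neg hu', mul_zero, add_zero]
  rw [Finset.sum_congr rfl fun u _ => h9 u, Finset.sum_add_distrib, Finset.sum_ite_eq',
    Finset.sum_ite_eq', if_pos (Finset.mem_univ _), if_pos (Finset.mem_univ _)]
  have h10 := val_add_half (A := A) u0
  have h11 : (u0.val : A) * (2 : A) ^ m + ((u0 + 2 ^ m : ZMod (2 ^ (m + 1))).val : A) *
      (-(2 : A) ^ m) = (2 : A) ^ m * ((u0.val : A) - ((u0 + 2 ^ m : ZMod (2 ^ (m + 1))).val : A)) := by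
    ring
  rw [h11, h10]
  unfold eps
  rw [← hu0]
  split_ifs <;> push_cast <;> ring

omit [IsDomain A] in
/-- The exponents are expressed through residues. -/
lemma Th_val (a b : ZMod (2 ^ (m + 1))) (t : (ZMod (2 ^ (m + 1)))ˣ) :
    (2 ^ (m + 1) : A) * (if t ∈ Th m a b then 1 else 0) =
      ((-(a * (t : ZMod (2 ^ (m + 1))))).val : A) + ((-(b * (t : ZMod (2 ^ (m + 1))))).val : A) -
      ((-((a + b) * (t : ZMod (2 ^ (m + 1))))).val : A) := by
  have h1 : -((a + b) * (t : ZMod (2 ^ (m + 1)))) = -(a * (t : ZMod (2 ^ (m + 1)))) +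
      -(b * (t : ZMod (2 ^ (m + 1)))) := by ring
  rw [h1]
  set u := -(a * (t : ZMod (2 ^ (m + 1)))) with hu
  set v := -(b * (t : ZMod (2 ^ (m + 1)))) with hv
  have h2 : t ∈ Th m a b ↔ 2 ^ (m + 1) ≤ u.val + v.val := by
    unfold Th
    simp [hu, hv]
  have hu' := ZMod.val_lt u
  have hv' := ZMod.val_lt v
  rw [ZMod.val_add]
  by_cases h : 2 ^ (m + 1) ≤ u.val + v.val
  · rw [if_pos (h2.mpr h)]
    have h4 : (u.val + v.val) % 2 ^ (m + 1) = u.val + v.val - 2 ^ (m + 1) := by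
      have h5 : u.val + v.val = (u.val + v.val - 2 ^ (m + 1)) + 2 ^ (m + 1) := by omega
      conv_lhs => rw [h5]
      rw [Nat.add_mod_right, Nat.mod_eq_of_lt (by omega)]
    rw [h4, Nat.cast_sub h]
    push_cast
    ring
  · rw [if_neg (fun h3 => h (h2.mp h3)), Nat.mod_eq_of_lt (by omega)]
    push_cast
    ring

/-- The functional on the power sums of the exponents. -/
theorem LL_S (hz : z ^ (2 ^ m) = -1) (h2 : (2 : A) ≠ 0) (s : (ZMod (2 ^ (m + 1)))ˣ) (k : ℕ) :
    LL z (s : ZMod (2 ^ (m + 1))) (fun a b => ∑ t ∈ Th m a b,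
      ex z ((k : ZMod (2 ^ (m + 1))) * ((t⁻¹ : (ZMod (2 ^ (m + 1)))ˣ) : ZMod (2 ^ (m + 1))))) =
      -((s : ZMod (2 ^ (m + 1))).val * ((2 : A) ^ m * (2 : A) ^ m * (eps m s k : A))) := by
  have hzp := prim_of_half hz h2
  have hN0 : (2 ^ (m + 1) : A) ≠ 0 := pow_ne_zero _ h2
  apply mul_left_cancel₀ hN0
  rw [← LL_mul]
  set L : ZMod (2 ^ (m + 1)) → A := fun a => ∑ t : (ZMod (2 ^ (m + 1)))ˣ,
      ((-(a * (t : ZMod (2 ^ (m + 1))))).val : A) *
        ex z ((k : ZMod (2 ^ (m + 1))) * ((t⁻¹ : (ZMod (2 ^ (m + 1)))ˣ) : ZMod (2 ^ (m + 1))))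
    with hL
  have h1 : (fun a b => (2 ^ (m + 1) : A) * ∑ t ∈ Th m a b,
      ex z ((k : ZMod (2 ^ (m + 1))) * ((t⁻¹ : (ZMod (2 ^ (m + 1)))ˣ) : ZMod (2 ^ (m + 1))))) =
      (fun a b : ZMod (2 ^ (m + 1)) => (L a + L b) + (-1) * L (a + b)) := by
    funext a b
    have h3 : ∑ t ∈ Th m a b,
      ex z ((k : ZMod (2 ^ (m + 1))) * ((t⁻¹ : (ZMod (2 ^ (m + 1)))ˣ) : ZMod (2 ^ (m + 1)))) =
      ∑ t : (ZMod (2 ^ (m + 1)))ˣ, (if t ∈ Th m a b then 1 else 0) *
        ex z ((k : ZMod (2 ^ (m + 1))) * ((t⁻¹ : (ZMod (2 ^ (m + 1)))ˣ) : ZMod (2 ^ (m + 1)))) := by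
      simp
    rw [h3, Finset.mul_sum, hL]
    simp only
    rw [← Finset.sum_add_distrib, Finset.mul_sum, ← Finset.sum_add_distrib]
    refine Finset.sum_congr rfl fun t _ => ?_
    rw [← mul_assoc, Th_val a b t]
    ring
  have hs0 : (s : ZMod (2 ^ (m + 1))) ≠ 0 := by
    intro h
    have h5 := unit_val_odd s
    rw [h, ZMod.val_zero] at h5
    exact absurd h5 (by decide)
  rw [h1, LL_add, LL_add, LL_mul, LL_left hzp, LL_right hzp hs0, LL_diag hzp]
  have h6 := sum_val_ex hz h2 s k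
  rw [hL]
  simp only
  rw [h6]
  push_cast
  ring

end

end Pool.Agent.Y875.FP
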