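import Pool.Agent.Y875.FP.MerB
import Pool.Agent.Y875.FP.Fin3

/-!
All Jacobi sums `J(χ^a, χ^b)`.
-/

open Polynomial

namespace Pool.Agent.Y875.FP

/-- The product of the `α_t` over the exponents. -/
def PP {A : Type} [CommRing A] {m : ℕ} (x z : A) (a b : ZMod (2 ^ (m + 1))) : A :=
  ∏ t ∈ Th m a b, al x z t

section

variable {m : ℕ}

lemma mem_Th {a b : ZMod (2 ^ (m + 1))} {t : (ZMod (2 ^ (m + 1)))ˣ} : t ∈ Th m a b ↔
    2 ^ (m + 1) ≤ (-(a * (t : ZMod (2 ^ (m + 1))))).val +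
      (-(b * (t : ZMod (2 ^ (m + 1))))).val := by
  unfold Th
  simp

lemma Th_comm (a b : ZMod (2 ^ (m + 1))) : Th m a b = Th m b a := by
  ext t
  rw [mem_Th, mem_Th]
  omega

lemma Th_zero_left (b : ZMod (2 ^ (m + 1))) : Th m 0 b = ∅ := by
  ext t
  rw [mem_Th]
  have := ZMod.val_lt (-(b * (t : ZMod (2 ^ (m + 1)))))
  simp
  omega

lemma unit_mul_ne {a : ZMod (2 ^ (m + 1))} (ha : a ≠ 0) (t : (ZMod (2 ^ (m + 1)))ˣ) :
    a * (t : ZMod (2 ^ (m + 1))) ≠ 0 := by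
  intro h
  exact ha ((Units.mul_left_eq_zero t).mp h)

lemma mem_Th' {a b : ZMod (2 ^ (m + 1))} (ha : a ≠ 0) (hb : b ≠ 0) (hab : a + b ≠ 0)
    {t : (ZMod (2 ^ (m + 1)))ˣ} : t ∈ Th m a b ↔
    (a * (t : ZMod (2 ^ (m + 1)))).val + (b * (t : ZMod (2 ^ (m + 1)))).val < 2 ^ (m + 1) := by
  rw [mem_Th, ZMod.neg_val, ZMod.neg_val, if_neg (unit_mul_ne ha t), if_neg (unit_mul_ne hb t)]
  have h1 := ZMod.val_lt (a * (t : ZMod (2 ^ (m + 1))))
  have h2 := ZMod.val_lt (b * (t : ZMod (2 ^ (m + 1))))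
  have h3 : (a * (t : ZMod (2 ^ (m + 1)))).val + (b * (t : ZMod (2 ^ (m + 1)))).val ≠
      2 ^ (m + 1) := by
    intro h
    apply unit_mul_ne hab t
    have h4 : (((a * (t : ZMod (2 ^ (m + 1)))).val + (b * (t : ZMod (2 ^ (m + 1)))).val : ℕ) :
        ZMod (2 ^ (m + 1))) = 0 := by rw [h]; exact ZMod.natCast_self _
    push_cast at h4
    rw [ZMod.natCast_zmod_val, ZMod.natCast_zmod_val] at h4
    linear_combination h4
  omega

lemma Th_neg {a : ZMod (2 ^ (m + 1))} (ha : a ≠ 0) {b : ZMod (2 ^ (m + 1))} (hab : a + b = 0) :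
    Th m a b = Finset.univ := by
  ext t
  rw [mem_Th]
  have h1 : b = -a := by linear_combination hab
  rw [h1, neg_mul, neg_neg, ZMod.neg_val, if_neg (unit_mul_ne ha t)]
  have h2 := ZMod.val_lt (a * (t : ZMod (2 ^ (m + 1))))
  simp
  omega

lemma PP_comm {A : Type} [CommRing A] (x z : A) (a b : ZMod (2 ^ (m + 1))) :
    PP x z a b = PP x z b a := by
  unfold PP
  rw [Th_comm]

lemma PP_eq_prod {A : Type} [CommRing A] (x z : A) (a b : ZMod (2 ^ (m + 1))) :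
    PP x z a b = ∏ t : (ZMod (2 ^ (m + 1)))ˣ, al x z t ^ (if t ∈ Th m a b then 1 else 0) := by
  unfold PP
  rw [← Finset.prod_filter_mul_prod_filter_not Finset.univ (fun t => t ∈ Th m a b)]
  have h1 : ∏ t ∈ Finset.univ.filter (fun t => t ∈ Th m a b),
      al x z t ^ (if t ∈ Th m a b then 1 else 0) = ∏ t ∈ Th m a b, al x z t := by
    rw [Finset.filter_mem_eq_inter, Finset.univ_inter]
    refine Finset.prod_congr rfl fun t ht => ?_
    rw [if_pos ht, pow_one]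
  have h2 : ∏ t ∈ Finset.univ.filter (fun t => t ∉ Th m a b),
      al x z t ^ (if t ∈ Th m a b then 1 else 0) = 1 := by
    apply Finset.prod_eq_one
    intro t ht
    rw [Finset.mem_filter] at ht
    rw [if_neg ht.2, pow_zero]
  rw [h1, h2, mul_one]

/-- The cocycle identity. -/
lemma PP_cocycle {A : Type} [CommRing A] (x z : A) (a b c : ZMod (2 ^ (m + 1))) :
    PP x z a b * PP x z (a + b) c = PP x z b c * PP x z a (b + c) := by
  simp only [PP_eq_prod]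
  rw [← Finset.prod_mul_distrib, ← Finset.prod_mul_distrib]
  refine Finset.prod_congr rfl fun t _ => ?_
  rw [← pow_add, ← pow_add]
  congr 1
  have h1 := Th_val (A := ℤ) a b t
  have h2 := Th_val (A := ℤ) (a + b) c t
  have h3 := Th_val (A := ℤ) b c t
  have h4 := Th_val (A := ℤ) a (b + c) t
  have h5 : a + b + c = a + (b + c) := by ring
  rw [h5] at h2
  have hN : (2 ^ (m + 1) : ℤ) ≠ 0 := by positivity
  have h6 : (2 ^ (m + 1) : ℤ) * ((if t ∈ Th m a b then 1 else 0) +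
      (if t ∈ Th m (a + b) c then 1 else 0)) = (2 ^ (m + 1) : ℤ) *
      ((if t ∈ Th m b c then 1 else 0) + (if t ∈ Th m a (b + c) then 1 else 0)) := by
    linear_combination h1 + h2 - h3 - h4
  have h7 := mul_left_cancel₀ hN h6
  have h8 : (((if t ∈ Th m a b then 1 else 0) +
      (if t ∈ Th m (a + b) c then 1 else 0) : ℕ) : ℤ) =
      (((if t ∈ Th m b c then 1 else 0) + (if t ∈ Th m a (b + c) then 1 else 0) : ℕ) : ℤ) := by
    push_cast
    exact h7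
  exact_mod_cast h8

end

section

variable {m : ℕ} {K : Type} [Field K] [CharZero K] {z : K} (hz : z ^ (2 ^ m) = -1)
  {p x T : ℕ} [hpp : Fact p.Prime] (hp : p = x ^ (2 ^ m) + 1) (hp2 : p ≠ 2)
  (hT : 2 ^ (m + 1) * T = x ^ (2 ^ m)) {φ : MulChar (ZMod p) K} (hφ : IsRes m p x T z φ)

include hz hφ hp hp2 hT

lemma IsRes.pow_ne_one' {a : ℕ} (ha : ¬ (2 ^ (m + 1) ∣ a)) : φ ^ a ≠ 1 := by
  obtain ⟨O, _, ζ, H⟩ := exists_cycRing (m + 1) (by omega)
  obtain ⟨τ, hτ⟩ := H.lift K z (by rw [Nat.add_sub_cancel]; exact hz)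
  obtain ⟨χ, hχ⟩ := H.exists_chi hp hp2 hT
  have hχ : IsRes m p x T ζ χ := hχ
  have hcomp : φ = χ.ringHomComp τ := IsRes.eq_comp hp hp2 τ hχ (by rw [hτ]; exact hφ)
  rw [hcomp]
  exact H.comp_pow_ne_one hp hp2 hT hχ two_ne_zero τ ha

variable (hm : 2 ≤ m) (hTe : Even T) (h2T : (2 : ZMod p) ^ T = 1) (hx : 4 ∣ x ∨ (2 ∣ x ∧ 3 ≤ m))

include hm hTe h2T hx

omit [CharZero K] in
lemma jac_first {c : ℕ} (hc : ¬ (2 ^ (m + 1) ∣ c)) (hc' : ¬ (2 ^ (m + 1) ∣ c + 1)) :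
    jacobiSum φ (φ ^ c) = -∏ t ∈ TS m c, al (x : K) z t := by
  obtain ⟨O, _, ζ, H⟩ := exists_cycRing (m + 1) (by omega)
  obtain ⟨τ, hτ⟩ := H.lift K z (by rw [Nat.add_sub_cancel]; exact hz)
  obtain ⟨χ, hχ⟩ := H.exists_chi hp hp2 hT
  have hχ : IsRes m p x T ζ χ := hχ
  have hcomp : φ = χ.ringHomComp τ := IsRes.eq_comp hp hp2 τ hχ (by rw [hτ]; exact hφ)
  have h2z : (2 : ZMod p) ≠ 0 := by
    intro h
    rw [h, zero_pow (T_pos hp hT).ne'] at h2T
    exact zero_ne_one h2T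
  have hχ2 : χ 2 = 1 := by
    obtain ⟨j, h1, h2⟩ := hχ 2 h2z
    rw [h2T] at h2
    have h3 : ex (ci m p x) j = ex (ci m p x) (0 : ZMod (2 ^ (m + 1))) := by rw [h2, ex_zero]
    rw [h1, ex_injective (ci_prim hp hp2) h3, ex_zero]
  have h1 := H.jacobi_eq_even hp hp2 hT hχ hm hTe hχ2 hx hc hc'
  have h2 := congrArg τ h1
  rw [← jacobiSum_ringHomComp, ← MulChar.ringHomComp_pow, ← hcomp, map_neg, map_prod] at h2
  rw [h2]
  congr 1
  refine Finset.prod_congr rfl fun t _ => ?_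
  rw [map_al, hτ, map_natCast]

/-- The Jacobi sums with odd first entry. -/
lemma jac_odd {a b : ZMod (2 ^ (m + 1))} (ha : Odd a.val) (hb : b ≠ 0) (hab : a + b ≠ 0) :
    jacobiSum (φ ^ a.val) (φ ^ b.val) = -PP (x : K) z a b := by
  have hzp := prim_of_half hz (two_ne_zero (α := K))
  have hzN := hzp.pow_eq_one
  have hφN : φ ^ (2 ^ (m + 1)) = 1 := hφ.pow_card hzN
  have hcop : Nat.Coprime a.val (2 ^ (m + 1)) := by
    apply Nat.Coprime.pow_right
    rw [Nat.coprime_two_right]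
    exact ha
  set A : (ZMod (2 ^ (m + 1)))ˣ := ZMod.unitOfCoprime a.val hcop with hA
  have hAa : (A : ZMod (2 ^ (m + 1))) = a := by
    rw [hA, ZMod.coe_unitOfCoprime, ZMod.natCast_zmod_val]
  set z' := z ^ a.val with hz'
  have hz'h : z' ^ (2 ^ m) = -1 := by
    rw [hz', ← pow_mul, mul_comm, pow_mul, hz, ha.neg_one_pow]
  set φ' := φ ^ a.val with hφ'
  have ha0 : a.val ≠ 0 := by
    intro h
    rw [h] at ha
    exact absurd ha (by decide)
  have hres : IsRes m p x T z' φ' := by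
    intro u hu
    obtain ⟨j, h1, h2⟩ := hφ u hu
    refine ⟨j, ?_, h2⟩
    rw [hφ', MulChar.pow_apply' _ ha0, h1, hz']
    unfold ex
    rw [← pow_mul, ← pow_mul, mul_comm]
  set c : ZMod (2 ^ (m + 1)) := b * ((A⁻¹ : (ZMod (2 ^ (m + 1)))ˣ) : ZMod (2 ^ (m + 1))) with hcdef
  have hAi : (A : ZMod (2 ^ (m + 1))) * ((A⁻¹ : (ZMod (2 ^ (m + 1)))ˣ) : ZMod (2 ^ (m + 1))) = 1 := by
    rw [← Units.val_mul, mul_inv_cancel, Units.val_one]
  have hca : c * a = b := by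
    rw [hcdef, ← hAa]
    linear_combination b * hAi
  have hcv : ((c.val : ℕ) : ZMod (2 ^ (m + 1))) = c := ZMod.natCast_zmod_val c
  have hc : ¬ (2 ^ (m + 1) ∣ c.val) := by
    rw [← ZMod.natCast_eq_zero_iff, hcv]
    intro h
    apply hb
    rw [← hca, h, zero_mul]
  have hc' : ¬ (2 ^ (m + 1) ∣ c.val + 1) := by
    rw [← ZMod.natCast_eq_zero_iff, Nat.cast_add, hcv, Nat.cast_one]
    intro h
    apply hab
    have : a + b = (c + 1) * a := by linear_combination -hca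
    rw [this, h, zero_mul]
  have h1 := jac_first hz'h hp hp2 hT hres hm hTe h2T hx hc hc'
  have h2 : φ' ^ c.val = φ ^ b.val := by
    rw [hφ', ← pow_mul]
    have h3 : a.val * c.val ≡ b.val [MOD 2 ^ (m + 1)] := by
      rw [← ZMod.natCast_eq_natCast_iff]
      push_cast
      rw [ZMod.natCast_zmod_val, ZMod.natCast_zmod_val, ZMod.natCast_zmod_val, ← hca, mul_comm]
    rw [← Nat.mod_add_div (a.val * c.val) (2 ^ (m + 1)), h3, pow_add, pow_mul, hφN, one_pow,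
      mul_one, Nat.mod_eq_of_lt (ZMod.val_lt b)]
  rw [← h2, h1]
  congr 1
  unfold PP
  symm
  refine Finset.prod_bij (fun t _ => A * t) ?_ ?_ ?_ ?_
  · intro t ht
    have hb0 : a ≠ 0 := by
      intro h
      rw [h, ZMod.val_zero] at ha0
      exact ha0 rfl
    rw [mem_Th' hb0 hb hab] at ht
    rw [mem_TS]
    have h4 : (c.val * ((A * t : (ZMod (2 ^ (m + 1)))ˣ) : ZMod (2 ^ (m + 1))).val) %
        2 ^ (m + 1) = (b * (t : ZMod (2 ^ (m + 1)))).val := by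
      rw [← ZMod.val_mul, Units.val_mul, hAa, ← mul_assoc, hca]
    rw [h4, Units.val_mul, hAa]
    omega
  · intro t _ t' _ h
    exact mul_left_cancel h
  · intro t ht
    refine ⟨A⁻¹ * t, ?_, by rw [mul_inv_cancel_left]⟩
    have hb0 : a ≠ 0 := by
      intro h
      rw [h, ZMod.val_zero] at ha0
      exact ha0 rfl
    rw [mem_Th' hb0 hb hab]
    rw [mem_TS] at ht
    have h5 : a * ((A⁻¹ * t : (ZMod (2 ^ (m + 1)))ˣ) : ZMod (2 ^ (m + 1))) =
        (t : ZMod (2 ^ (m + 1))) := by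
      rw [← hAa, ← Units.val_mul, mul_inv_cancel_left]
    have h6 : b * ((A⁻¹ * t : (ZMod (2 ^ (m + 1)))ˣ) : ZMod (2 ^ (m + 1))) =
        c * (t : ZMod (2 ^ (m + 1))) := by
      rw [← hca, mul_assoc, h5]
    rw [h5, h6, ZMod.val_mul]
    omega
  · intro t _
    unfold al
    congr 2
    have h7 : ((t⁻¹ : (ZMod (2 ^ (m + 1)))ˣ) : ZMod (2 ^ (m + 1))) =
        ((a.val : ℕ) : ZMod (2 ^ (m + 1))) *
        (((A * t)⁻¹ : (ZMod (2 ^ (m + 1)))ˣ) : ZMod (2 ^ (m + 1))) := by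
      rw [ZMod.natCast_zmod_val, mul_inv, Units.val_mul, ← hAa, ← mul_assoc, hAi, one_mul]
    rw [h7, ex_nat_mul hzN, hz']
    unfold ex
    rw [← pow_mul, ← pow_mul, mul_comm]

omit hp hp2 hT hm hTe h2T hx in
lemma pow_val_add (a b : ZMod (2 ^ (m + 1))) : φ ^ (a + b).val = φ ^ a.val * φ ^ b.val := by
  have hzp := prim_of_half hz (two_ne_zero (α := K))
  have hφN : φ ^ (2 ^ (m + 1)) = 1 := hφ.pow_card hzp.pow_eq_one
  rw [← pow_add, ZMod.val_add]
  conv_rhs => rw [← Nat.mod_add_div (a.val + b.val) (2 ^ (m + 1)), pow_add, pow_mul, hφN, one_pow,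
    mul_one]

omit hm hTe h2T hx in
lemma pow_val_ne {a : ZMod (2 ^ (m + 1))} (ha : a ≠ 0) : φ ^ a.val ≠ 1 := by
  apply hφ.pow_ne_one' hz hp hp2 hT
  rw [← ZMod.natCast_eq_zero_iff, ZMod.natCast_zmod_val]
  exact ha

omit hpp hp2 hT hφ hm hTe h2T hx in
lemma PP_ne_zero (hp0 : p ≠ 0) (a b : ZMod (2 ^ (m + 1))) : PP (x : K) z a b ≠ 0 := by
  unfold PP
  rw [Finset.prod_ne_zero_iff]
  intro t _ h
  have h1 := prod_al m z (x : K) hz
  have h2 : ∏ t : (ZMod (2 ^ (m + 1)))ˣ, al (x : K) z t = 0 :=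
    Finset.prod_eq_zero (Finset.mem_univ t) h
  rw [h1] at h2
  apply hp0
  have h3 : (p : K) = 0 := by
    rw [hp]
    push_cast
    linear_combination h2
  exact_mod_cast h3

/-- All Jacobi sums. -/
theorem jac_all {ψ : AddChar (ZMod p) K} (hψ : ψ.IsPrimitive) {a b : ZMod (2 ^ (m + 1))}
    (ha : a ≠ 0) (hb : b ≠ 0) (hab : a + b ≠ 0) :
    jacobiSum (φ ^ a.val) (φ ^ b.val) = -PP (x : K) z a b := by
  by_cases hao : Odd a.val
  · exact jac_odd hz hp hp2 hT hφ hm hTe h2T hx hao hb hab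
  by_cases hbo : Odd b.val
  · rw [jacobiSum_comm, PP_comm]
    exact jac_odd hz hp hp2 hT hφ hm hTe h2T hx hbo ha (by rwa [add_comm b a])
  -- both even
  have hadd := pow_val_add hz hφ
  have hone : (1 : ZMod (2 ^ (m + 1))).val = 1 := by
    have : Fact (1 < 2 ^ (m + 1)) := ⟨Nat.one_lt_two_pow (by omega)⟩
    exact ZMod.val_one _
  have hodd1 : Odd (1 : ZMod (2 ^ (m + 1))).val := by rw [hone]; exact odd_one
  have hN2 : 2 ^ (m + 1) = 2 * 2 ^ m := by ring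
  have hpar : ∀ {u : ZMod (2 ^ (m + 1))}, ¬ Odd u.val → Odd (u + 1).val := by
    intro u hu
    rw [ZMod.val_add, hone]
    have := ZMod.val_lt u
    rw [Nat.not_odd_iff_even] at hu
    obtain ⟨k, hk⟩ := hu
    have h1 : u.val + 1 < 2 ^ (m + 1) := by omega
    rw [Nat.mod_eq_of_lt h1, hk]
    exact ⟨k, by ring⟩
  have hne0 : ∀ {u : ZMod (2 ^ (m + 1))}, Odd u.val → u ≠ 0 := by
    rintro u hu rfl
    rw [ZMod.val_zero] at hu
    exact absurd hu (by decide)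
  have habo : ¬ Odd (a + b).val := by
    have h1 : (a + b).val = (a.val + b.val) % 2 ^ (m + 1) := ZMod.val_add a b
    rw [Nat.not_odd_iff_even] at hao hbo ⊢
    have h3 : 2 ∣ 2 ^ (m + 1) := dvd_pow_self 2 (by omega)
    rw [even_iff_two_dvd, h1, (Nat.dvd_mod_iff h3), ← even_iff_two_dvd]
    exact hao.add hbo
  have h1 := hpar hbo
  have h2 := hpar habo
  have h3 := hne0 h1
  have h4 := hne0 h2
  have h10 : (1 : ZMod (2 ^ (m + 1))) ≠ 0 := hne0 hodd1
  have e1 : jacobiSum (φ ^ (a + b).val) (φ ^ (1 : ZMod (2 ^ (m + 1))).val) =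
      -PP (x : K) z (a + b) 1 := by
    rw [jacobiSum_comm, PP_comm]
    exact jac_odd hz hp hp2 hT hφ hm hTe h2T hx hodd1 hab (by rw [add_comm 1 (a + b)]; exact h4)
  have e2 : jacobiSum (φ ^ b.val) (φ ^ (1 : ZMod (2 ^ (m + 1))).val) = -PP (x : K) z b 1 := by
    rw [jacobiSum_comm, PP_comm]
    exact jac_odd hz hp hp2 hT hφ hm hTe h2T hx hodd1 hb (by rw [add_comm 1 b]; exact h3)
  have e3 : jacobiSum (φ ^ a.val) (φ ^ (b + 1).val) = -PP (x : K) z a (b + 1) := by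
    rw [jacobiSum_comm, PP_comm]
    refine jac_odd hz hp hp2 hT hφ hm hTe h2T hx h1 ha ?_
    have : b + 1 + a = a + b + 1 := by ring
    rw [this]
    exact h4
  have hcard : ((Fintype.card (ZMod p) : ℕ) : K) ≠ 0 := by
    rw [ZMod.card]
    exact_mod_cast hpp.out.ne_zero
  have hg : ∀ {u : ZMod (2 ^ (m + 1))}, u ≠ 0 → gaussSum (φ ^ u.val) ψ ≠ 0 := by
    intro u hu
    exact gaussSum_ne_zero_of_nontrivial hcard (pow_val_ne hz hp hp2 hT hφ hu) hψ
  have hmul : ∀ {u v : ZMod (2 ^ (m + 1))}, u + v ≠ 0 →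
      gaussSum (φ ^ (u + v).val) ψ * jacobiSum (φ ^ u.val) (φ ^ v.val) =
        gaussSum (φ ^ u.val) ψ * gaussSum (φ ^ v.val) ψ := by
    intro u v huv
    rw [hadd u v]
    apply jacobiSum_mul_nontrivial
    rw [← hadd u v]
    exact pow_val_ne hz hp hp2 hT hφ huv
  have g1 := hmul hab
  have g2 := hmul h4
  have g3 := hmul h3
  have g4 : gaussSum (φ ^ (a + (b + 1)).val) ψ * jacobiSum (φ ^ a.val) (φ ^ (b + 1).val) =
        gaussSum (φ ^ a.val) ψ * gaussSum (φ ^ (b + 1).val) ψ :=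
    hmul (by rw [← add_assoc]; exact h4)
  rw [← add_assoc] at g4
  rw [e1] at g2
  rw [e2] at g3
  rw [e3] at g4
  have k1 := hg hab
  have k2 := hg h4
  have k3 := hg h3
  have hPne := PP_ne_zero hz hp hpp.out.ne_zero (a + b) 1
  have hcoc := PP_cocycle (x : K) z a b 1
  apply mul_right_cancel₀ hPne
  apply mul_left_cancel₀ k1
  apply mul_left_cancel₀ k2
  apply mul_left_cancel₀ k3
  -- all products of Gauss sums
  have r1 : gaussSum (φ ^ (b + 1).val) ψ * (gaussSum (φ ^ (a + b + 1).val) ψ *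
      (gaussSum (φ ^ (a + b).val) ψ * (jacobiSum (φ ^ a.val) (φ ^ b.val) *
        PP (x : K) z (a + b) 1))) =
      -(gaussSum (φ ^ a.val) ψ * gaussSum (φ ^ b.val) ψ * gaussSum (φ ^ (b + 1).val) ψ *
        (gaussSum (φ ^ (a + b).val) ψ * gaussSum (φ ^ (1 : ZMod (2 ^ (m + 1))).val) ψ)) := by
    rw [← g2, ← g1]
    ring
  have r2 : gaussSum (φ ^ (b + 1).val) ψ * (gaussSum (φ ^ (a + b + 1).val) ψ *
      (gaussSum (φ ^ (a + b).val) ψ * (-PP (x : K) z a b * PP (x : K) z (a + b) 1))) =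
      -(gaussSum (φ ^ (a + b).val) ψ * (gaussSum (φ ^ a.val) ψ *
        gaussSum (φ ^ (b + 1).val) ψ) * (gaussSum (φ ^ b.val) ψ *
        gaussSum (φ ^ (1 : ZMod (2 ^ (m + 1))).val) ψ)) := by
    rw [← g4, ← g3, neg_mul, hcoc]
    ring
  rw [r1, r2]
  ring

end

end Pool.Agent.Y875.FP
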