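import Pool.Agent.Y875.FP.MerC

/-!
Counting the solutions of `w^T = c^i`, `(1-w)^T = c^j` and the index of `1 - c^i`.
-/

open Polynomial

namespace Pool.Agent.Y875.FP

/-- The number of `w` with `w^T = c^i`, `(1-w)^T = c^j`. -/
def cyc (m p x T : ℕ) [Fact p.Prime] (i j : ZMod (2 ^ (m + 1))) : ℕ :=
  (Finset.univ.filter fun w : ZMod p => w ≠ 0 ∧ w ≠ 1 ∧ w ^ T = ex (ci m p x) i ∧
    (1 - w) ^ T = ex (ci m p x) j).card

/-- The element of the group ring whose values are the products of the `α_t`. -/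
def hh (m p x T : ℕ) [Fact p.Prime] (i j : ZMod (2 ^ (m + 1))) : ℤ :=
  (if i = j then (T : ℤ) else 0) - (cyc m p x T i j : ℤ)

section

variable {m : ℕ} {K : Type} [Field K] [CharZero K] {z : K} (hz : z ^ (2 ^ m) = -1)
  {p x T : ℕ} [hpp : Fact p.Prime] (hp : p = x ^ (2 ^ m) + 1) (hp2 : p ≠ 2)
  (hT : 2 ^ (m + 1) * T = x ^ (2 ^ m)) {φ : MulChar (ZMod p) K} (hφ : IsRes m p x T z φ)

include hz hφ hp hp2

lemma chi_pow_val {w : ZMod p} (hw : w ≠ 0) {i : ZMod (2 ^ (m + 1))}
    (hi : w ^ T = ex (ci m p x) i) (a : ZMod (2 ^ (m + 1))) :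
    (φ ^ a.val) w = ex z (a * i) := by
  have hzp := prim_of_half hz (two_ne_zero (α := K))
  obtain ⟨j, h1, h2⟩ := hφ w hw
  have h3 : j = i := ex_injective (ci_prim hp hp2) (h2.trans hi)
  have h4 := MulChar.pow_apply_coe φ a.val (Units.mk0 w hw)
  rw [Units.val_mk0] at h4
  rw [h4, h1, h3, ex_mul hzp.pow_eq_one]

include hT

lemma ev_cyc (a b : ZMod (2 ^ (m + 1))) :
    ev z (fun i j => (cyc m p x T i j : ℤ)) a b = jacobiSum (φ ^ a.val) (φ ^ b.val) := by
  unfold ev jacobiSum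
  have h1 : ∀ i j : ZMod (2 ^ (m + 1)), (((cyc m p x T i j : ℕ) : ℤ) : K) *
      (ex z (a * i) * ex z (b * j)) = ∑ w : ZMod p, if w ≠ 0 ∧ w ≠ 1 ∧ w ^ T = ex (ci m p x) i ∧
        (1 - w) ^ T = ex (ci m p x) j then ex z (a * i) * ex z (b * j) else 0 := by
    intro i j
    unfold cyc
    rw [← Finset.sum_filter, Finset.sum_const, nsmul_eq_mul]
    push_cast
    rfl
  rw [Finset.sum_congr rfl fun i _ => Finset.sum_congr rfl fun j _ => h1 i j]
  have h2 : ∀ i : ZMod (2 ^ (m + 1)), ∑ j : ZMod (2 ^ (m + 1)), ∑ w : ZMod p,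
      (if w ≠ 0 ∧ w ≠ 1 ∧ w ^ T = ex (ci m p x) i ∧
        (1 - w) ^ T = ex (ci m p x) j then ex z (a * i) * ex z (b * j) else 0) =
      ∑ w : ZMod p, ∑ j : ZMod (2 ^ (m + 1)), (if w ≠ 0 ∧ w ≠ 1 ∧ w ^ T = ex (ci m p x) i ∧
        (1 - w) ^ T = ex (ci m p x) j then ex z (a * i) * ex z (b * j) else 0) := fun i =>
    Finset.sum_comm
  rw [Finset.sum_congr rfl fun i _ => h2 i, Finset.sum_comm]
  refine Finset.sum_congr rfl fun w _ => ?_
  by_cases hw0 : w = 0
  · rw [hw0, MulChar.map_zero, zero_mul]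
    simp
  by_cases hw1 : w = 1
  · rw [hw1, sub_self, MulChar.map_zero, mul_zero]
    simp
  have hw1' : 1 - w ≠ 0 := fun h => hw1 (by linear_combination -h)
  obtain ⟨i0, hi0⟩ := exists_index hp hp2 hT w hw0
  obtain ⟨j0, hj0⟩ := exists_index hp hp2 hT (1 - w) hw1'
  rw [chi_pow_val hz hp hp2 hφ hw0 hi0.symm, chi_pow_val hz hp hp2 hφ hw1' hj0.symm]
  rw [Finset.sum_eq_single i0, Finset.sum_eq_single j0]
  · rw [if_pos ⟨hw0, hw1, hi0.symm, hj0.symm⟩]
  · intro j _ hj
    rw [if_neg]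
    rintro ⟨-, -, -, h4⟩
    exact hj (ex_injective (ci_prim hp hp2) (h4.symm.trans hj0.symm))
  · intro h
    exact absurd (Finset.mem_univ _) h
  · intro i _ hi
    apply Finset.sum_eq_zero
    intro j _
    rw [if_neg]
    rintro ⟨-, -, h3, -⟩
    exact hi (ex_injective (ci_prim hp hp2) (h3.symm.trans hi0.symm))
  · intro h
    exact absurd (Finset.mem_univ _) h

lemma ev_hh (a b : ZMod (2 ^ (m + 1))) : ev z (hh m p x T) a b =
    (if a + b = 0 then (p : K) - 1 else 0) - jacobiSum (φ ^ a.val) (φ ^ b.val) := by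
  have hzp := prim_of_half hz (two_ne_zero (α := K))
  rw [← ev_cyc hz hp hp2 hT hφ]
  have h1 : ev z (hh m p x T) a b = ev z (fun i j => if i = j then (T : ℤ) else 0) a b -
      ev z (fun i j => (cyc m p x T i j : ℤ)) a b := by
    unfold ev
    rw [← Finset.sum_sub_distrib]
    refine Finset.sum_congr rfl fun i _ => ?_
    rw [← Finset.sum_sub_distrib]
    refine Finset.sum_congr rfl fun j _ => ?_
    unfold hh
    push_cast
    ring
  rw [h1]
  congr 1
  unfold ev
  have h2 : ∀ i : ZMod (2 ^ (m + 1)), ∑ j : ZMod (2 ^ (m + 1)),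
      (((if i = j then (T : ℤ) else 0 : ℤ)) : K) * (ex z (a * i) * ex z (b * j)) =
      (T : K) * ex z (i * (a + b)) := by
    intro i
    rw [Finset.sum_eq_single i]
    · rw [if_pos rfl, ← ex_add hzp.pow_eq_one]
      push_cast
      congr 2
      ring
    · intro j _ hj
      rw [if_neg (fun h => hj h.symm)]
      simp
    · intro h
      exact absurd (Finset.mem_univ _) h
  rw [Finset.sum_congr rfl fun i _ => h2 i, ← Finset.mul_sum, sum_ex hzp]
  have h3 : ((2 ^ (m + 1) * T : ℕ) : K) = ((x ^ (2 ^ m) : ℕ) : K) := by rw [hT]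
  have h4 : (p : K) = ((x ^ (2 ^ m) : ℕ) : K) + 1 := by rw [hp]; push_cast; ring
  split_ifs
  · rw [h4, ← h3]
    push_cast
    ring
  · rw [mul_zero]

variable (hm : 2 ≤ m) (hTe : Even T) (h2T : (2 : ZMod p) ^ T = 1) (hx : 4 ∣ x ∨ (2 ∣ x ∧ 3 ≤ m))

include hm hTe h2T hx

lemma ev_hh_eq {ψ : AddChar (ZMod p) K} (hψ : ψ.IsPrimitive) (a b : ZMod (2 ^ (m + 1))) :
    ev z (hh m p x T) a b = PP (x : K) z a b := by
  rw [ev_hh hz hp hp2 hT hφ]
  have hzp := prim_of_half hz (two_ne_zero (α := K))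
  by_cases ha : a = 0
  · subst ha
    have h1 : PP (x : K) z 0 b = 1 := by
      unfold PP
      rw [Th_zero_left, Finset.prod_empty]
    rw [h1, ZMod.val_zero, pow_zero]
    by_cases hb : b = 0
    · subst hb
      rw [ZMod.val_zero, pow_zero, jacobiSum_one_one, ZMod.card, if_pos (add_zero _)]
      ring
    · rw [jacobiSum_one_nontrivial (pow_val_ne hz hp hp2 hT hφ hb), zero_add, if_neg hb]
      ring
  by_cases hb : b = 0
  · subst hb
    have h1 : PP (x : K) z a 0 = 1 := by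
      rw [PP_comm]
      unfold PP
      rw [Th_zero_left, Finset.prod_empty]
    rw [h1, ZMod.val_zero, pow_zero, jacobiSum_comm,
      jacobiSum_one_nontrivial (pow_val_ne hz hp hp2 hT hφ ha), add_zero, if_neg ha]
    ring
  by_cases hab : a + b = 0
  · have hneg := chi_neg_one hp hp2 hφ hTe
    have hmul : φ ^ a.val * φ ^ b.val = 1 := by
      rw [← pow_val_add hz hφ, hab, ZMod.val_zero, pow_zero]
    have hinv : φ ^ b.val = (φ ^ a.val)⁻¹ := eq_inv_of_mul_eq_one_right hmul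
    have h5 : (φ ^ a.val) (-1) = 1 := by
      have h4 := MulChar.pow_apply_coe φ a.val (-1 : (ZMod p)ˣ)
      rw [Units.val_neg, Units.val_one, hneg, one_pow] at h4
      exact h4
    rw [if_pos hab, hinv, jacobiSum_nontrivial_inv (pow_val_ne hz hp hp2 hT hφ ha), h5]
    unfold PP
    rw [Th_neg ha hab, prod_al m z (x : K) hz, hp]
    push_cast
    ring
  · rw [if_neg hab, jac_all hz hp hp2 hT hφ hm hTe h2T hx hψ ha hb hab]
    ring

lemma hh_row {ψ : AddChar (ZMod p) K} (hψ : ψ.IsPrimitive) (i : ZMod (2 ^ (m + 1))) :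
    ∑ j : ZMod (2 ^ (m + 1)), hh m p x T i j = if i = 0 then 1 else 0 := by
  have hzp := prim_of_half hz (two_ne_zero (α := K))
  have h1 : ∀ a : ZMod (2 ^ (m + 1)), ∑ i' : ZMod (2 ^ (m + 1)),
      ((∑ j : ZMod (2 ^ (m + 1)), hh m p x T i' j : ℤ) : K) * ex z (a * i') = 1 := by
    intro a
    have h2 := ev_hh_eq hz hp hp2 hT hφ hm hTe h2T hx hψ a 0
    rw [PP_comm] at h2
    unfold PP at h2
    rw [Th_zero_left, Finset.prod_empty] at h2
    rw [← h2]
    unfold ev
    refine Finset.sum_congr rfl fun i' _ => ?_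
    rw [Int.cast_sum, Finset.sum_mul]
    refine Finset.sum_congr rfl fun j _ => ?_
    rw [zero_mul, ex_zero, mul_one]
  set r : ZMod (2 ^ (m + 1)) → ℤ := fun i' => ∑ j : ZMod (2 ^ (m + 1)), hh m p x T i' j with hr
  have h3 : ∑ a : ZMod (2 ^ (m + 1)), ex z (-(a * i)) *
      ∑ i' : ZMod (2 ^ (m + 1)), (r i' : K) * ex z (a * i') =
      ((2 ^ (m + 1) : ℕ) : K) * (r i : K) := by
    have h4 : ∀ a : ZMod (2 ^ (m + 1)), ex z (-(a * i)) *
        ∑ i' : ZMod (2 ^ (m + 1)), (r i' : K) * ex z (a * i') =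
        ∑ i' : ZMod (2 ^ (m + 1)), (r i' : K) * ex z (a * (i' - i)) := by
      intro a
      rw [Finset.mul_sum]
      refine Finset.sum_congr rfl fun i' _ => ?_
      rw [mul_left_comm, ← ex_add hzp.pow_eq_one]
      congr 2
      ring
    rw [Finset.sum_congr rfl fun a _ => h4 a, Finset.sum_comm]
    rw [Finset.sum_congr rfl fun i' _ => by rw [← Finset.mul_sum, sum_ex hzp]]
    rw [Finset.sum_eq_single i]
    · rw [if_pos (sub_self i)]
      ring
    · intro i' _ hi'
      rw [if_neg (fun h => hi' (sub_eq_zero.mp h)), mul_zero]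
    · intro h
      exact absurd (Finset.mem_univ _) h
  have h5 : ∑ a : ZMod (2 ^ (m + 1)), ex z (-(a * i)) *
      ∑ i' : ZMod (2 ^ (m + 1)), (r i' : K) * ex z (a * i') =
      if i = 0 then ((2 ^ (m + 1) : ℕ) : K) else 0 := by
    rw [← sum_ex' hzp i]
    refine Finset.sum_congr rfl fun a _ => ?_
    rw [h1 a, mul_one]
  rw [h3] at h5
  have hN : ((2 ^ (m + 1) : ℕ) : K) ≠ 0 := by
    push_cast
    exact pow_ne_zero _ two_ne_zero
  have h6 : (r i : K) = ((if i = 0 then 1 else 0 : ℤ) : K) := by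
    apply mul_left_cancel₀ hN
    rw [h5]
    split_ifs <;> simp
  exact_mod_cast h6

end

section

variable {m : ℕ} {p x T : ℕ} [hpp : Fact p.Prime] (hp : p = x ^ (2 ^ m) + 1) (hp2 : p ≠ 2)
  (hT : 2 ^ (m + 1) * T = x ^ (2 ^ m))

/-- The exponent of the index of `1 - c^i`. -/
def Wd (m p x T : ℕ) [Fact p.Prime] (i : ZMod (2 ^ (m + 1))) : ℕ :=
  ∑ j : ZMod (2 ^ (m + 1)), j.val * cyc m p x T i j

include hp hp2 hT

lemma prod_class {i : ZMod (2 ^ (m + 1))} (hi : i ≠ 0)
    (hrow : ∑ j : ZMod (2 ^ (m + 1)), cyc m p x T i j = T) :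
    (1 - ex (ci m p x) i) ^ T = (ci m p x) ^ (Wd m p x T i) := by
  have hc := ci_prim hp hp2
  have hTp := T_pos hp hT
  set S : Finset (ZMod p) := Finset.univ.filter (fun w => w ^ T = ex (ci m p x) i) with hS
  have hexne : ∀ k : ZMod (2 ^ (m + 1)), ex (ci m p x) k ≠ 0 := fun k =>
    (ex_isUnit hc.pow_eq_one k).ne_zero
  have hS0 : ∀ w ∈ S, w ≠ 0 ∧ w ≠ 1 := by
    intro w hw
    rw [hS, Finset.mem_filter] at hw
    constructor
    · intro h
      rw [h, zero_pow hTp.ne'] at hw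
      exact hexne i hw.2.symm
    · intro h
      rw [h, one_pow] at hw
      apply hi
      apply ex_injective hc
      rw [← hw.2, ex_zero]
  choose! idx hidx using exists_index hp hp2 hT
  have hfib : ∀ j : ZMod (2 ^ (m + 1)), (S.filter (fun w => idx (1 - w) = j)).card =
      cyc m p x T i j := by
    intro j
    unfold cyc
    congr 1
    ext w
    constructor
    · intro hw
      obtain ⟨h1, h2⟩ := Finset.mem_filter.mp hw
      have h3 := hS0 w h1
      rw [hS, Finset.mem_filter] at h1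
      refine Finset.mem_filter.mpr ⟨Finset.mem_univ _, h3.1, h3.2, h1.2, ?_⟩
      rw [← h2, hidx (1 - w) (fun h => h3.2 (by linear_combination -h))]
    · intro hw
      obtain ⟨-, h1, h2, h3, h4⟩ := Finset.mem_filter.mp hw
      refine Finset.mem_filter.mpr ⟨by rw [hS, Finset.mem_filter]; exact ⟨Finset.mem_univ _, h3⟩, ?_⟩
      apply ex_injective hc
      rw [hidx (1 - w) (fun h => h2 (by linear_combination -h)), h4]
  have hcard : S.card = T := by
    rw [← hrow, ← Finset.sum_congr rfl fun j _ => hfib j]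
    exact Finset.card_eq_sum_card_fiberwise (fun _ _ => Finset.mem_coe.mpr (Finset.mem_univ _))
  -- the polynomial
  have hmonic : (X ^ T - C (ex (ci m p x) i) : (ZMod p)[X]).Monic :=
    monic_X_pow_sub_C _ hTp.ne'
  have hdeg : (X ^ T - C (ex (ci m p x) i) : (ZMod p)[X]).natDegree = T := natDegree_X_pow_sub_C
  have hle : S.val ≤ (X ^ T - C (ex (ci m p x) i) : (ZMod p)[X]).roots := by
    rw [Multiset.le_iff_subset S.nodup]
    intro w hw
    rw [Finset.mem_val, hS, Finset.mem_filter] at hw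
    rw [mem_roots hmonic.ne_zero, IsRoot.def, eval_sub, eval_pow, eval_X, eval_C, hw.2, sub_self]
  have hroots : S.val = (X ^ T - C (ex (ci m p x) i) : (ZMod p)[X]).roots := by
    apply Multiset.eq_of_le_of_card_le hle
    have h1 := card_roots' (X ^ T - C (ex (ci m p x) i) : (ZMod p)[X])
    rw [hdeg] at h1
    have h2 : Multiset.card S.val = T := hcard
    rw [h2]
    exact h1
  have hprod := prod_multiset_X_sub_C_of_monic_of_roots_card_eq hmonic (by
    rw [← hroots, hdeg]; exact hcard)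
  rw [← hroots] at hprod
  have h1 := congrArg (eval 1) hprod
  rw [eval_multiset_prod, Multiset.map_map] at h1
  simp only [Function.comp_def, eval_sub, eval_X, eval_C, eval_pow, one_pow] at h1
  have h2 : ∏ w ∈ S, (1 - w) = 1 - ex (ci m p x) i := h1
  rw [← h2, ← Finset.prod_pow]
  rw [← Finset.prod_fiberwise S (fun w => idx (1 - w))]
  have h3 : ∀ j : ZMod (2 ^ (m + 1)), ∏ w ∈ S.filter (fun w => idx (1 - w) = j), (1 - w) ^ T =
      (ci m p x) ^ (j.val * cyc m p x T i j) := by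
    intro j
    rw [← hfib j, pow_mul, ← Finset.prod_const]
    refine Finset.prod_congr rfl fun w hw => ?_
    rw [Finset.mem_filter] at hw
    have h4 := hS0 w hw.1
    rw [← hidx (1 - w) (fun h => h4.2 (by linear_combination -h)), hw.2]
    rfl
  rw [Finset.prod_congr rfl fun j _ => h3 j, Finset.prod_pow_eq_pow_sum]
  rfl

end

end Pool.Agent.Y875.FP
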