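import Pool.Agent.Y875.FP.MerD

/-!
The congruence for the index of `1 - c^s`, `s` odd.
-/

open Polynomial

namespace Pool.Agent.Y875.FP

section

variable {K : Type} [NormedField K] [IsUltrametricDist K]

lemma um_prod_expand {ι : Type} (S : Finset ι) {w : ι → K} {r : ℝ} (hr0 : 0 ≤ r) (hr : r ≤ 1)
    (hw : ∀ t ∈ S, ‖w t‖ ≤ r) : ‖∏ t ∈ S, (1 + w t) - 1 - ∑ t ∈ S, w t‖ ≤ r ^ 2 := by
  classical
  induction S using Finset.induction_on with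
  | empty => simp; positivity
  | insert t S ht ih =>
    have h1 := ih (fun u hu => hw u (Finset.mem_insert_of_mem hu))
    have h2 := hw t (Finset.mem_insert_self _ _)
    rw [Finset.prod_insert ht, Finset.sum_insert ht]
    have h3 : (1 + w t) * ∏ u ∈ S, (1 + w u) - 1 - (w t + ∑ u ∈ S, w u) =
        (∏ u ∈ S, (1 + w u) - 1 - ∑ u ∈ S, w u) * (1 + w t) + w t * ∑ u ∈ S, w u := by ring
    rw [h3]
    apply um_add_le
    · rw [norm_mul]
      have h4 : ‖1 + w t‖ ≤ 1 := um_add_le norm_one.le (h2.trans hr)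
      calc _ ≤ r ^ 2 * 1 := by gcongr
        _ = r ^ 2 := mul_one _
    · rw [norm_mul]
      have h4 : ‖∑ u ∈ S, w u‖ ≤ r := by
        apply um_sum_le _ hr0
        intro u hu
        exact hw u (Finset.mem_insert_of_mem hu)
      calc _ ≤ r * r := by gcongr
        _ = r ^ 2 := by ring

lemma um_pow_two_pow {u : K} (hu : ‖u - 1‖ ≤ ‖(2 : K)‖) (h2 : ‖(2 : K)‖ < 1) (M : ℕ) :
    ‖u ^ (2 ^ M) - 1‖ ≤ ‖(2 : K)‖ ^ (M + 1) := by
  induction M with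
  | zero => simpa using hu
  | succ M ih =>
    have h3 : u ^ (2 ^ (M + 1)) - 1 = (u ^ (2 ^ M) - 1) * ((u ^ (2 ^ M) - 1) + 2) := by
      rw [pow_succ, pow_mul]; ring
    rw [h3, norm_mul]
    have h20 := norm_nonneg (2 : K)
    have h4 : ‖(u ^ (2 ^ M) - 1) + 2‖ ≤ ‖(2 : K)‖ := by
      apply um_add_le _ le_rfl
      refine ih.trans ?_
      calc ‖(2 : K)‖ ^ (M + 1) ≤ ‖(2 : K)‖ ^ 1 := pow_le_pow_of_le_one h20 h2.le (by omega)
        _ = _ := pow_one _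
    calc ‖u ^ 2 ^ M - 1‖ * ‖u ^ 2 ^ M - 1 + 2‖ ≤ ‖(2 : K)‖ ^ (M + 1) * ‖(2 : K)‖ := by gcongr
      _ = _ := by ring

lemma int_dvd_of_norm (h2 : ‖(2 : K)‖ < 1) (h20 : (2 : K) ≠ 0) (n : ℤ) (e : ℕ)
    (hn : ‖(n : K)‖ ≤ ‖(2 : K)‖ ^ e) : (2 : ℤ) ^ e ∣ n := by
  by_cases h0 : n = 0
  · rw [h0]; exact dvd_zero _
  have h2p : 0 < ‖(2 : K)‖ := norm_pos_iff.mpr h20
  obtain ⟨f, o, ho, hf⟩ := Nat.exists_eq_two_pow_mul_odd (Int.natAbs_ne_zero.mpr h0)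
  have h3 : ‖(n : K)‖ = ‖(2 : K)‖ ^ f := by
    have h4 : ‖(n : K)‖ = ‖((n.natAbs : ℕ) : K)‖ := by
      rcases Int.natAbs_eq n with h | h
      · conv_lhs => rw [h]
        rw [Int.cast_natCast]
      · conv_lhs => rw [h]
        rw [Int.cast_neg, norm_neg, Int.cast_natCast]
    rw [h4, hf, Nat.cast_mul, norm_mul, um_odd h2 ho, mul_one, Nat.cast_pow, norm_pow]
    norm_num
  rw [h3] at hn
  have h5 : e ≤ f := by
    by_contra hcon
    push Not at hcon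
    have := pow_lt_pow_right_of_lt_one₀ h2p h2 hcon
    linarith
  have h6 : (2 : ℤ) ^ e ∣ (n.natAbs : ℤ) := by
    rw [hf]
    push_cast
    exact Dvd.dvd.mul_right (pow_dvd_pow 2 h5) _
  exact Int.dvd_natAbs.mp h6

end

section

variable {m : ℕ} {K : Type} [NormedField K] [IsUltrametricDist K] [CharZero K] {z : K}
  (h2 : ‖(2 : K)‖ < 1) (hz : z ^ (2 ^ m) = -1)

include hz

lemma norm_ex (w : ZMod (2 ^ (m + 1))) : ‖ex z w‖ = 1 := by
  unfold ex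
  rw [norm_pow, norm_z_one hz, one_pow]

lemma norm_LL_le (i : ZMod (2 ^ (m + 1))) {f : ZMod (2 ^ (m + 1)) → ZMod (2 ^ (m + 1)) → K}
    {r : ℝ} (hr : 0 ≤ r) (hf : ∀ a b, ‖f a b‖ ≤ r) : ‖LL z i f‖ ≤ r := by
  unfold LL
  apply um_sum_le _ hr
  intro j _
  rw [norm_mul]
  have h1 : ‖∑ a : ZMod (2 ^ (m + 1)), ∑ b : ZMod (2 ^ (m + 1)),
      f a b * (ex z (-(a * i)) * ex z (-(b * j)))‖ ≤ r := by
    apply um_sum_le _ hr
    intro a _
    apply um_sum_le _ hr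
    intro b _
    rw [norm_mul, norm_mul, norm_ex hz, norm_ex hz, mul_one, mul_one]
    exact hf a b
  have h3 := um_nat (K := K) j.val
  calc _ ≤ 1 * r := by gcongr
    _ = r := one_mul r

include h2

/-- Expansion of the powers of the products of the `α_t`. -/
lemma PP_pow_expand {x : ℕ} (hx : 2 ∣ x) (M : ℕ) (a b : ZMod (2 ^ (m + 1))) :
    ‖PP (x : K) z a b ^ (2 ^ M) - (1 + ∑ k ∈ Finset.range (2 ^ M),
      ((-(x : K)) ^ (k + 1) * ((2 ^ M).choose (k + 1) : K)) * ∑ t ∈ Th m a b,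
      ex z (((k + 1 : ℕ) : ZMod (2 ^ (m + 1))) * ((t⁻¹ : (ZMod (2 ^ (m + 1)))ˣ) : ZMod (2 ^ (m + 1)))))‖ ≤
      ‖(2 : K)‖ ^ (2 * M + 2) := by
  have hzN := (prim_of_half hz (two_ne_zero (α := K))).pow_eq_one
  have h20 := norm_nonneg (2 : K)
  have hx2 : ‖(x : K)‖ ≤ ‖(2 : K)‖ := by
    obtain ⟨y, rfl⟩ := hx
    push_cast
    rw [norm_mul]
    have := um_nat (K := K) y
    nlinarith
  set w : (ZMod (2 ^ (m + 1)))ˣ → K := fun t => al (x : K) z t ^ (2 ^ M) - 1 with hw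
  have h1 : ∀ t ∈ Th m a b, ‖w t‖ ≤ ‖(2 : K)‖ ^ (M + 1) := by
    intro t _
    apply um_pow_two_pow _ h2
    unfold al
    rw [sub_sub_cancel_left, norm_neg, norm_mul, norm_ex hz, mul_one]
    exact hx2
  have h3 := um_prod_expand (Th m a b) (by positivity) (pow_le_one₀ h20 h2.le) h1
  have h4 : ∏ t ∈ Th m a b, (1 + w t) = PP (x : K) z a b ^ (2 ^ M) := by
    unfold PP
    rw [← Finset.prod_pow]
    refine Finset.prod_congr rfl fun t _ => ?_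
    rw [hw]
    simp
  have h5 : ∀ t : (ZMod (2 ^ (m + 1)))ˣ, w t = ∑ k ∈ Finset.range (2 ^ M),
      ((-(x : K)) ^ (k + 1) * ((2 ^ M).choose (k + 1) : K)) *
      ex z (((k + 1 : ℕ) : ZMod (2 ^ (m + 1))) * ((t⁻¹ : (ZMod (2 ^ (m + 1)))ˣ) : ZMod (2 ^ (m + 1)))) := by
    intro t
    rw [hw]
    simp only
    unfold al
    have h6 : (1 : K) - (x : K) * ex z ((t⁻¹ : (ZMod (2 ^ (m + 1)))ˣ) : ZMod (2 ^ (m + 1))) =
        -(x : K) * ex z ((t⁻¹ : (ZMod (2 ^ (m + 1)))ˣ) : ZMod (2 ^ (m + 1))) + 1 := by ring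
    rw [h6, add_pow, Finset.sum_range_succ']
    simp only [pow_zero, one_pow, mul_one, Nat.choose_zero_right, Nat.cast_one,
      add_sub_cancel_right]
    refine Finset.sum_congr rfl fun k _ => ?_
    rw [ex_nat_mul hzN, mul_pow]
    ring
  have h6 : ∑ t ∈ Th m a b, w t = ∑ k ∈ Finset.range (2 ^ M),
      ((-(x : K)) ^ (k + 1) * ((2 ^ M).choose (k + 1) : K)) * ∑ t ∈ Th m a b,
      ex z (((k + 1 : ℕ) : ZMod (2 ^ (m + 1))) * ((t⁻¹ : (ZMod (2 ^ (m + 1)))ˣ) : ZMod (2 ^ (m + 1)))) := by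
    rw [Finset.sum_congr rfl fun t _ => h5 t, Finset.sum_comm]
    refine Finset.sum_congr rfl fun k _ => ?_
    rw [Finset.mul_sum]
  rw [h4, h6, ← pow_mul] at h3
  have h7 : (M + 1) * 2 = 2 * M + 2 := by ring
  rw [h7, sub_sub] at h3
  exact h3

variable {p x T : ℕ} [hpp : Fact p.Prime] (hp : p = x ^ (2 ^ m) + 1) (hp2 : p ≠ 2)
  (hT : 2 ^ (m + 1) * T = x ^ (2 ^ m)) {φ : MulChar (ZMod p) K} (hφ : IsRes m p x T z φ)
  (hm : 2 ≤ m) (hTe : Even T) (h2T : (2 : ZMod p) ^ T = 1) (hx : 4 ∣ x ∨ (2 ∣ x ∧ 3 ≤ m))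

include hp hp2 hT hφ hm hTe h2T hx

/-- The congruence for the moments, in integral form. -/
theorem moment_int {ψ : AddChar (ZMod p) K} (hψ : ψ.IsPrimitive) (s : (ZMod (2 ^ (m + 1)))ˣ)
    (M : ℕ) (hM : 3 * m + 1 ≤ M) : (2 : ℤ) ^ (M + m + 3) ∣
      2 ^ (M + 2) * ((T : ℤ) * (s : ZMod (2 ^ (m + 1))).val -
        Wd m p x T (s : ZMod (2 ^ (m + 1)))) +
      (s : ZMod (2 ^ (m + 1))).val * ∑ k ∈ Finset.range (2 ^ M),
        ((-(x : ℤ)) ^ (k + 1) * ((2 ^ M).choose (k + 1) : ℤ)) * eps m s (k + 1) := by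
  have hK2 : (2 : K) ≠ 0 := two_ne_zero
  have h2p : 0 < ‖(2 : K)‖ := norm_pos_iff.mpr hK2
  have hzp := prim_of_half hz hK2
  have hx2 : 2 ∣ x := by
    rcases hx with h | h
    · exact (by norm_num : 2 ∣ 4).trans h
    · exact h.1
  set sv : ZMod (2 ^ (m + 1)) := (s : ZMod (2 ^ (m + 1))) with hsv
  set g := sqs (hh m p x T) M with hg
  set D : ℤ := ∑ j : ZMod (2 ^ (m + 1)), (j.val : ℤ) * g sv j with hD
  have hodd : Odd sv.val := unit_val_odd s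
  -- values of g
  have h1 : ∀ a b : ZMod (2 ^ (m + 1)), ev z g a b = PP (x : K) z a b ^ (2 ^ M) := by
    intro a b
    rw [hg, ev_sqs hzp.pow_eq_one, ev_hh_eq hz hp hp2 hT hφ hm hTe h2T hx hψ]
  -- the functional on the main term
  set F0 : ZMod (2 ^ (m + 1)) → ZMod (2 ^ (m + 1)) → K := fun a b =>
    ∑ k ∈ Finset.range (2 ^ M),
      ((-(x : K)) ^ (k + 1) * ((2 ^ M).choose (k + 1) : K)) * ∑ t ∈ Th m a b,
      ex z (((k + 1 : ℕ) : ZMod (2 ^ (m + 1))) * ((t⁻¹ : (ZMod (2 ^ (m + 1)))ˣ) : ZMod (2 ^ (m + 1))))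
    with hF0
  have h3 : LL z sv F0 = -(((2 : K) ^ m * (2 : K) ^ m) * ((sv.val : K) *
      ∑ k ∈ Finset.range (2 ^ M), ((-(x : K)) ^ (k + 1) * ((2 ^ M).choose (k + 1) : K)) *
        (eps m s (k + 1) : K))) := by
    have e1 := LL_sum (z := z) (Finset.range (2 ^ M)) sv (fun k a b =>
      ((-(x : K)) ^ (k + 1) * ((2 ^ M).choose (k + 1) : K)) * ∑ t ∈ Th m a b,
      ex z (((k + 1 : ℕ) : ZMod (2 ^ (m + 1))) * ((t⁻¹ : (ZMod (2 ^ (m + 1)))ˣ) : ZMod (2 ^ (m + 1)))))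
    rw [hF0, e1, Finset.mul_sum, Finset.mul_sum, ← Finset.sum_neg_distrib]
    refine Finset.sum_congr rfl fun k _ => ?_
    rw [LL_mul, hsv, LL_S hz hK2 s (k + 1)]
    ring
  have h4 : ‖LL z sv (fun a b => ev z g a b + (-1) * ((1 : K) + F0 a b))‖ ≤
      ‖(2 : K)‖ ^ (2 * M + 2) := by
    apply norm_LL_le hz sv (by positivity)
    intro a b
    rw [h1 a b]
    have := PP_pow_expand h2 hz hx2 M a b
    rw [hF0]
    simp only
    rw [neg_one_mul, ← sub_eq_add_neg]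
    exact this
  rw [LL_add, LL_mul, LL_add, LL_left hzp sv (fun _ => (1 : K)), zero_add, h3] at h4
  have h5 : LL z sv (fun a b => ev z g a b) = LL z sv (ev z g) := rfl
  rw [h5, LL_ev hzp sv g, ← hD] at h4
  -- integers
  have h6 : (((2 ^ (m + 1) : ℕ) : K) * ((2 ^ (m + 1) : ℕ) : K) * (D : K) +
      -1 * -(2 ^ m * 2 ^ m * ((sv.val : K) *
        ∑ k ∈ Finset.range (2 ^ M), (-(x : K)) ^ (k + 1) * ((2 ^ M).choose (k + 1) : K) *
          (eps m s (k + 1) : K)))) =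
      ((2 ^ (2 * m) * (4 * D + (sv.val : ℤ) *
        ∑ k ∈ Finset.range (2 ^ M), (-(x : ℤ)) ^ (k + 1) * ((2 ^ M).choose (k + 1) : ℤ) *
          (eps m s (k + 1))) : ℤ) : K) := by
    push_cast
    ring
  rw [h6] at h4
  have h7 := int_dvd_of_norm h2 hK2 _ _ h4
  have h8 : (2 : ℤ) ^ (M + m + 3) ∣ 4 * D + (sv.val : ℤ) *
        ∑ k ∈ Finset.range (2 ^ M), (-(x : ℤ)) ^ (k + 1) * ((2 ^ M).choose (k + 1) : ℤ) *
          (eps m s (k + 1)) := by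
    have e1 : 2 * M + 2 = 2 * m + (M + m + 3) + (M - 3 * m - 1) := by omega
    rw [e1, pow_add, pow_add, mul_assoc] at h7
    have e2 := Int.dvd_of_mul_dvd_mul_left (by positivity) h7
    exact (Dvd.intro _ rfl).trans e2
  have h9 := sqs_moment (hh m p x T) (by exact ⟨2 ^ m, by ring⟩)
    (hh_row hz hp hp2 hT hφ hm hTe h2T hx hψ) M sv hodd
  rw [← hg, ← hD] at h9
  have h10 : ∑ j : ZMod (2 ^ (m + 1)), (j.val : ℤ) * hh m p x T sv j =
      (T : ℤ) * sv.val - Wd m p x T sv := by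
    unfold hh Wd
    push_cast
    simp only [mul_sub, Finset.sum_sub_distrib]
    congr 1
    rw [Finset.sum_eq_single sv]
    · rw [if_pos rfl]; ring
    · intro j _ hj
      rw [if_neg (fun h => hj h.symm), mul_zero]
    · intro h
      exact absurd (Finset.mem_univ _) h
  rw [h10] at h9
  have h11 : (2 : ℤ) ^ (M + m + 3) ∣ 4 * (D - 2 ^ M * ((T : ℤ) * sv.val - Wd m p x T sv)) := by
    have e1 : (2 : ℤ) ^ (M + m + 3) = 4 * (2 ^ M * ((2 ^ (m + 1) : ℕ) : ℤ)) := by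
      push_cast
      ring
    rw [e1]
    exact mul_dvd_mul_left 4 h9
  have h12 := dvd_sub h8 h11
  have h13 : 4 * D + (sv.val : ℤ) *
        ∑ k ∈ Finset.range (2 ^ M), (-(x : ℤ)) ^ (k + 1) * ((2 ^ M).choose (k + 1) : ℤ) *
          (eps m s (k + 1)) - 4 * (D - 2 ^ M * ((T : ℤ) * sv.val - Wd m p x T sv)) =
      2 ^ (M + 2) * ((T : ℤ) * sv.val - Wd m p x T sv) + (sv.val : ℤ) *
        ∑ k ∈ Finset.range (2 ^ M), (-(x : ℤ)) ^ (k + 1) * ((2 ^ M).choose (k + 1) : ℤ) *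
          (eps m s (k + 1)) := by ring
  rw [h13] at h12
  exact h12

end

end Pool.Agent.Y875.FP
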