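import Pool.Agent.Y875.FP.MerE

/-!
From binomial coefficients to the logarithmic series.
-/

open Polynomial

namespace Pool.Agent.Y875.FP

lemma choose_cong (n : ℕ) (j : ℕ) (hj : j < n) :
    (n : ℤ) ∣ ((-1) ^ j * ((n - 1).choose j : ℤ) - 1) * (j.factorial : ℤ) := by
  induction j with
  | zero => simp
  | succ j ih =>
    have h1 := ih (by omega)
    have h2 : ((n - 1).choose (j + 1) : ℤ) * ((j : ℤ) + 1) =
        ((n - 1).choose j : ℤ) * ((n : ℤ) - 1 - j) := by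
      have h3 := Nat.choose_succ_right_eq (n - 1) j
      have h4 : ((n - 1 - j : ℕ) : ℤ) = (n : ℤ) - 1 - j := by
        push_cast [Nat.cast_sub (show j ≤ n - 1 by omega), Nat.cast_sub (show 1 ≤ n by omega)]
        ring
      have h5 : (((n - 1).choose (j + 1) * (j + 1) : ℕ) : ℤ) =
          (((n - 1).choose j * (n - 1 - j) : ℕ) : ℤ) := by rw [h3]
      rw [Nat.cast_mul, Nat.cast_mul, h4] at h5
      push_cast at h5
      exact h5
    have h6 : ((-1) ^ (j + 1) * ((n - 1).choose (j + 1) : ℤ) - 1) * ((j + 1).factorial : ℤ) =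
        (((-1) ^ j * ((n - 1).choose j : ℤ) - 1) * (j.factorial : ℤ)) * ((j : ℤ) + 1) -
        (n : ℤ) * ((-1) ^ j * ((n - 1).choose j : ℤ) * (j.factorial : ℤ)) := by
      rw [Nat.factorial_succ]
      push_cast
      have h7 : (-1 : ℤ) ^ (j + 1) * ((n - 1).choose (j + 1) : ℤ) * ((j : ℤ) + 1) =
          -((-1) ^ j * (((n - 1).choose j : ℤ) * ((n : ℤ) - 1 - j))) := by
        rw [← h2]; ring
      linear_combination (j.factorial : ℤ) * h7
    rw [h6]
    exact dvd_sub (Dvd.dvd.mul_right h1 _) (Dvd.intro _ rfl)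

section

variable {K : Type} [NormedField K] [IsUltrametricDist K] (h2 : ‖(2 : K)‖ < 1)

include h2

lemma norm_two_pow_mul_odd {e o : ℕ} (ho : Odd o) : ‖((2 ^ e * o : ℕ) : K)‖ = ‖(2 : K)‖ ^ e := by
  rw [Nat.cast_mul, norm_mul, um_odd h2 ho, mul_one, Nat.cast_pow, norm_pow]
  norm_num

lemma norm_factorial (k : ℕ) : ‖(2 : K)‖ ^ k ≤ ‖((k.factorial : ℕ) : K)‖ := by
  rcases Nat.eq_zero_or_pos k with h | h
  · subst h; simp
  obtain ⟨e, o, ho, he⟩ := Nat.exists_eq_two_pow_mul_odd (Nat.factorial_ne_zero k)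
  have h1 : e < k := by
    have h3 := Nat.emultiplicity_two_factorial_lt h.ne'
    have h4 : (2 ^ e) ∣ k.factorial := by rw [he]; exact Dvd.intro _ rfl
    rw [pow_dvd_iff_le_emultiplicity] at h4
    exact_mod_cast lt_of_le_of_lt h4 h3
  rw [he, norm_two_pow_mul_odd h2 ho]
  exact pow_le_pow_of_le_one (norm_nonneg _) h2.le h1.le

end

section

variable {m : ℕ} {K : Type} [NormedField K] [IsUltrametricDist K] [CharZero K] {z : K}
  (h2 : ‖(2 : K)‖ < 1) (hz : z ^ (2 ^ m) = -1)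
  {p x T : ℕ} [hpp : Fact p.Prime] (hp : p = x ^ (2 ^ m) + 1) (hp2 : p ≠ 2)
  (hT : 2 ^ (m + 1) * T = x ^ (2 ^ m)) {φ : MulChar (ZMod p) K} (hφ : IsRes m p x T z φ)
  (hm : 2 ≤ m) (hTe : Even T) (h2T : (2 : ZMod p) ^ T = 1) (hx : 4 ∣ x ∨ (2 ∣ x ∧ 3 ≤ m))

include h2 hz hp hp2 hT hφ hm hTe h2T hx

/-- The congruence for the index of `1 - c^s` by the logarithmic series. -/
theorem moment_log {ψ : AddChar (ZMod p) K} (hψ : ψ.IsPrimitive) (s : (ZMod (2 ^ (m + 1)))ˣ)
    (K0 : ℕ) (hK0 : ∀ k : ℕ, K0 ≤ k → ‖(x : K) ^ (k + 1) / ((k + 1 : ℕ) : K)‖ ≤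
      ‖(2 : K)‖ ^ (m + 3)) :
    ‖4 * ((T : K) * ((s : ZMod (2 ^ (m + 1))).val : K) -
        (Wd m p x T (s : ZMod (2 ^ (m + 1))) : K)) -
      ((s : ZMod (2 ^ (m + 1))).val : K) * ∑ k ∈ Finset.range K0,
        (eps m s (k + 1) : K) * ((x : K) ^ (k + 1) / ((k + 1 : ℕ) : K))‖ ≤
      ‖(2 : K)‖ ^ (m + 3) := by
  have hK2 : (2 : K) ≠ 0 := two_ne_zero
  have h2p : 0 < ‖(2 : K)‖ := norm_pos_iff.mpr hK2
  have hx2 : ‖(x : K)‖ ≤ ‖(2 : K)‖ := by
    have hx2 : 2 ∣ x := by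
      rcases hx with h | h
      · exact (by norm_num : 2 ∣ 4).trans h
      · exact h.1
    obtain ⟨y, rfl⟩ := hx2
    push_cast
    rw [norm_mul]
    have := um_nat (K := K) y
    nlinarith
  set M := 3 * m + 1 + K0 with hM
  have hKM : K0 ≤ 2 ^ M := by
    have := Nat.lt_two_pow_self (n := M)
    omega
  obtain ⟨n, hn⟩ := moment_int h2 hz hp hp2 hT hφ hm hTe h2T hx hψ s M (by omega)
  set sv : ZMod (2 ^ (m + 1)) := (s : ZMod (2 ^ (m + 1))) with hsv
  set q : ℕ → K := fun k => (-1) ^ k * ((2 ^ M - 1).choose k : K) with hq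
  set d : ℕ → K := fun k => (x : K) ^ (k + 1) / ((k + 1 : ℕ) : K) with hd
  have hk1 : ∀ k : ℕ, ((k + 1 : ℕ) : K) ≠ 0 := fun k => by
    exact_mod_cast Nat.succ_ne_zero k
  have heps : ∀ k, ‖(eps m s k : K)‖ ≤ 1 := fun k => um_int _
  have hqn : ∀ k, ‖q k‖ ≤ 1 := by
    intro k
    rw [hq]
    simp only
    rw [norm_mul, norm_pow, norm_neg, norm_one, one_pow, one_mul]
    exact um_nat _
  -- the terms
  have h3 : ∀ k ∈ Finset.range (2 ^ M), (-(x : K)) ^ (k + 1) * ((2 ^ M).choose (k + 1) : K) *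
      (eps m s (k + 1) : K) = -((2 : K) ^ M * ((eps m s (k + 1) : K) * (d k * q k))) := by
    intro k _
    have h4 : ((2 ^ M).choose (k + 1) : K) * ((k + 1 : ℕ) : K) = (2 : K) ^ M *
        ((2 ^ M - 1).choose k : K) := by
      have h5 := Nat.add_one_mul_choose_eq (2 ^ M - 1) k
      have h6 : 2 ^ M - 1 + 1 = 2 ^ M := Nat.sub_add_cancel Nat.one_le_two_pow
      rw [h6] at h5
      have h7 : ((2 ^ M * (2 ^ M - 1).choose k : ℕ) : K) =
          (((2 ^ M).choose (k + 1) * (k + 1) : ℕ) : K) := by rw [h5]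
      rw [Nat.cast_mul, Nat.cast_mul] at h7
      push_cast at h7
      push_cast
      exact h7.symm
    rw [hq, hd]
    simp only
    have h8 := hk1 k
    have h9 : ((2 ^ M).choose (k + 1) : K) = (2 : K) ^ M * ((2 ^ M - 1).choose k : K) /
        ((k + 1 : ℕ) : K) := by
      rw [← h4]
      field_simp
    rw [h9, neg_pow]
    field_simp
    ring
  have h5 : (2 : K) ^ (M + 2) * ((T : K) * (sv.val : K) - (Wd m p x T sv : K)) +
      (sv.val : K) * ∑ k ∈ Finset.range (2 ^ M), (-(x : K)) ^ (k + 1) *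
        ((2 ^ M).choose (k + 1) : K) * (eps m s (k + 1) : K) = (2 : K) ^ (M + m + 3) * (n : K) := by
    have h6 := congrArg (Int.cast (R := K)) hn
    push_cast at h6
    exact h6
  rw [Finset.sum_congr rfl h3, Finset.sum_neg_distrib, ← Finset.mul_sum] at h5
  have h6 : 4 * ((T : K) * (sv.val : K) - (Wd m p x T sv : K)) - (sv.val : K) *
      ∑ k ∈ Finset.range (2 ^ M), (eps m s (k + 1) : K) * (d k * q k) =
      (2 : K) ^ (m + 3) * (n : K) := by
    apply mul_left_cancel₀ (pow_ne_zero M hK2)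
    have e1 : (2 : K) ^ (M + m + 3) = 2 ^ M * 2 ^ (m + 3) := by rw [← pow_add]; congr 1
    have e2 : (2 : K) ^ (M + 2) = 2 ^ M * 4 := by rw [pow_add]; norm_num
    rw [e1, e2] at h5
    linear_combination h5
  -- comparison of the two sums
  have h7 : ∑ k ∈ Finset.range (2 ^ M), (eps m s (k + 1) : K) * (d k * q k) -
      ∑ k ∈ Finset.range K0, (eps m s (k + 1) : K) * d k =
      ∑ k ∈ Finset.range K0, (eps m s (k + 1) : K) * (d k * (q k - 1)) +
      ∑ k ∈ Finset.range (2 ^ M - K0), (eps m s (K0 + k + 1) : K) * (d (K0 + k) * q (K0 + k)) := by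
    have e1 : 2 ^ M = K0 + (2 ^ M - K0) := by omega
    rw [e1, Finset.sum_range_add, ← e1, add_sub_right_comm, ← Finset.sum_sub_distrib]
    congr 1
    refine Finset.sum_congr rfl fun k _ => ?_
    ring
  have h8 : ‖∑ k ∈ Finset.range K0, (eps m s (k + 1) : K) * (d k * (q k - 1))‖ ≤
      ‖(2 : K)‖ ^ (m + 3) := by
    apply um_sum_le _ (by positivity)
    intro k hk
    rw [Finset.mem_range] at hk
    obtain ⟨c, hc⟩ := choose_cong (2 ^ M) k (by omega)
    have h9 : (q k - 1) * ((k.factorial : ℕ) : K) = (2 : K) ^ M * (c : K) := by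
      have := congrArg (Int.cast (R := K)) hc
      push_cast at this
      rw [hq]
      simp only
      exact this
    have hf0 : ((k.factorial : ℕ) : K) ≠ 0 := by exact_mod_cast Nat.factorial_ne_zero k
    have h10 : d k * (q k - 1) = (2 : K) ^ M * (c : K) * ((x : K) ^ (k + 1) /
        (((k + 1).factorial : ℕ) : K)) := by
      have e1 : q k - 1 = (2 : K) ^ M * (c : K) / ((k.factorial : ℕ) : K) := by
        rw [← h9]; field_simp
      rw [e1, hd, Nat.factorial_succ, Nat.cast_mul]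
      simp only
      have := hk1 k
      field_simp
    have h11 : ‖(x : K) ^ (k + 1) / (((k + 1).factorial : ℕ) : K)‖ ≤ 1 := by
      have e2 := norm_factorial h2 (k + 1)
      have e3 : 0 < ‖(((k + 1).factorial : ℕ) : K)‖ := lt_of_lt_of_le (by positivity) e2
      rw [norm_div, div_le_one e3, norm_pow]
      refine le_trans ?_ e2
      gcongr
    rw [norm_mul, h10, norm_mul, norm_mul, norm_pow]
    have h12 := heps (k + 1)
    have h13 : ‖(c : K)‖ ≤ 1 := um_int _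
    calc ‖(eps m s (k + 1) : K)‖ * (‖(2 : K)‖ ^ M * ‖(c : K)‖ *
          ‖(x : K) ^ (k + 1) / (((k + 1).factorial : ℕ) : K)‖)
        ≤ 1 * (‖(2 : K)‖ ^ M * 1 * 1) := by gcongr
      _ = ‖(2 : K)‖ ^ M := by ring
      _ ≤ ‖(2 : K)‖ ^ (m + 3) := pow_le_pow_of_le_one (norm_nonneg _) h2.le (by omega)
  have h9 : ‖∑ k ∈ Finset.range (2 ^ M - K0), (eps m s (K0 + k + 1) : K) *
      (d (K0 + k) * q (K0 + k))‖ ≤ ‖(2 : K)‖ ^ (m + 3) := by
    apply um_sum_le _ (by positivity)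
    intro k _
    rw [norm_mul, norm_mul]
    have e1 := hK0 (K0 + k) (by omega)
    have e2 := heps (K0 + k + 1)
    have e3 := hqn (K0 + k)
    calc _ ≤ 1 * (‖(2 : K)‖ ^ (m + 3) * 1) := by gcongr
      _ = _ := by ring
  have h10 : 4 * ((T : K) * (sv.val : K) - (Wd m p x T sv : K)) - (sv.val : K) *
      ∑ k ∈ Finset.range K0, (eps m s (k + 1) : K) * d k =
      (2 : K) ^ (m + 3) * (n : K) + (sv.val : K) *
        (∑ k ∈ Finset.range K0, (eps m s (k + 1) : K) * (d k * (q k - 1)) +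
      ∑ k ∈ Finset.range (2 ^ M - K0), (eps m s (K0 + k + 1) : K) *
        (d (K0 + k) * q (K0 + k))) := by
    rw [← h7, ← h6]
    ring
  rw [h10]
  apply um_add_le
  · rw [norm_mul, norm_pow]
    have e1 : ‖(n : K)‖ ≤ 1 := um_int _
    calc _ ≤ ‖(2 : K)‖ ^ (m + 3) * 1 := by gcongr
      _ = _ := mul_one _
  · rw [norm_mul]
    have e1 := um_nat (K := K) sv.val
    have e2 := um_add_le h8 h9
    calc _ ≤ 1 * ‖(2 : K)‖ ^ (m + 3) := by gcongr
      _ = _ := one_mul _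

end

end Pool.Agent.Y875.FP
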