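import Pool.Agent.Y875.FP.MerF

/-!
The index of `x^s - 1`, `s` odd, modulo the prime `x^(2^m)+1`.
-/

open Polynomial

namespace Pool.Agent.Y875.FP

/-- `+1` if the residue of `k / s` modulo `2^(m+1)` is less than `2^m`, and `-1` otherwise. -/
def sgn (m s k : ℕ) : ℤ :=
  if ((k : ZMod (2 ^ (m + 1))) * (s : ZMod (2 ^ (m + 1)))⁻¹).val < 2 ^ m then 1 else -1

lemma unit_of_odd (m : ℕ) {s : ℕ} (hs : Odd s) :
    ∃ u : (ZMod (2 ^ (m + 1)))ˣ, (u : ZMod (2 ^ (m + 1))) = (s : ZMod (2 ^ (m + 1))) := by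
  have hcop : Nat.Coprime s (2 ^ (m + 1)) := by
    apply Nat.Coprime.pow_right
    rw [Nat.coprime_two_right]
    exact hs
  exact ⟨ZMod.unitOfCoprime s hcop, ZMod.coe_unitOfCoprime s hcop⟩

lemma eps_eq_sgn {m s k : ℕ} (u : (ZMod (2 ^ (m + 1)))ˣ)
    (hu : (u : ZMod (2 ^ (m + 1))) = (s : ZMod (2 ^ (m + 1)))) (hk : 0 < k) (hk' : k < 2 ^ m) :
    eps m u k = sgn m s k := by
  unfold eps sgn
  rw [← hu, ZMod.inv_coe_unit]
  set v : ZMod (2 ^ (m + 1)) := (k : ZMod (2 ^ (m + 1))) *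
    ((u⁻¹ : (ZMod (2 ^ (m + 1)))ˣ) : ZMod (2 ^ (m + 1))) with hv
  have hlt : k < 2 ^ (m + 1) := hk'.trans_le (Nat.pow_le_pow_right (by norm_num) (by omega))
  have hk0 : (k : ZMod (2 ^ (m + 1))) ≠ 0 := by
    rw [Ne, ZMod.natCast_eq_zero_iff]
    intro h
    have := Nat.le_of_dvd hk h
    omega
  have hv0 : v ≠ 0 := unit_mul_ne hk0 u⁻¹
  have huu : ((u⁻¹ : (ZMod (2 ^ (m + 1)))ˣ) : ZMod (2 ^ (m + 1))) * (u : ZMod (2 ^ (m + 1))) = 1 := by
    rw [← Units.val_mul, inv_mul_cancel, Units.val_one]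
  have hvne : v.val ≠ 2 ^ m := by
    intro h
    have h1 : v = ((2 ^ m : ℕ) : ZMod (2 ^ (m + 1))) := by rw [← h, ZMod.natCast_zmod_val]
    have h2 : (k : ZMod (2 ^ (m + 1))) = v * (u : ZMod (2 ^ (m + 1))) := by
      rw [hv, mul_assoc, huu, mul_one]
    have h3 : (2 : ZMod (2 ^ (m + 1))) * (k : ZMod (2 ^ (m + 1))) = 0 := by
      rw [h2, h1]
      have h4 : ((2 ^ (m + 1) : ℕ) : ZMod (2 ^ (m + 1))) = 0 := ZMod.natCast_self _
      push_cast at h4 ⊢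
      rw [← mul_assoc, ← pow_succ', h4, zero_mul]
    have h5 : ((2 * k : ℕ) : ZMod (2 ^ (m + 1))) = 0 := by push_cast; exact h3
    rw [ZMod.natCast_eq_zero_iff] at h5
    have h6 := Nat.le_of_dvd (by omega) h5
    have h7 : (2 : ℕ) ^ (m + 1) = 2 * 2 ^ m := by ring
    omega
  have hvlt := ZMod.val_lt v
  rw [ZMod.neg_val, if_neg hv0]
  have h7 : (2 : ℕ) ^ (m + 1) = 2 * 2 ^ m := by ring
  by_cases h : v.val < 2 ^ m
  · rw [if_pos h, if_neg (by omega)]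
  · rw [if_neg h, if_pos (by omega)]

/-- The truncated series. -/
def AA (m x s K0 : ℕ) : ℚ :=
  ∑ k ∈ Finset.range K0, (sgn m s (k + 1) : ℚ) * ((x : ℚ) ^ (k + 1) / ((k + 1 : ℕ) : ℚ))

/-- `E` is the index predicted by the law: `4 E ≡ s A` modulo `2^(m+3)`. -/
def IsInd (m x s K0 E : ℕ) : Prop :=
  ∃ d n : ℤ, Odd d ∧ (d : ℚ) * (4 * E - s * AA m x s K0) = 2 ^ (m + 3) * n

theorem index_law_aux {m : ℕ} {K : Type} [NormedField K] [IsUltrametricDist K] [CharZero K] {z : K}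
    (h2 : ‖(2 : K)‖ < 1) (hz : z ^ (2 ^ m) = -1) {p x T : ℕ} [hpp : Fact p.Prime]
    (hp : p = x ^ (2 ^ m) + 1) (hp2 : p ≠ 2) (hT : 2 ^ (m + 1) * T = x ^ (2 ^ m))
    {φ : MulChar (ZMod p) K} (hφ : IsRes m p x T z φ)
    (hm : 2 ≤ m) (hTe : Even T) (h2T : (2 : ZMod p) ^ T = 1) (hx : 4 ∣ x ∨ (2 ∣ x ∧ 3 ≤ m))
    {ψ : AddChar (ZMod p) K} (hψ : ψ.IsPrimitive)
    {s : ℕ} (hs : Odd s) {K0 : ℕ} (hKm : K0 < 2 ^ m)
    (hK0 : ∀ e o : ℕ, Odd o → K0 < 2 ^ e * o → 2 ^ (e + m + 3) ∣ x ^ (2 ^ e * o))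
    {E : ℕ} (hE : IsInd m x s K0 E) :
    ((x : ZMod p) ^ s - 1) ^ T = (x : ZMod p) ^ E := by
  have hK2 : (2 : K) ≠ 0 := two_ne_zero
  have h2p : 0 < ‖(2 : K)‖ := norm_pos_iff.mpr hK2
  obtain ⟨u, hu⟩ := unit_of_odd m hs
  set sv : ZMod (2 ^ (m + 1)) := (u : ZMod (2 ^ (m + 1))) with hsv
  have hsvodd : Odd sv.val := unit_val_odd u
  have hsv0 : sv ≠ 0 := by
    intro h
    rw [h, ZMod.val_zero] at hsvodd
    exact absurd hsvodd (by decide)
  have hml := moment_log h2 hz hp hp2 hT hφ hm hTe h2T hx hψ u K0 (by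
    intro k hk
    obtain ⟨e, o, ho, he⟩ := Nat.exists_eq_two_pow_mul_odd (Nat.succ_ne_zero k)
    have h3 := hK0 e o ho (by omega)
    rw [← he] at h3
    obtain ⟨c, hc⟩ := h3
    have h4 : (x : K) ^ (k + 1) = (2 : K) ^ (e + m + 3) * (c : K) := by
      have : ((x ^ (k + 1) : ℕ) : K) = ((2 ^ (e + m + 3) * c : ℕ) : K) := by
        rw [← hc]
      push_cast at this
      exact this
    have h5 : ‖((k + 1 : ℕ) : K)‖ = ‖(2 : K)‖ ^ e := by
      have h6 : k + 1 = 2 ^ e * o := he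
      rw [h6, norm_two_pow_mul_odd h2 ho]
    rw [norm_div, h4, h5, norm_mul, norm_pow, div_le_iff₀ (by positivity)]
    have h7 := um_nat (K := K) c
    calc ‖(2 : K)‖ ^ (e + m + 3) * ‖(c : K)‖ ≤ ‖(2 : K)‖ ^ (e + m + 3) * 1 := by gcongr
      _ = ‖(2 : K)‖ ^ (m + 3) * ‖(2 : K)‖ ^ e := by rw [mul_one, ← pow_add]; congr 1; ring)
  rw [← hsv] at hml
  set W := Wd m p x T sv with hW
  set A : K := ∑ k ∈ Finset.range K0,
        (eps m u (k + 1) : K) * ((x : K) ^ (k + 1) / ((k + 1 : ℕ) : K)) with hA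
  have hAQ : A = ((AA m x s K0 : ℚ) : K) := by
    rw [hA]
    unfold AA
    push_cast
    refine Finset.sum_congr rfl fun k hk => ?_
    rw [Finset.mem_range] at hk
    rw [eps_eq_sgn u hu (Nat.succ_pos k) (by omega)]
  -- size of A
  have h44 : ‖(4 : K)‖ = ‖(2 : K)‖ ^ 2 := by rw [← norm_pow]; norm_num
  have hsvn : ‖(sv.val : K)‖ = 1 := um_odd h2 hsvodd
  have hA4 : ‖A‖ ≤ ‖(2 : K)‖ ^ 2 := by
    have h3 : ‖(sv.val : K) * A‖ ≤ ‖(2 : K)‖ ^ 2 := by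
      have h4 : (sv.val : K) * A = 4 * ((T : K) * (sv.val : K) - (W : K)) -
          (4 * ((T : K) * (sv.val : K) - (W : K)) - (sv.val : K) * A) := by ring
      rw [h4]
      apply um_sub_le
      · rw [norm_mul, h44]
        have h5 : ‖(T : K) * (sv.val : K) - (W : K)‖ ≤ 1 := by
          have h6 := um_int (K := K) ((T : ℤ) * (sv.val : ℤ) - (W : ℤ))
          push_cast at h6
          exact h6
        calc _ ≤ ‖(2 : K)‖ ^ 2 * 1 := by gcongr
          _ = _ := mul_one _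
      · refine hml.trans ?_
        exact pow_le_pow_of_le_one h2p.le h2.le (by omega)
    rwa [norm_mul, hsvn, one_mul] at h3
  -- the predicted index
  obtain ⟨d, n, hd, hdn⟩ := hE
  have hdK : (d : K) * (4 * (E : K) - (s : K) * A) = 2 ^ (m + 3) * (n : K) := by
    rw [hAQ]
    have := congrArg (Rat.cast (K := K)) hdn
    push_cast at this
    exact this
  have hdn1 : ‖(d : K)‖ = 1 := by
    have h3 : ‖(d : K)‖ = ‖((d.natAbs : ℕ) : K)‖ := by
      rcases Int.natAbs_eq d with h | h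
      · conv_lhs => rw [h]
        rw [Int.cast_natCast]
      · conv_lhs => rw [h]
        rw [Int.cast_neg, norm_neg, Int.cast_natCast]
    rw [h3]
    exact um_odd h2 (Int.natAbs_odd.mpr hd)
  have hEA : ‖4 * (E : K) - (s : K) * A‖ ≤ ‖(2 : K)‖ ^ (m + 3) := by
    have h3 := congrArg norm hdK
    rw [norm_mul, hdn1, one_mul, norm_mul, norm_pow] at h3
    rw [h3]
    have h4 := um_int (K := K) n
    calc _ ≤ ‖(2 : K)‖ ^ (m + 3) * 1 := by gcongr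
      _ = _ := mul_one _
  -- passage from s to its residue
  have hsmod : sv.val = s % 2 ^ (m + 1) := by rw [hu, ZMod.val_natCast]
  set l := s / 2 ^ (m + 1) with hl
  have hsl : s = sv.val + 2 ^ (m + 1) * l := by rw [hsmod, hl]; exact (Nat.mod_add_div _ _).symm
  have hsA : ‖(s : K) * A - (sv.val : K) * A‖ ≤ ‖(2 : K)‖ ^ (m + 3) := by
    have h3 : (s : K) * A - (sv.val : K) * A = (2 : K) ^ (m + 1) * (l : K) * A := by
      have h4 : (s : K) = (sv.val : K) + (2 : K) ^ (m + 1) * (l : K) := by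
        conv_lhs => rw [hsl]
        push_cast
        ring
      rw [h4]; ring
    rw [h3, norm_mul, norm_mul, norm_pow]
    have h4 := um_nat (K := K) l
    calc _ ≤ ‖(2 : K)‖ ^ (m + 1) * 1 * ‖(2 : K)‖ ^ 2 := by gcongr
      _ = _ := by ring
  have hfin : ‖((4 * ((E : ℤ) - ((T : ℤ) * sv.val - W)) : ℤ) : K)‖ ≤ ‖(2 : K)‖ ^ (m + 3) := by
    have h3 : ((4 * ((E : ℤ) - ((T : ℤ) * sv.val - W)) : ℤ) : K) =
        (4 * (E : K) - (s : K) * A) + ((s : K) * A - (sv.val : K) * A) -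
        (4 * ((T : K) * (sv.val : K) - (W : K)) - (sv.val : K) * A) := by
      push_cast
      ring
    rw [h3]
    exact um_sub_le (um_add_le hEA hsA) hml
  have hdvd := int_dvd_of_norm h2 hK2 _ _ hfin
  have hdvd2 : (2 : ℤ) ^ (m + 1) ∣ (E : ℤ) - ((T : ℤ) * sv.val - W) := by
    have e1 : (2 : ℤ) ^ (m + 3) = 4 * 2 ^ (m + 1) := by ring
    rw [e1] at hdvd
    exact Int.dvd_of_mul_dvd_mul_left (by norm_num) hdvd
  -- the product formula
  have hrow : ∑ j : ZMod (2 ^ (m + 1)), cyc m p x T sv j = T := by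
    have h3 := hh_row hz hp hp2 hT hφ hm hTe h2T hx hψ sv
    rw [if_neg hsv0] at h3
    unfold hh at h3
    rw [Finset.sum_sub_distrib] at h3
    have h4 : ∑ j : ZMod (2 ^ (m + 1)), (if sv = j then (T : ℤ) else 0) = T := by simp
    rw [h4] at h3
    have h5 : ((∑ j : ZMod (2 ^ (m + 1)), cyc m p x T sv j : ℕ) : ℤ) = (T : ℤ) := by
      push_cast
      linarith
    exact_mod_cast h5
  have hpc := prod_class hp hp2 hT hsv0 hrow
  rw [← hW] at hpc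
  have hc := ci_prim hp hp2
  have hcx : ci m p x * (x : ZMod p) = 1 := cpow hp
  have hxN : (x : ZMod p) ^ (2 ^ (m + 1)) = 1 := by
    rw [pow_succ, pow_mul, xpow hp]
    ring
  have hexs : ex (ci m p x) sv = (ci m p x) ^ s := by
    rw [hu, ex_natCast hc.pow_eq_one]
  rw [hexs] at hpc
  have hxs : (x : ZMod p) ^ s - 1 = (x : ZMod p) ^ s * (1 - (ci m p x) ^ s) := by
    have h3 : (x : ZMod p) ^ s * (ci m p x) ^ s = 1 := by
      rw [← mul_pow, mul_comm, hcx, one_pow]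
    linear_combination h3
  rw [hxs, mul_pow, hpc, ← pow_mul]
  -- exponents
  have hexp : (x : ZMod p) ^ (E + W) = (x : ZMod p) ^ (s * T) := by
    have h3 : (E + W) ≡ s * T [MOD 2 ^ (m + 1)] := by
      rw [Nat.modEq_iff_dvd]
      have h4 : ((s * T : ℕ) : ℤ) - ((E + W : ℕ) : ℤ) =
          (2 : ℤ) ^ (m + 1) * (l * T) - ((E : ℤ) - ((T : ℤ) * sv.val - W)) := by
        have h5 : (s : ℤ) = (sv.val : ℤ) + (2 : ℤ) ^ (m + 1) * (l : ℤ) := by
          conv_lhs => rw [hsl]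
          push_cast
          ring
        push_cast
        rw [h5]
        ring
      rw [h4]
      push_cast
      exact dvd_sub (Dvd.intro _ rfl) hdvd2
    rw [← Nat.mod_add_div (E + W) (2 ^ (m + 1)), h3, pow_add, pow_mul, hxN, one_pow, mul_one]
    conv_rhs => rw [← Nat.mod_add_div (s * T) (2 ^ (m + 1)), pow_add, pow_mul, hxN, one_pow,
      mul_one]
  rw [← hexp, pow_add, mul_assoc, ← mul_pow, mul_comm (x : ZMod p) (ci m p x), hcx, one_pow,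
    mul_one]

theorem index_law {m p x T : ℕ} [hpp : Fact p.Prime] (hp : p = x ^ (2 ^ m) + 1) (hp2 : p ≠ 2)
    (hT : 2 ^ (m + 1) * T = x ^ (2 ^ m)) (hm : 2 ≤ m) (hTe : Even T)
    (h2T : (2 : ZMod p) ^ T = 1) (hx : 4 ∣ x ∨ (2 ∣ x ∧ 3 ≤ m)) {s : ℕ} (hs : Odd s) {K0 : ℕ}
    (hKm : K0 < 2 ^ m)
    (hK0 : ∀ e o : ℕ, Odd o → K0 < 2 ^ e * o → 2 ^ (e + m + 3) ∣ x ^ (2 ^ e * o))
    {E : ℕ} (hE : IsInd m x s K0 E) :
    ((x : ZMod p) ^ s - 1) ^ T = (x : ZMod p) ^ E := by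
  let K := PadicAlgCl 2
  have h2 : ‖(2 : K)‖ < 1 := by
    have h3 : (2 : K) = algebraMap ℚ_[2] K 2 := (map_ofNat _ 2).symm
    rw [h3]
    have h4 := PadicAlgCl.norm_extends 2 (2 : ℚ_[2])
    rw [h4]
    have h5 := Padic.norm_p_lt_one (p := 2)
    exact_mod_cast h5
  obtain ⟨ω, hω⟩ := HasEnoughRootsOfUnity.exists_primitiveRoot K p
  set ψ : AddChar (ZMod p) K := AddChar.zmodChar p ((IsPrimitiveRoot.iff_def ω p).mp hω).left
  have hψ : ψ.IsPrimitive := AddChar.zmodChar_primitive_of_primitive_root p hω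
  obtain ⟨z, hz⟩ := IsAlgClosed.exists_pow_nat_eq (-1 : K) (n := 2 ^ m) (by positivity)
  obtain ⟨O, _, ζ, H⟩ := exists_cycRing (m + 1) (by omega)
  obtain ⟨τ, hτ⟩ := H.lift K z (by rw [Nat.add_sub_cancel]; exact hz)
  obtain ⟨χ, hχ⟩ := H.exists_chi hp hp2 hT
  have hχ : IsRes m p x T ζ χ := hχ
  set φ := χ.ringHomComp τ with hφdef
  have hφ : IsRes m p x T z φ := by
    intro u hu
    obtain ⟨j, hj1, hj2⟩ := hχ u hu
    refine ⟨j, ?_, hj2⟩
    rw [hφdef, MulChar.ringHomComp_apply, hj1, map_ex, hτ]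
  exact index_law_aux h2 hz hp hp2 hT hφ hm hTe h2T hx hψ hs hKm hK0 hE

end Pool.Agent.Y875.FP
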