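import Pool.Agent.Y875.FP.MerG
import Pool.Agent.Y875.FP.Conv

/-!
The index of `2^s - 1`, `s` odd, modulo a Fermat prime, and the converse.
-/

open Polynomial

namespace Pool.Agent.Y875.FP

/-- Rational numbers in `4 ℤ_(2)`. -/
def Q4 (q : ℚ) : Prop := ∃ d B : ℤ, Odd d ∧ (d : ℚ) * q = 4 * B

lemma Q4_add {a b : ℚ} (ha : Q4 a) (hb : Q4 b) : Q4 (a + b) := by
  obtain ⟨d, B, hd, h1⟩ := ha
  obtain ⟨d', B', hd', h1'⟩ := hb
  refine ⟨d * d', d' * B + d * B', hd.mul hd', ?_⟩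
  push_cast
  linear_combination (d' : ℚ) * h1 + (d : ℚ) * h1'

lemma Q4_mul_int {a : ℚ} (ha : Q4 a) (c : ℤ) : Q4 (c * a) := by
  obtain ⟨d, B, hd, h1⟩ := ha
  refine ⟨d, c * B, hd, ?_⟩
  push_cast
  linear_combination (c : ℚ) * h1

lemma Q4_term (k : ℕ) (hk : 2 ≤ k) : Q4 ((2 : ℚ) ^ (k + 1) / ((k + 1 : ℕ) : ℚ)) := by
  obtain ⟨e, o, ho, he⟩ := Nat.exists_eq_two_pow_mul_odd (Nat.succ_ne_zero k)
  have he' : k + 1 = 2 ^ e * o := he
  have ho1 : 1 ≤ o := ho.pos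
  have h1 : e + 2 ≤ k + 1 := by
    have h2 : 2 ^ e ≤ k + 1 := by rw [he']; exact Nat.le_mul_of_pos_right _ ho.pos
    have h3 : ∀ e : ℕ, 2 ≤ e → e + 2 ≤ 2 ^ e := by
      intro e he
      induction e, he using Nat.le_induction with
      | base => norm_num
      | succ e he ih => rw [pow_succ]; omega
    rcases Nat.lt_or_ge e 2 with h4 | h4
    · omega
    · exact (h3 e h4).trans h2
  obtain ⟨c, hc⟩ : ∃ c, k + 1 = e + 2 + c := ⟨k + 1 - (e + 2), by omega⟩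
  refine ⟨o, 2 ^ c, by exact_mod_cast ho, ?_⟩
  have h3 : ((k + 1 : ℕ) : ℚ) = 2 ^ e * o := by rw [he']; push_cast; ring
  have h4 : (o : ℚ) ≠ 0 := by
    have : o ≠ 0 := by omega
    exact_mod_cast this
  rw [h3, hc, pow_add, pow_add]
  push_cast
  field_simp
  norm_num

lemma sgn_or (m s k : ℕ) : sgn m s k = 1 ∨ sgn m s k = -1 := by
  unfold sgn
  split_ifs
  · left; rfl
  · right; rfl

lemma Q4_AA (m s K : ℕ) : Q4 (AA m 2 s (K + 2)) := by
  unfold AA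
  rw [Finset.sum_range_succ' _ (K + 1), Finset.sum_range_succ' _ K, add_assoc]
  apply Q4_add
  · apply Finset.sum_induction _ Q4
    · intro a b ha hb
      exact Q4_add ha hb
    · exact ⟨1, 0, odd_one, by simp⟩
    · intro k _
      exact Q4_mul_int (Q4_term (k + 1 + 1) (by omega)) (sgn m s (k + 1 + 1 + 1))
  · rcases sgn_or m s 2 with h2 | h2 <;> rcases sgn_or m s 1 with h1 | h1
    · exact ⟨1, 1, odd_one, by norm_num [h1, h2]⟩
    · exact ⟨1, 0, odd_one, by norm_num [h1, h2]⟩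
    · exact ⟨1, 0, odd_one, by norm_num [h1, h2]⟩
    · exact ⟨1, -1, odd_one, by norm_num [h1, h2]⟩

/-- Existence of the predicted index. -/
lemma exists_isInd (m s K : ℕ) : ∃ E : ℕ, IsInd m 2 s (K + 2) E := by
  obtain ⟨d, B, hd, h1⟩ := Q4_mul_int (Q4_AA m s K) (s : ℤ)
  have hcop : IsCoprime (d : ℤ) ((2 : ℤ) ^ (m + 1)) := by
    apply IsCoprime.pow_right
    obtain ⟨c, hc⟩ := hd
    exact ⟨1, -c, by rw [hc]; ring⟩
  obtain ⟨u, v, huv⟩ := hcop
  -- `E ≡ u B`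
  have hpos : (0 : ℤ) < 2 ^ (m + 1) := by positivity
  refine ⟨((u * B) % (2 ^ (m + 1))).toNat, d, -(v * B) - d * ((u * B) / 2 ^ (m + 1)), hd, ?_⟩
  have h2 : ((((u * B) % (2 ^ (m + 1))).toNat : ℕ) : ℤ) = (u * B) % (2 ^ (m + 1)) :=
    Int.toNat_of_nonneg (Int.emod_nonneg _ hpos.ne')
  have h3 : (((((u * B) % (2 ^ (m + 1))).toNat : ℕ)) : ℚ) =
      (((u * B) % (2 ^ (m + 1)) : ℤ) : ℚ) := by exact_mod_cast h2
  have h4 := Int.emod_add_mul_ediv (u * B) (2 ^ (m + 1))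
  have h5 : (((u * B) % (2 ^ (m + 1)) : ℤ) : ℚ) + 2 ^ (m + 1) * (((u * B) / 2 ^ (m + 1) : ℤ) : ℚ) =
      (u : ℚ) * B := by exact_mod_cast h4
  have h6 : (u : ℚ) * d + v * 2 ^ (m + 1) = 1 := by exact_mod_cast huv
  rw [h3]
  push_cast at h1 h5 ⊢
  have e1 : (2 : ℚ) ^ (m + 3) = 4 * 2 ^ (m + 1) := by ring
  rw [e1]
  linear_combination 4 * (d : ℚ) * h5 - h1 + 4 * (B : ℚ) * h6

lemma prec_two {m e o : ℕ} (ho : Odd o) (h : 2 * m + 4 < 2 ^ e * o) :
    2 ^ (e + m + 3) ∣ 2 ^ (2 ^ e * o) := by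
  apply pow_dvd_pow
  have h1 : 2 ^ e ≤ 2 ^ e * o := Nat.le_mul_of_pos_right _ ho.pos
  have h2 : ∀ e : ℕ, 2 * e ≤ 2 ^ e := by
    intro e
    induction e with
    | zero => norm_num
    | succ e ih =>
      rcases Nat.eq_zero_or_pos e with h | h
      · subst h; norm_num
      · rw [pow_succ]; omega
  have h3 := h2 e
  omega

/-- The index law for the numbers `2^s - 1`. -/
theorem mersenne_index {m s E : ℕ} (hm : 4 ≤ m) (hs : Odd s) (hE : IsInd m 2 s (2 * m + 4) E)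
    (hF : (Nat.fermatNumber m).Prime) :
    ((2 : ZMod (Nat.fermatNumber m)) ^ s - 1) ^ (2 ^ (2 ^ m - (m + 1))) = 2 ^ E := by
  have : Fact (Nat.fermatNumber m).Prime := ⟨hF⟩
  have hbig : ∀ m : ℕ, 4 ≤ m → 2 * m + 4 < 2 ^ m := by
    intro m hm
    induction m, hm using Nat.le_induction with
    | base => norm_num
    | succ m hm ih => rw [pow_succ]; omega
  have hb := hbig m hm
  have hp : Nat.fermatNumber m = 2 ^ (2 ^ m) + 1 := rfl
  have hT : 2 ^ (m + 1) * 2 ^ (2 ^ m - (m + 1)) = 2 ^ (2 ^ m) := by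
    rw [← pow_add]
    congr 1
    omega
  have hTe : Even (2 ^ (2 ^ m - (m + 1))) := by
    apply Even.pow_of_ne_zero even_two
    omega
  have h2T : (2 : ZMod (Nat.fermatNumber m)) ^ (2 ^ (2 ^ m - (m + 1))) = 1 := by
    have h1 := xpow (x := 2) hp
    push_cast at h1
    have h2 : 2 ^ (2 ^ m - (m + 1)) = 2 ^ m * (2 * 2 ^ (2 ^ m - (m + 1) - (m + 1))) := by
      rw [← pow_succ', ← pow_add]
      congr 1
      omega
    rw [h2, pow_mul, h1, pow_mul]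
    norm_num
  have h3 := Nat.three_le_fermatNumber m
  have h4 := index_law (x := 2) hp (by omega) hT (by omega) hTe h2T
    (Or.inr ⟨dvd_rfl, by omega⟩) hs hb (fun e o ho h => prec_two ho h) hE
  push_cast at h4
  exact h4

theorem mersenne_conv {m s E : ℕ} (hm : 4 ≤ m) (hE : ¬ 2 ^ (m + 1) ∣ E)
    (h : ((2 : ZMod (Nat.fermatNumber m)) ^ s - 1) ^ (2 ^ (2 ^ m - (m + 1))) = 2 ^ E) :
    (Nat.fermatNumber m).Prime := by
  have h0 : 0 + m = m := zero_add m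
  have h1 := conv (j := 0) (r := m) (b := 2 ^ s - 1) (y := (2 ^ (m + 1) - 1) * E) (by omega) ?_ ?_
  · rwa [h0] at h1
  · intro hd
    apply hE
    have hcop : Nat.Coprime (2 ^ (m + 1)) (2 ^ (m + 1) - 1) := by
      have := Nat.coprime_self_sub_right (m := 1) (n := 2 ^ (m + 1)) Nat.one_le_two_pow
      rw [this]
      exact Nat.coprime_one_right _
    exact hcop.dvd_of_dvd_mul_left hd
  · rw [h0]
    have h2 : (((2 ^ s - 1 : ℕ)) : ZMod (Nat.fermatNumber m)) = 2 ^ s - 1 := by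
      rw [Nat.cast_sub Nat.one_le_two_pow]
      push_cast
      ring
    rw [h2, h, ← pow_add, pow_zero, one_mul]
    have h3 : E + (2 ^ (m + 1) - 1) * E = 2 ^ m * (2 * E) := by
      have h4 : 1 ≤ 2 ^ (m + 1) := Nat.one_le_two_pow
      have h5 : 1 + (2 ^ (m + 1) - 1) = 2 ^ (m + 1) := by omega
      calc E + (2 ^ (m + 1) - 1) * E = (1 + (2 ^ (m + 1) - 1)) * E := by ring
        _ = 2 ^ (m + 1) * E := by rw [h5]
        _ = _ := by ring
    rw [h3]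
    have h6 := xpow (m := m) (p := Nat.fermatNumber m) (x := 2) rfl
    push_cast at h6
    rw [pow_mul, h6, pow_mul]
    norm_num

end Pool.Agent.Y875.FP
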