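import Pool.Agent.Y875.FP.Lam

/-!
Gaussian periods and the Galois action on Gauss sums, `2`-adically.
-/

open Polynomial

namespace Pool.Agent.Y875.FP

section

variable {K : Type} [NormedField K] [IsUltrametricDist K]

lemma um_sum_le {ι : Type} (S : Finset ι) {f : ι → K} {r : ℝ} (hr : 0 ≤ r)
    (hf : ∀ i ∈ S, ‖f i‖ ≤ r) : ‖∑ i ∈ S, f i‖ ≤ r := by
  apply Finset.sum_induction _ (fun y => ‖y‖ ≤ r)
  · intro a b ha hb
    exact um_add_le ha hb
  · rw [norm_zero]; exact hr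
  · exact hf

lemma um_sum_lt {ι : Type} (S : Finset ι) {f : ι → K} {r : ℝ} (hr : 0 < r)
    (hf : ∀ i ∈ S, ‖f i‖ < r) : ‖∑ i ∈ S, f i‖ < r := by
  apply Finset.sum_induction _ (fun y => ‖y‖ < r)
  · intro a b ha hb
    exact um_add_lt ha hb
  · rw [norm_zero]; exact hr
  · exact hf

lemma um_sum_sq {ι : Type} (S : Finset ι) {f : ι → K} (hf : ∀ i, ‖f i‖ ≤ 1) :
    ∃ c : K, ‖c‖ ≤ 1 ∧ (∑ i ∈ S, f i) ^ 2 = ∑ i ∈ S, f i ^ 2 + 2 * c := by
  classical
  induction S using Finset.induction_on with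
  | empty => exact ⟨0, by simp, by simp⟩
  | insert a S ha ih =>
    obtain ⟨c, hc, hc2⟩ := ih
    refine ⟨c + f a * ∑ i ∈ S, f i, ?_, ?_⟩
    · apply um_add_le hc
      rw [norm_mul]
      have h1 := hf a
      have h2 := um_sum_le S zero_le_one (fun i _ => hf i)
      have h3 := norm_nonneg (f a)
      have h4 := norm_nonneg (∑ i ∈ S, f i)
      nlinarith
    · rw [Finset.sum_insert ha, Finset.sum_insert ha, add_sq, hc2]
      ring

lemma um_idem (h20 : (2 : K) ≠ 0) {e : K} (he : ‖e ^ 2 - e‖ ≤ ‖(2 : K)‖) :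
    ∃ (b : ℕ) (r : K), ‖r‖ ≤ 1 ∧ e = b + 2 * r := by
  have h2p : 0 < ‖(2 : K)‖ := norm_pos_iff.mpr h20
  have h1 : ‖e‖ * ‖e - 1‖ ≤ ‖(2 : K)‖ := by
    rw [← norm_mul]
    have : e * (e - 1) = e ^ 2 - e := by ring
    rw [this]; exact he
  have h3 : 1 ≤ max ‖e‖ ‖e - 1‖ := by
    have h4 : (1 : K) = e - (e - 1) := by ring
    have h5 : ‖(1 : K)‖ ≤ max ‖e‖ ‖e - 1‖ := by
      conv_lhs => rw [h4]
      exact um_sub_le (le_max_left _ _) (le_max_right _ _)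
    rwa [norm_one] at h5
  rcases le_max_iff.mp h3 with h5 | h5
  · refine ⟨1, (e - 1) / 2, ?_, ?_⟩
    · rw [norm_div, div_le_one h2p]
      have := norm_nonneg (e - 1)
      nlinarith
    · field_simp
      push_cast
      ring
  · refine ⟨0, e / 2, ?_, ?_⟩
    · rw [norm_div, div_le_one h2p]
      have := norm_nonneg e
      nlinarith
    · field_simp
      push_cast
      ring

variable {p : ℕ} [hpp : Fact p.Prime] (ψ : AddChar (ZMod p) K)

omit [IsUltrametricDist K] in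
lemma norm_psi (u : ZMod p) : ‖ψ u‖ = 1 := by
  have h1 : (ψ u) ^ p = 1 := by
    rw [← AddChar.map_nsmul_eq_pow]
    simp
  have h2 := congrArg norm h1
  rw [norm_pow, norm_one] at h2
  exact (pow_eq_one_iff_of_nonneg (norm_nonneg _) hpp.out.ne_zero).mp h2

open Classical in
/-- Gaussian periods. -/
noncomputable def eta (φ : MulChar (ZMod p) K) (ψ : AddChar (ZMod p) K) (v : K) : K :=
  ∑ u ∈ Finset.univ.filter (fun u : ZMod p => u ≠ 0 ∧ φ u = v), ψ u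

open Classical in
lemma eta_frob (hp2 : p ≠ 2) {φ : MulChar (ZMod p) K} (h2 : φ 2 = 1) (v : K) :
    ‖eta φ ψ v ^ 2 - eta φ ψ v‖ ≤ ‖(2 : K)‖ := by
  unfold eta
  obtain ⟨c, hc, hc2⟩ := um_sum_sq (Finset.univ.filter (fun u : ZMod p => u ≠ 0 ∧ φ u = v))
    (f := fun u => ψ u) (fun u => (norm_psi ψ u).le)
  rw [hc2]
  have h20 : (2 : ZMod p) ≠ 0 := by
    intro h
    have h3 : ((2 : ℕ) : ZMod p) = 0 := by exact_mod_cast h
    rw [ZMod.natCast_eq_zero_iff] at h3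
    exact hp2 ((Nat.prime_dvd_prime_iff_eq hpp.out Nat.prime_two).mp h3)
  have h3 : ∑ u ∈ Finset.univ.filter (fun u : ZMod p => u ≠ 0 ∧ φ u = v), (ψ u) ^ 2 =
      ∑ u ∈ Finset.univ.filter (fun u : ZMod p => u ≠ 0 ∧ φ u = v), ψ u := by
    refine Finset.sum_equiv (Equiv.mulLeft₀ 2 h20) ?_ ?_
    · intro u
      simp only [Finset.mem_filter, Finset.mem_univ, true_and, Equiv.mulLeft₀_apply, map_mul, h2,
        one_mul, ne_eq, mul_eq_zero, h20, false_or]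
    · intro u _
      rw [Equiv.mulLeft₀_apply, ← AddChar.map_nsmul_eq_pow]
      congr 1
      simp
  rw [h3, add_sub_cancel_left, norm_mul]
  have := norm_nonneg (2 : K)
  nlinarith [norm_nonneg c]

end

section

variable {m : ℕ} {K : Type} [NormedField K] {z : K} (hz : IsPrimitiveRoot z (2 ^ (m + 1)))
  {p x T : ℕ} [hpp : Fact p.Prime] {φ : MulChar (ZMod p) K} (hφ : IsRes m p x T z φ)
  (ψ : AddChar (ZMod p) K)

include hz hφ in
lemma gauss_eta (a : ℕ) :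
    gaussSum (φ ^ a) ψ = ∑ j : ZMod (2 ^ (m + 1)), (ex z j) ^ a * eta φ ψ (ex z j) := by
  classical
  unfold eta gaussSum
  have h1 : ∀ j : ZMod (2 ^ (m + 1)), (ex z j) ^ a *
      ∑ u ∈ Finset.univ.filter (fun u : ZMod p => u ≠ 0 ∧ φ u = ex z j), ψ u =
      ∑ u : ZMod p, if (u ≠ 0 ∧ φ u = ex z j) then (φ ^ a) u * ψ u else 0 := by
    intro j
    rw [Finset.mul_sum, Finset.sum_filter]
    refine Finset.sum_congr rfl fun u _ => ?_
    split_ifs with h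
    · have h4 := MulChar.pow_apply_coe φ a (Units.mk0 u h.1)
      rw [Units.val_mk0] at h4
      rw [h4, h.2]
    · rfl
  rw [Finset.sum_congr rfl fun j _ => h1 j, Finset.sum_comm]
  refine Finset.sum_congr rfl fun u _ => ?_
  by_cases hu : u = 0
  · rw [hu, MulChar.map_zero, zero_mul]
    simp
  · obtain ⟨j, hj, _⟩ := hφ u hu
    rw [Finset.sum_eq_single j]
    · rw [if_pos ⟨hu, hj⟩]
    · intro i _ hij
      rw [if_neg]
      rintro ⟨_, h⟩
      apply hij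
      apply ex_injective hz
      rw [← h, hj]
    · intro h
      exact absurd (Finset.mem_univ _) h

end

section

variable {m : ℕ} {O : Type} [CommRing O] {ζ : O} (H : CycRing (m + 1) O ζ)
  {K : Type} [NormedField K] [IsUltrametricDist K] (h2 : ‖(2 : K)‖ < 1)
  (h20 : (2 : K) ≠ 0) (τ : O →+* K)
  {p x T : ℕ} [hpp : Fact p.Prime] (hp2 : p ≠ 2) {φ : MulChar (ZMod p) K}
  (hφ : IsRes m p x T (τ ζ) φ) (hφ2 : φ 2 = 1) (ψ : AddChar (ZMod p) K)

include H h2 h20 hp2 hφ hφ2 in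
theorem CycRing.galois_close {j : ℕ} (hj : ‖-gaussSum φ ψ - (τ ζ) ^ j‖ < ‖(2 : K)‖) {a : ℕ}
    (ha : Odd a) : ‖-gaussSum (φ ^ a) ψ - ((τ ζ) ^ j) ^ a‖ < ‖(2 : K)‖ := by
  have h2p : 0 < ‖(2 : K)‖ := norm_pos_iff.mpr h20
  have hz : IsPrimitiveRoot (τ ζ) (2 ^ (m + 1)) := prim_of_half (map_half H τ) h20
  choose b r hr hb using fun i : ZMod (2 ^ (m + 1)) =>
    um_idem h20 (eta_frob ψ hp2 hφ2 (ex (τ ζ) i))
  have hG : ∀ c : ℕ, gaussSum (φ ^ c) ψ = ∑ i : ZMod (2 ^ (m + 1)), (ex (τ ζ) i) ^ c * (b i : K) +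
      2 * ∑ i : ZMod (2 ^ (m + 1)), (ex (τ ζ) i) ^ c * r i := by
    intro c
    rw [gauss_eta hz hφ ψ c, Finset.mul_sum, ← Finset.sum_add_distrib]
    refine Finset.sum_congr rfl fun i _ => ?_
    conv_lhs => rw [hb i]
    ring
  obtain ⟨σ, hσ⟩ := H.lift O (ζ ^ a) (by
    rw [Nat.add_sub_cancel, ← pow_mul, mul_comm, pow_mul, H.pow_half, ha.neg_one_pow])
  set β : O := ∑ i : ZMod (2 ^ (m + 1)), (ex ζ i) * (b i : O) with hβ
  set y : O := β + ζ ^ j with hy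
  have hτy : τ y = ∑ i : ZMod (2 ^ (m + 1)), (ex (τ ζ) i) ^ 1 * (b i : K) + (τ ζ) ^ j := by
    rw [hy, hβ, map_add, map_sum, map_pow]
    congr 1
    refine Finset.sum_congr rfl fun i _ => ?_
    rw [map_mul, map_natCast, map_ex, pow_one]
  have hτσy : τ (σ y) = ∑ i : ZMod (2 ^ (m + 1)), (ex (τ ζ) i) ^ a * (b i : K) +
      ((τ ζ) ^ j) ^ a := by
    rw [hy, hβ, map_add, map_sum, map_pow, hσ, map_add, map_sum]
    congr 1
    · refine Finset.sum_congr rfl fun i _ => ?_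
      rw [map_mul, map_mul, map_natCast, map_natCast, map_ex, hσ]
      congr 1
      unfold ex
      rw [map_pow, map_pow, ← pow_mul, ← pow_mul, mul_comm]
    · rw [map_pow, map_pow, ← pow_mul, ← pow_mul, mul_comm]
  have hr1 : ∀ c : ℕ, ‖∑ i : ZMod (2 ^ (m + 1)), (ex (τ ζ) i) ^ c * r i‖ ≤ 1 := by
    intro c
    apply um_sum_le _ zero_le_one
    intro i _
    unfold ex
    rw [norm_mul, norm_pow, norm_pow, H.norm_z τ, one_pow, one_pow, one_mul]
    exact hr i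
  have hG1 := hG 1
  rw [pow_one] at hG1
  have e1 : τ y = -(-gaussSum φ ψ - (τ ζ) ^ j) -
      2 * ∑ i : ZMod (2 ^ (m + 1)), (ex (τ ζ) i) ^ 1 * r i := by
    rw [hτy, hG1]
    ring
  have e2 : ‖τ y‖ ≤ ‖(2 : K)‖ := by
    rw [e1]
    apply um_sub_le
    · rw [norm_neg]
      exact hj.le
    · rw [norm_mul]
      have := hr1 1
      nlinarith
  obtain ⟨y', hy'⟩ := H.two_dvd_of_norm h2 h20 τ e2
  have e3 : τ (σ y) - τ y = 2 * τ (σ y' - y') := by
    rw [hy', map_mul, map_ofNat, map_mul, map_mul, map_ofNat, map_sub]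
    ring
  have e4 : ‖τ (σ y) - τ y‖ < ‖(2 : K)‖ := by
    rw [e3, norm_mul]
    have := H.norm_lt_of_dvd h2 τ (H.sigma_sub ha.pos hσ y')
    nlinarith
  have e5 : ‖∑ i : ZMod (2 ^ (m + 1)), ((ex (τ ζ) i) ^ a - (ex (τ ζ) i) ^ 1) * r i‖ < 1 := by
    apply um_sum_lt _ one_pos
    intro i _
    rw [norm_mul]
    have h5 : (ex (τ ζ) i) ^ a - (ex (τ ζ) i) ^ 1 = τ (σ (ex ζ i) - ex ζ i) := by
      rw [map_sub, map_ex, map_ex, map_ex, hσ, map_pow, pow_one]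
      congr 1
      unfold ex
      rw [← pow_mul, ← pow_mul, mul_comm]
    rw [h5]
    have h6 := H.norm_lt_of_dvd h2 τ (H.sigma_sub ha.pos hσ (ex ζ i))
    have h7 := hr i
    have h8 := norm_nonneg (r i)
    have h9 := norm_nonneg (τ (σ (ex ζ i) - ex ζ i))
    nlinarith
  have e6 : -gaussSum (φ ^ a) ψ - ((τ ζ) ^ j) ^ a = (-gaussSum φ ψ - (τ ζ) ^ j) -
      (τ (σ y) - τ y) -
      2 * ∑ i : ZMod (2 ^ (m + 1)), ((ex (τ ζ) i) ^ a - (ex (τ ζ) i) ^ 1) * r i := by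
    simp only [sub_mul, Finset.sum_sub_distrib]
    rw [hτσy, hτy, hG a, hG1]
    ring
  rw [e6]
  apply um_sub_lt
  · exact um_sub_lt hj e4
  · rw [norm_mul]
    nlinarith

end

end Pool.Agent.Y875.FP
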