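import Pool.Agent.Y875.FP.Abound

/-!
A second version of the Galois action on Gauss sums, for `a ≡ 1 mod 4`, with weaker hypotheses.
-/

open Polynomial

namespace Pool.Agent.Y875.FP

section

variable {m : ℕ} {O : Type} [CommRing O] {ζ : O} (H : CycRing (m + 1) O ζ)
include H

lemma CycRing.sigma_dvd {a : ℕ} {σ : O →+* O} (hσ : σ ζ = ζ ^ a) (y : O) :
    (ζ ^ a - ζ) ∣ σ y - y := by
  obtain ⟨f, rfl⟩ := H.gen y
  have h1 : σ (aeval ζ f) = aeval (ζ ^ a) f := by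
    have := aeval_algHom_apply σ.toIntAlgHom ζ f
    rw [← hσ]
    exact this.symm
  rw [h1]
  exact sub_dvd_aeval_sub (ζ ^ a) ζ f

lemma CycRing.lam4 (hm : 1 ≤ m) (b : ℕ) : (1 - ζ) ^ 4 ∣ ζ ^ (4 * b + 1) - ζ := by
  have hM : 2 ≤ 2 ^ m := by
    calc 2 = 2 ^ 1 := by norm_num
      _ ≤ 2 ^ m := Nat.pow_le_pow_right (by norm_num) hm
  have h1 : (1 - ζ) ∣ 1 + ζ := by
    have h3 : 1 + ζ = (1 - ζ) + 2 * ζ := by ring
    rw [h3]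
    exact dvd_add (dvd_refl _) (H.lam_dvd_two.mul_right _)
  have h2 : (1 - ζ) ^ 2 ∣ 1 + ζ ^ 2 := by
    have h3 : 1 + ζ ^ 2 = (1 - ζ) ^ 2 + 2 * ζ := by ring
    rw [h3]
    exact dvd_add (dvd_refl _) (((pow_dvd_pow _ hM).trans H.lam_pow_dvd_two).mul_right _)
  have h3 : (1 - ζ) ^ 4 ∣ 1 - ζ ^ 4 := by
    have h4 : (1 - ζ) ^ 4 = (1 - ζ) * (1 - ζ) * (1 - ζ) ^ 2 := by ring
    have h5 : 1 - ζ ^ 4 = (1 - ζ) * (1 + ζ) * (1 + ζ ^ 2) := by ring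
    rw [h4, h5]
    exact mul_dvd_mul (mul_dvd_mul (dvd_refl _) h1) h2
  have h4 : ζ ^ (4 * b + 1) - ζ = (1 - (ζ ^ 4) ^ b) * (-ζ) := by
    rw [← pow_mul]
    ring
  rw [h4]
  apply Dvd.dvd.mul_right
  have := sub_dvd_pow_sub_pow (1 : O) (ζ ^ 4) b
  rw [one_pow] at this
  exact h3.trans this

lemma CycRing.sigma4 (hm : 1 ≤ m) {b n : ℕ} {σ : O →+* O} (hσ : σ ζ = ζ ^ (4 * b + 1)) {Y : O}
    (hY : (1 - ζ) ^ n ∣ Y) : (1 - ζ) ^ (n + 3) ∣ σ Y - Y := by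
  obtain ⟨Y', rfl⟩ := hY
  obtain ⟨c, hc⟩ := H.lam4 hm b
  obtain ⟨d, hd⟩ := (H.lam4 hm b).trans (H.sigma_dvd hσ Y')
  have h1 : σ (1 - ζ) = (1 - ζ) * (1 - (1 - ζ) ^ 3 * c) := by
    rw [map_sub, map_one, hσ]
    linear_combination -hc
  have h2 : (1 - ζ) ^ 3 ∣ (1 - (1 - ζ) ^ 3 * c) ^ n - 1 := by
    have h3 := sub_dvd_pow_sub_pow (1 - (1 - ζ) ^ 3 * c) 1 n
    rw [one_pow] at h3
    refine Dvd.dvd.trans ?_ h3
    exact ⟨-c, by ring⟩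
  obtain ⟨e, he⟩ := h2
  rw [map_mul, map_pow, h1]
  refine ⟨e * σ Y' + (1 - ζ) * d, ?_⟩
  rw [mul_pow]
  have h4 : (1 - (1 - ζ) ^ 3 * c) ^ n = 1 + (1 - ζ) ^ 3 * e := by linear_combination he
  rw [h4, pow_add]
  linear_combination (1 - ζ) ^ n * hd

end

section

variable {m : ℕ} {O : Type} [CommRing O] {ζ : O} (H : CycRing (m + 1) O ζ)
  {K : Type} [NormedField K] [IsUltrametricDist K] (h2 : ‖(2 : K)‖ < 1)
  (h20 : (2 : K) ≠ 0) (τ : O →+* K)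
  {p x T : ℕ} [hpp : Fact p.Prime] (hp2 : p ≠ 2) {φ : MulChar (ZMod p) K}
  (hφ : IsRes m p x T (τ ζ) φ) (hφ2 : φ 2 = 1) (ψ : AddChar (ZMod p) K)

include H h2 h20 hp2 hφ hφ2 in
theorem CycRing.galois_close2 (hm : 1 ≤ m) {j : ℕ}
    (hj : ‖-gaussSum φ ψ - (τ ζ) ^ j‖ * ‖τ (1 - ζ)‖ ^ 2 ≤ ‖(2 : K)‖) (b0 : ℕ) :
    ‖-gaussSum (φ ^ (4 * b0 + 1)) ψ / ((τ ζ) ^ j) ^ (4 * b0 + 1) -
      (-gaussSum φ ψ / (τ ζ) ^ j)‖ < ‖(2 : K)‖ := by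
  set a := 4 * b0 + 1 with hadef
  have ha : Odd a := ⟨2 * b0, by omega⟩
  have hM : 2 ≤ 2 ^ m := by
    calc 2 = 2 ^ 1 := by norm_num
      _ ≤ 2 ^ m := Nat.pow_le_pow_right (by norm_num) hm
  have h2p : 0 < ‖(2 : K)‖ := norm_pos_iff.mpr h20
  have hz : IsPrimitiveRoot (τ ζ) (2 ^ (m + 1)) := prim_of_half (map_half H τ) h20
  have hl := H.norm_lam_lt h2 τ
  have hl0 := H.norm_lam_pos h20 τ
  choose b r hr hb using fun i : ZMod (2 ^ (m + 1)) =>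
    um_idem h20 (eta_frob ψ hp2 hφ2 (ex (τ ζ) i))
  have hG : ∀ c : ℕ, gaussSum (φ ^ c) ψ = ∑ i : ZMod (2 ^ (m + 1)), (ex (τ ζ) i) ^ c * (b i : K) +
      2 * ∑ i : ZMod (2 ^ (m + 1)), (ex (τ ζ) i) ^ c * r i := by
    intro c
    rw [gauss_eta hz hφ ψ c, Finset.mul_sum, ← Finset.sum_add_distrib]
    refine Finset.sum_congr rfl fun i _ => ?_
    conv_lhs => rw [hb i]
    ring
  obtain ⟨σ, hσ⟩ := H.lift O (ζ ^ a) (by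
    rw [Nat.add_sub_cancel, ← pow_mul, mul_comm, pow_mul, H.pow_half, ha.neg_one_pow])
  -- inverse of `ζ ^ j`
  obtain ⟨j', hj'⟩ : ∃ j' : ℕ, ζ ^ j * ζ ^ j' = 1 := by
    refine ⟨j * (2 ^ (m + 1) - 1), ?_⟩
    rw [← pow_add]
    have h3 : j + j * (2 ^ (m + 1) - 1) = 2 ^ (m + 1) * j := by
      have h4 : 1 ≤ 2 ^ (m + 1) := Nat.one_le_two_pow
      obtain ⟨q, hq⟩ : ∃ q, 2 ^ (m + 1) = q + 1 := ⟨2 ^ (m + 1) - 1, by omega⟩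
      rw [hq, Nat.add_sub_cancel]
      ring
    rw [h3, pow_mul, H.prim.pow_eq_one, one_pow]
  have hτj' : (τ ζ) ^ j * (τ ζ) ^ j' = 1 := by
    rw [← map_pow, ← map_pow, ← map_mul, hj', map_one]
  have hzj0 : (τ ζ) ^ j ≠ 0 := by
    intro h
    rw [h, zero_mul] at hτj'
    exact zero_ne_one hτj'
  set β : O := ∑ i : ZMod (2 ^ (m + 1)), (ex ζ i) * (b i : O) with hβ
  set Y : O := β * ζ ^ j' + 1 with hY
  have hτY : τ Y = (∑ i : ZMod (2 ^ (m + 1)), (ex (τ ζ) i) ^ 1 * (b i : K)) * (τ ζ) ^ j' + 1 := by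
    rw [hY, hβ, map_add, map_mul, map_sum, map_pow, map_one]
    congr 2
    refine Finset.sum_congr rfl fun i _ => ?_
    rw [map_mul, map_natCast, map_ex, pow_one]
  have hτσY : τ (σ Y) = (∑ i : ZMod (2 ^ (m + 1)), (ex (τ ζ) i) ^ a * (b i : K)) *
      ((τ ζ) ^ j') ^ a + 1 := by
    rw [hY, hβ, map_add, map_mul, map_sum, map_pow, hσ, map_one, map_add, map_mul, map_sum,
      map_one]
    congr 2
    · refine Finset.sum_congr rfl fun i _ => ?_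
      rw [map_mul, map_mul, map_natCast, map_natCast, map_ex, hσ]
      congr 1
      unfold ex
      rw [map_pow, map_pow, ← pow_mul, ← pow_mul, mul_comm]
    · rw [map_pow, map_pow, ← pow_mul, ← pow_mul, mul_comm]
  have hr1 : ∀ c : ℕ, ‖∑ i : ZMod (2 ^ (m + 1)), (ex (τ ζ) i) ^ c * r i‖ ≤ 1 := by
    intro c
    apply um_sum_le _ zero_le_one
    intro i _
    unfold ex
    rw [norm_mul, norm_pow, norm_pow, H.norm_z τ, one_pow, one_pow, one_mul]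
    exact hr i
  have hG1 := hG 1
  rw [pow_one] at hG1
  have e1 : τ Y = -((-gaussSum φ ψ - (τ ζ) ^ j) * (τ ζ) ^ j') -
      2 * ((∑ i : ZMod (2 ^ (m + 1)), (ex (τ ζ) i) ^ 1 * r i) * (τ ζ) ^ j') := by
    rw [hτY, hG1]
    linear_combination -hτj'
  have hn1 : ‖(τ ζ) ^ j'‖ = 1 := by rw [norm_pow, H.norm_z τ, one_pow]
  have e2 : ‖τ Y‖ ≤ ‖τ (1 - ζ)‖ ^ (2 ^ m - 2) := by
    have hl2 : 0 < ‖τ (1 - ζ)‖ ^ 2 := by positivity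
    have h3 : ‖(2 : K)‖ = ‖τ (1 - ζ)‖ ^ (2 ^ m - 2) * ‖τ (1 - ζ)‖ ^ 2 := by
      rw [← pow_add, Nat.sub_add_cancel hM]
      exact H.norm_two_eq τ
    rw [e1]
    apply um_sub_le
    · rw [norm_neg, norm_mul, hn1, mul_one]
      rw [h3] at hj
      exact le_of_mul_le_mul_right hj hl2
    · rw [norm_mul, norm_mul, hn1, mul_one, h3]
      have h4 := hr1 1
      have h5 : 0 ≤ ‖τ (1 - ζ)‖ ^ (2 ^ m - 2) := by positivity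
      have h6 : ‖τ (1 - ζ)‖ ^ 2 ≤ 1 := pow_le_one₀ hl0.le hl.le
      calc ‖τ (1 - ζ)‖ ^ (2 ^ m - 2) * ‖τ (1 - ζ)‖ ^ 2 *
          ‖∑ i : ZMod (2 ^ (m + 1)), (ex (τ ζ) i) ^ 1 * r i‖
          ≤ ‖τ (1 - ζ)‖ ^ (2 ^ m - 2) * 1 * 1 := by gcongr
        _ = _ := by ring
  have hYd := H.lam_pow_dvd h2 h20 τ _ Y e2
  have hσY := H.sigma4 hm hσ hYd
  have e4 : ‖τ (σ Y) - τ Y‖ < ‖(2 : K)‖ := by
    obtain ⟨c, hc⟩ := hσY
    rw [← map_sub, hc, map_mul, map_pow, norm_mul, norm_pow, H.norm_two_eq τ]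
    have h4 : 2 ^ m - 2 + 3 = 2 ^ m + 1 := by omega
    rw [h4, pow_succ]
    have h5 := H.norm_le τ c
    have h6 : 0 < ‖τ (1 - ζ)‖ ^ (2 ^ m) := by positivity
    calc ‖τ (1 - ζ)‖ ^ (2 ^ m) * ‖τ (1 - ζ)‖ * ‖τ c‖
        ≤ ‖τ (1 - ζ)‖ ^ (2 ^ m) * ‖τ (1 - ζ)‖ * 1 := by gcongr
      _ < ‖τ (1 - ζ)‖ ^ (2 ^ m) * 1 * 1 := by gcongr
      _ = _ := by ring
  have e5 : ‖∑ i : ZMod (2 ^ (m + 1)), ((ex (τ ζ) i) ^ a * ((τ ζ) ^ j') ^ a -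
      (ex (τ ζ) i) ^ 1 * (τ ζ) ^ j') * r i‖ < 1 := by
    apply um_sum_lt _ one_pos
    intro i _
    rw [norm_mul]
    have h5 : (ex (τ ζ) i) ^ a * ((τ ζ) ^ j') ^ a - (ex (τ ζ) i) ^ 1 * (τ ζ) ^ j' =
        τ (σ (ex ζ i * ζ ^ j') - ex ζ i * ζ ^ j') := by
      rw [map_sub, map_mul σ, map_ex, hσ, map_mul, map_mul, map_ex, map_ex, map_pow, pow_one,
        map_pow σ, hσ, map_pow, map_pow, map_pow]
      congr 2
      · unfold ex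
        rw [← pow_mul, ← pow_mul, mul_comm]
      · rw [← pow_mul, ← pow_mul, mul_comm]
    rw [h5]
    have h6 := H.norm_lt_of_dvd h2 τ (H.sigma_sub ha.pos hσ (ex ζ i * ζ ^ j'))
    have h7 := hr i
    have h8 := norm_nonneg (r i)
    have h9 := norm_nonneg (τ (σ (ex ζ i * ζ ^ j') - ex ζ i * ζ ^ j'))
    nlinarith
  have e7 : ∀ g : K, g / (τ ζ) ^ j = g * (τ ζ) ^ j' := by
    intro g
    rw [div_eq_iff hzj0, mul_assoc, mul_comm ((τ ζ) ^ j'), hτj', mul_one]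
  have e8 : ∀ g : K, g / ((τ ζ) ^ j) ^ a = g * ((τ ζ) ^ j') ^ a := by
    intro g
    rw [div_eq_iff (pow_ne_zero a hzj0), mul_assoc, ← mul_pow, mul_comm ((τ ζ) ^ j'), hτj',
      one_pow, mul_one]
  have e6 : -gaussSum (φ ^ a) ψ / ((τ ζ) ^ j) ^ a - (-gaussSum φ ψ / (τ ζ) ^ j) =
      -(τ (σ Y) - τ Y) - 2 * ∑ i : ZMod (2 ^ (m + 1)), ((ex (τ ζ) i) ^ a * ((τ ζ) ^ j') ^ a -
      (ex (τ ζ) i) ^ 1 * (τ ζ) ^ j') * r i := by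
    have e9 : ∑ i : ZMod (2 ^ (m + 1)), ((ex (τ ζ) i) ^ a * ((τ ζ) ^ j') ^ a -
      (ex (τ ζ) i) ^ 1 * (τ ζ) ^ j') * r i =
      (∑ i : ZMod (2 ^ (m + 1)), (ex (τ ζ) i) ^ a * r i) * ((τ ζ) ^ j') ^ a -
      (∑ i : ZMod (2 ^ (m + 1)), (ex (τ ζ) i) ^ 1 * r i) * (τ ζ) ^ j' := by
      rw [Finset.sum_mul, Finset.sum_mul, ← Finset.sum_sub_distrib]
      refine Finset.sum_congr rfl fun i _ => ?_
      ring
    rw [e9, e7, e8, hτσY, hτY, hG a, hG1]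
    ring
  rw [e6]
  apply um_sub_lt
  · rwa [norm_neg]
  · rw [norm_mul]
    nlinarith

end

end Pool.Agent.Y875.FP
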