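import Pool.Agent.Y875.FP.Per

/-!
The Jacobi sum `J(φ, φ)` modulo twice the maximal ideal.
-/

open Polynomial

namespace Pool.Agent.Y875.FP

lemma sum_zmod_range {A : Type} [AddCommMonoid A] {p : ℕ} [NeZero p] (f : ZMod p → A) :
    ∑ v : ZMod p, f v = ∑ k ∈ Finset.range p, f (k : ZMod p) := by
  refine Finset.sum_bij (fun i _ => i.val) ?_ ?_ ?_ ?_
  · intro i _
    exact Finset.mem_range.mpr (ZMod.val_lt i)
  · intro i _ j _ h
    exact ZMod.val_injective _ h
  · intro k hk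
    exact ⟨(k : ZMod p), Finset.mem_univ _, by
      rw [ZMod.val_natCast, Nat.mod_eq_of_lt (Finset.mem_range.mp hk)]⟩
  · intro i _
    rw [ZMod.natCast_zmod_val]

lemma sum_even_fun {A : Type} [CommRing A] {p r : ℕ} (hp : p = 2 * r + 1)
    (g : ZMod p → A) (hg : ∀ v, g (-v) = g v) :
    ∑ k ∈ Finset.range p, g (k : ZMod p) =
      g 0 + 2 * ∑ k ∈ Finset.range r, g ((k + 1 : ℕ) : ZMod p) := by
  have h1 : ∑ k ∈ Finset.range p, g (k : ZMod p) =
      ∑ k ∈ Finset.range (2 * r + 1), g (k : ZMod p) := by rw [← hp]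
  rw [h1, Finset.sum_range_succ', Nat.cast_zero, two_mul r, Finset.sum_range_add]
  have h2 : ∑ k ∈ Finset.range r, g ((r + k + 1 : ℕ) : ZMod p) =
      ∑ k ∈ Finset.range r, g ((k + 1 : ℕ) : ZMod p) := by
    rw [← Finset.sum_range_reflect]
    refine Finset.sum_congr rfl fun k hk => ?_
    have hk' := Finset.mem_range.mp hk
    have h3 : ((r + (r - 1 - k) + 1 : ℕ) : ZMod p) = -((k + 1 : ℕ) : ZMod p) := by
      rw [eq_neg_iff_add_eq_zero, ← Nat.cast_add]
      have h4 : r + (r - 1 - k) + 1 + (k + 1) = p := by omega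
      rw [h4, ZMod.natCast_self]
    rw [h3, hg]
  rw [h2]
  ring

section

variable {K : Type} [NormedField K] [IsUltrametricDist K] (h2 : ‖(2 : K)‖ < 1)
  (h20 : (2 : K) ≠ 0) {p : ℕ} [hpp : Fact p.Prime] {φ : MulChar (ZMod p) K}

include h2 h20 in
lemma jac_self (hφ1 : ∀ u, u ≠ 0 → ‖φ u - 1‖ < 1) {r : ℕ} (hpr : p = 2 * r + 1) (hr : Even r)
    (hφ2 : φ 2 = 1) : ‖jacobiSum φ φ + 1‖ < ‖(2 : K)‖ := by
  have h2p : 0 < ‖(2 : K)‖ := norm_pos_iff.mpr h20
  have h2z : (2 : ZMod p) ≠ 0 := by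
    intro h
    have h3 : ((2 : ℕ) : ZMod p) = 0 := by exact_mod_cast h
    rw [ZMod.natCast_eq_zero_iff] at h3
    have := (Nat.prime_dvd_prime_iff_eq hpp.out Nat.prime_two).mp h3
    omega
  have hr2 : 2 ≤ r := by
    obtain ⟨s, rfl⟩ := hr
    rcases Nat.eq_zero_or_pos s with h | h
    · exfalso
      subst h
      exact hpp.out.ne_one (by omega)
    · omega
  have hinv : φ (2⁻¹ : ZMod p) = 1 := by
    have h3 : φ (2 * 2⁻¹ : ZMod p) = 1 := by rw [mul_inv_cancel₀ h2z, map_one]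
    rwa [map_mul, hφ2, one_mul] at h3
  have h1 : jacobiSum φ φ = ∑ v : ZMod p, φ (1 - v ^ 2) := by
    unfold jacobiSum
    symm
    refine Finset.sum_equiv ((Equiv.addLeft 1).trans (Equiv.mulRight₀ (2⁻¹ : ZMod p)
      (inv_ne_zero h2z))) (by simp) ?_
    intro v _
    simp only [Equiv.trans_apply, Equiv.coe_addLeft, Equiv.mulRight₀_apply]
    have h4 : (1 : ZMod p) - (1 + v) * 2⁻¹ = (1 - v) * 2⁻¹ := by
      field_simp
      ring
    rw [h4, map_mul, map_mul, hinv, mul_one, mul_one, ← map_mul]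
    congr 1
    ring
  rw [h1, sum_zmod_range, sum_even_fun hpr (fun v => φ (1 - v ^ 2)) (fun v => by
    simp only [neg_sq])]
  simp only [ne_eq, OfNat.ofNat_ne_zero, not_false_eq_true, zero_pow, sub_zero, map_one]
  obtain ⟨s, rfl⟩ : ∃ s, r = s + 1 := ⟨r - 1, by omega⟩
  rw [Finset.sum_range_succ']
  simp only [zero_add, Nat.cast_one, one_pow, sub_self, MulChar.map_zero, add_zero]
  have h3 : (1 : K) + 2 * ∑ k ∈ Finset.range s, φ (1 - ((k + 1 + 1 : ℕ) : ZMod p) ^ 2) + 1 =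
      2 * (∑ k ∈ Finset.range s, (φ (1 - ((k + 1 + 1 : ℕ) : ZMod p) ^ 2) - 1) +
        ((s + 1 : ℕ) : K)) := by
    rw [Finset.sum_sub_distrib]
    simp
    ring
  rw [h3, norm_mul]
  have h4 : ‖∑ k ∈ Finset.range s, (φ (1 - ((k + 1 + 1 : ℕ) : ZMod p) ^ 2) - 1) +
        ((s + 1 : ℕ) : K)‖ < 1 := by
    apply um_add_lt _ (um_even h2 hr)
    apply um_sum_lt _ one_pos
    intro k hk
    have hk' := Finset.mem_range.mp hk
    apply hφ1
    intro h5
    have h6 : (((k + 1 : ℕ) * (k + 3 : ℕ) : ℕ) : ZMod p) = 0 := by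
      push_cast
      push_cast at h5
      linear_combination -h5
    rw [ZMod.natCast_eq_zero_iff, hpp.out.dvd_mul] at h6
    rcases h6 with h7 | h7
    · have := Nat.le_of_dvd (by omega) h7
      omega
    · have := Nat.le_of_dvd (by omega) h7
      omega
  nlinarith

end

end Pool.Agent.Y875.FP
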